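import Pool.Agent.Helper80.AT.Main

/-! Powers of a family of words. -/

open scoped ENNReal NNReal
open MeasureTheory

namespace Pool.Agent.Helper80.AT

variable {F : Type} [Field F] {X : Places F} {N : ℕ} {Γ : Subgroup (GL (Fin N) F)}

lemma wordOp_append (L L' : List (Hecke X Γ)) (w : L2 Γ (Bundle X Γ)) :
    wordOp (L ++ L') w = wordOp L (wordOp L' w) := by
  unfold wordOp
  rw [List.map_append, List.prod_append]
  rfl

lemma wordOp_mem {W : Submodule ℂ (L2 Γ (Bundle X Γ))} (L : List (Hecke X Γ))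
    (hL : ∀ T ∈ L, Stable W T.op) {w : L2 Γ (Bundle X Γ)} (hw : w ∈ W) : wordOp L w ∈ W := by
  induction L with
  | nil => exact hw
  | cons T L ih =>
    unfold wordOp
    rw [List.map_cons, List.prod_cons]
    exact (hL T (by simp)).stable _ (ih fun q hq => hL q (by simp [hq]))

lemma pow_family {J : Type} [Fintype J] (L : J → List (Hecke X Γ)) (D : ℕ)
    (hD : ∀ j, wordSize (L j) ≤ D)
    (W : Submodule ℂ (L2 Γ (Bundle X Γ))) (hW : ∀ j, ∀ T ∈ L j, Stable W T.op) (A : ℝ)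
    (hlow : ∀ w ∈ W, A ^ 2 * ‖w‖ ^ 2 ≤ ∑ j, ‖wordOp (L j) w‖ ^ 2) (n : ℕ) :
    ∃ (J' : Type) (_ : Fintype J') (L' : J' → List (Hecke X Γ)),
      (∀ j, wordSize (L' j) ≤ n * D) ∧ (∀ j, ∀ T ∈ L' j, Stable W T.op) ∧
      (∀ w ∈ W, (A ^ n) ^ 2 * ‖w‖ ^ 2 ≤ ∑ j, ‖wordOp (L' j) w‖ ^ 2) ∧
      ∑ j, wordNorm (L' j) ^ 2 = (∑ j, wordNorm (L j) ^ 2) ^ n := by
  induction n with
  | zero =>
    refine ⟨Unit, inferInstance, fun _ => [], ?_, ?_, ?_, ?_⟩
    · intro j; simp [wordSize]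
    · intro j T hT; simp at hT
    · intro w _
      simp [wordOp]
    · simp [wordNorm]
  | succ n ih =>
    obtain ⟨J', hJ', L', h1, h2, h3, h4⟩ := ih
    refine ⟨J × J', inferInstance, fun p => L' p.2 ++ L p.1, ?_, ?_, ?_, ?_⟩
    · intro p
      have e1 := h1 p.2
      have e2 := hD p.1
      unfold wordSize at e1 e2 ⊢
      rw [List.map_append, List.sum_append]
      have e3 : (n + 1) * D = n * D + D := by ring
      omega
    · intro p T hT
      rcases List.mem_append.1 hT with h | h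
      · exact h2 p.2 T h
      · exact hW p.1 T h
    · intro w hw
      rw [Fintype.sum_prod_type]
      have e1 : ∀ j, (A ^ n) ^ 2 * ‖wordOp (L j) w‖ ^ 2 ≤
          ∑ j', ‖wordOp (L' j' ++ L j) w‖ ^ 2 := by
        intro j
        refine (h3 _ (wordOp_mem (L j) (hW j) hw)).trans (le_of_eq ?_)
        refine Finset.sum_congr rfl fun j' _ => ?_
        rw [wordOp_append]
      calc (A ^ (n + 1)) ^ 2 * ‖w‖ ^ 2 = (A ^ n) ^ 2 * (A ^ 2 * ‖w‖ ^ 2) := by ring
        _ ≤ (A ^ n) ^ 2 * ∑ j, ‖wordOp (L j) w‖ ^ 2 :=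
          mul_le_mul_of_nonneg_left (hlow w hw) (by positivity)
        _ = ∑ j, (A ^ n) ^ 2 * ‖wordOp (L j) w‖ ^ 2 := by rw [Finset.mul_sum]
        _ ≤ _ := Finset.sum_le_sum fun j _ => e1 j
    · rw [Fintype.sum_prod_type, pow_succ, ← h4, Finset.sum_mul_sum, Finset.sum_comm]
      refine Finset.sum_congr rfl fun j _ => Finset.sum_congr rfl fun j' _ => ?_
      unfold wordNorm
      rw [List.map_append, List.prod_append]
      ring

end Pool.Agent.Helper80.AT
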