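import Pool.Agent.Helper80.AT.Adj
import Pool.Agent.Helper80.AT.Pow

/-! The density theorem for spaces of functions. -/

open scoped ENNReal NNReal InnerProductSpace
open MeasureTheory

namespace Pool.Agent.Helper80.AT

section Abstract

variable {G Y : Type} [Group G] [MulAction G Y]

variable [hfin : ∀ P : Y, Finite (MulAction.stabilizer G P)]

lemma nsq_eq_tsum (f : Bun G Y → ℂ) : nsq f = ∑' b, ENNReal.ofReal (mass b * ‖f b‖ ^ 2) := by
  unfold nsq
  refine tsum_congr fun b => ?_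
  rw [ENNReal.ofReal_mul (mass_pos b).le, ENNReal.ofReal_pow (norm_nonneg _), ofReal_norm]

lemma nonneg_term (f : Bun G Y → ℂ) (b : Bun G Y) : 0 ≤ mass b * ‖f b‖ ^ 2 := by
  have := (mass_pos b).le
  positivity

lemma isL2_iff (f : Bun G Y → ℂ) : IsL2 f ↔ nsq f ≠ ∞ := by
  rw [nsq_eq_tsum]
  constructor
  · intro h
    rw [← ENNReal.ofReal_tsum_of_nonneg (nonneg_term f) h]
    exact ENNReal.ofReal_ne_top
  · intro h
    exact (ENNReal.summable_toReal h).congr fun b => ENNReal.toReal_ofReal (nonneg_term f b)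

lemma ofReal_nrm {f : Bun G Y → ℂ} (h : IsL2 f) : ENNReal.ofReal (nrm f) = nsq f := by
  rw [nsq_eq_tsum, ← ENNReal.ofReal_tsum_of_nonneg (nonneg_term f) h]
  rfl

lemma isL2_coe (u : L2 G Y) : IsL2 (u : Bun G Y → ℂ) := (isL2_iff _).2 (nsq_ne_top u)

lemma nrm_coe (u : L2 G Y) : nrm (u : Bun G Y → ℂ) = ‖u‖ ^ 2 := by
  have h1 := ofReal_nrm (isL2_coe u)
  rw [← norm_sq] at h1
  exact (ENNReal.ofReal_eq_ofReal_iff (tsum_nonneg fun b => nonneg_term _ b) (by positivity)).1 h1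

lemma IsL2.memLp {f : Bun G Y → ℂ} (h : IsL2 f) : MemLp f 2 (bunMeasure G Y) :=
  (memLp_iff f).2 ((isL2_iff f).1 h)

/-- the inclusion of L2 in the functions -/
noncomputable def coeLin : L2 G Y →ₗ[ℂ] (Bun G Y → ℂ) where
  toFun u := u
  map_add' u v := funext fun b => coe_add u v b
  map_smul' c u := funext fun b => coe_smul c u b

lemma coe_toLp' {f : Bun G Y → ℂ} (h : IsL2 f) : ((h.memLp.toLp f : L2 G Y) : Bun G Y → ℂ) = f :=
  funext fun b => coe_toLp f h.memLp b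

end Abstract

variable {F : Type} [Field F] {X : Places F} {N : ℕ} {Γ : Subgroup (GL (Fin N) F)}

lemma coe_op (T : Hecke X Γ) (u : L2 Γ (Bundle X Γ)) :
    (T.op u : Bun Γ (Bundle X Γ) → ℂ) = T.fnOp u :=
  funext fun b => Ker.op_apply (heckeKer T.fn) u b

lemma coe_adjoint (T : Hecke X Γ) (u : L2 Γ (Bundle X Γ)) :
    (ContinuousLinearMap.adjoint T.op u : Bun Γ (Bundle X Γ) → ℂ) = T.star.fnOp u := by
  unfold Hecke.op
  rw [adjoint_op]
  funext b
  rw [Ker.op_apply]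
  unfold Ker.fn Hecke.fnOp
  refine finsum_congr fun Q => ?_
  congr 1
  show starRingEnd ℂ (entry T.fn Q b.out) = entry T.fn.star b.out Q
  unfold entry
  have e : (∀ v, v ≠ T.x → Q.c v = b.out.c v) ↔ ∀ v, v ≠ T.x → b.out.c v = Q.c v :=
    ⟨fun h v hv => (h v hv).symm, fun h v hv => (h v hv).symm⟩
  by_cases h : ∀ v, v ≠ T.x → b.out.c v = Q.c v
  · rw [if_pos h, if_pos (e.2 h)]
    show _ = starRingEnd ℂ (T.fn.h (((b.out.c T.x).out)⁻¹ * (Q.c T.x).out)⁻¹)
    rw [mul_inv_rev, inv_inv]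
  · rw [if_neg h, if_neg fun h' => h (e.1 h'), map_zero]

lemma coe_word (L : List (Hecke X Γ)) (u : L2 Γ (Bundle X Γ)) :
    (wordOp L u : Bun Γ (Bundle X Γ) → ℂ) = wordFn L u := by
  induction L with
  | nil => rfl
  | cons T L ih =>
    have e2 : wordOp (T :: L) u = T.op (wordOp L u) := by
      unfold wordOp
      rw [List.map_cons, List.prod_cons]
      rfl
    rw [e2, coe_op, ih]
    rfl

section

variable (W : Submodule ℂ (Bun Γ (Bundle X Γ) → ℂ))

/-- the corresponding subspace of L2 -/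
noncomputable def up : Submodule ℂ (L2 Γ (Bundle X Γ)) := W.comap coeLin

lemma mem_up (u : L2 Γ (Bundle X Γ)) : u ∈ up W ↔ (u : Bun Γ (Bundle X Γ) → ℂ) ∈ W := Iff.rfl

variable (hsum : ∀ w ∈ W, IsL2 w)

include hsum in
lemma up_finrank : (FiniteDimensional ℂ (up W) → FiniteDimensional ℂ W) ∧
    Module.finrank ℂ (up W) = Module.finrank ℂ W := by
  let e : up W ≃ₗ[ℂ] W :=
    { toFun := fun u => ⟨(u.1 : Bun Γ (Bundle X Γ) → ℂ), u.2⟩
      map_add' := by
        intro u v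
        apply Subtype.ext
        exact funext fun b => coe_add _ _ b
      map_smul' := by
        intro c u
        apply Subtype.ext
        exact funext fun b => coe_smul _ _ b
      invFun := fun w => ⟨(hsum w.1 w.2).memLp.toLp w.1, by
        rw [mem_up, coe_toLp' (hsum w.1 w.2)]
        exact w.2⟩
      left_inv := by
        intro u
        apply Subtype.ext
        apply coe_eq
        intro b
        exact congrFun (coe_toLp' (hsum _ u.2)) b
      right_inv := by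
        intro w
        apply Subtype.ext
        exact coe_toLp' (hsum w.1 w.2) }
  exact ⟨fun _ => Module.Finite.equiv e, e.finrank_eq⟩

variable {J : Type} [Fintype J] (L : J → List (Hecke X Γ)) (D : ℕ) (hD : ∀ j, wordSize (L j) ≤ D)
    (hW : ∀ j, ∀ T ∈ L j, ∀ w ∈ W, T.fnOp w ∈ W ∧ T.star.fnOp w ∈ W) (A : ℝ) (hA : 0 < A)
    (hlow : ∀ w ∈ W, A ^ 2 * nrm w ≤ ∑ j, nrm (wordFn (L j) w)) (n : ℕ)

lemma autNum_zero (P : Bundle X Γ) :
    (autNum P 0 : ℝ) = Nat.card (MulAction.stabilizer Γ P) := by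
  congr 1
  unfold autNum
  rw [show Nat.card (MulAction.stabilizer Γ P) =
    ((MulAction.stabilizer Γ P : Subgroup Γ) : Set Γ).ncard from rfl]
  congr 1
  ext g
  constructor
  · intro hg
    have hg0 : X.dist (g • P) P = 0 := Nat.le_zero.1 hg
    show g • P = P
    apply Bundle.ext
    funext v
    apply d_eq_zero
    rw [dist_eq] at hg0
    by_contra hne
    have hv : v ∈ (ddiv X (g • P) P).support := Finsupp.mem_support_iff.2 hne
    have hle : X.deg v * ddiv X (g • P) P v ≤ ddeg X (ddiv X (g • P) P) := by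
      unfold ddeg Finsupp.sum
      exact Finset.single_le_sum (f := fun v => X.deg v * ddiv X (g • P) P v)
        (fun _ _ => Nat.zero_le _) hv
    rw [hg0] at hle
    have hpos : 0 < X.deg v * ddiv X (g • P) P v :=
      Nat.mul_pos (X.deg_pos v) (Nat.pos_of_ne_zero hne)
    omega
  · intro hg
    have hg1 : g • P = P := hg
    show X.dist (g • P) P ≤ 0
    rw [hg1, dist_self]

include hsum hD hW hA hlow in
theorem fn_main :
    (∀ (P₀ : Bundle X Γ) (R : ℕ) (S : Finset (Bun Γ (Bundle X Γ))),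
      (∀ b ∈ S, ∃ Q, X.dist P₀ Q ≤ R ∧ cls Γ (Bundle X Γ) Q = b) → ∀ w ∈ W,
        ∑ b ∈ S, mass b * ‖w b‖ ^ 2 ≤
          autNum P₀ (2 * (R + n * D)) / autNum P₀ 0 *
            ((∑ j, wordNorm (L j) ^ 2) / A ^ 2) ^ n * nrm w) ∧
    (∀ R : ℕ, (∀ f : F, X.poles f ≤ 2 * (R + n * D) → ∀ v, X.pole v f = 0) →
      ∀ S : Finset (Bun Γ (Bundle X Γ)),
      (∀ b ∈ S, ∃ Q, X.dist (triv X Γ) Q ≤ R ∧ cls Γ (Bundle X Γ) Q = b) → ∀ w ∈ W,
        ∑ b ∈ S, mass b * ‖w b‖ ^ 2 ≤ ((∑ j, wordNorm (L j) ^ 2) / A ^ 2) ^ n * nrm w) ∧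
    (∀ S : Finset (Bun Γ (Bundle X Γ)), (∀ w ∈ W, ∀ b, b ∉ S → w b = 0) →
      FiniteDimensional ℂ W ∧ (Module.finrank ℂ W : ℝ) ≤
        ((∑ j, wordNorm (L j) ^ 2) / A ^ 2) ^ n * ∑ b ∈ S, autNum b.out (2 * (n * D)) * mass b) := by
  have hst : ∀ j, ∀ T ∈ L j, Stable (up W) T.op := by
    intro j T hT
    constructor
    · intro u hu
      rw [mem_up, coe_op]
      exact (hW j T hT _ hu).1
    · intro u hu
      rw [mem_up, coe_adjoint]
      exact (hW j T hT _ hu).2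
  have hlow' : ∀ u ∈ up W, A ^ 2 * ‖u‖ ^ 2 ≤ ∑ j, ‖wordOp (L j) u‖ ^ 2 := by
    intro u hu
    have h : A ^ 2 * nrm (u : Bun Γ (Bundle X Γ) → ℂ) ≤
      ∑ j, nrm (wordFn (L j) (u : Bun Γ (Bundle X Γ) → ℂ)) := hlow _ hu
    rw [nrm_coe] at h
    refine h.trans (le_of_eq ?_)
    refine Finset.sum_congr rfl fun j _ => ?_
    rw [← coe_word, nrm_coe]
  obtain ⟨J', hJ', L', h1, h2, h3, h4⟩ := pow_family L D hD (up W) hst A hlow' n
  have hAn : 0 < A ^ n := pow_pos hA n
  have hpow : ∀ s : ℝ, (s / A ^ 2) ^ n = s ^ n / (A ^ n) ^ 2 := by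
    intro s
    rw [div_pow, ← pow_mul, ← pow_mul, mul_comm]
  rw [hpow]
  refine ⟨?_, ?_, ?_⟩
  · intro P₀ R S hS w hw
    have hwl := hsum w hw
    set u : L2 Γ (Bundle X Γ) := hwl.memLp.toLp w with hu
    have hcoe : (u : Bun Γ (Bundle X Γ) → ℂ) = w := coe_toLp' hwl
    have huW : u ∈ up W := by rw [mem_up, hcoe]; exact hw
    have h := main_one L' (n * D) h1 (up W) h2 (A ^ n) hAn.le h3 P₀ R S hS u huW
    rw [h4, ← nrm_coe, hcoe] at h
    rw [autNum_zero]
    have hs : (0 : ℝ) < Nat.card (MulAction.stabilizer Γ P₀) := by exact_mod_cast Nat.card_pos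
    rw [mul_comm] at h
    have h5 := (le_div_iff₀ (by positivity)).2 h
    refine h5.trans (le_of_eq ?_)
    field_simp
  · intro R hgon S hS w hw
    have hwl := hsum w hw
    set u : L2 Γ (Bundle X Γ) := hwl.memLp.toLp w with hu
    have hcoe : (u : Bun Γ (Bundle X Γ) → ℂ) = w := coe_toLp' hwl
    have huW : u ∈ up W := by rw [mem_up, hcoe]; exact hw
    have h := main_two L' (n * D) h1 (up W) h2 (A ^ n) hAn.le h3 R hgon S hS u huW
    rw [h4, ← nrm_coe, hcoe, mul_comm] at h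
    have h5 := (le_div_iff₀ (by positivity)).2 h
    refine h5.trans (le_of_eq ?_)
    field_simp
  · intro S hS
    have h := main_three L' (n * D) h1 (up W) h2 (A ^ n) hAn.le h3 S
      (fun u hu b hb => hS _ hu b hb) hAn
    obtain ⟨e1, e2⟩ := up_finrank W hsum
    refine ⟨e1 h.1, ?_⟩
    have h5 := h.2
    rw [h4, mul_comm, e2] at h5
    have h6 := (le_div_iff₀ (by positivity)).2 h5
    refine h6.trans (le_of_eq ?_)
    field_simp

end

end Pool.Agent.Helper80.AT
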