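import Pool.Agent.Helper80.AT.Defs

/-! L2 of the groupoid quotient of a set by a group with finite stabilisers, and the operators
given by invariant kernels. -/

open scoped ENNReal NNReal
open MeasureTheory

namespace Pool.Agent.Helper80.AT

variable (G Y : Type) [Group G] [MulAction G Y]

variable {G Y}

instance : MeasurableSpace (Bun G Y) := ⊤

variable (G Y) in
/-- The measure on the set of orbits in which every orbit has mass 1/|Stab|. -/
noncomputable def bunMeasure : Measure (Bun G Y) :=
  Measure.sum fun b => ENNReal.ofReal (mass b) • Measure.dirac b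

variable (G Y) in
/-- L2 of the set of orbits. -/
noncomputable abbrev L2 := Lp ℂ 2 (bunMeasure G Y)

variable [hfin : ∀ P : Y, Finite (MulAction.stabilizer G P)]

lemma mass_pos (b : Bun G Y) : 0 < mass b := by
  unfold mass
  have : 0 < Nat.card (MulAction.stabilizer G b.out) := Nat.card_pos
  positivity

lemma ofReal_mass_ne (b : Bun G Y) : ENNReal.ofReal (mass b) ≠ 0 := by
  simpa using mass_pos b

lemma ofReal_mass (b : Bun G Y) : ENNReal.ofReal (mass b) *
    (Nat.card (MulAction.stabilizer G b.out) : ℝ≥0∞) = 1 := by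
  have h : 0 < Nat.card (MulAction.stabilizer G b.out) := Nat.card_pos
  have h' : (0:ℝ) < Nat.card (MulAction.stabilizer G b.out) := by exact_mod_cast h
  unfold mass
  rw [ENNReal.ofReal_div_of_pos h', ENNReal.ofReal_one, ENNReal.ofReal_natCast, one_div]
  exact ENNReal.inv_mul_cancel (by exact_mod_cast h.ne') (by simp)

lemma ae_all (p : Bun G Y → Prop) : (∀ᵐ b ∂(bunMeasure G Y), p b) ↔ ∀ b, p b := by
  classical
  constructor
  · intro h b
    by_contra hb
    rw [ae_iff] at h
    have h2 : (bunMeasure G Y) {b} = 0 := by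
      refine measure_mono_null (t := {a | ¬ p a}) ?_ h
      intro x hx
      simp only [Set.mem_singleton_iff] at hx
      subst hx
      exact hb
    unfold bunMeasure at h2
    rw [Measure.sum_apply _ (by trivial)] at h2
    have h3 := (ENNReal.tsum_eq_zero.1 h2) b
    simp only [Measure.smul_apply, smul_eq_mul, mul_eq_zero] at h3
    rcases h3 with h3 | h3
    · exact ofReal_mass_ne b h3
    · simp at h3
  · intro h
    exact Filter.Eventually.of_forall h

omit hfin in
/-- The squared norm as a sum. -/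
noncomputable def nsq (f : Bun G Y → ℂ) : ℝ≥0∞ := ∑' b, ENNReal.ofReal (mass b) * ‖f b‖ₑ ^ 2

omit hfin in
lemma aesm (f : Bun G Y → ℂ) : AEStronglyMeasurable f (bunMeasure G Y) := by
  have : Measurable f := measurable_from_top
  exact this.aestronglyMeasurable

omit hfin in
lemma eLpNorm_sq (f : Bun G Y → ℂ) : eLpNorm f 2 (bunMeasure G Y) ^ 2 = nsq f := by
  rw [eLpNorm_eq_lintegral_rpow_enorm_toReal (by norm_num) (by norm_num)]
  simp only [ENNReal.toReal_ofNat, ENNReal.rpow_ofNat, one_div]
  rw [← ENNReal.rpow_natCast, ← ENNReal.rpow_mul]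
  norm_num
  unfold bunMeasure nsq
  rw [lintegral_sum_measure]
  refine tsum_congr fun b => ?_
  rw [lintegral_smul_measure, lintegral_dirac]
  rfl

omit hfin in
lemma memLp_iff (f : Bun G Y → ℂ) : MemLp f 2 (bunMeasure G Y) ↔ nsq f ≠ ∞ := by
  constructor
  · intro h
    rw [← eLpNorm_sq]
    exact ENNReal.pow_ne_top h.2.ne
  · intro h
    refine ⟨aesm f, ?_⟩
    rw [← eLpNorm_sq] at h
    by_contra h'
    rw [not_lt, top_le_iff] at h'
    rw [h'] at h
    simp at h

omit hfin in
lemma norm_sq (f : L2 G Y) : ENNReal.ofReal (‖f‖ ^ 2) = nsq (f : Bun G Y → ℂ) := by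
  rw [← eLpNorm_sq, Lp.norm_def, ENNReal.ofReal_pow ENNReal.toReal_nonneg,
    ENNReal.ofReal_toReal (Lp.eLpNorm_ne_top f)]

omit hfin in
lemma nsq_ne_top (f : L2 G Y) : nsq (f : Bun G Y → ℂ) ≠ ∞ := by
  rw [← norm_sq]
  exact ENNReal.ofReal_ne_top

/-- Unfolding. -/
lemma unfolding (h : Y → ℝ≥0∞) : ∑' Q, h Q =
    ∑' b : Bun G Y, ENNReal.ofReal (mass b) * ∑' g : G, h (g • b.out) := by
  classical
  have e1 : ∑' Q, h Q = ∑' b : Bun G Y, ∑' y : MulAction.orbit G b.out, h y := by
    rw [← (MulAction.selfEquivSigmaOrbits G Y).symm.tsum_eq]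
    exact ENNReal.tsum_sigma (fun (b : Bun G Y) (y : MulAction.orbit G b.out) => h y)
  rw [e1]
  refine tsum_congr fun b => ?_
  let φ : G → MulAction.orbit G b.out := fun g => ⟨g • b.out, MulAction.mem_orbit _ g⟩
  have hφ : ∀ g, (φ g : Y) = g • b.out := fun g => rfl
  have e2 : ∑' g : G, h (g • b.out) =
      ∑' y : MulAction.orbit G b.out, ∑' g : {g : G // φ g = y}, h (g.1 • b.out) := by
    rw [← (Equiv.sigmaFiberEquiv φ).tsum_eq]
    exact ENNReal.tsum_sigma (fun (y : MulAction.orbit G b.out) (g : {g : G // φ g = y}) =>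
      h (g.1 • b.out))
  rw [e2, ← ENNReal.tsum_mul_left]
  refine tsum_congr fun y => ?_
  have e3 : ∀ g : {g : G // φ g = y}, h (g.1 • b.out) = h y := by
    intro g
    rw [← hφ, g.2]
  rw [tsum_congr e3]
  obtain ⟨g0, hg0⟩ := MulAction.mem_orbit_iff.1 y.2
  -- the fibre is a coset of the stabiliser
  let e : MulAction.stabilizer G b.out ≃ {g : G // φ g = y} :=
    { toFun := fun s => ⟨g0 * s.1, by
        apply Subtype.ext
        rw [hφ, mul_smul, MulAction.mem_stabilizer_iff.1 s.2, hg0]⟩
      invFun := fun g => ⟨g0⁻¹ * g.1, by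
        rw [MulAction.mem_stabilizer_iff, mul_smul, ← hφ, g.2, ← hg0, inv_smul_smul]⟩
      left_inv := fun s => by simp
      right_inv := fun g => by simp }
  rw [← e.tsum_eq, ENNReal.tsum_const, ← mul_assoc]
  have : (ENat.card (MulAction.stabilizer G b.out) : ℝ≥0∞) =
      (Nat.card (MulAction.stabilizer G b.out) : ℝ≥0∞) := by
    rw [ENat.card_eq_coe_natCard]
    simp
  rw [this, ofReal_mass, one_mul]

end Pool.Agent.Helper80.AT
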