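import Mathlib

/-! The Hilbert space part. -/

open scoped ENNReal NNReal InnerProductSpace

namespace Pool.Agent.Helper80.AT

variable {H : Type*} [NormedAddCommGroup H] [InnerProductSpace ℂ H] [CompleteSpace H]

/-- W is stable under T and its adjoint. -/
structure Stable (W : Submodule ℂ H) (T : H →L[ℂ] H) : Prop where
  stable : ∀ w ∈ W, T w ∈ W
  adj : ∀ w ∈ W, ContinuousLinearMap.adjoint T w ∈ W

lemma Stable.clos {W : Submodule ℂ H} {T : H →L[ℂ] H} (h : Stable W T) :
    Stable W.topologicalClosure T := by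
  refine ⟨?_, ?_⟩
  · intro w hw
    have hw' : w ∈ closure (W : Set H) := hw
    have : Set.MapsTo T (W : Set H) (W : Set H) := fun w hw => h.stable w hw
    exact (this.closure T.continuous) hw'
  · intro w hw
    have hw' : w ∈ closure (W : Set H) := hw
    have : Set.MapsTo (ContinuousLinearMap.adjoint T) (W : Set H) (W : Set H) :=
      fun w hw => h.adj w hw
    exact (this.closure (ContinuousLinearMap.adjoint T).continuous) hw'

lemma Stable.comm {W : Submodule ℂ H} [W.HasOrthogonalProjection] {T : H →L[ℂ] H}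
    (h : Stable W T) (u : H) : W.starProjection (T u) = T (W.starProjection u) := by
  refine Submodule.eq_starProjection_of_mem_of_inner_eq_zero (K := W) ?_ ?_
  · exact h.stable _ (W.starProjection_apply_mem u)
  · intro w hw
    rw [← map_sub, ← ContinuousLinearMap.adjoint_inner_right]
    have h1 := W.sub_starProjection_mem_orthogonal u
    exact (Submodule.mem_orthogonal' _ _).1 h1 _ (h.adj w hw)

/-- The product of a list of operators: the empty product is the identity,
the product of T :: Ts is T composed with the product of Ts. -/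
noncomputable def word (Ts : List (H →L[ℂ] H)) : H →L[ℂ] H := Ts.prod

omit [CompleteSpace H] in
lemma word_nil (u : H) : word ([] : List (H →L[ℂ] H)) u = u := rfl

omit [CompleteSpace H] in
lemma word_cons (T : H →L[ℂ] H) (Ts : List (H →L[ℂ] H)) (u : H) :
    word (T :: Ts) u = T (word Ts u) := by
  simp [word]

lemma word_comm {W : Submodule ℂ H} [W.HasOrthogonalProjection] (L : List (H →L[ℂ] H))
    (hL : ∀ T ∈ L, Stable W T) (u : H) :
    W.starProjection (word L u) = word L (W.starProjection u) := by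
  induction L with
  | nil => rfl
  | cons T L ih =>
    rw [word_cons, word_cons, (hL T (by simp)).comm, ih fun q hq => hL q (by simp [hq])]

theorem hilb_main {J : Type} [Fintype J] {W : Submodule ℂ H} (L : J → List (H →L[ℂ] H))
    (hL : ∀ j, ∀ T ∈ L j, Stable W T) (A : ℝ) (hA : 0 ≤ A)
    (hlow : ∀ w ∈ W, A ^ 2 * ‖w‖ ^ 2 ≤ ∑ j, ‖word (L j) w‖ ^ 2) {w : H} (hw : w ∈ W) (u : H)
    (hu : ⟪w, u⟫_ℂ = (‖u‖ : ℂ) ^ 2) (c : ℝ) (hc : 0 ≤ c)
    (h : ∑ j, ‖word (L j) u‖ ^ 2 ≤ c ^ 2 * ‖u‖ ^ 2) :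
    A * ‖u‖ ≤ c * ‖w‖ := by
  set W' := W.topologicalClosure with hW'
  have : CompleteSpace W' := W.isClosed_topologicalClosure.completeSpace_coe
  have hL' : ∀ j, ∀ T ∈ L j, Stable W' T := fun j p hp => (hL j p hp).clos
  have hw' : w ∈ W' := W.le_topologicalClosure hw
  have hlow' : ∀ w ∈ W', A ^ 2 * ‖w‖ ^ 2 ≤ ∑ j, ‖word (L j) w‖ ^ 2 := by
    intro w hw
    have hw' : w ∈ closure (W : Set H) := hw
    have hc : IsClosed {w : H | A ^ 2 * ‖w‖ ^ 2 ≤ ∑ j, ‖word (L j) w‖ ^ 2} :=
      isClosed_le (by fun_prop) (by fun_prop)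
    exact closure_minimal (fun w hw => hlow w hw) hc hw'
  rcases eq_or_ne u 0 with h0 | h0
  · subst h0
    simp only [norm_zero, mul_zero]
    positivity
  have hpos : 0 < ‖u‖ := norm_pos_iff.2 h0
  have h1 : ⟪w, u⟫_ℂ = ⟪w, W'.starProjection u⟫_ℂ := by
    have h2 := W'.sub_starProjection_mem_orthogonal u
    have h3 := (Submodule.mem_orthogonal _ _).1 h2 _ hw'
    rw [inner_sub_right, sub_eq_zero] at h3
    exact h3
  have h2 : ‖u‖ ^ 2 ≤ ‖w‖ * ‖W'.starProjection u‖ := by
    have h3 : ‖⟪w, u⟫_ℂ‖ = ‖u‖ ^ 2 := by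
      rw [hu]
      simp
    rw [← h3, h1]
    exact norm_inner_le_norm _ _
  have h3 : A * ‖W'.starProjection u‖ ≤ c * ‖u‖ := by
    refine (pow_le_pow_iff_left₀ (by positivity) (by positivity) two_ne_zero).1 ?_
    rw [mul_pow, mul_pow]
    refine (hlow' _ (W'.starProjection_apply_mem u)).trans (le_trans ?_ h)
    refine Finset.sum_le_sum fun j _ => ?_
    rw [← word_comm _ (hL' j) u]
    have := W'.norm_starProjection_apply_le (word (L j) u)
    gcongr
  have h4 : (A * ‖u‖) * ‖u‖ ≤ (c * ‖w‖) * ‖u‖ := by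
    calc (A * ‖u‖) * ‖u‖ = A * ‖u‖ ^ 2 := by ring
      _ ≤ A * (‖w‖ * ‖W'.starProjection u‖) := mul_le_mul_of_nonneg_left h2 hA
      _ = ‖w‖ * (A * ‖W'.starProjection u‖) := by ring
      _ ≤ ‖w‖ * (c * ‖u‖) := mul_le_mul_of_nonneg_left h3 (norm_nonneg _)
      _ = _ := by ring
  exact le_of_mul_le_mul_right h4 hpos

end Pool.Agent.Helper80.AT
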