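import Pool.Agent.Helper80.AT.Per
import Pool.Agent.Helper80.AT.Hilb

/-! The abstract inequality. -/

open scoped ENNReal NNReal InnerProductSpace
open MeasureTheory

namespace Pool.Agent.Helper80.AT

variable {G Y : Type} [Group G] [MulAction G Y]
variable [hfin : ∀ P : Y, Finite (MulAction.stabilizer G P)]

/-- the restriction of a function in L2 to a finite set -/
noncomputable def cut (S : Finset (Bun G Y)) (w : L2 G Y) : L2 G Y := by
  classical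
  exact (show MemLp (fun b => if b ∈ S then (w : Bun G Y → ℂ) b else 0) 2 (bunMeasure G Y) by
    rw [memLp_iff]
    refine ne_top_of_le_ne_top (nsq_ne_top w) ?_
    unfold nsq
    refine ENNReal.tsum_le_tsum fun b => ?_
    gcongr
    show ‖(if b ∈ S then (w : Bun G Y → ℂ) b else 0)‖ₑ ≤ _
    split_ifs
    · exact le_rfl
    · simp).toLp _

lemma cut_apply (S : Finset (Bun G Y)) (w : L2 G Y) (b : Bun G Y) [Decidable (b ∈ S)] :
    cut S w b = if b ∈ S then w b else 0 := by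
  unfold cut
  rw [coe_toLp]
  congr

lemma cut_norm_sq (S : Finset (Bun G Y)) (w : L2 G Y) :
    ‖cut S w‖ ^ 2 = ∑ b ∈ S, mass b * ‖w b‖ ^ 2 := by
  classical
  have h1 : ENNReal.ofReal (‖cut S w‖ ^ 2) = ENNReal.ofReal (∑ b ∈ S, mass b * ‖w b‖ ^ 2) := by
    rw [norm_sq, ENNReal.ofReal_sum_of_nonneg]
    · unfold nsq
      rw [tsum_eq_sum (s := S)]
      · refine Finset.sum_congr rfl fun b hb => ?_
        rw [cut_apply, if_pos hb, ENNReal.ofReal_mul (mass_pos b).le, ENNReal.ofReal_pow (norm_nonneg _),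
          ofReal_norm]
      · intro b hb
        rw [cut_apply, if_neg hb]
        simp
    · intro b _
      have := (mass_pos b).le
      positivity
  have h2 : 0 ≤ ∑ b ∈ S, mass b * ‖w b‖ ^ 2 :=
    Finset.sum_nonneg fun b _ => by
      have := (mass_pos b).le
      positivity
  exact (ENNReal.ofReal_eq_ofReal_iff (by positivity) h2).1 h1

lemma cut_inner (S : Finset (Bun G Y)) (w : L2 G Y) :
    ⟪w, cut S w⟫_ℂ = (‖cut S w‖ : ℂ) ^ 2 := by
  classical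
  have h1 : ⟪w, cut S w⟫_ℂ = ⟪cut S w, cut S w⟫_ℂ := by
    rw [L2.inner_def, L2.inner_def]
    congr 1
    funext b
    rw [cut_apply]
    split_ifs <;> simp
  rw [h1, inner_self_eq_norm_sq_to_K]
  rfl

variable {ι : Type} (κ : ι → Ker G Y) (ρ : ι → ℝ≥0)

theorem abs_main {J : Type} [Fintype J] (L : J → List ι)
    (hρ : ∀ j, ∀ i ∈ L j, (κ i).NormLe (ρ i))
    (W : Submodule ℂ (L2 G Y)) (hW : ∀ j, ∀ i ∈ L j, Stable W (κ i).op) (A : ℝ) (hA : 0 ≤ A)
    (hlow : ∀ w ∈ W, A ^ 2 * ‖w‖ ^ 2 ≤ ∑ j, ‖word ((L j).map fun i => (κ i).op) w‖ ^ 2)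
    (B B' : Set Y) (hB : ∀ P, {g : G | g • P ∈ B}.Finite) (hB' : ∀ P, {g : G | g • P ∈ B'}.Finite)
    (M : ℕ) (hM : ∀ P, {g : G | g • P ∈ B'}.ncard ≤ M)
    (hsupp : ∀ j, ∀ v : Y → ℂ, (∀ Q, v Q ≠ 0 → Q ∈ B) → ∀ Q,
      actL ((L j).map κ) v Q ≠ 0 → Q ∈ B')
    (s : ℕ) (hs : ∀ Q ∈ B, s ≤ {g : G | g • Q ∈ B}.ncard)
    (S : Finset (Bun G Y)) (hS : ∀ b ∈ S, ∃ Q ∈ B, cls G Y Q = b) (w : L2 G Y) (hw : w ∈ W) :
    s * A ^ 2 * ∑ b ∈ S, mass b * ‖w b‖ ^ 2 ≤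
      M * (∑ j, (((L j).map ρ).prod : ℝ) ^ 2) * ‖w‖ ^ 2 := by
  classical
  rcases Nat.eq_zero_or_pos s with h0 | hspos
  · subst h0
    simp only [Nat.cast_zero, zero_mul]
    positivity
  have hspos' : (0:ℝ) < s := by exact_mod_cast hspos
  set u := cut S w with hu
  set v := lift G B (u : Bun G Y → ℂ) with hv
  have hvB : ∀ Q, v Q ≠ 0 → Q ∈ B := fun Q hQ => lift_ne hQ
  have hLF : LF G v := fun P => (hB P).subset fun g hg => hvB _ hg
  have huper : (u : Bun G Y → ℂ) = per G v := by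
    rw [hv, per_lift hB]
    intro b hb
    rw [hu, cut_apply] at hb
    by_cases hbS : b ∈ S
    · exact hS b hbS
    · rw [if_neg hbS] at hb
      exact absurd rfl hb
  have h3 := lift_sq_le hB (u : Bun G Y → ℂ) s hs
  have h5 : ∀ j, s * ‖opL ((L j).map κ) u‖ ^ 2 ≤ M * (((L j).map ρ).prod : ℝ) ^ 2 * ‖u‖ ^ 2 := by
    intro j
    obtain ⟨hLF', hop⟩ := chain ((L j).map κ) v hLF u huper
    have hsupp' : ∀ P, {g : G | actL ((L j).map κ) v (g • P) ≠ 0} ⊆ {g : G | g • P ∈ B'} :=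
      fun P g hg => hsupp j v hvB _ hg
    have h1 : nsq (opL ((L j).map κ) u : Bun G Y → ℂ) ≤
        M * ∑' Q, ‖actL ((L j).map κ) v Q‖ₑ ^ 2 := by
      rw [hop]
      exact nsq_per_le hLF' M fun P => (Set.ncard_le_ncard (hsupp' P) (hB' P)).trans (hM P)
    have h2 : ∑' Q, ‖actL ((L j).map κ) v Q‖ₑ ^ 2 ≤
        ((((L j).map ρ).prod : ℝ≥0) : ℝ≥0∞) ^ 2 * ∑' Q, ‖v Q‖ₑ ^ 2 := by
      have := actL_sq ((L j).map fun i => (κ i, ρ i)) (by
        intro p hp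
        obtain ⟨i, hi, rfl⟩ := List.mem_map.1 hp
        exact hρ j i hi) v
      simpa [List.map_map, Function.comp_def] using this
    have h4 : (s : ℝ≥0∞) * nsq (opL ((L j).map κ) u : Bun G Y → ℂ) ≤
        M * ((((L j).map ρ).prod : ℝ≥0) : ℝ≥0∞) ^ 2 * nsq (u : Bun G Y → ℂ) := by
      calc (s : ℝ≥0∞) * nsq (opL ((L j).map κ) u : Bun G Y → ℂ)
          ≤ s * (M * (((((L j).map ρ).prod : ℝ≥0) : ℝ≥0∞) ^ 2 * ∑' Q, ‖v Q‖ₑ ^ 2)) := by
            gcongr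
            exact h1.trans (by gcongr)
        _ = M * ((((L j).map ρ).prod : ℝ≥0) : ℝ≥0∞) ^ 2 * (s * ∑' Q, ‖v Q‖ₑ ^ 2) := by ring
        _ ≤ _ := by gcongr
    rw [← norm_sq, ← norm_sq] at h4
    have e1 : (s : ℝ≥0∞) = ENNReal.ofReal s := by simp
    have e2 : (M : ℝ≥0∞) = ENNReal.ofReal M := by simp
    have e3 : ((((L j).map ρ).prod : ℝ≥0) : ℝ≥0∞) ^ 2 =
        ENNReal.ofReal ((((L j).map ρ).prod : ℝ) ^ 2) := by
      rw [ENNReal.ofReal_pow (by positivity)]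
      simp
    rw [e1, e2, e3, ← ENNReal.ofReal_mul (by positivity), ← ENNReal.ofReal_mul (by positivity),
      ← ENNReal.ofReal_mul (by positivity)] at h4
    exact (ENNReal.ofReal_le_ofReal_iff (by positivity)).1 h4
  set R2 : ℝ := ∑ j, (((L j).map ρ).prod : ℝ) ^ 2 with hR2
  have hR2' : 0 ≤ R2 := Finset.sum_nonneg fun j _ => by positivity
  set c := Real.sqrt (M * R2 / s) with hc
  have hc2 : c ^ 2 = M * R2 / s := by
    rw [hc, Real.sq_sqrt (by positivity)]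
  have h6 : ∑ j, ‖word ((L j).map fun i => (κ i).op) u‖ ^ 2 ≤ c ^ 2 * ‖u‖ ^ 2 := by
    rw [hc2, div_mul_eq_mul_div, le_div_iff₀ hspos', hR2, Finset.mul_sum, Finset.sum_mul,
      Finset.sum_mul]
    refine Finset.sum_le_sum fun j _ => ?_
    rw [mul_comm]
    have := h5 j
    unfold opL at this
    rw [List.map_map] at this
    exact this
  have h7 := hilb_main (W := W) (fun j => (L j).map fun i => (κ i).op) (by
      intro j p hp
      obtain ⟨i, hi, rfl⟩ := List.mem_map.1 hp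
      exact hW j i hi) A hA hlow hw u (cut_inner S w) c (Real.sqrt_nonneg _) h6
  have h8 : (A * ‖u‖) ^ 2 ≤ (c * ‖w‖) ^ 2 :=
    pow_le_pow_left₀ (by positivity) h7 2
  rw [mul_pow, mul_pow, hc2, cut_norm_sq] at h8
  have h9 := mul_le_mul_of_nonneg_left h8 hspos'.le
  calc s * A ^ 2 * ∑ b ∈ S, mass b * ‖w b‖ ^ 2
      = s * (A ^ 2 * ∑ b ∈ S, mass b * ‖w b‖ ^ 2) := by ring
    _ ≤ s * (M * R2 / s * ‖w‖ ^ 2) := h9
    _ = _ := by
      field_simp

end Pool.Agent.Helper80.AT
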