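import Pool.Agent.Helper80.AT.Iso

/-! The adjoint of an operator given by a kernel. -/

open scoped ENNReal NNReal InnerProductSpace
open MeasureTheory

namespace Pool.Agent.Helper80.AT

variable {G Y : Type} [Group G] [MulAction G Y]

/-- The adjoint kernel. -/
noncomputable def Ker.star (K : Ker G Y) : Ker G Y where
  k P Q := starRingEnd ℂ (K.k Q P)
  smul g P Q := by rw [K.smul]
  finrow P := by
    refine (K.fincol P).subset ?_
    intro Q hQ h
    exact hQ (by rw [h, map_zero])
  fincol Q := by
    refine (K.finrow Q).subset ?_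
    intro P hP h
    exact hP (by rw [h, map_zero])
  C := K.C
  row P := by
    refine le_trans (le_of_eq ?_) (K.col P)
    refine tsum_congr fun Q => ?_
    rw [enorm_eq_nnnorm, enorm_eq_nnnorm, RCLike.nnnorm_conj]
  col Q := by
    refine le_trans (le_of_eq ?_) (K.row Q)
    refine tsum_congr fun P => ?_
    rw [enorm_eq_nnnorm, enorm_eq_nnnorm, RCLike.nnnorm_conj]

variable [hfin : ∀ P : Y, Finite (MulAction.stabilizer G P)]

lemma delta_norm_sq' (P : Y) : ‖delta G P‖ ^ 2 = mass (cls G Y P) := by
  classical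
  have h : cut {cls G Y P} (delta G P) = delta G P := by
    apply coe_eq
    intro b
    rw [cut_apply]
    split_ifs with hb
    · rfl
    · rw [delta_apply]
      unfold deltaFn
      rw [if_neg (by simpa using hb)]
  rw [← h, cut_norm_sq, Finset.sum_singleton, delta_apply]
  unfold deltaFn
  rw [if_pos rfl]
  simp

lemma inner_delta' (P : Y) (u : L2 G Y) :
    ⟪delta G P, u⟫_ℂ = mass (cls G Y P) * u (cls G Y P) := by
  classical
  set b₀ := cls G Y P with hb₀
  have h1 : ⟪delta G P, u⟫_ℂ = ⟪delta G P, u b₀ • delta G P⟫_ℂ := by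
    rw [L2.inner_def, L2.inner_def]
    congr 1
    funext b
    rw [coe_smul, delta_apply]
    unfold deltaFn
    by_cases hb : b = cls G Y P
    · rw [if_pos hb, hb, mul_one]
    · rw [if_neg hb]
      simp
  rw [h1, inner_smul_right, inner_self_eq_norm_sq_to_K]
  have h2 := delta_norm_sq' (G := G) P
  have h3 : ((‖delta G P‖ : ℝ) : ℂ) ^ 2 = ((mass b₀ : ℝ) : ℂ) := by
    rw [hb₀, ← h2]
    push_cast
    rfl
  show u b₀ * ((‖delta G P‖ : ℝ) : ℂ) ^ 2 = _
  rw [h3, mul_comm]

lemma fn_delta (K : Ker G Y) (P P' : Y) :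
    K.fn (deltaFn P) (cls G Y P') * Nat.card (MulAction.stabilizer G P) =
      ∑ᶠ g : G, K.k (g • P') P := by
  classical
  have hLF : LF G (pt P : Y → ℂ) := by
    intro Q
    by_cases h : ∃ g₀ : G, g₀ • Q = P
    · obtain ⟨g₀, hg₀⟩ := h
      have hSf : ((MulAction.stabilizer G P : Subgroup G) : Set G).Finite :=
        Set.finite_coe_iff.1 (inferInstanceAs (Finite (MulAction.stabilizer G P)))
      refine (hSf.image (fun g => g * g₀)).subset ?_
      intro g hg
      have hg' : g • Q = P := by
        by_contra hne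
        apply hg
        unfold pt
        rw [if_neg hne]
      refine ⟨g * g₀⁻¹, ?_, by simp⟩
      show (g * g₀⁻¹) • P = P
      rw [mul_smul, ← hg₀, inv_smul_smul, hg', hg₀]
    · have : {g : G | pt P (g • Q) ≠ 0} = ∅ := by
        ext g
        simp only [Set.mem_ofPred_eq, ne_eq, Set.mem_empty_iff_false, iff_false, not_not]
        unfold pt
        rw [if_neg fun hg => h ⟨g, hg⟩]
      rw [this]
      exact Set.finite_empty
  have h1 := congrFun (per_act hLF K) (cls G Y P')
  have h2 : per G (pt P) = fun b => (Nat.card (MulAction.stabilizer G P) : ℂ) * deltaFn P b := by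
    funext b
    exact per_pt P b
  rw [h2, per_cls] at h1
  have h3 : K.fn (fun b => (Nat.card (MulAction.stabilizer G P) : ℂ) * deltaFn P b) (cls G Y P') =
      K.fn (deltaFn P) (cls G Y P') * Nat.card (MulAction.stabilizer G P) := by
    rw [K.fn_eq, K.fn_eq, Finset.sum_mul]
    exact Finset.sum_congr rfl fun Q _ => by ring
  rw [← h3, h1]
  refine finsum_congr fun g => ?_
  unfold Ker.act
  rw [finsum_eq_single _ P]
  · unfold pt
    rw [if_pos rfl, mul_one]
  · intro Q hQ
    unfold pt
    rw [if_neg hQ, mul_zero]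

lemma card_mass (P : Y) : (mass (cls G Y P) : ℂ) * Nat.card (MulAction.stabilizer G P) = 1 := by
  obtain ⟨g, hg⟩ := exists_out (G := G) P
  have h1 : Nat.card (MulAction.stabilizer G (cls G Y P).out) =
      Nat.card (MulAction.stabilizer G P) := by
    rw [hg]
    exact Nat.card_congr (MulAction.stabilizerEquivStabilizer (g := g) rfl).toEquiv.symm
  unfold mass
  rw [h1]
  have : (Nat.card (MulAction.stabilizer G P) : ℂ) ≠ 0 := by
    have : 0 < Nat.card (MulAction.stabilizer G P) := Nat.card_pos
    exact_mod_cast this.ne'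
  push_cast
  field_simp

lemma adj_delta (K : Ker G Y) (P P' : Y) :
    ⟪K.op (delta G P), delta G P'⟫_ℂ = ⟪delta G P, K.star.op (delta G P')⟫_ℂ := by
  rw [← inner_conj_symm, inner_delta', inner_delta', Ker.op_apply, Ker.op_apply]
  have e1 : K.fn (delta G P : Bun G Y → ℂ) = K.fn (deltaFn P) := by
    congr 1
    funext b
    exact delta_apply P b
  have e2 : K.star.fn (delta G P' : Bun G Y → ℂ) = K.star.fn (deltaFn P') := by
    congr 1
    funext b
    exact delta_apply P' b
  rw [e1, e2]
  set c := K.fn (deltaFn P) (cls G Y P') with hc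
  set d := K.star.fn (deltaFn P') (cls G Y P) with hd
  have h1 : c * Nat.card (MulAction.stabilizer G P) = ∑ᶠ g : G, K.k (g • P') P := fn_delta K P P'
  have h2 : d * Nat.card (MulAction.stabilizer G P') = ∑ᶠ g : G, starRingEnd ℂ (K.k P' (g • P)) :=
    fn_delta K.star P' P
  have hfinS : {g : G | K.k (g • P') P ≠ 0}.Finite := by
    have h3 : {g : G | K.k (g • P') P ≠ 0} ⊆ ⋃ Q ∈ (K.fincol P).toFinset, {g : G | g • P' = Q} := by
      intro g hg
      simp only [Set.mem_iUnion]
      exact ⟨g • P', by simpa using hg, rfl⟩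
    refine Set.Finite.subset (Set.Finite.biUnion (Finset.finite_toSet _) fun Q _ => ?_) h3
    by_cases h : ∃ g₀ : G, g₀ • P' = Q
    · obtain ⟨g₀, hg₀⟩ := h
      have hSf : ((MulAction.stabilizer G P' : Subgroup G) : Set G).Finite :=
        Set.finite_coe_iff.1 (inferInstanceAs (Finite (MulAction.stabilizer G P')))
      refine (hSf.image (fun g => g₀ * g)).subset ?_
      intro g hg
      refine ⟨g₀⁻¹ * g, ?_, by simp⟩
      show (g₀⁻¹ * g) • P' = P'
      have hg' : g • P' = Q := hg
      rw [mul_smul, hg', ← hg₀, inv_smul_smul]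
    · have : {g : G | g • P' = Q} = ∅ := by
        ext g
        simp only [Set.mem_ofPred_eq, Set.mem_empty_iff_false, iff_false]
        exact fun hg => h ⟨g, hg⟩
      rw [this]
      exact Set.finite_empty
  have h3 : ∑ᶠ g : G, starRingEnd ℂ (K.k P' (g • P)) = starRingEnd ℂ (∑ᶠ g : G, K.k (g • P') P) := by
    rw [← finsum_comp_equiv (Equiv.inv G)]
    have e3 : ∀ g : G, K.k P' ((Equiv.inv G) g • P) = K.k (g • P') P := by
      intro g
      rw [← K.smul g, Equiv.inv_apply, smul_inv_smul]
    simp only [e3]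
    exact ((starRingEnd ℂ).toAddMonoidHom.map_finsum hfinS).symm
  rw [h3, ← h1, map_mul] at h2
  have h4 : (starRingEnd ℂ) (Nat.card (MulAction.stabilizer G P) : ℂ) =
      (Nat.card (MulAction.stabilizer G P) : ℂ) := by simp
  rw [h4] at h2
  have m1 := card_mass (G := G) P
  have m2 := card_mass (G := G) P'
  rw [map_mul, Complex.conj_ofReal]
  calc (mass (cls G Y P') : ℂ) * starRingEnd ℂ c
      = (mass (cls G Y P') : ℂ) * starRingEnd ℂ c *
        ((mass (cls G Y P) : ℂ) * Nat.card (MulAction.stabilizer G P)) := by rw [m1, mul_one]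
    _ = (mass (cls G Y P) : ℂ) * (mass (cls G Y P') : ℂ) *
        (starRingEnd ℂ c * Nat.card (MulAction.stabilizer G P)) := by ring
    _ = (mass (cls G Y P) : ℂ) * (mass (cls G Y P') : ℂ) *
        (d * Nat.card (MulAction.stabilizer G P')) := by rw [h2]
    _ = (mass (cls G Y P) : ℂ) * d *
        ((mass (cls G Y P') : ℂ) * Nat.card (MulAction.stabilizer G P')) := by ring
    _ = (mass (cls G Y P) : ℂ) * d := by rw [m2, mul_one]

lemma eq_of_inner (u v : L2 G Y) (h : ∀ P : Y, ⟪delta G P, u⟫_ℂ = ⟪delta G P, v⟫_ℂ) : u = v := by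
  apply coe_eq
  intro b
  have h1 := h b.out
  rw [inner_delta', inner_delta', cls_out] at h1
  have : (mass b : ℂ) ≠ 0 := by exact_mod_cast (mass_pos b).ne'
  exact mul_left_cancel₀ this h1

lemma span_dense : Dense ((Submodule.span ℂ (Set.range (delta G : Y → L2 G Y)) :
    Submodule ℂ (L2 G Y)) : Set (L2 G Y)) := by
  rw [Submodule.dense_iff_topologicalClosure_eq_top, Submodule.topologicalClosure_eq_top_iff]
  rw [Submodule.eq_bot_iff]
  intro u hu
  apply eq_of_inner
  intro P
  rw [inner_zero_right]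
  exact (Submodule.mem_orthogonal _ _).1 hu _ (Submodule.subset_span ⟨P, rfl⟩)

theorem adjoint_op (K : Ker G Y) : ContinuousLinearMap.adjoint K.op = K.star.op := by
  apply ContinuousLinearMap.ext_on span_dense
  rintro _ ⟨P', rfl⟩
  apply eq_of_inner
  intro P
  rw [ContinuousLinearMap.adjoint_inner_right, adj_delta]

end Pool.Agent.Helper80.AT
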