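import Pool.Agent.Helper80.AT.Eval

/-! Chebyshev polynomials of q = (1/R) Σ T_j* T_j on a Hilbert space. -/

open scoped ENNReal NNReal InnerProductSpace

namespace Pool.Agent.Helper80.AT

section Alg

variable {A : Type*} [Ring A]

/-- The values of the Chebyshev polynomials T_2n(x) and U_(2n-1)(x)/x at q = x². -/
def chAB (q : A) : ℕ → A × A
  | 0 => (1, 0)
  | n + 1 =>
    let a := (chAB q n).1
    let b := (chAB q n).2
    let c := a - b + q * b
    let d := a + q * b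
    (q * c - d + q * d, c + d)

/-- T_2n(x) -/
def chA (q : A) (n : ℕ) : A := (chAB q n).1

/-- U_(2n-1)(x)/x -/
def chB (q : A) (n : ℕ) : A := (chAB q n).2

/-- T_(2n+1)(x)/x -/
def chC (q : A) (n : ℕ) : A := chA q n - chB q n + q * chB q n

/-- U_2n(x) -/
def chD (q : A) (n : ℕ) : A := chA q n + q * chB q n

lemma chA_zero (q : A) : chA q 0 = 1 := rfl

lemma chB_zero (q : A) : chB q 0 = 0 := rfl

lemma chA_succ (q : A) (n : ℕ) : chA q (n + 1) = q * chC q n - chD q n + q * chD q n := rfl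

lemma chB_succ (q : A) (n : ℕ) : chB q (n + 1) = chC q n + chD q n := rfl

end Alg

/-- the closed form of the real sequences -/
lemma ch_real {s : ℝ} (hs : 0 < s) (n : ℕ) :
    chA (((s + s⁻¹) / 2) ^ 2) n = (s ^ (2 * n) + s⁻¹ ^ (2 * n)) / 2 ∧
    (s - s⁻¹) / 2 * ((s + s⁻¹) / 2) * chB (((s + s⁻¹) / 2) ^ 2) n =
      (s ^ (2 * n) - s⁻¹ ^ (2 * n)) / 2 := by
  have hss : s * s⁻¹ = 1 := mul_inv_cancel₀ hs.ne'
  induction n with
  | zero =>
    rw [chA_zero, chB_zero]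
    constructor <;> norm_num
  | succ n ih =>
    obtain ⟨h1, h2⟩ := ih
    set β := (s + s⁻¹) / 2 with hβ
    set e := (s - s⁻¹) / 2 with he
    set a := chA (β ^ 2) n with ha
    set b := chB (β ^ 2) n with hb
    set x := s ^ (2 * n) with hx
    set y := s⁻¹ ^ (2 * n) with hy
    have hz : β ^ 2 = e ^ 2 + 1 := by
      rw [hβ, he]
      linear_combination hss
    have hc : chC (β ^ 2) n = a + e ^ 2 * b := by
      unfold chC
      rw [← ha, ← hb, hz]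
      ring
    have hd : chD (β ^ 2) n = a + β ^ 2 * b := rfl
    have hC : β * chC (β ^ 2) n = (s * x + s⁻¹ * y) / 2 := by
      rw [hc]
      have : β * (a + e ^ 2 * b) = β * a + e * (e * β * b) := by ring
      rw [this, h1, h2, hβ, he]
      ring
    have hD : e * chD (β ^ 2) n = (s * x - s⁻¹ * y) / 2 := by
      rw [hd]
      have : e * (a + β ^ 2 * b) = e * a + β * (e * β * b) := by ring
      rw [this, h1, h2, hβ, he]
      ring
    have e1 : s ^ (2 * (n + 1)) = s * s * x := by rw [hx]; ring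
    have e2 : s⁻¹ ^ (2 * (n + 1)) = s⁻¹ * s⁻¹ * y := by rw [hy]; ring
    constructor
    · rw [chA_succ, e1, e2]
      have : β ^ 2 * chC (β ^ 2) n - chD (β ^ 2) n + β ^ 2 * chD (β ^ 2) n =
          β * (β * chC (β ^ 2) n) + e * (e * chD (β ^ 2) n) := by
        linear_combination (chD (β ^ 2) n) * hz
      rw [this, hC, hD, hβ, he]
      ring
    · rw [chB_succ, e1, e2]
      have : e * β * (chC (β ^ 2) n + chD (β ^ 2) n) =
          e * (β * chC (β ^ 2) n) + β * (e * chD (β ^ 2) n) := by ring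
      rw [this, hC, hD, hβ, he]
      ring

lemma ch_real_odd {s : ℝ} (hs : 0 < s) (n : ℕ) :
    (s + s⁻¹) / 2 * chC (((s + s⁻¹) / 2) ^ 2) n =
      (s ^ (2 * n + 1) + s⁻¹ ^ (2 * n + 1)) / 2 := by
  have hss : s * s⁻¹ = 1 := mul_inv_cancel₀ hs.ne'
  obtain ⟨h1, h2⟩ := ch_real hs n
  unfold chC
  set β := (s + s⁻¹) / 2 with hβ
  set e := (s - s⁻¹) / 2 with he
  have hz : β ^ 2 = e ^ 2 + 1 := by
    rw [hβ, he]
    linear_combination hss
  have : β * (chA (β ^ 2) n - chB (β ^ 2) n + β ^ 2 * chB (β ^ 2) n) =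
      β * chA (β ^ 2) n + e * (e * β * chB (β ^ 2) n) := by
    linear_combination (β * chB (β ^ 2) n) * hz
  rw [this, h1, h2, hβ, he]
  ring

section Hilb

variable {H : Type*} [NormedAddCommGroup H] [InnerProductSpace ℂ H] [CompleteSpace H]
variable {J : Type*} [Fintype J] (T : J → H →L[ℂ] H) (R : ℝ)

/-- (1/R) Σ T_j* T_j -/
noncomputable def qOp : H →L[ℂ] H :=
  ((R⁻¹ : ℝ) : ℂ) • ∑ j, ContinuousLinearMap.adjoint (T j) * T j

/-- (1/R) Σ |T_j x|² -/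
noncomputable def qN (x : H) : ℝ := R⁻¹ * ∑ j, ‖T j x‖ ^ 2

lemma qOp_inner (x y : H) : ⟪qOp T R x, y⟫_ℂ = ((R⁻¹ : ℝ) : ℂ) * ∑ j, ⟪T j x, T j y⟫_ℂ := by
  unfold qOp
  rw [_root_.smul_apply, sum_apply, inner_smul_left, sum_inner, Complex.conj_ofReal]
  congr 1
  refine Finset.sum_congr rfl fun j _ => ?_
  show ⟪ContinuousLinearMap.adjoint (T j) (T j x), y⟫_ℂ = _
  rw [ContinuousLinearMap.adjoint_inner_left]

lemma qOp_symm (x y : H) : ⟪qOp T R x, y⟫_ℂ = ⟪x, qOp T R y⟫_ℂ := by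
  rw [← inner_conj_symm x, qOp_inner, qOp_inner, map_mul, Complex.conj_ofReal, map_sum]
  congr 1
  refine Finset.sum_congr rfl fun j _ => ?_
  rw [inner_conj_symm]

lemma qOp_self (x : H) : ⟪qOp T R x, x⟫_ℂ = (qN T R x : ℂ) := by
  rw [qOp_inner]
  unfold qN
  push_cast
  congr 1
  refine Finset.sum_congr rfl fun j _ => ?_
  rw [inner_self_eq_norm_sq_to_K]
  rfl

lemma re_qOp_self (x : H) : (⟪qOp T R x, x⟫_ℂ).re = qN T R x := by
  rw [qOp_self]
  exact Complex.ofReal_re _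

omit [CompleteSpace H] in
lemma sq_add_re (x y : H) : ‖x + y‖ ^ 2 = ‖x‖ ^ 2 + 2 * (⟪x, y⟫_ℂ).re + ‖y‖ ^ 2 :=
  norm_add_sq (𝕜 := ℂ) x y

omit [CompleteSpace H] in
lemma sq_sub_re (x y : H) : ‖x - y‖ ^ 2 = ‖x‖ ^ 2 - 2 * (⟪x, y⟫_ℂ).re + ‖y‖ ^ 2 :=
  norm_sub_sq (𝕜 := ℂ) x y

lemma qN_add (x y : H) : qN T R (x + y) = qN T R x + 2 * (⟪qOp T R x, y⟫_ℂ).re + qN T R y := by
  rw [← re_qOp_self, ← re_qOp_self, ← re_qOp_self, map_add, inner_add_left, inner_add_right,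
    inner_add_right, qOp_symm T R y x, ← inner_conj_symm y]
  simp only [Complex.add_re, Complex.conj_re]
  ring

lemma qN_sub (x y : H) : qN T R (x - y) = qN T R x - 2 * (⟪qOp T R x, y⟫_ℂ).re + qN T R y := by
  rw [← re_qOp_self, ← re_qOp_self, ← re_qOp_self, map_sub, inner_sub_left, inner_sub_right,
    inner_sub_right, qOp_symm T R y x, ← inner_conj_symm y]
  simp only [Complex.sub_re, Complex.conj_re]
  ring

omit [CompleteSpace H] in
lemma re_comm (x y : H) : (⟪x, y⟫_ℂ).re = (⟪y, x⟫_ℂ).re := by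
  rw [← inner_conj_symm, Complex.conj_re]

lemma step_odd (a b : H) :
    qN T R (a - b + qOp T R b) + ‖a + qOp T R b‖ ^ 2 - qN T R (a + qOp T R b) =
      ‖a‖ ^ 2 + qN T R b - ‖qOp T R b‖ ^ 2 := by
  set q := qOp T R with hq
  have e1 : a - b + q b = (a + q b) - b := by abel
  rw [e1, qN_sub, sq_add_re, ← hq, qOp_symm, ← hq, inner_add_left, inner_self_eq_norm_sq_to_K]
  have e2 : (((‖q b‖ : ℝ) : ℂ) ^ 2).re = ‖q b‖ ^ 2 := by
    rw [← Complex.ofReal_pow]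
    exact Complex.ofReal_re _
  rw [Complex.add_re]
  show _ - 2 * ((⟪a, q b⟫_ℂ).re + (((‖q b‖ : ℝ) : ℂ) ^ 2).re) + _ + _ - _ = _
  rw [e2]
  ring

lemma step_even (c d : H) :
    ‖qOp T R c - d + qOp T R d‖ ^ 2 + qN T R (c + d) - ‖qOp T R (c + d)‖ ^ 2 =
      qN T R c + ‖d‖ ^ 2 - qN T R d := by
  set q := qOp T R with hq
  have e1 : q c - d + q d = q (c + d) - d := by rw [map_add]; abel
  rw [e1, sq_sub_re, qN_add, ← hq, map_add, inner_add_left, Complex.add_re]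
  have e2 : (⟪q d, d⟫_ℂ).re = qN T R d := by rw [hq]; exact re_qOp_self T R d
  rw [e2]
  ring

theorem ch_even (x : H) (n : ℕ) :
    ‖chA (qOp T R) n x‖ ^ 2 + qN T R (chB (qOp T R) n x) - ‖qOp T R (chB (qOp T R) n x)‖ ^ 2 =
      ‖x‖ ^ 2 := by
  induction n with
  | zero =>
    rw [chA_zero, chB_zero]
    show ‖x‖ ^ 2 + qN T R 0 - ‖qOp T R 0‖ ^ 2 = ‖x‖ ^ 2
    unfold qN
    simp
  | succ n ih =>
    rw [chA_succ, chB_succ]
    have h1 := step_even T R (chC (qOp T R) n x) (chD (qOp T R) n x)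
    have h2 := step_odd T R (chA (qOp T R) n x) (chB (qOp T R) n x)
    exact h1.trans (h2.trans ih)

theorem ch_odd (x : H) (n : ℕ) :
    qN T R (chC (qOp T R) n x) + ‖chD (qOp T R) n x‖ ^ 2 - qN T R (chD (qOp T R) n x) =
      ‖x‖ ^ 2 :=
  (step_odd T R (chA (qOp T R) n x) (chB (qOp T R) n x)).trans (ch_even T R x n)

variable {T R}

section Upper

variable (hR : 0 < R) {ρ : J → ℝ} (hρ : ∀ j x, ‖T j x‖ ≤ ρ j * ‖x‖)
  (hsum : ∑ j, ρ j ^ 2 ≤ R)

omit [CompleteSpace H] in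
include hR hρ hsum in
lemma qN_le (x : H) : qN T R x ≤ ‖x‖ ^ 2 := by
  unfold qN
  rw [inv_mul_le_iff₀ hR]
  calc ∑ j, ‖T j x‖ ^ 2 ≤ ∑ j, ρ j ^ 2 * ‖x‖ ^ 2 := by
        refine Finset.sum_le_sum fun j _ => ?_
        rw [← mul_pow]
        exact pow_le_pow_left₀ (norm_nonneg _) (hρ j x) 2
    _ = (∑ j, ρ j ^ 2) * ‖x‖ ^ 2 := by rw [Finset.sum_mul]
    _ ≤ R * ‖x‖ ^ 2 := by gcongr

omit [Fintype J] in
include hρ in
lemma adj_le (j : J) (x : H) : ‖ContinuousLinearMap.adjoint (T j) x‖ ≤ ρ j * ‖x‖ := by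
  rcases eq_or_ne x 0 with h0 | h0
  · rw [h0]
    simp
  have hρ0 : 0 ≤ ρ j := by
    have h1 := (norm_nonneg _).trans (hρ j x)
    exact nonneg_of_mul_nonneg_left h1 (norm_pos_iff.2 h0)
  have h1 : ‖T j‖ ≤ ρ j := ContinuousLinearMap.opNorm_le_bound _ hρ0 (hρ j)
  have h2 : ‖ContinuousLinearMap.adjoint (T j)‖ = ‖T j‖ := by simp
  calc ‖ContinuousLinearMap.adjoint (T j) x‖ ≤ ‖ContinuousLinearMap.adjoint (T j)‖ * ‖x‖ :=
        ContinuousLinearMap.le_opNorm _ _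
    _ ≤ ρ j * ‖x‖ := by rw [h2]; gcongr

include hR hρ hsum in
lemma qOp_sq_le (x : H) : ‖qOp T R x‖ ^ 2 ≤ qN T R x := by
  have h1 : ‖qOp T R x‖ ≤ R⁻¹ * ∑ j, ρ j * ‖T j x‖ := by
    unfold qOp
    rw [_root_.smul_apply, norm_smul, sum_apply, Complex.norm_real,
      Real.norm_of_nonneg (inv_pos.2 hR).le]
    gcongr
    refine (norm_sum_le _ _).trans (Finset.sum_le_sum fun j _ => ?_)
    exact adj_le hρ j (T j x)
  have h2 : (∑ j, ρ j * ‖T j x‖) ^ 2 ≤ (∑ j, ρ j ^ 2) * ∑ j, ‖T j x‖ ^ 2 :=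
    Finset.sum_mul_sq_le_sq_mul_sq _ _ _
  unfold qN
  calc ‖qOp T R x‖ ^ 2 ≤ (R⁻¹ * ∑ j, ρ j * ‖T j x‖) ^ 2 :=
        pow_le_pow_left₀ (norm_nonneg _) h1 2
    _ = R⁻¹ ^ 2 * (∑ j, ρ j * ‖T j x‖) ^ 2 := by ring
    _ ≤ R⁻¹ ^ 2 * (R * ∑ j, ‖T j x‖ ^ 2) := by
        gcongr
        refine h2.trans ?_
        gcongr
    _ = _ := by
        field_simp

include hR hρ hsum in
theorem chA_le (x : H) (n : ℕ) : ‖chA (qOp T R) n x‖ ^ 2 ≤ ‖x‖ ^ 2 := by
  have h1 := ch_even T R x n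
  have h2 := qOp_sq_le hR hρ hsum (chB (qOp T R) n x)
  linarith

include hR hρ hsum in
theorem chC_le (x : H) (n : ℕ) : qN T R (chC (qOp T R) n x) ≤ ‖x‖ ^ 2 := by
  have h1 := ch_odd T R x n
  have h2 := qN_le hR hρ hsum (chD (qOp T R) n x)
  linarith

end Upper

section Lower

variable {W : Submodule ℂ H}

/-- S is at least r on W, also after multiplication by powers of Z. -/
def SemP (W : Submodule ℂ H) (Z : H →L[ℂ] H) (z r : ℝ) (S : H →L[ℂ] H) : Prop :=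
  ∀ k : ℕ, ∀ w ∈ W, z ^ k * r * ‖w‖ ^ 2 ≤ (⟪(Z ^ k * S) w, w⟫_ℂ).re

omit [CompleteSpace H] in
lemma SemP.add {Z : H →L[ℂ] H} {z r r' : ℝ} {S S' : H →L[ℂ] H} (h : SemP W Z z r S)
    (h' : SemP W Z z r' S') : SemP W Z z (r + r') (S + S') := by
  intro k w hw
  have h1 := h k w hw
  have h2 := h' k w hw
  have e : (Z ^ k * (S + S')) w = (Z ^ k * S) w + (Z ^ k * S') w := by
    rw [mul_add]
    rfl
  rw [e, inner_add_left, Complex.add_re]
  linarith

omit [CompleteSpace H] in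
lemma SemP.mul {Z : H →L[ℂ] H} {z r : ℝ} {S : H →L[ℂ] H} (h : SemP W Z z r S) :
    SemP W Z z (z * r) (Z * S) := by
  intro k w hw
  have h1 := h (k + 1) w hw
  rw [pow_succ Z, mul_assoc] at h1
  refine le_trans (le_of_eq ?_) h1
  ring

omit [CompleteSpace H] in
lemma SemP.zero {Z : H →L[ℂ] H} {z : ℝ} : SemP W Z z 0 0 := by
  intro k w _
  simp

variable (hst : ∀ j, Stable W (T j)) {β : ℝ} (hβ : 1 ≤ β)
  (hlow : ∀ w ∈ W, β ^ 2 * ‖w‖ ^ 2 ≤ qN T R w)

include hst in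
lemma stable_qOp : Stable W (qOp T R) := by
  unfold qOp
  refine (Stable.sum _ fun j _ => ?_).smul _
  refine Stable.mul ⟨(hst j).adj, ?_⟩ (hst j)
  intro w hw
  rw [ContinuousLinearMap.adjoint_adjoint]
  exact (hst j).stable w hw

include hst in
lemma stable_Z : ∀ w ∈ W, (qOp T R - 1) w ∈ W := fun w hw =>
  W.sub_mem ((stable_qOp hst).stable w hw) hw

include hlow in
lemma Z_low (w : H) (hw : w ∈ W) :
    (β ^ 2 - 1) * ‖w‖ ^ 2 ≤ (⟪(qOp T R - 1) w, w⟫_ℂ).re := by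
  show _ ≤ (⟪qOp T R w - w, w⟫_ℂ).re
  rw [inner_sub_left, Complex.sub_re, re_qOp_self, inner_self_eq_norm_sq_to_K]
  have e2 : (((‖w‖ : ℝ) : ℂ) ^ 2).re = ‖w‖ ^ 2 := by
    rw [← Complex.ofReal_pow]
    exact Complex.ofReal_re _
  show _ ≤ qN T R w - (((‖w‖ : ℝ) : ℂ) ^ 2).re
  rw [e2]
  have := hlow w hw
  linarith

lemma Z_symm (x y : H) : ⟪(qOp T R - 1) x, y⟫_ℂ = ⟪x, (qOp T R - 1) y⟫_ℂ := by
  show ⟪qOp T R x - x, y⟫_ℂ = ⟪x, qOp T R y - y⟫_ℂ
  rw [inner_sub_left, inner_sub_right, qOp_symm]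

include hst hβ hlow in
lemma SemP.one : SemP W (qOp T R - 1) (β ^ 2 - 1) 1 1 := by
  set Z := qOp T R - 1 with hZ
  set z := β ^ 2 - 1 with hz
  have hz0 : 0 ≤ z := by
    rw [hz]
    nlinarith
  have key : ∀ k : ℕ, ∀ w ∈ W, z ^ k * ‖w‖ ^ 2 ≤ (⟪(Z ^ k) w, w⟫_ℂ).re ∧
      z ^ (k + 1) * ‖w‖ ^ 2 ≤ (⟪(Z ^ (k + 1)) w, w⟫_ℂ).re := by
    intro k
    induction k using Nat.strong_induction_on with
    | _ k ih =>
      intro w hw
      have h0 : ‖w‖ ^ 2 = (⟪w, w⟫_ℂ).re := by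
        rw [inner_self_eq_norm_sq_to_K]
        show _ = (((‖w‖ : ℝ) : ℂ) ^ 2).re
        rw [← Complex.ofReal_pow]
        exact (Complex.ofReal_re _).symm
      have two : ∀ m : ℕ, z ^ m * ‖Z w‖ ^ 2 ≤ (⟪(Z ^ m) (Z w), Z w⟫_ℂ).re →
          z ^ (m + 2) * ‖w‖ ^ 2 ≤ (⟪(Z ^ (m + 2)) w, w⟫_ℂ).re := by
        intro m hm
        have e1 : ⟪(Z ^ (m + 2)) w, w⟫_ℂ = ⟪(Z ^ m) (Z w), Z w⟫_ℂ := by
          rw [← Z_symm]
          congr 1
          have : Z ^ (m + 2) = Z * (Z ^ m * Z) := by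
            rw [← pow_succ, ← pow_succ']
          rw [this]
          rfl
        rw [e1]
        refine le_trans ?_ hm
        have h1 := Z_low hlow w hw
        have h2 : (⟪Z w, w⟫_ℂ).re ≤ ‖Z w‖ * ‖w‖ :=
          (Complex.re_le_norm _).trans (norm_inner_le_norm _ _)
        have h3 : z * ‖w‖ ≤ ‖Z w‖ := by
          rcases (norm_nonneg w).eq_or_lt with h | h
          · rw [← h, mul_zero]
            exact norm_nonneg _
          · have : (z * ‖w‖) * ‖w‖ ≤ ‖Z w‖ * ‖w‖ := by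
              calc (z * ‖w‖) * ‖w‖ = z * ‖w‖ ^ 2 := by ring
                _ ≤ _ := h1.trans h2
            exact le_of_mul_le_mul_right this h
        calc z ^ (m + 2) * ‖w‖ ^ 2 = z ^ m * (z * ‖w‖) ^ 2 := by ring
          _ ≤ z ^ m * ‖Z w‖ ^ 2 := by gcongr
      have hZw : Z w ∈ W := stable_Z hst w hw
      rcases k with _ | k
      · refine ⟨?_, ?_⟩
        · rw [pow_zero, pow_zero, one_mul]
          exact h0.le
        · rw [zero_add, pow_one, pow_one]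
          exact Z_low hlow w hw
      · rcases k with _ | k
        · refine ⟨?_, ?_⟩
          · rw [zero_add, pow_one, pow_one]
            exact Z_low hlow w hw
          · exact two 0 (ih 0 (by omega) (Z w) hZw).1
        · refine ⟨?_, ?_⟩
          · exact two k (ih k (by omega) (Z w) hZw).1
          · exact two (k + 1) (ih (k + 1) (by omega) (Z w) hZw).1
  intro k w hw
  rw [mul_one, mul_one]
  exact (key k w hw).1

include hst hβ hlow in
lemma sem_AB (n : ℕ) : SemP W (qOp T R - 1) (β ^ 2 - 1) (chA (β ^ 2) n) (chA (qOp T R) n) ∧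
    SemP W (qOp T R - 1) (β ^ 2 - 1) (chB (β ^ 2) n) (chB (qOp T R) n) := by
  induction n with
  | zero => exact ⟨SemP.one hst hβ hlow, SemP.zero⟩
  | succ n ih =>
    obtain ⟨ha, hb⟩ := ih
    have hc : SemP W (qOp T R - 1) (β ^ 2 - 1) (chC (β ^ 2) n) (chC (qOp T R) n) := by
      have := ha.add hb.mul
      convert this using 1
      · unfold chC
        ring
      · unfold chC
        noncomm_ring
    have hd : SemP W (qOp T R - 1) (β ^ 2 - 1) (chD (β ^ 2) n) (chD (qOp T R) n) := by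
      have := (ha.add hb).add hb.mul
      convert this using 1
      · unfold chD
        ring
      · unfold chD
        noncomm_ring
    refine ⟨?_, hc.add hd⟩
    have := (hc.add hc.mul).add hd.mul
    convert this using 1
    · rw [chA_succ]
      ring
    · rw [chA_succ]
      noncomm_ring

include hst hβ hlow in
lemma sem_C (n : ℕ) :
    SemP W (qOp T R - 1) (β ^ 2 - 1) (chC (β ^ 2) n) (chC (qOp T R) n) := by
  obtain ⟨ha, hb⟩ := sem_AB hst hβ hlow n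
  have := ha.add hb.mul
  convert this using 1
  · unfold chC
    ring
  · unfold chC
    noncomm_ring

omit [CompleteSpace H] in
lemma SemP.norm_le {Z : H →L[ℂ] H} {z r : ℝ} {S : H →L[ℂ] H} (h : SemP W Z z r S)
    {w : H} (hw : w ∈ W) : r * ‖w‖ ≤ ‖S w‖ := by
  have h1 := h 0 w hw
  rw [pow_zero, pow_zero, one_mul, one_mul] at h1
  have h2 : (⟪S w, w⟫_ℂ).re ≤ ‖S w‖ * ‖w‖ :=
    (Complex.re_le_norm _).trans (norm_inner_le_norm _ _)
  rcases (norm_nonneg w).eq_or_lt with h0 | h0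
  · rw [← h0, mul_zero]
    exact norm_nonneg _
  · have : (r * ‖w‖) * ‖w‖ ≤ ‖S w‖ * ‖w‖ := by
      calc (r * ‖w‖) * ‖w‖ = r * ‖w‖ ^ 2 := by ring
        _ ≤ _ := h1.trans h2
    exact le_of_mul_le_mul_right this h0

end Lower

lemma ch_nonneg {x : ℝ} (hx : 1 ≤ x) (n : ℕ) : 0 ≤ chA x n ∧ 0 ≤ chB x n ∧ 0 ≤ chC x n := by
  have aux : ∀ n : ℕ, 0 ≤ chA x n → 0 ≤ chB x n → 0 ≤ chC x n ∧ 0 ≤ chD x n := by
    intro n ha hb
    have e1 : chC x n = chA x n + (x - 1) * chB x n := by unfold chC; ring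
    have e2 : chD x n = chA x n + x * chB x n := rfl
    have h1 : 0 ≤ (x - 1) * chB x n := mul_nonneg (by linarith) hb
    have h2 : 0 ≤ x * chB x n := mul_nonneg (by linarith) hb
    rw [e1, e2]
    constructor <;> linarith
  have key : 0 ≤ chA x n ∧ 0 ≤ chB x n := by
    induction n with
    | zero =>
      rw [chA_zero, chB_zero]
      norm_num
    | succ n ih =>
      obtain ⟨hc, hd⟩ := aux n ih.1 ih.2
      rw [chA_succ, chB_succ]
      have e1 : x * chC x n - chD x n + x * chD x n = x * chC x n + (x - 1) * chD x n := by ring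
      rw [e1]
      have h1 : 0 ≤ x * chC x n := mul_nonneg (by linarith) hc
      have h2 : 0 ≤ (x - 1) * chD x n := mul_nonneg (by linarith) hd
      constructor <;> linarith
  exact ⟨key.1, key.2, (aux n key.1 key.2).1⟩

end Hilb

end Pool.Agent.Helper80.AT
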