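import Pool.Agent.Helper80.AT.ChY

/-! The density theorem with the sharp exponent. -/

open scoped ENNReal NNReal InnerProductSpace
open MeasureTheory

namespace Pool.Agent.Helper80.AT

section Hilb

variable {H : Type*} [NormedAddCommGroup H] [InnerProductSpace ℂ H] [CompleteSpace H]

lemma Stable.sub {W : Submodule ℂ H} {S T : H →L[ℂ] H} (hS : Stable W S) (hT : Stable W T) :
    Stable W (S - T) := by
  have := hS.add (hT.smul (-1))
  rwa [neg_one_smul, ← sub_eq_add_neg] at this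

lemma stable_ch {W : Submodule ℂ H} {q : H →L[ℂ] H} (hq : Stable W q) (n : ℕ) :
    Stable W (chA q n) ∧ Stable W (chB q n) := by
  induction n with
  | zero => exact ⟨Stable.one W, Stable.zero W⟩
  | succ n ih =>
    obtain ⟨ha, hb⟩ := ih
    have hc : Stable W (chC q n) := (ha.sub hb).add (hq.mul hb)
    have hd : Stable W (chD q n) := ha.add (hq.mul hb)
    exact ⟨((hq.mul hc).sub hd).add (hq.mul hd), hc.add hd⟩

lemma stable_chC {W : Submodule ℂ H} {q : H →L[ℂ] H} (hq : Stable W q) (n : ℕ) :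
    Stable W (chC q n) := by
  obtain ⟨ha, hb⟩ := stable_ch hq n
  exact (ha.sub hb).add (hq.mul hb)

end Hilb

variable {F : Type} [Field F] {X : Places F} {N : ℕ} {Γ : Subgroup (GL (Fin N) F)}

section

variable {P₀ : Bundle X Γ} {q₁ : L2 TG (Bundle X Γ) →L[ℂ] L2 TG (Bundle X Γ)}
  {q : L2 Γ (Bundle X Γ) →L[ℂ] L2 Γ (Bundle X Γ)} {D : ℕ}

lemma tri_ch (hq : Tri P₀ (2 * D) q₁ q) (n : ℕ) :
    Tri P₀ (2 * n * D) (chA q₁ n) (chA q n) ∧ Tri P₀ (2 * n * D) (chB q₁ n) (chB q n) ∧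
      Tri P₀ (2 * n * D) (q₁ * chB q₁ n) (q * chB q n) := by
  induction n with
  | zero =>
    have h0 : Tri P₀ (2 * 0 * D) (1 : L2 TG (Bundle X Γ) →L[ℂ] L2 TG (Bundle X Γ))
        (1 : L2 Γ (Bundle X Γ) →L[ℂ] L2 Γ (Bundle X Γ)) := by
      have h1 : 2 * 0 * D = 0 := by ring
      rw [h1]
      exact Tri.one
    have hz : Tri P₀ (2 * 0 * D) (0 : L2 TG (Bundle X Γ) →L[ℂ] L2 TG (Bundle X Γ))
        (0 : L2 Γ (Bundle X Γ) →L[ℂ] L2 Γ (Bundle X Γ)) := Tri.zero _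
    have e1 : q₁ * chB q₁ 0 = 0 := by rw [chB_zero, mul_zero]
    have e2 : q * chB q 0 = 0 := by rw [chB_zero, mul_zero]
    refine ⟨h0, hz, ?_⟩
    rw [e1, e2]
    exact hz
  | succ n ih =>
    obtain ⟨ha, hb, hqb⟩ := ih
    have hc : Tri P₀ (2 * n * D) (chC q₁ n) (chC q n) := (ha.sub hb).add hqb
    have hd : Tri P₀ (2 * n * D) (chD q₁ n) (chD q n) := ha.add hqb
    have e : 2 * D + 2 * n * D = 2 * (n + 1) * D := by ring
    have hqc := hq.mul hc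
    have hqd := hq.mul hd
    rw [e] at hqc hqd
    have hle : 2 * n * D ≤ 2 * (n + 1) * D := by rw [← e]; omega
    refine ⟨(hqc.sub (hd.mono hle)).add hqd, (hc.add hd).mono hle, ?_⟩
    rw [chB_succ, chB_succ, mul_add q₁, mul_add q]
    exact hqc.add hqd

lemma tri_chC (hq : Tri P₀ (2 * D) q₁ q) (n : ℕ) :
    Tri P₀ (2 * n * D) (chC q₁ n) (chC q n) := by
  obtain ⟨ha, hb, hqb⟩ := tri_ch hq n
  exact (ha.sub hb).add hqb

end

section

variable {J : Type} [Fintype J] (L : J → List (Hecke X Γ)) (D : ℕ) (hD : ∀ j, wordSize (L j) ≤ D)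
    (W : Submodule ℂ (L2 Γ (Bundle X Γ))) (hW : ∀ j, ∀ T ∈ L j, Stable W T.op) (A : ℝ)
    (hA : 0 < A) (hlow : ∀ w ∈ W, A ^ 2 * ‖w‖ ^ 2 ≤ ∑ j, ‖wordOp (L j) w‖ ^ 2)
    (s : ℝ) (hs : 1 ≤ s) (hsA : (∑ j, wordNorm (L j) ^ 2) * (s + s⁻¹) ^ 2 ≤ 4 * A ^ 2)

lemma stable_word {W : Submodule ℂ (L2 Γ (Bundle X Γ))} (L : List (Hecke X Γ))
    (hL : ∀ T ∈ L, Stable W T.op) : Stable W (wordOp L) := by
  induction L with
  | nil => exact Stable.one W
  | cons T L ih =>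
    have e : wordOp (T :: L) = T.op * wordOp L := by
      unfold wordOp
      rw [List.map_cons, List.prod_cons]
    rw [e]
    exact (hL T (by simp)).mul (ih fun q hq => hL q (by simp [hq]))

include hD hW hA hlow hs hsA in
lemma ch_family (P₀ : Bundle X Γ) (m : ℕ) :
    ∃ (J' : Type) (_ : Fintype J')
      (f₁ : J' → L2 TG (Bundle X Γ) →L[ℂ] L2 TG (Bundle X Γ))
      (f : J' → L2 Γ (Bundle X Γ) →L[ℂ] L2 Γ (Bundle X Γ)),
      (∀ j, Tri P₀ (m * D) (f₁ j) (f j)) ∧ (∀ j, Stable W (f j)) ∧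
      (∀ x, ∑ j, ‖f₁ j x‖ ^ 2 ≤ ‖x‖ ^ 2) ∧
      ∀ w ∈ W, ((s ^ m + s⁻¹ ^ m) / 2) ^ 2 * ‖w‖ ^ 2 ≤ ∑ j, ‖f j w‖ ^ 2 := by
  have hs0 : 0 < s := by linarith
  set β : ℝ := (s + s⁻¹) / 2 with hβdef
  have hss : s * s⁻¹ = 1 := mul_inv_cancel₀ hs0.ne'
  have hinv : 0 < s⁻¹ := inv_pos.2 hs0
  have hβ : 1 ≤ β := by
    rw [hβdef]
    nlinarith [sq_nonneg (s - 1), sq_nonneg (s - s⁻¹)]
  have hβ0 : 0 < β := by linarith
  set R : ℝ := A ^ 2 / β ^ 2 with hR
  have hR0 : 0 < R := by positivity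
  have hsum : ∑ j, wordNorm (L j) ^ 2 ≤ R := by
    rw [hR, le_div_iff₀ (by positivity), hβdef]
    linarith
  set T₁ := fun j => tgWord (L j) with hT₁
  set T := fun j => wordOp (L j) with hT
  set q₁ := qOp T₁ R with hq₁
  set q := qOp T R with hq
  have hst : ∀ j, Stable W (T j) := fun j => stable_word (L j) (hW j)
  have hqst : Stable W q := stable_qOp hst
  have hqN : ∀ w ∈ W, β ^ 2 * ‖w‖ ^ 2 ≤ qN T R w := by
    intro w hw
    have h1 := hlow w hw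
    unfold qN
    rw [hR, inv_div, div_mul_eq_mul_div, le_div_iff₀ (by positivity)]
    calc β ^ 2 * ‖w‖ ^ 2 * A ^ 2 = β ^ 2 * (A ^ 2 * ‖w‖ ^ 2) := by ring
      _ ≤ _ := by gcongr
  have htri : Tri P₀ (2 * D) q₁ q := by
    rw [hq₁, hq]
    unfold qOp
    refine (Tri.sum _ fun j _ => ?_).smul _
    obtain ⟨h1, h2⟩ := tri_word (P₀ := P₀) (L j)
    have h3 := hD j
    exact (h2.mul h1).mono (by omega)
  have hρ : ∀ j x, ‖T₁ j x‖ ≤ wordNorm (L j) * ‖x‖ := fun j x => tgWord_norm (L j) x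
  rcases Nat.even_or_odd' m with ⟨n, hn | hn⟩
  · refine ⟨Unit, inferInstance, fun _ => chA q₁ n, fun _ => chA q n, ?_, ?_, ?_, ?_⟩
    · intro _
      rw [hn]
      exact (tri_ch htri n).1
    · intro _
      exact (stable_ch hqst n).1
    · intro x
      rw [Fintype.sum_unique]
      exact chA_le hR0 hρ hsum x n
    · intro w hw
      rw [Fintype.sum_unique, hn]
      have h1 := ((sem_AB hst hβ hqN n).1).norm_le hw
      have h2 := (ch_real hs0 n).1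
      rw [← hβdef] at h2
      rw [h2] at h1
      rw [← mul_pow]
      exact pow_le_pow_left₀ (by positivity) h1 2
  · set c : ℂ := ((Real.sqrt R⁻¹ : ℝ) : ℂ) with hc
    have hcn : ‖c‖ ^ 2 = R⁻¹ := by
      rw [hc, Complex.norm_real, Real.norm_of_nonneg (Real.sqrt_nonneg _),
        Real.sq_sqrt (inv_pos.2 hR0).le]
    refine ⟨J, inferInstance, fun j => c • (T₁ j * chC q₁ n), fun j => c • (T j * chC q n),
      ?_, ?_, ?_, ?_⟩
    · intro j
      refine (((tri_word (P₀ := P₀) (L j)).1.mul (tri_chC htri n)).mono ?_).smul c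
      have h3 := hD j
      rw [hn, Nat.add_mul, Nat.one_mul]
      omega
    · intro j
      exact ((hst j).mul (stable_chC hqst n)).smul c
    · intro x
      have e : ∀ j, ‖(c • (T₁ j * chC q₁ n)) x‖ ^ 2 = R⁻¹ * ‖T₁ j (chC q₁ n x)‖ ^ 2 := by
        intro j
        rw [_root_.smul_apply, norm_smul, mul_pow, hcn]
        rfl
      simp only [e]
      rw [← Finset.mul_sum]
      exact chC_le hR0 hρ hsum x n
    · intro w hw
      have e : ∀ j, ‖(c • (T j * chC q n)) w‖ ^ 2 = R⁻¹ * ‖T j (chC q n w)‖ ^ 2 := by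
        intro j
        rw [_root_.smul_apply, norm_smul, mul_pow, hcn]
        rfl
      simp only [e]
      rw [← Finset.mul_sum]
      have hmem : chC q n w ∈ W := (stable_chC hqst n).stable w hw
      have h0 : β ^ 2 * ‖chC q n w‖ ^ 2 ≤ R⁻¹ * ∑ j, ‖T j (chC q n w)‖ ^ 2 := hqN _ hmem
      have h1 := (sem_C hst hβ hqN n).norm_le hw
      have h2 := ch_real_odd hs0 n
      rw [← hβdef] at h2
      have h3 : 0 ≤ chC (β ^ 2) n := (ch_nonneg (by nlinarith) n).2.2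
      rw [hn, ← h2]
      refine le_trans ?_ h0
      calc (β * chC (β ^ 2) n) ^ 2 * ‖w‖ ^ 2 = β ^ 2 * (chC (β ^ 2) n * ‖w‖) ^ 2 := by ring
        _ ≤ β ^ 2 * ‖chC q n w‖ ^ 2 := by gcongr

include hD hW hA hlow hs hsA in
theorem ch_ball (P₀ : Bundle X Γ) (m R : ℕ) (S : Finset (Bun Γ (Bundle X Γ)))
    (hS : ∀ b ∈ S, ∃ Q, X.dist P₀ Q ≤ R ∧ cls Γ (Bundle X Γ) Q = b)
    (w : L2 Γ (Bundle X Γ)) (hw : w ∈ W) :
    Nat.card (MulAction.stabilizer Γ P₀) * ((s ^ m + s⁻¹ ^ m) / 2) ^ 2 *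
      ∑ b ∈ S, mass b * ‖w b‖ ^ 2 ≤ autNum P₀ (2 * (R + m * D)) * ‖w‖ ^ 2 := by
  classical
  obtain ⟨J', hJ', f₁, f, htri, hst, hup, hlo⟩ :=
    ch_family L D hD W hW A hA hlow s hs hsA P₀ m
  set c := Nat.card (MulAction.stabilizer Γ P₀) with hc
  have hcpos : 0 < c := Nat.card_pos
  have hc' : (0 : ℝ) < c := by exact_mod_cast hcpos
  set C := (s ^ m + s⁻¹ ^ m) / 2 with hC
  set M := autNum P₀ (2 * (R + m * D)) with hM
  set u := cut S w with hu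
  set B : Set (Bundle X Γ) := {Q | X.dist P₀ Q ≤ R} with hB
  have hBf : ∀ P, {g : Γ | g • P ∈ B}.Finite := fun P => (mult_le P₀ R P).1
  set v := lift Γ B (u : Bun Γ (Bundle X Γ) → ℂ) with hv
  have h3 := lift_sq_le hBf (u : Bun Γ (Bundle X Γ) → ℂ) c (fun Q hQ => stab_le P₀ R Q hQ)
  have hfinv : ∑' Q, ‖v Q‖ₑ ^ 2 ≠ ∞ := by
    intro h0
    rw [← hv, h0, ENNReal.mul_top (by exact_mod_cast hcpos.ne')] at h3
    exact nsq_ne_top u (top_le_iff.1 h3)
  set x := ofFn v hfinv with hx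
  have hev : ev x = v := ev_ofFn v hfinv
  have hrel : Rel P₀ R x u := by
    refine ⟨fun Q hQ => ?_, ?_⟩
    · rw [hev] at hQ
      have h9 : Q ∈ B := lift_ne hQ
      exact h9
    · rw [hev, hv, per_lift hBf]
      intro b hb
      rw [hu, cut_apply] at hb
      by_cases hbS : b ∈ S
      · exact hS b hbS
      · rw [if_neg hbS] at hb
        exact absurd rfl hb
  have hxu : (c : ℝ) * ‖x‖ ^ 2 ≤ ‖u‖ ^ 2 := by
    rw [← hv, ← hev, ev_sq, ← norm_sq] at h3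
    have e1 : (c : ℝ≥0∞) = ENNReal.ofReal c := by simp
    rw [e1, ← ENNReal.ofReal_mul (by positivity)] at h3
    exact (ENNReal.ofReal_le_ofReal_iff (by positivity)).1 h3
  have hj : ∀ j, ‖f j u‖ ^ 2 ≤ M * ‖f₁ j x‖ ^ 2 := by
    intro j
    have hr := htri j R x u hrel
    have h1 : nsq (f j u : Bun Γ (Bundle X Γ) → ℂ) ≤ M * ∑' Q, ‖ev (f₁ j x) Q‖ₑ ^ 2 := by
      rw [hr.eq]
      refine nsq_per_le hr.lf M fun P => ?_
      refine (Set.ncard_le_ncard ?_ (mult_le P₀ (R + m * D) P).1).trans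
        (mult_le P₀ (R + m * D) P).2
      intro g hg
      exact hr.supp _ hg
    rw [ev_sq, ← norm_sq] at h1
    have e1 : (M : ℝ≥0∞) = ENNReal.ofReal M := by simp
    rw [e1, ← ENNReal.ofReal_mul (by positivity)] at h1
    exact (ENNReal.ofReal_le_ofReal_iff (by positivity)).1 h1
  have hsum : ∑ j, ‖f j u‖ ^ 2 ≤ M * ‖x‖ ^ 2 := by
    calc ∑ j, ‖f j u‖ ^ 2 ≤ ∑ j, M * ‖f₁ j x‖ ^ 2 := Finset.sum_le_sum fun j _ => hj j
      _ = M * ∑ j, ‖f₁ j x‖ ^ 2 := by rw [Finset.mul_sum]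
      _ ≤ _ := by
          gcongr
          exact hup x
  have h5 := hilb_eval f hst C hlo hw u
  have h6 : ‖⟪w, u⟫_ℂ‖ = ‖u‖ ^ 2 := by
    rw [hu, cut_inner, norm_pow, Complex.norm_real, norm_norm]
  rw [h6] at h5
  rw [← cut_norm_sq, ← hu]
  rcases (norm_nonneg u).eq_or_lt with h0 | h0
  · rw [← h0]
    have : 0 ≤ (M : ℝ) * ‖w‖ ^ 2 := by positivity
    simpa using this
  · have h7 : ((c : ℝ) * C ^ 2 * ‖u‖ ^ 2) * ‖u‖ ^ 2 ≤ (M * ‖w‖ ^ 2) * ‖u‖ ^ 2 := by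
      calc ((c : ℝ) * C ^ 2 * ‖u‖ ^ 2) * ‖u‖ ^ 2 = c * (C ^ 2 * (‖u‖ ^ 2) ^ 2) := by ring
        _ ≤ c * ((∑ j, ‖f j u‖ ^ 2) * ‖w‖ ^ 2) := by gcongr
        _ ≤ c * ((M * ‖x‖ ^ 2) * ‖w‖ ^ 2) := by gcongr
        _ = M * (c * ‖x‖ ^ 2) * ‖w‖ ^ 2 := by ring
        _ ≤ M * ‖u‖ ^ 2 * ‖w‖ ^ 2 := by gcongr
        _ = _ := by ring
    exact le_of_mul_le_mul_right h7 (by positivity)

end

lemma gon_autNum {n : ℕ} (hn : X.Gon n) :
    autNum (triv X Γ) n = autNum (triv X Γ) 0 := by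
  unfold autNum
  congr 1
  ext g
  constructor
  · intro hg
    have hg1 : g • triv X Γ = triv X Γ := gon X hn g hg
    show X.dist (g • triv X Γ) (triv X Γ) ≤ 0
    rw [hg1, dist_self]
  · intro hg
    exact le_trans hg (Nat.zero_le n)

theorem sharp_main {J : Type} [Fintype J] {W : Submodule ℂ (Classes X Γ → ℂ)}
    {L : J → List (Hecke X Γ)} {D : ℕ} (hD : ∀ j, wordSize (L j) ≤ D) {A : ℝ}
    (hW : Bounded W L A) {s : ℝ} (hs : 1 ≤ s)
    (hsA' : (∑ j, wordNorm (L j) ^ 2) * ((s + s⁻¹) / 2) ^ 2 ≤ A ^ 2) (m : ℕ) :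
    (∀ (P₀ : Bundle X Γ) (R : ℕ) (S : Finset (Classes X Γ)), Near P₀ R S → ∀ w ∈ W,
        massOn S w ≤ autNum P₀ (2 * (R + m * D)) / autNum P₀ 0 * (2 / (s ^ m + s⁻¹ ^ m)) ^ 2 *
          sqNorm w) ∧
    (∀ R : ℕ, X.Gon (2 * (R + m * D)) → ∀ S : Finset (Classes X Γ), Near (triv X Γ) R S →
      ∀ w ∈ W, massOn S w ≤ (2 / (s ^ m + s⁻¹ ^ m)) ^ 2 * sqNorm w) ∧
    (∀ S : Finset (Classes X Γ),
      TraceLe W S ((2 / (s ^ m + s⁻¹ ^ m)) ^ 2 * autOn S (2 * (m * D)))) := by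
  have hs0 : 0 < s := by linarith
  have hA := hW.pos
  have hsA : (∑ j, wordNorm (L j) ^ 2) * (s + s⁻¹) ^ 2 ≤ 4 * A ^ 2 := by
    have h1 : (∑ j, wordNorm (L j) ^ 2) * (s + s⁻¹) ^ 2 =
        4 * ((∑ j, wordNorm (L j) ^ 2) * ((s + s⁻¹) / 2) ^ 2) := by ring
    rw [h1]
    linarith
  have hst : ∀ j, ∀ T ∈ L j, Stable (up W) T.op := by
    intro j T hT
    constructor
    · intro u hu
      rw [mem_up, coe_op]
      exact (hW.stable j T hT _ hu).1
    · intro u hu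
      rw [mem_up, coe_adjoint]
      exact (hW.stable j T hT _ hu).2
  have hlow' : ∀ u ∈ up W, A ^ 2 * ‖u‖ ^ 2 ≤ ∑ j, ‖wordOp (L j) u‖ ^ 2 := by
    intro u hu
    have h : A ^ 2 * nrm (u : Bun Γ (Bundle X Γ) → ℂ) ≤
      ∑ j, nrm (wordFn (L j) (u : Bun Γ (Bundle X Γ) → ℂ)) := hW.lower _ hu
    rw [nrm_coe] at h
    refine h.trans (le_of_eq ?_)
    refine Finset.sum_congr rfl fun j _ => ?_
    rw [← coe_word, nrm_coe]
  have hC : 0 < s ^ m + s⁻¹ ^ m := by positivity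
  have hmain : ∀ (P₀ : Bundle X Γ) (R : ℕ) (S : Finset (Classes X Γ)), Near P₀ R S → ∀ w ∈ W,
        massOn S w ≤ autNum P₀ (2 * (R + m * D)) / autNum P₀ 0 * (2 / (s ^ m + s⁻¹ ^ m)) ^ 2 *
          sqNorm w := by
    intro P₀ R S hS w hw
    have hwl := hW.l2 w hw
    set u : L2 Γ (Bundle X Γ) := hwl.memLp.toLp w with hu
    have hcoe : (u : Bun Γ (Bundle X Γ) → ℂ) = w := coe_toLp' hwl
    have huW : u ∈ up W := by rw [mem_up, hcoe]; exact hw
    have h := ch_ball L D hD (up W) hst A hA hlow' s hs hsA P₀ m R S hS u huW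
    rw [← nrm_coe, hcoe] at h
    rw [autNum_zero]
    have hc : (0 : ℝ) < Nat.card (MulAction.stabilizer Γ P₀) := by exact_mod_cast Nat.card_pos
    rw [mul_comm] at h
    have h5 := (le_div_iff₀ (by positivity)).2 h
    refine h5.trans (le_of_eq ?_)
    show _ = _ * nrm w
    field_simp
  refine ⟨hmain, ?_, ?_⟩
  · intro R hgon S hS w hw
    have h := hmain (triv X Γ) R S hS w hw
    have h0 : (autNum (triv X Γ) 0 : ℝ) ≠ 0 := by
      rw [autNum_zero]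
      have : (0 : ℝ) < Nat.card (MulAction.stabilizer Γ (triv X Γ)) := by
        exact_mod_cast Nat.card_pos
      exact this.ne'
    rw [gon_autNum hgon, div_self h0, one_mul] at h
    exact h
  · intro S
    refine traceLe_of_point hW.l2 _ (by positivity) (2 * (m * D)) ?_ S
    intro b w hw
    have h := hmain b.out 0 {b} (by
      intro b' hb'
      rw [Finset.mem_singleton] at hb'
      subst hb'
      exact ⟨b'.out, by rw [dist_self], cls_out b'⟩) w hw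
    unfold massOn at h
    rw [Finset.sum_singleton, autNum_zero, zero_add] at h
    have hc : (0 : ℝ) < Nat.card (MulAction.stabilizer Γ b.out) := by exact_mod_cast Nat.card_pos
    have e : mass b = 1 / Nat.card (MulAction.stabilizer Γ b.out) := rfl
    rw [e, div_mul_eq_mul_div, one_mul, div_mul_eq_mul_div, div_mul_eq_mul_div,
      div_le_div_iff_of_pos_right hc] at h
    refine h.trans (le_of_eq ?_)
    ring

end Pool.Agent.Helper80.AT
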