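import Pool.Agent.Helper80.AT.ManyMain

/-! The bounds from many places for spaces of functions. -/

open scoped ENNReal NNReal InnerProductSpace
open MeasureTheory

namespace Pool.Agent.Helper80.AT

variable {F : Type} [Field F] {X : Places F} {N : ℕ} {Γ : Subgroup (GL (Fin N) F)}

theorem traceLe_of_point {W : Submodule ℂ (Classes X Γ → ℂ)} (hl2 : ∀ w ∈ W, IsL2 w) (C : ℝ)
    (hC : 0 ≤ C) (n : ℕ)
    (hpt : ∀ b, ∀ w ∈ W, ‖w b‖ ^ 2 ≤ C * autNum b.out n * sqNorm w)
    (S : Finset (Classes X Γ)) : TraceLe W S (C * autOn S n) := by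
  refine ⟨?_, ?_⟩
  · intro I _ w hwW hw
    unfold massOn autOn
    rw [Finset.sum_comm, Finset.mul_sum]
    refine Finset.sum_le_sum fun b _ => ?_
    rw [← Finset.mul_sum, mul_comm (mass b), ← mul_assoc]
    refine mul_le_mul_of_nonneg_right ?_ (mass_pos b).le
    set s := ∑ i, ‖w i b‖ ^ 2 with hs
    have h1 : sqNorm (∑ i, (starRingEnd ℂ (w i b)) • w i) = s := by
      rw [hw]
      refine Finset.sum_congr rfl fun i _ => ?_
      rw [RCLike.norm_conj]
    have h2 : (∑ i, (starRingEnd ℂ (w i b)) • w i) b = (s : ℂ) := by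
      rw [Finset.sum_apply, hs, Complex.ofReal_sum]
      refine Finset.sum_congr rfl fun i _ => ?_
      rw [Pi.smul_apply, smul_eq_mul, Complex.conj_mul']
      push_cast
      rfl
    have h3 := hpt b (∑ i, (starRingEnd ℂ (w i b)) • w i)
      (W.sum_mem fun i _ => W.smul_mem (starRingEnd ℂ (w i b)) (hwW i))
    rw [h1, h2] at h3
    have hs0 : 0 ≤ s := Finset.sum_nonneg fun _ _ => by positivity
    have h4 : ‖(s : ℂ)‖ = s := by rw [Complex.norm_real, Real.norm_of_nonneg hs0]
    rw [h4] at h3
    rcases hs0.eq_or_lt with h0 | h0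
    · rw [← h0]
      positivity
    · have h6 : s * s ≤ C * autNum b.out n * s := by rw [← pow_two]; exact h3
      exact le_of_mul_le_mul_right h6 h0
  · intro hS
    have h := dim_bound (up W) S (fun u hu b hb => hS _ hu b hb)
      (fun b => C * (autNum b.out n * mass b))
      (fun b _ => by
        have := (mass_pos b).le
        positivity)
      (fun b _ u hu => by
        have h1 := hpt b _ hu
        have h2 := mul_le_mul_of_nonneg_left h1 (mass_pos b).le
        rw [show sqNorm (coeLin u : Classes X Γ → ℂ) = ‖u‖ ^ 2 from nrm_coe u] at h2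
        refine h2.trans (le_of_eq ?_)
        ring)
    obtain ⟨e1, e2⟩ := up_finrank W hl2
    refine ⟨e1 h.1, ?_⟩
    rw [← e2]
    refine h.2.trans (le_of_eq ?_)
    unfold autOn
    rw [Finset.mul_sum]

theorem many_main (B : Finset X.V) (hB : B.Nonempty) (h : (x : X.V) → HeckeFn X Γ x) (κ : ℝ)
    (D : ℕ) (hT : TestFamily B h κ D) (W : Submodule ℂ (Classes X Γ → ℂ))
    (S : Finset (Classes X Γ)) :
    (∀ (α : ℝ) (ε : X.V → ℝ), 0 < α → Biased W B h α ε →
      TraceLe W S (κ / (B.card * α ^ 2) * autOn S (4 * D))) ∧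
    (∀ lam : X.V → ℂ, (∀ x ∈ B, ∀ g ∈ X.K Γ x, (h x).h g = 0) → JointEigen W B h lam →
      TraceLe W S (4 * κ / B.card * autOn S (4 * D))) := by
  have hcard : (0 : ℝ) < B.card := by exact_mod_cast hB.card_pos
  have hκ0 : 0 ≤ κ := by
    obtain ⟨x, hx⟩ := hB
    have h1 := hT.norm_le x hx
    have h2 := hT.vol_pos x hx
    by_contra hneg
    push Not at hneg
    have h3 : κ * (h x).vol < 0 := mul_neg_of_neg_of_pos hneg h2
    have h4 : 0 ≤ ((h x).norm : ℝ) ^ 2 := by positivity
    linarith
  refine ⟨?_, ?_⟩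
  · intro α ε hα hW
    have hCpos : 0 ≤ κ / (B.card * α ^ 2) := by positivity
    refine traceLe_of_point hW.l2 _ hCpos (4 * D) ?_ S
    intro b w hw
    have hwl := hW.l2 w hw
    set u : L2 Γ (Bundle X Γ) := hwl.memLp.toLp w with hu
    have hcoe : (u : Bun Γ (Bundle X Γ) → ℂ) = w := coe_toLp' hwl
    have huW : u ∈ up W := by rw [mem_up, hcoe]; exact hw
    have h1 := many_a hκ0 hT.vol_pos hT.norm_le hT.size_le (W := up W) α hα.le ε
      (fun x hx => by
        rcases hW.sign x hx with he | he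
        · rw [he, abs_one]
        · rw [he, abs_neg, abs_one])
      (fun x hx => by
        refine ⟨fun u hu => ?_, fun u hu => ?_⟩
        · rw [mem_up, coe_op]
          exact (hW.stable x hx _ hu).1
        · rw [mem_up, coe_adjoint]
          exact (hW.stable x hx _ hu).2)
      (fun x hx u hu => by
        have h2 := hW.bias x hx _ hu
        rw [show sqNorm (coeLin u : Classes X Γ → ℂ) = ‖u‖ ^ 2 from nrm_coe u] at h2
        rw [show sqNorm ((at' h x).star.fnOp (coeLin u)) = ‖(at' h x).star.op u‖ ^ 2 by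
          rw [← nrm_coe, coe_op]
          rfl] at h2
        exact h2)
      b.out huW
    rw [cls_out, hcoe, ← nrm_coe, hcoe] at h1
    show ‖w b‖ ^ 2 ≤ κ / (B.card * α ^ 2) * autNum b.out (4 * D) * nrm w
    rw [div_mul_eq_mul_div, div_mul_eq_mul_div, le_div_iff₀ (by positivity)]
    refine le_trans (le_of_eq ?_) h1
    ring
  · intro lam hK hW
    have hCpos : 0 ≤ 4 * κ / B.card := by positivity
    refine traceLe_of_point hW.l2 _ hCpos (4 * D) ?_ S
    intro b w hw
    have hwl := hW.l2 w hw
    set u : L2 Γ (Bundle X Γ) := hwl.memLp.toLp w with hu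
    have hcoe : (u : Bun Γ (Bundle X Γ) → ℂ) = w := coe_toLp' hwl
    have huW : u ∈ up W := by rw [mem_up, hcoe]; exact hw
    have h1 := many_b hκ0 hT.vol_pos hT.norm_le hT.size_le (W := up W) lam hK
      (fun x hx u hu => by
        apply coe_eq
        intro b
        rw [coe_op, coe_smul]
        exact congrFun (hW.eigen x hx _ hu) b)
      (fun x hx u hu => by
        apply coe_eq
        intro b
        rw [coe_op, coe_smul]
        exact congrFun (hW.eigen_star x hx _ hu) b)
      b.out huW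
    rw [cls_out, hcoe, ← nrm_coe, hcoe] at h1
    show ‖w b‖ ^ 2 ≤ 4 * κ / B.card * autNum b.out (4 * D) * nrm w
    rw [div_mul_eq_mul_div, div_mul_eq_mul_div, le_div_iff₀ hcard]
    refine le_trans (le_of_eq ?_) h1
    ring

lemma autNum_smul (g : Γ) (P : Bundle X Γ) (n : ℕ) : autNum (g • P) n = autNum P n := by
  unfold autNum
  have hmaps : ∀ (g : Γ) (P : Bundle X Γ), {k : Γ | X.dist (k • g • P) (g • P) ≤ n}.ncard ≤
      {k : Γ | X.dist (k • P) P ≤ n}.ncard := by
    intro g P
    refine Set.ncard_le_ncard_of_injOn (fun k => g⁻¹ * k * g) ?_ ?_ (near_fin X P n)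
    · intro k hk
      have hk' : X.dist (k • g • P) (g • P) ≤ n := hk
      show X.dist ((g⁻¹ * k * g) • P) P ≤ n
      rw [← dist_smul X g]
      have e : g • (g⁻¹ * k * g) • P = k • g • P := by
        rw [smul_smul, smul_smul]
        congr 1
        group
      rw [e]
      exact hk'
    · intro k _ k' _ hkk
      have : g⁻¹ * k * g = g⁻¹ * k' * g := hkk
      have h1 := mul_right_cancel this
      exact mul_left_cancel h1
  apply le_antisymm (hmaps g P)
  have h2 := hmaps g⁻¹ (g • P)
  rw [inv_smul_smul] at h2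
  exact h2

theorem autOn_triv (n : ℕ) (hn : X.Gon n) :
    autOn {cls Γ (Bundle X Γ) (triv X Γ)} n = 1 := by
  unfold autOn
  rw [Finset.sum_singleton]
  obtain ⟨g, hg⟩ := exists_out (G := Γ) (triv X Γ)
  have h1 : autNum (cls Γ (Bundle X Γ) (triv X Γ)).out n = autNum (triv X Γ) n := by
    rw [hg, autNum_smul]
  have h2 : autNum (triv X Γ) n = Nat.card (MulAction.stabilizer Γ (triv X Γ)) := by
    unfold autNum
    rw [show Nat.card (MulAction.stabilizer Γ (triv X Γ)) =
      ((MulAction.stabilizer Γ (triv X Γ) : Subgroup Γ) : Set Γ).ncard from rfl]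
    congr 1
    ext g
    constructor
    · intro hg
      exact gon X hn g hg
    · intro hg
      have hg1 : g • triv X Γ = triv X Γ := hg
      show X.dist (g • triv X Γ) (triv X Γ) ≤ _
      rw [hg1, dist_self]
      exact Nat.zero_le _
  rw [h1, h2]
  have h3 := card_mass (G := Γ) (triv X Γ)
  rw [mul_comm]
  exact_mod_cast h3

end Pool.Agent.Helper80.AT
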