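import Pool.Agent.Helper80.AT.ChH
import Pool.Agent.Helper80.AT.ManyFn

/-! Operators on l2(Y) as operators on L2 of the quotient of Y by the trivial group. -/

open scoped ENNReal NNReal InnerProductSpace
open MeasureTheory

namespace Pool.Agent.Helper80.AT

/-- the trivial group -/
def TG : Type := Unit

instance : Group TG := inferInstanceAs (Group Unit)

instance : Unique TG := inferInstanceAs (Unique Unit)

instance : Finite TG := inferInstanceAs (Finite Unit)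

instance tgAct (Y : Type) : MulAction TG Y where
  smul _ y := y
  one_smul _ := rfl
  mul_smul _ _ _ := rfl

section

variable {Y : Type}

lemma tg_cls {P Q : Y} (h : cls TG Y P = cls TG Y Q) : P = Q := by
  have h1 : (MulAction.orbitRel TG Y) P Q := Quotient.exact h
  obtain ⟨g, hg⟩ := MulAction.orbitRel_apply.1 h1
  exact hg.symm

lemma tg_out (P : Y) : (cls TG Y P).out = P := tg_cls (cls_out _)

lemma tg_mass (b : Bun TG Y) : mass b = 1 := by
  unfold mass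
  have h : Nat.card (MulAction.stabilizer TG b.out) = 1 := by
    rw [Nat.card_eq_one_iff_unique]
    exact ⟨inferInstance, ⟨1⟩⟩
  rw [h]
  simp

/-- an element of l2(Y) as a function -/
noncomputable def ev (u : L2 TG Y) : Y → ℂ := fun Q => u (cls TG Y Q)

lemma ev_add (u v : L2 TG Y) : ev (u + v) = ev u + ev v := funext fun _ => coe_add u v _

lemma ev_smul (c : ℂ) (u : L2 TG Y) : ev (c • u) = c • ev u := funext fun _ => coe_smul c u _

lemma ev_zero : ev (0 : L2 TG Y) = 0 := by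
  have := ev_smul (0 : ℂ) (0 : L2 TG Y)
  rwa [zero_smul, zero_smul] at this

lemma tsum_cls (f : Bun TG Y → ℝ≥0∞) : ∑' Q, f (cls TG Y Q) = ∑' b, f b := by
  rw [unfolding (G := TG)]
  refine tsum_congr fun b => ?_
  rw [tg_mass, ENNReal.ofReal_one, one_mul, tsum_eq_single (default : TG)]
  · rw [cls_smul, cls_out]
  · intro g hg
    exact absurd (Unique.eq_default g) hg

lemma ev_sq (u : L2 TG Y) : ∑' Q, ‖ev u Q‖ₑ ^ 2 = ENNReal.ofReal (‖u‖ ^ 2) := by
  rw [norm_sq]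
  unfold ev nsq
  rw [tsum_cls fun b => ‖(u : Bun TG Y → ℂ) b‖ₑ ^ 2]
  refine tsum_congr fun b => ?_
  rw [tg_mass, ENNReal.ofReal_one, one_mul]

lemma ofFn_mem {v : Y → ℂ} (hv : ∑' Q, ‖v Q‖ₑ ^ 2 ≠ ∞) :
    MemLp (fun b : Bun TG Y => v b.out) 2 (bunMeasure TG Y) := by
  rw [memLp_iff]
  unfold nsq
  have h : ∑' b : Bun TG Y, ENNReal.ofReal (mass b) * ‖v b.out‖ₑ ^ 2 = ∑' Q, ‖v Q‖ₑ ^ 2 := by
    rw [← tsum_cls fun b => ENNReal.ofReal (mass b) * ‖v b.out‖ₑ ^ 2]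
    refine tsum_congr fun Q => ?_
    rw [tg_mass, ENNReal.ofReal_one, one_mul, tg_out]
  rw [h]
  exact hv

/-- a square-summable function as an element of l2(Y) -/
noncomputable def ofFn (v : Y → ℂ) (hv : ∑' Q, ‖v Q‖ₑ ^ 2 ≠ ∞) : L2 TG Y := (ofFn_mem hv).toLp _

lemma ev_ofFn (v : Y → ℂ) (hv : ∑' Q, ‖v Q‖ₑ ^ 2 ≠ ∞) : ev (ofFn v hv) = v := by
  funext Q
  unfold ev ofFn
  rw [coe_toLp, tg_out]

end

section

variable {G Y : Type} [Group G] [MulAction G Y]

/-- a kernel, forgetting the group -/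
def Ker.tg (K : Ker G Y) : Ker TG Y where
  k := K.k
  smul _ _ _ := rfl
  finrow := K.finrow
  fincol := K.fincol
  C := K.C
  row := K.row
  col := K.col

lemma ev_op (K : Ker G Y) (u : L2 TG Y) : ev (K.tg.op u) = K.act (ev u) := by
  funext P
  show (K.tg.op u : Bun TG Y → ℂ) (cls TG Y P) = _
  rw [Ker.op_apply, Ker.fn_cls]
  rfl

lemma ev_adj (K : Ker G Y) (u : L2 TG Y) :
    ev (ContinuousLinearMap.adjoint K.tg.op u) = K.star.act (ev u) := by
  rw [adjoint_op]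
  exact ev_op K.star u

lemma tg_norm {K : Ker G Y} {ρ : ℝ≥0} (hK : K.NormLe ρ) (u : L2 TG Y) :
    ‖K.tg.op u‖ ≤ ρ * ‖u‖ := by
  have h1 := hK (ev u)
  rw [← ev_op, ev_sq, ev_sq] at h1
  have e : (ρ : ℝ≥0∞) ^ 2 = ENNReal.ofReal ((ρ : ℝ) ^ 2) := by
    rw [ENNReal.ofReal_pow (by positivity), ENNReal.ofReal_coe_nnreal]
  rw [e, ← ENNReal.ofReal_mul (by positivity), ← mul_pow] at h1
  have h2 := (ENNReal.ofReal_le_ofReal_iff (by positivity)).1 h1
  exact (pow_le_pow_iff_left₀ (norm_nonneg _) (by positivity) two_ne_zero).1 h2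

end

variable {F : Type} [Field F] {X : Places F} {N : ℕ} {Γ : Subgroup (GL (Fin N) F)}

/-- x has support in the ball of radius R about P₀ and u is its periodisation. -/
structure Rel (P₀ : Bundle X Γ) (R : ℕ) (x : L2 TG (Bundle X Γ)) (u : L2 Γ (Bundle X Γ)) :
    Prop where
  supp : ∀ Q, ev x Q ≠ 0 → X.dist P₀ Q ≤ R
  eq : (u : Bun Γ (Bundle X Γ) → ℂ) = per Γ (ev x)

lemma Rel.lf {P₀ : Bundle X Γ} {R : ℕ} {x : L2 TG (Bundle X Γ)} {u : L2 Γ (Bundle X Γ)}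
    (h : Rel P₀ R x u) : LF Γ (ev x) := fun P =>
  ((mult_le P₀ R P).1).subset fun _ hg => h.supp _ hg

/-- The operator a on l2(Y) induces the operator b on L2(Bun) and moves the support by at
most δ. -/
def Tri (P₀ : Bundle X Γ) (δ : ℕ) (a : L2 TG (Bundle X Γ) →L[ℂ] L2 TG (Bundle X Γ))
    (b : L2 Γ (Bundle X Γ) →L[ℂ] L2 Γ (Bundle X Γ)) : Prop :=
  ∀ (R : ℕ) (x : L2 TG (Bundle X Γ)) (u : L2 Γ (Bundle X Γ)), Rel P₀ R x u →
    Rel P₀ (R + δ) (a x) (b u)

lemma Rel.mono {P₀ : Bundle X Γ} {R R' : ℕ} {x : L2 TG (Bundle X Γ)} {u : L2 Γ (Bundle X Γ)}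
    (h : Rel P₀ R x u) (hR : R ≤ R') : Rel P₀ R' x u :=
  ⟨fun Q hQ => (h.supp Q hQ).trans hR, h.eq⟩

lemma per_add' {v w : Bundle X Γ → ℂ} (hv : LF Γ v) (hw : LF Γ w) :
    per Γ (v + w) = per Γ v + per Γ w := by
  funext b
  show ∑ᶠ g : Γ, (v (g • b.out) + w (g • b.out)) = _
  exact finsum_add_distrib (hv _) (hw _)

lemma per_smul (c : ℂ) (v : Bundle X Γ → ℂ) : per Γ (c • v) = c • per Γ v := by
  funext b
  show ∑ᶠ g : Γ, c * v (g • b.out) = c * ∑ᶠ g : Γ, v (g • b.out)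
  exact (mul_finsum _ _).symm

lemma Rel.add {P₀ : Bundle X Γ} {R : ℕ} {x x' : L2 TG (Bundle X Γ)} {u u' : L2 Γ (Bundle X Γ)}
    (h : Rel P₀ R x u) (h' : Rel P₀ R x' u') : Rel P₀ R (x + x') (u + u') := by
  refine ⟨fun Q hQ => ?_, ?_⟩
  · by_contra hc
    apply hQ
    have h1 : ev x Q = 0 := by
      by_contra hne
      exact hc (h.supp Q hne)
    have h2 : ev x' Q = 0 := by
      by_contra hne
      exact hc (h'.supp Q hne)
    rw [ev_add, Pi.add_apply, h1, h2, add_zero]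
  · rw [ev_add, per_add' h.lf h'.lf, ← h.eq, ← h'.eq]
    exact funext fun b => coe_add u u' b

lemma Rel.smul {P₀ : Bundle X Γ} {R : ℕ} {x : L2 TG (Bundle X Γ)} {u : L2 Γ (Bundle X Γ)}
    (h : Rel P₀ R x u) (c : ℂ) : Rel P₀ R (c • x) (c • u) := by
  refine ⟨fun Q hQ => ?_, ?_⟩
  · apply h.supp
    intro h0
    apply hQ
    rw [ev_smul, Pi.smul_apply, h0, smul_zero]
  · rw [ev_smul, per_smul, ← h.eq]
    exact funext fun b => coe_smul c u b

lemma rel_zero (P₀ : Bundle X Γ) (R : ℕ) :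
    Rel P₀ R (0 : L2 TG (Bundle X Γ)) (0 : L2 Γ (Bundle X Γ)) := by
  refine ⟨fun Q hQ => ?_, ?_⟩
  · rw [ev_zero] at hQ
    exact absurd rfl hQ
  · rw [ev_zero]
    funext b
    have h1 := coe_smul (0 : ℂ) (0 : L2 Γ (Bundle X Γ)) b
    rw [zero_smul, zero_mul] at h1
    rw [h1]
    show _ = ∑ᶠ g : Γ, (0 : ℂ)
    rw [finsum_zero]

variable {P₀ : Bundle X Γ}

lemma Tri.one : Tri P₀ 0 1 1 := fun _ _ _ h => h

lemma Tri.zero (δ : ℕ) : Tri P₀ δ 0 0 := fun _ _ _ _ => rel_zero _ _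

lemma Tri.mono {δ δ' : ℕ} {a : L2 TG (Bundle X Γ) →L[ℂ] L2 TG (Bundle X Γ)}
    {b : L2 Γ (Bundle X Γ) →L[ℂ] L2 Γ (Bundle X Γ)} (h : Tri P₀ δ a b) (hδ : δ ≤ δ') :
    Tri P₀ δ' a b := fun R x u hr => (h R x u hr).mono (by omega)

lemma Tri.mul {δ δ' : ℕ} {a a' : L2 TG (Bundle X Γ) →L[ℂ] L2 TG (Bundle X Γ)}
    {b b' : L2 Γ (Bundle X Γ) →L[ℂ] L2 Γ (Bundle X Γ)} (h : Tri P₀ δ a b)
    (h' : Tri P₀ δ' a' b') : Tri P₀ (δ + δ') (a * a') (b * b') := by
  intro R x u hr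
  exact (h _ _ _ (h' R x u hr)).mono (by omega)

lemma Tri.add {δ : ℕ} {a a' : L2 TG (Bundle X Γ) →L[ℂ] L2 TG (Bundle X Γ)}
    {b b' : L2 Γ (Bundle X Γ) →L[ℂ] L2 Γ (Bundle X Γ)} (h : Tri P₀ δ a b)
    (h' : Tri P₀ δ a' b') : Tri P₀ δ (a + a') (b + b') :=
  fun R x u hr => (h R x u hr).add (h' R x u hr)

lemma Tri.smul {δ : ℕ} {a : L2 TG (Bundle X Γ) →L[ℂ] L2 TG (Bundle X Γ)}
    {b : L2 Γ (Bundle X Γ) →L[ℂ] L2 Γ (Bundle X Γ)} (h : Tri P₀ δ a b) (c : ℂ) :
    Tri P₀ δ (c • a) (c • b) := fun R x u hr => (h R x u hr).smul c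

lemma Tri.sub {δ : ℕ} {a a' : L2 TG (Bundle X Γ) →L[ℂ] L2 TG (Bundle X Γ)}
    {b b' : L2 Γ (Bundle X Γ) →L[ℂ] L2 Γ (Bundle X Γ)} (h : Tri P₀ δ a b)
    (h' : Tri P₀ δ a' b') : Tri P₀ δ (a - a') (b - b') := by
  have := h.add (h'.smul (-1))
  rwa [neg_one_smul, neg_one_smul, ← sub_eq_add_neg, ← sub_eq_add_neg] at this

lemma Tri.sum {ι : Type*} (s : Finset ι) {δ : ℕ}
    {a : ι → L2 TG (Bundle X Γ) →L[ℂ] L2 TG (Bundle X Γ)}
    {b : ι → L2 Γ (Bundle X Γ) →L[ℂ] L2 Γ (Bundle X Γ)} (h : ∀ i ∈ s, Tri P₀ δ (a i) (b i)) :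
    Tri P₀ δ (∑ i ∈ s, a i) (∑ i ∈ s, b i) := by
  classical
  induction s using Finset.induction_on with
  | empty =>
    rw [Finset.sum_empty, Finset.sum_empty]
    exact Tri.zero δ
  | insert i s hi ih =>
    rw [Finset.sum_insert hi, Finset.sum_insert hi]
    exact (h i (by simp)).add (ih fun j hj => h j (by simp [hj]))

/-- a kernel vanishing at distances greater than δ -/
def Ker.Loc (K : Ker Γ (Bundle X Γ)) (δ : ℕ) : Prop := ∀ P Q, K.k P Q ≠ 0 → X.dist P Q ≤ δ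

lemma Ker.Loc.star {K : Ker Γ (Bundle X Γ)} {δ : ℕ} (h : K.Loc δ) : K.star.Loc δ := by
  intro P Q hPQ
  rw [dist_comm]
  apply h
  intro h0
  apply hPQ
  show starRingEnd ℂ (K.k Q P) = 0
  rw [h0, map_zero]

lemma Tri.ker {K : Ker Γ (Bundle X Γ)} {δ : ℕ} (h : K.Loc δ) : Tri P₀ δ K.tg.op K.op := by
  intro R x u hr
  refine ⟨fun Q hQ => ?_, ?_⟩
  · rw [ev_op] at hQ
    obtain ⟨Q', hQ'⟩ : ∃ Q', K.k Q Q' * ev x Q' ≠ 0 := by
      by_contra hc
      push Not at hc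
      apply hQ
      unfold Ker.act
      simp [hc]
    have h1 := h Q Q' (left_ne_zero_of_mul hQ')
    have h2 := hr.supp Q' (right_ne_zero_of_mul hQ')
    have h3 := dist_triangle X P₀ Q' Q
    rw [dist_comm X Q' Q] at h3
    omega
  · rw [ev_op, ← per_act hr.lf, ← hr.eq]
    exact funext fun b => K.op_apply u b

lemma Tri.ker_adj {K : Ker Γ (Bundle X Γ)} {δ : ℕ} (h : K.Loc δ) :
    Tri P₀ δ (ContinuousLinearMap.adjoint K.tg.op) (ContinuousLinearMap.adjoint K.op) := by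
  rw [adjoint_op, adjoint_op]
  exact Tri.ker h.star

lemma loc_hecke (T : Hecke X Γ) : (heckeKer T.fn).Loc (X.deg T.x * T.rad) := by
  intro P Q hPQ
  obtain ⟨h1, h2⟩ := entry_ne hPQ
  refine (dist_le_of X P Q (Finsupp.single T.x T.rad) ?_).trans (le_of_eq ?_)
  · intro v
    by_cases hv : v = T.x
    · subst hv
      rw [Finsupp.single_eq_same]
      exact T.rad_le _ h2
    · rw [h1 v hv, d_self]
      exact Nat.zero_le _
  · unfold ddeg
    rw [Finsupp.sum_single_index]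
    simp

/-- The product of the operators in a list, on l2(Y). -/
noncomputable def tgWord (L : List (Hecke X Γ)) :
    L2 TG (Bundle X Γ) →L[ℂ] L2 TG (Bundle X Γ) :=
  (L.map fun T => (heckeKer T.fn).tg.op).prod

lemma tri_word (L : List (Hecke X Γ)) : Tri P₀ (wordSize L) (tgWord L) (wordOp L) ∧
    Tri P₀ (wordSize L) (ContinuousLinearMap.adjoint (tgWord L))
      (ContinuousLinearMap.adjoint (wordOp L)) := by
  induction L with
  | nil =>
    refine ⟨Tri.one, ?_⟩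
    have e1 : ContinuousLinearMap.adjoint (tgWord ([] : List (Hecke X Γ))) = 1 := by
      rw [← ContinuousLinearMap.star_eq_adjoint]
      exact star_one _
    have e2 : ContinuousLinearMap.adjoint (wordOp ([] : List (Hecke X Γ))) = 1 := by
      rw [← ContinuousLinearMap.star_eq_adjoint]
      exact star_one _
    rw [e1, e2]
    exact Tri.one
  | cons T L ih =>
    have h1 : wordSize (T :: L) = X.deg T.x * T.rad + wordSize L := by
      unfold wordSize
      rw [List.map_cons, List.sum_cons]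
    have e1 : tgWord (T :: L) = (heckeKer T.fn).tg.op * tgWord L := by
      unfold tgWord
      rw [List.map_cons, List.prod_cons]
    have e2 : wordOp (T :: L) = (heckeKer T.fn).op * wordOp L := by
      unfold wordOp
      rw [List.map_cons, List.prod_cons]
      rfl
    rw [h1, e1, e2]
    refine ⟨(Tri.ker (loc_hecke T)).mul ih.1, ?_⟩
    simp only [← ContinuousLinearMap.star_eq_adjoint, star_mul]
    simp only [ContinuousLinearMap.star_eq_adjoint]
    exact (ih.2.mul (Tri.ker_adj (loc_hecke T))).mono (by omega)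

lemma tgWord_norm (L : List (Hecke X Γ)) (u : L2 TG (Bundle X Γ)) :
    ‖tgWord L u‖ ≤ wordNorm L * ‖u‖ := by
  induction L with
  | nil =>
    show ‖u‖ ≤ wordNorm [] * ‖u‖
    simp [wordNorm]
  | cons T L ih =>
    have e1 : tgWord (T :: L) u = (heckeKer T.fn).tg.op (tgWord L u) := by
      unfold tgWord
      rw [List.map_cons, List.prod_cons]
      rfl
    have e2 : wordNorm (T :: L) = T.norm * wordNorm L := by
      unfold wordNorm
      rw [List.map_cons, List.prod_cons]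
    rw [e1, e2]
    refine (tg_norm (normLe T.norm_le) _).trans ?_
    calc (T.norm : ℝ) * ‖tgWord L u‖ ≤ T.norm * (wordNorm L * ‖u‖) := by gcongr
      _ = _ := by ring

end Pool.Agent.Helper80.AT
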