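import Mathlib

/-! Bundles on a curve over a finite field, without adeles; Hecke operators. The definitions. -/

open scoped ENNReal NNReal
open MeasureTheory

namespace Pool.Agent.Helper80.AT

section

variable (G Y : Type) [Group G] [MulAction G Y]

/-- The set of orbits. -/
abbrev Bun := MulAction.orbitRel.Quotient G Y

/-- The orbit of a point. -/
abbrev cls (P : Y) : Bun G Y := Quotient.mk'' P

variable {G Y}

/-- The mass 1/|Stab| of an orbit. -/
noncomputable def mass (b : Bun G Y) : ℝ := 1 / Nat.card (MulAction.stabilizer G b.out)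

/-- The squared norm: every class has mass 1/|Aut|. -/
noncomputable def nrm (f : Bun G Y → ℂ) : ℝ := ∑' b, mass b * ‖f b‖ ^ 2

/-- Square-summable functions. -/
def IsL2 (f : Bun G Y → ℂ) : Prop := Summable fun b => mass b * ‖f b‖ ^ 2

end

/-- The function field F of a curve over a finite field with its places (closed points): normalised
discrete valuations with degrees; every nonzero element is a unit at almost all places, there are
finitely many places of every degree, and all spaces of sections L(D) are finite. -/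
structure Places (F : Type) [Field F] where
  /-- the set of places -/
  V : Type
  /-- the valuations -/
  val : V → Valuation F (WithZero (Multiplicative ℤ))
  surj : ∀ v, Function.Surjective (val v)
  /-- the degrees -/
  deg : V → ℕ
  deg_pos : ∀ v, 0 < deg v
  deg_fin : ∀ n, {v | deg v ≤ n}.Finite
  unit_fin : ∀ f : F, f ≠ 0 → {v | val v f ≠ 1}.Finite
  sections_fin : ∀ D : V →₀ ℕ, {f : F | ∀ v, val v f ≤ WithZero.exp (D v : ℤ)}.Finite

section

variable {F : Type} [Field F] (X : Places F) {N : ℕ}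

/-- The order of the pole of f at v (0 if f is regular at v). -/
def Places.pole (v : X.V) (f : F) : ℕ := (WithZero.log (X.val v f)).toNat

/-- The degree of the polar divisor of f. -/
noncomputable def Places.poles (f : F) : ℕ := ∑ᶠ v, X.deg v * X.pole v f

/-- The largest order of a pole at v of an entry of g or of the inverse of g. -/
def Places.size (v : X.V) (g : GL (Fin N) F) : ℕ :=
  Finset.univ.sup fun ij : Fin N × Fin N =>
    max (X.pole v ((g : Matrix (Fin N) (Fin N) F) ij.1 ij.2))
      (X.pole v (((g⁻¹ : GL (Fin N) F) : Matrix (Fin N) (Fin N) F) ij.1 ij.2))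

variable (Γ : Subgroup (GL (Fin N) F))

/-- pole order of a product -/
lemma Places.pole_le_iff (v : X.V) (f : F) (n : ℕ) :
    X.pole v f ≤ n ↔ X.val v f ≤ WithZero.exp (n : ℤ) := by
  unfold Places.pole
  rw [Int.toNat_le]
  rcases eq_or_ne (X.val v f) 0 with h | h
  · rw [h]
    simp
  · exact WithZero.log_le_iff_le_exp h

lemma Places.pole_mul_le (v : X.V) (f g : F) : X.pole v (f * g) ≤ X.pole v f + X.pole v g := by
  rw [X.pole_le_iff, map_mul]
  push_cast
  rw [WithZero.exp_add]
  exact mul_le_mul' ((X.pole_le_iff v f _).1 le_rfl) ((X.pole_le_iff v g _).1 le_rfl)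

lemma Places.pole_sum_le {ι : Type} (s : Finset ι) (v : X.V) (f : ι → F) (n : ℕ)
    (h : ∀ i ∈ s, X.pole v (f i) ≤ n) : X.pole v (∑ i ∈ s, f i) ≤ n := by
  rw [X.pole_le_iff]
  exact Valuation.map_sum_le _ fun i hi => (X.pole_le_iff v _ _).1 (h i hi)

@[simp] lemma Places.pole_one (v : X.V) : X.pole v (1 : F) = 0 := by
  simp [Places.pole]

@[simp] lemma Places.pole_zero (v : X.V) : X.pole v (0 : F) = 0 := by
  simp [Places.pole]

lemma Places.size_le_iff (v : X.V) (g : GL (Fin N) F) (n : ℕ) :
    X.size v g ≤ n ↔ (∀ i j, X.pole v ((g : Matrix (Fin N) (Fin N) F) i j) ≤ n) ∧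
      ∀ i j, X.pole v (((g⁻¹ : GL (Fin N) F) : Matrix (Fin N) (Fin N) F) i j) ≤ n := by
  unfold Places.size
  simp only [Finset.sup_le_iff, Finset.mem_univ, true_implies, max_le_iff, Prod.forall]
  constructor
  · intro h
    exact ⟨fun i j => (h i j).1, fun i j => (h i j).2⟩
  · intro h i j
    exact ⟨h.1 i j, h.2 i j⟩

@[simp] lemma Places.size_inv (v : X.V) (g : GL (Fin N) F) : X.size v g⁻¹ = X.size v g := by
  apply le_antisymm
  · rw [X.size_le_iff]
    have := (X.size_le_iff v g _).1 le_rfl
    exact ⟨this.2, by rw [inv_inv]; exact this.1⟩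
  · rw [X.size_le_iff]
    have := (X.size_le_iff v g⁻¹ _).1 le_rfl
    rw [inv_inv] at this
    exact ⟨this.2, this.1⟩

@[simp] lemma Places.size_one (v : X.V) : X.size v (1 : GL (Fin N) F) = 0 := by
  apply Nat.le_zero.1
  rw [X.size_le_iff]
  constructor
  · intro i j
    rw [Units.val_one, Matrix.one_apply]
    split_ifs <;> simp
  · intro i j
    rw [inv_one, Units.val_one, Matrix.one_apply]
    split_ifs <;> simp

lemma Places.size_mul_le (v : X.V) (g h : GL (Fin N) F) :
    X.size v (g * h) ≤ X.size v g + X.size v h := by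
  have key : ∀ a b : GL (Fin N) F, ∀ i j,
      X.pole v (((a * b : GL (Fin N) F) : Matrix (Fin N) (Fin N) F) i j) ≤
        X.size v a + X.size v b := by
    intro a b i j
    rw [Units.val_mul, Matrix.mul_apply]
    apply X.pole_sum_le
    intro k _
    refine (X.pole_mul_le v _ _).trans (Nat.add_le_add ?_ ?_)
    · exact ((X.size_le_iff v a _).1 le_rfl).1 i k
    · exact ((X.size_le_iff v b _).1 le_rfl).1 k j
  rw [X.size_le_iff]
  refine ⟨key g h, ?_⟩
  intro i j
  rw [mul_inv_rev]
  refine (key _ _ i j).trans (le_of_eq ?_)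
  rw [X.size_inv, X.size_inv, add_comm]

/-- The integral subgroup at v: the elements g of Γ such that g and its inverse are regular
at v. -/
def Places.K (v : X.V) : Subgroup Γ where
  carrier := {g | X.size v (g : GL (Fin N) F) = 0}
  mul_mem' := by
    intro a b ha hb
    have := X.size_mul_le v (a : GL (Fin N) F) b
    rw [Set.mem_ofPred_eq] at ha hb ⊢
    rw [ha, hb] at this
    simpa using this
  one_mem' := by simp
  inv_mem' := by
    intro a ha
    rw [Set.mem_ofPred_eq] at ha ⊢
    rw [InvMemClass.coe_inv, X.size_inv]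
    exact ha

lemma Places.mem_K {v : X.V} {g : Γ} : g ∈ X.K Γ v ↔ X.size v (g : GL (Fin N) F) = 0 := Iff.rfl

/-- The points of the sum of the quotients Γ/K_v: a coset for every place, almost all trivial.
For Γ = G(F) this is the set of G-bundles with a rational trivialisation. -/
@[ext] structure Bundle where
  /-- the coset at v -/
  c : (v : X.V) → Γ ⧸ X.K Γ v
  fin : {v | c v ≠ ((1 : Γ) : Γ ⧸ X.K Γ v)}.Finite


variable {Γ}

lemma Places.size_fin (g : GL (Fin N) F) : {v | X.size v g ≠ 0}.Finite := by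
  have h1 : ∀ f : F, {v | X.pole v f ≠ 0}.Finite := by
    intro f
    rcases eq_or_ne f 0 with h | h
    · subst h; simp
    · refine (X.unit_fin f h).subset ?_
      intro v hv h1
      apply hv
      simp [Places.pole, h1]
  have h2 : {v | X.size v g ≠ 0} ⊆
      (⋃ i, ⋃ j, {v | X.pole v ((g : Matrix (Fin N) (Fin N) F) i j) ≠ 0}) ∪
      (⋃ i, ⋃ j, {v | X.pole v (((g⁻¹ : GL (Fin N) F) : Matrix (Fin N) (Fin N) F) i j) ≠ 0}) := by
    intro v hv
    by_contra h
    apply hv
    simp only [Set.mem_union, Set.mem_iUnion, not_or, not_exists] at h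
    apply Nat.le_zero.1
    rw [X.size_le_iff]
    refine ⟨fun i j => ?_, fun i j => ?_⟩
    · have := h.1 i j
      simp only [Set.mem_ofPred_eq, not_not] at this
      exact this.le
    · have := h.2 i j
      simp only [Set.mem_ofPred_eq, not_not] at this
      exact this.le
  refine Set.Finite.subset ?_ h2
  exact (Set.finite_iUnion fun i => Set.finite_iUnion fun j => h1 _).union
    (Set.finite_iUnion fun i => Set.finite_iUnion fun j => h1 _)

lemma smul_fin (g : Γ) (P : Bundle X Γ) :
    {v | g • P.c v ≠ ((1 : Γ) : Γ ⧸ X.K Γ v)}.Finite := by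
  refine ((P.fin).union (X.size_fin (g : GL (Fin N) F))).subset ?_
  intro v hv
  by_contra h
  simp only [Set.mem_union, Set.mem_ofPred_eq, not_or, not_not] at h
  apply hv
  rw [h.1]
  show ((g * 1 : Γ) : Γ ⧸ X.K Γ v) = _
  rw [mul_one]
  apply Eq.symm
  rw [QuotientGroup.eq, inv_one, one_mul]
  exact h.2

/-- Γ acts diagonally. -/
instance : MulAction Γ (Bundle X Γ) where
  smul g P := ⟨fun v => g • P.c v, smul_fin X g P⟩
  one_smul P := Bundle.ext (funext fun v => one_smul Γ (P.c v))
  mul_smul g h P := Bundle.ext (funext fun v => mul_smul g h (P.c v))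

lemma smul_apply (g : Γ) (P : Bundle X Γ) (v : X.V) : (g • P).c v = g • P.c v := rfl

variable (Γ) in
/-- The trivial bundle. -/
def triv : Bundle X Γ := ⟨fun _ => ((1 : Γ) : Γ ⧸ X.K Γ _), by simp⟩

/-- The local distance: the largest order of a pole at v of an entry of the matrix g⁻¹h or of its
inverse, for the cosets gK_v and hK_v. -/
noncomputable def Places.d (v : X.V) (a b : Γ ⧸ X.K Γ v) : ℕ :=
  X.size v ((a.out⁻¹ * b.out : Γ) : GL (Fin N) F)

/-- The distance of two bundles: the sum of the local distances weighted by the degrees of the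
places. -/
noncomputable def Places.dist (P Q : Bundle X Γ) : ℕ :=
  ∑ᶠ v, X.deg v * X.d v (P.c v) (Q.c v)

variable (Γ) in
/-- A Hecke function at the place x: a function on Γ, bi-invariant under K_x and supported on
finitely many left cosets and finitely many right cosets of K_x. -/
structure HeckeFn (x : X.V) where
  /-- the function -/
  h : Γ → ℂ
  biinv : ∀ k ∈ X.K Γ x, ∀ k' ∈ X.K Γ x, ∀ g, h (k * g * k') = h g
  finL : {a : Γ ⧸ X.K Γ x | h a.out ≠ 0}.Finite
  finR : {a : Γ ⧸ X.K Γ x | h (a.out)⁻¹ ≠ 0}.Finite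

end

section

variable {F : Type} [Field F] {X : Places F} {N : ℕ} {Γ : Subgroup (GL (Fin N) F)} {x : X.V}

open Classical in
/-- The entries of the Hecke operator of h: h(g⁻¹g') for bundles P, Q that agree outside x, with
cosets gK_x and g'K_x at x. -/
noncomputable def entry (h : HeckeFn X Γ x) (P Q : Bundle X Γ) : ℂ :=
  if ∀ v, v ≠ x → P.c v = Q.c v then h.h ((P.c x).out⁻¹ * (Q.c x).out) else 0

/-- The convolution operator with h on l2(Γ/K_x) has norm at most ρ. -/
def LocalNormLe (h : HeckeFn X Γ x) (ρ : ℝ≥0) : Prop :=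
  ∀ (f : (Γ ⧸ X.K Γ x) →₀ ℂ) (S : Finset (Γ ⧸ X.K Γ x)),
    ∑ a ∈ S, ‖∑ b ∈ f.support, h.h (a.out⁻¹ * b.out) * f b‖ ^ 2 ≤
      (ρ : ℝ) ^ 2 * ∑ b ∈ f.support, ‖f b‖ ^ 2

/-- The norm of the convolution operator with h on l2(Γ/K_x). -/
noncomputable def HeckeFn.norm (h : HeckeFn X Γ x) : ℝ≥0 := sInf {ρ : ℝ≥0 | LocalNormLe h ρ}

/-- The largest order of a pole at x of the matrices in the support of h (and of their
inverses). -/
noncomputable def HeckeFn.rad (h : HeckeFn X Γ x) : ℕ :=
  (h.finL).toFinset.sup fun a => X.size x ((a.out : Γ) : GL (Fin N) F)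

/-- The adjoint Hecke function: the conjugate of h(g⁻¹). -/
noncomputable def HeckeFn.star {x : X.V} (h : HeckeFn X Γ x) : HeckeFn X Γ x where
  h g := starRingEnd ℂ (h.h g⁻¹)
  biinv := by
    intro k hk k' hk' g
    congr 1
    have : (k * g * k')⁻¹ = k'⁻¹ * g⁻¹ * k⁻¹ := by group
    rw [this]
    exact h.biinv _ (inv_mem hk') _ (inv_mem hk) _
  finL := by
    refine (h.finR).subset ?_
    intro a ha h0
    exact ha (by rw [h0, map_zero])
  finR := by
    refine (h.finL).subset ?_
    intro a ha h0
    apply ha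
    rw [inv_inv, h0, map_zero]

/-- The squared norm of h on Γ/K_x. -/
noncomputable def HeckeFn.vol (h : HeckeFn X Γ x) : ℝ := ∑ᶠ a : Γ ⧸ X.K Γ x, ‖h.h a.out‖ ^ 2

end

section

variable {F : Type} [Field F] (X : Places F) {N : ℕ} (Γ : Subgroup (GL (Fin N) F))

/-- A Hecke operator: a place x and a Hecke function at x. -/
structure Hecke where
  /-- the place -/
  x : X.V
  /-- the function -/
  fn : HeckeFn X Γ x

variable {Γ} {X}

/-- The norm on l2(Γ/K_x). -/
noncomputable def Hecke.norm (T : Hecke X Γ) : ℝ≥0 := T.fn.norm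

/-- The largest order of a pole at x of the matrices in the support. -/
noncomputable def Hecke.rad (T : Hecke X Γ) : ℕ := T.fn.rad

/-- The product of the local norms. -/
noncomputable def wordNorm (L : List (Hecke X Γ)) : ℝ := (L.map fun T => (T.norm : ℝ)).prod

/-- The total size of the modifications. -/
noncomputable def wordSize (L : List (Hecke X Γ)) : ℕ := (L.map fun T => X.deg T.x * T.rad).sum

/-- The number of meromorphic automorphisms of P with at most n poles. -/
noncomputable def autNum (P : Bundle X Γ) (n : ℕ) : ℕ := {g : Γ | X.dist (g • P) P ≤ n}.ncard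

/-- The adjoint Hecke operator. -/
noncomputable def Hecke.star (T : Hecke X Γ) : Hecke X Γ := ⟨T.x, T.fn.star⟩

/-- The Hecke operator on functions on the set of classes of bundles:
(T f)(P) = sum over Q of h(g⁻¹g') f(Q), over the bundles Q that agree with P outside x, where
gK_x and g'K_x are the cosets of P and Q at x. -/
noncomputable def Hecke.fnOp (T : Hecke X Γ) (f : Bun Γ (Bundle X Γ) → ℂ) :
    Bun Γ (Bundle X Γ) → ℂ :=
  fun b => ∑ᶠ Q : Bundle X Γ, entry T.fn b.out Q * f (cls Γ (Bundle X Γ) Q)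

/-- The product of the operators in a list. -/
noncomputable def wordFn (L : List (Hecke X Γ)) (f : Bun Γ (Bundle X Γ) → ℂ) :
    Bun Γ (Bundle X Γ) → ℂ :=
  L.foldr (fun T f => T.fnOp f) f

/-- The set of isomorphism classes of bundles: the orbits of Γ in the set of bundles with a
rational trivialisation. -/
abbrev Classes (X : Places F) (Γ : Subgroup (GL (Fin N) F)) : Type := Bun Γ (Bundle X Γ)

/-- The sum of |w|²/|Aut| over the classes in S. -/
noncomputable def massOn (S : Finset (Classes X Γ)) (w : Classes X Γ → ℂ) : ℝ :=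
  ∑ b ∈ S, mass b * ‖w b‖ ^ 2

/-- The squared norm: the sum of |w|²/|Aut| over all classes. -/
noncomputable def sqNorm (w : Classes X Γ → ℂ) : ℝ := nrm w

/-- All classes in S have a point at distance at most R from P₀. -/
def Near (P₀ : Bundle X Γ) (R : ℕ) (S : Finset (Classes X Γ)) : Prop :=
  ∀ b ∈ S, ∃ Q, X.dist P₀ Q ≤ R ∧ cls Γ (Bundle X Γ) Q = b

/-- A function whose polar divisor has degree at most m has no poles. -/
def Places.Gon (X : Places F) (m : ℕ) : Prop := ∀ f : F, X.poles f ≤ m → ∀ v, X.pole v f = 0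

/-- W consists of square-summable functions, is stable under the operators in the lists and under
their adjoints, and the products T_j of the lists have A²‖w‖² ≤ Σ_j ‖T_j w‖² on W. -/
structure Bounded {J : Type} [Fintype J] (W : Submodule ℂ (Classes X Γ → ℂ))
    (L : J → List (Hecke X Γ)) (A : ℝ) : Prop where
  pos : 0 < A
  l2 : ∀ w ∈ W, IsL2 w
  stable : ∀ j, ∀ T ∈ L j, ∀ w ∈ W, T.fnOp w ∈ W ∧ T.star.fnOp w ∈ W
  lower : ∀ w ∈ W, A ^ 2 * sqNorm w ≤ ∑ j, sqNorm (wordFn (L j) w)

/-- The number Σ_j ρ(T_j)² / A², where ρ(T_j) is the product of the norms on l2(Γ/K_x) of the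
factors of T_j. -/
noncomputable def theta {J : Type} [Fintype J] (L : J → List (Hecke X Γ)) (A : ℝ) : ℝ :=
  (∑ j, wordNorm (L j) ^ 2) / A ^ 2

/-- The sum over b in S of the number of g in Γ with dist(gP, P) ≤ m divided by |Aut P|, where P
is the chosen point of b. -/
noncomputable def autOn (S : Finset (Classes X Γ)) (m : ℕ) : ℝ := ∑ b ∈ S, autNum b.out m * mass b

/-- A function vanishes outside S. -/
def SuppIn (S : Finset (Classes X Γ)) (w : Classes X Γ → ℂ) : Prop := ∀ b, b ∉ S → w b = 0

/-- An orthonormal family: the squared norm of a linear combination is the sum of the squared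
absolute values of the coefficients. -/
def OrthoFam {I : Type} [Fintype I] (w : I → Classes X Γ → ℂ) : Prop :=
  ∀ c : I → ℂ, sqNorm (∑ i, c i • w i) = ∑ i, ‖c i‖ ^ 2

/-- The trace of W on S is at most c: an orthonormal family in W has total mass at most c on S;
and W has dimension at most c if it vanishes outside S. -/
structure TraceLe (W : Submodule ℂ (Classes X Γ → ℂ)) (S : Finset (Classes X Γ)) (c : ℝ) :
    Prop where
  trace : ∀ {I : Type} [Fintype I] (w : I → Classes X Γ → ℂ), (∀ i, w i ∈ W) → OrthoFam w →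
    ∑ i, massOn S (w i) ≤ c
  dim : (∀ w ∈ W, SuppIn S w) → FiniteDimensional ℂ W ∧ (Module.finrank ℂ W : ℝ) ≤ c

end

section

variable {F : Type} [Field F] {X : Places F} {N : ℕ} {Γ : Subgroup (GL (Fin N) F)}

/-- The operator at x. -/
noncomputable def at' (h : (x : X.V) → HeckeFn X Γ x) (x : X.V) : Hecke X Γ := ⟨x, h x⟩

/-- The functions h_x, x in B, are not zero, their norms on l2(Γ/K_x) as convolution operators are
at most sqrt κ times their l2 norms, and deg x * rad h_x is at most D. -/
structure TestFamily (B : Finset X.V) (h : (x : X.V) → HeckeFn X Γ x) (κ : ℝ) (D : ℕ) : Prop where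
  vol_pos : ∀ x ∈ B, 0 < (h x).vol
  norm_le : ∀ x ∈ B, ((h x).norm : ℝ) ^ 2 ≤ κ * (h x).vol
  size_le : ∀ x ∈ B, X.deg x * (h x).rad ≤ D

/-- W consists of square-summable functions, is stable under the operators T_x of h_x and their
adjoints, and on W the operators T_x T_x* are, for every x in B, at least (1+α) vol h_x
(if ε_x = 1) or at most (1-α) vol h_x (if ε_x = -1). -/
structure Biased (W : Submodule ℂ (Classes X Γ → ℂ)) (B : Finset X.V)
    (h : (x : X.V) → HeckeFn X Γ x) (α : ℝ) (ε : X.V → ℝ) : Prop where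
  l2 : ∀ w ∈ W, IsL2 w
  stable : ∀ x ∈ B, ∀ w ∈ W, (at' h x).fnOp w ∈ W ∧ (at' h x).star.fnOp w ∈ W
  sign : ∀ x ∈ B, ε x = 1 ∨ ε x = -1
  bias : ∀ x ∈ B, ∀ w ∈ W, α * (h x).vol * sqNorm w ≤
    ε x * (sqNorm ((at' h x).star.fnOp w) - (h x).vol * sqNorm w)

/-- W consists of square-summable joint eigenfunctions of the operators of h_x and their adjoints,
with eigenvalues lam x and its conjugate. -/
structure JointEigen (W : Submodule ℂ (Classes X Γ → ℂ)) (B : Finset X.V)
    (h : (x : X.V) → HeckeFn X Γ x) (lam : X.V → ℂ) : Prop where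
  l2 : ∀ w ∈ W, IsL2 w
  eigen : ∀ x ∈ B, ∀ w ∈ W, (at' h x).fnOp w = lam x • w
  eigen_star : ∀ x ∈ B, ∀ w ∈ W, (at' h x).star.fnOp w = starRingEnd ℂ (lam x) • w

/-- W consists of square-summable functions, is stable under the operators T_x of h_x and their
adjoints, |ε_x| ≤ 1, and the sum over x in B of ε_x (|T_x* w|²/|h_x|² - |w|²) is at least
α #B |w|² on W. -/
structure MeanBiased (W : Submodule ℂ (Classes X Γ → ℂ)) (B : Finset X.V)
    (h : (x : X.V) → HeckeFn X Γ x) (α : ℝ) (ε : X.V → ℝ) : Prop where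
  pos : 0 < α
  l2 : ∀ w ∈ W, IsL2 w
  stable : ∀ x ∈ B, ∀ w ∈ W, (at' h x).fnOp w ∈ W ∧ (at' h x).star.fnOp w ∈ W
  size : ∀ x ∈ B, |ε x| ≤ 1
  bias : ∀ w ∈ W, α * B.card * sqNorm w ≤
    ∑ x ∈ B, ε x * (sqNorm ((at' h x).star.fnOp w) / (h x).vol - sqNorm w)

variable (B : Finset X.V) (h : (x : X.V) → HeckeFn X Γ x)

/-- The sum over x in B of |h_x*|² -/
noncomputable def vTot : ℝ := ∑ x ∈ B, (h x).star.vol

/-- The sum over x in B of ρ(h_x)² -/
noncomputable def rTot : ℝ := ∑ x ∈ B, ((h x).norm : ℝ) ^ 2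

/-- The sum over x in B of T_x w, T_x the Hecke operator of h_x. -/
noncomputable def sumFn (w : Classes X Γ → ℂ) : Classes X Γ → ℂ := ∑ x ∈ B, (at' h x).fnOp w

/-- The sum over x in B of T_x* w. -/
noncomputable def sumStar (w : Classes X Γ → ℂ) : Classes X Γ → ℂ :=
  ∑ x ∈ B, (at' h x).star.fnOp w

/-- W consists of square-summable functions, is stable under the sum S of the Hecke operators T_x,
x in B, and under S*, and |S w| is at least A |w| on W. -/
structure Large (W : Submodule ℂ (Classes X Γ → ℂ)) (B : Finset X.V)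
    (h : (x : X.V) → HeckeFn X Γ x) (A : ℝ) : Prop where
  pos : 0 < A
  l2 : ∀ w ∈ W, IsL2 w
  stable : ∀ w ∈ W, sumFn B h w ∈ W ∧ sumStar B h w ∈ W
  lower : ∀ w ∈ W, A ^ 2 * sqNorm w ≤ sqNorm (sumFn B h w)

end

end Pool.Agent.Helper80.AT
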