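import Pool.Agent.Helper80.AT.AbsMain

/-! The dimension bound. -/

open scoped ENNReal NNReal InnerProductSpace
open MeasureTheory

namespace Pool.Agent.Helper80.AT

variable {G Y : Type} [Group G] [MulAction G Y]
variable [hfin : ∀ P : Y, Finite (MulAction.stabilizer G P)]

lemma coe_sum {ι : Type} (s : Finset ι) (f : ι → L2 G Y) (b : Bun G Y) :
    (∑ i ∈ s, f i : L2 G Y) b = ∑ i ∈ s, f i b := by
  classical
  induction s using Finset.induction_on with
  | empty =>
    simp only [Finset.sum_empty]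
    exact (ae_all _).1 (Lp.coeFn_zero ℂ 2 (bunMeasure G Y)) b
  | insert i s hi ih => rw [Finset.sum_insert hi, Finset.sum_insert hi, coe_add, ih]

theorem dim_bound (W : Submodule ℂ (L2 G Y)) (S : Finset (Bun G Y))
    (hS : ∀ w ∈ W, ∀ b, b ∉ S → (w : Bun G Y → ℂ) b = 0) (c : Bun G Y → ℝ)
    (hc0 : ∀ b ∈ S, 0 ≤ c b)
    (hc : ∀ b ∈ S, ∀ w ∈ W, mass b * ‖(w : Bun G Y → ℂ) b‖ ^ 2 ≤ c b * ‖w‖ ^ 2) :
    FiniteDimensional ℂ W ∧ (Module.finrank ℂ W : ℝ) ≤ ∑ b ∈ S, c b := by
  classical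
  have hfd : FiniteDimensional ℂ W := by
    let φ : W →ₗ[ℂ] (S → ℂ) :=
      { toFun := fun w b => (w.1 : Bun G Y → ℂ) b.1
        map_add' := by
          intro w w'
          funext b
          exact coe_add _ _ _
        map_smul' := by
          intro a w
          funext b
          exact coe_smul _ _ _ }
    refine FiniteDimensional.of_injective φ ?_
    intro w w' h
    apply Subtype.ext
    apply coe_eq
    intro b
    by_cases hb : b ∈ S
    · exact congrFun h ⟨b, hb⟩
    · rw [hS _ w.2 _ hb, hS _ w'.2 _ hb]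
  refine ⟨hfd, ?_⟩
  set e := stdOrthonormalBasis ℂ W with he
  have hnorm : ∀ i, (1 : ℝ) = ∑ b ∈ S, mass b * ‖(e i : L2 G Y) b‖ ^ 2 := by
    intro i
    have h1 : cut S (e i : L2 G Y) = (e i : L2 G Y) := by
      apply coe_eq
      intro b
      rw [cut_apply]
      split_ifs with hb
      · rfl
      · exact (hS _ (e i).2 _ hb).symm
    rw [← cut_norm_sq, h1]
    have : ‖((e i : W) : L2 G Y)‖ = 1 := by
      rw [Submodule.norm_coe]
      exact e.norm_eq_one i
    rw [this]; norm_num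
  have h1 : (Module.finrank ℂ W : ℝ) = ∑ b ∈ S, ∑ i, mass b * ‖(e i : L2 G Y) b‖ ^ 2 := by
    rw [Finset.sum_comm, ← Finset.sum_congr rfl fun i _ => hnorm i]
    simp
  rw [h1]
  refine Finset.sum_le_sum fun b hb => ?_
  rw [← Finset.mul_sum]
  set t : ℝ := ∑ i, ‖(e i : L2 G Y) b‖ ^ 2 with ht
  have ht0 : 0 ≤ t := Finset.sum_nonneg fun i _ => by positivity
  rcases eq_or_lt_of_le ht0 with h0 | hpos
  · rw [← h0, mul_zero]
    exact hc0 b hb
  let w : W := ∑ i, (starRingEnd ℂ ((e i : L2 G Y) b)) • e i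
  have hw1 : ((w : L2 G Y) : Bun G Y → ℂ) b = t := by
    have : (w : L2 G Y) = ∑ i, (starRingEnd ℂ ((e i : L2 G Y) b)) • (e i : L2 G Y) := by
      simp [w]
    rw [this, coe_sum, ht]
    push_cast
    refine Finset.sum_congr rfl fun i _ => ?_
    rw [coe_smul, ← Complex.normSq_eq_conj_mul_self, Complex.normSq_eq_norm_sq]
    push_cast
    rfl
  have hw2 : ‖(w : L2 G Y)‖ ^ 2 = t := by
    have h2 : ‖w‖ ^ 2 = t := by
      have h3 : (⟪w, w⟫_ℂ) = (t : ℂ) := by
        rw [show w = ∑ i, (starRingEnd ℂ ((e i : L2 G Y) b)) • e i from rfl,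
          e.orthonormal.inner_sum, ht]
        push_cast
        refine Finset.sum_congr rfl fun i _ => ?_
        rw [starRingEnd_self_apply, mul_comm, ← Complex.normSq_eq_conj_mul_self,
          Complex.normSq_eq_norm_sq]
        push_cast
        rfl
      have h4 := inner_self_eq_norm_sq_to_K (𝕜 := ℂ) w
      rw [h3] at h4
      have h5 : (((‖w‖ ^ 2 : ℝ)) : ℂ) = ((t : ℝ) : ℂ) := by
        push_cast
        exact h4.symm
      exact Complex.ofReal_injective h5
    exact h2
  have h3 := hc b hb w w.2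
  rw [hw1, hw2] at h3
  have h4 : ‖(t : ℂ)‖ = t := by
    rw [Complex.norm_real, Real.norm_of_nonneg ht0]
  rw [h4] at h3
  have h5 : (mass b * t) * t ≤ c b * t := by
    calc (mass b * t) * t = mass b * t ^ 2 := by ring
      _ ≤ _ := h3
  exact le_of_mul_le_mul_right h5 hpos

end Pool.Agent.Helper80.AT
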