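import Pool.Agent.Helper80.AT.Spec

/-! Evaluation at a bundle: bounds by norms of test functions on the set of bundles with a
rational trivialisation. -/

open scoped ENNReal NNReal InnerProductSpace
open MeasureTheory

namespace Pool.Agent.Helper80.AT

section Hilb

variable {H : Type*} [NormedAddCommGroup H] [InnerProductSpace ℂ H] [CompleteSpace H]

lemma Stable.one (W : Submodule ℂ H) : Stable W (1 : H →L[ℂ] H) := by
  refine ⟨fun w hw => hw, fun w hw => ?_⟩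
  have : ContinuousLinearMap.adjoint (1 : H →L[ℂ] H) = 1 := by
    rw [← ContinuousLinearMap.star_eq_adjoint, star_one]
  rw [this]
  exact hw

lemma Stable.mul {W : Submodule ℂ H} {S T : H →L[ℂ] H} (hS : Stable W S) (hT : Stable W T) :
    Stable W (S * T) := by
  refine ⟨fun w hw => hS.stable _ (hT.stable _ hw), fun w hw => ?_⟩
  have : ContinuousLinearMap.adjoint (S * T) =
      ContinuousLinearMap.adjoint T * ContinuousLinearMap.adjoint S := by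
    simp only [← ContinuousLinearMap.star_eq_adjoint, star_mul]
  rw [this]
  exact hT.adj _ (hS.adj _ hw)

lemma Stable.add {W : Submodule ℂ H} {S T : H →L[ℂ] H} (hS : Stable W S) (hT : Stable W T) :
    Stable W (S + T) := by
  refine ⟨fun w hw => W.add_mem (hS.stable _ hw) (hT.stable _ hw), fun w hw => ?_⟩
  rw [map_add]
  exact W.add_mem (hS.adj _ hw) (hT.adj _ hw)

lemma Stable.smul {W : Submodule ℂ H} {S : H →L[ℂ] H} (hS : Stable W S) (c : ℂ) :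
    Stable W (c • S) := by
  refine ⟨fun w hw => W.smul_mem _ (hS.stable _ hw), fun w hw => ?_⟩
  have : ContinuousLinearMap.adjoint (c • S) =
      (starRingEnd ℂ c) • ContinuousLinearMap.adjoint S := by
    simp only [← ContinuousLinearMap.star_eq_adjoint, star_smul]
    rfl
  rw [this]
  exact W.smul_mem _ (hS.adj _ hw)

lemma Stable.zero (W : Submodule ℂ H) : Stable W (0 : H →L[ℂ] H) := by
  refine ⟨fun w _ => W.zero_mem, fun w _ => ?_⟩
  rw [map_zero]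
  exact W.zero_mem

lemma Stable.sum {W : Submodule ℂ H} {ι : Type*} (s : Finset ι) {T : ι → H →L[ℂ] H}
    (h : ∀ i ∈ s, Stable W (T i)) : Stable W (∑ i ∈ s, T i) := by
  classical
  induction s using Finset.induction_on with
  | empty => simpa using Stable.zero W
  | insert i s hi ih =>
    rw [Finset.sum_insert hi]
    exact (h i (by simp)).add (ih fun j hj => h j (by simp [hj]))

theorem hilb_eval {J : Type*} [Fintype J] {W : Submodule ℂ H} (f : J → H →L[ℂ] H)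
    (hf : ∀ j, Stable W (f j)) (A : ℝ)
    (hlow : ∀ w ∈ W, A ^ 2 * ‖w‖ ^ 2 ≤ ∑ j, ‖f j w‖ ^ 2) {w : H} (hw : w ∈ W) (u : H) :
    A ^ 2 * ‖⟪w, u⟫_ℂ‖ ^ 2 ≤ (∑ j, ‖f j u‖ ^ 2) * ‖w‖ ^ 2 := by
  set W' := W.topologicalClosure with hW'
  have : CompleteSpace W' := W.isClosed_topologicalClosure.completeSpace_coe
  have hf' : ∀ j, Stable W' (f j) := fun j => (hf j).clos
  have hw' : w ∈ W' := W.le_topologicalClosure hw
  have hlow' : ∀ w ∈ W', A ^ 2 * ‖w‖ ^ 2 ≤ ∑ j, ‖f j w‖ ^ 2 := by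
    intro w hw
    have hw' : w ∈ closure (W : Set H) := hw
    have hc : IsClosed {w : H | A ^ 2 * ‖w‖ ^ 2 ≤ ∑ j, ‖f j w‖ ^ 2} :=
      isClosed_le (by fun_prop) (by fun_prop)
    exact closure_minimal (fun w hw => hlow w hw) hc hw'
  have h1 : ⟪w, u⟫_ℂ = ⟪w, W'.starProjection u⟫_ℂ := by
    have h2 := W'.sub_starProjection_mem_orthogonal u
    have h3 := (Submodule.mem_orthogonal _ _).1 h2 _ hw'
    rw [inner_sub_right, sub_eq_zero] at h3
    exact h3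
  have h2 : ‖⟪w, u⟫_ℂ‖ ^ 2 ≤ ‖w‖ ^ 2 * ‖W'.starProjection u‖ ^ 2 := by
    rw [h1, ← mul_pow]
    exact pow_le_pow_left₀ (norm_nonneg _) (norm_inner_le_norm _ _) 2
  have h3 : A ^ 2 * ‖W'.starProjection u‖ ^ 2 ≤ ∑ j, ‖f j u‖ ^ 2 := by
    refine (hlow' _ (W'.starProjection_apply_mem u)).trans ?_
    refine Finset.sum_le_sum fun j _ => ?_
    rw [← (hf' j).comm]
    have := W'.norm_starProjection_apply_le (f j u)
    gcongr
  calc A ^ 2 * ‖⟪w, u⟫_ℂ‖ ^ 2 ≤ A ^ 2 * (‖w‖ ^ 2 * ‖W'.starProjection u‖ ^ 2) := by gcongr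
    _ = (A ^ 2 * ‖W'.starProjection u‖ ^ 2) * ‖w‖ ^ 2 := by ring
    _ ≤ _ := by gcongr

end Hilb

variable {F : Type} [Field F] {X : Places F} {N : ℕ} {Γ : Subgroup (GL (Fin N) F)}

lemma Pair.norm_le {P₀ : Bundle X Γ} {n : ℕ} {v : Bundle X Γ → ℂ} {u : L2 Γ (Bundle X Γ)}
    (h : Pair P₀ n v u) :
    (Nat.card (MulAction.stabilizer Γ P₀) : ℝ≥0∞) ^ 2 * nsq (u : Bun Γ (Bundle X Γ) → ℂ) ≤
      autNum P₀ (2 * n) * ∑' Q, ‖v Q‖ₑ ^ 2 := by
  set s := Nat.card (MulAction.stabilizer Γ P₀) with hs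
  have h2 : nsq (per Γ v) = (s : ℝ≥0∞) ^ 2 * nsq (u : Bun Γ (Bundle X Γ) → ℂ) := by
    unfold nsq
    rw [← ENNReal.tsum_mul_left]
    refine tsum_congr fun b => ?_
    rw [← h.eq b, enorm_mul, mul_pow]
    have e4 : ‖(s : ℂ)‖ₑ = (s : ℝ≥0∞) := by
      rw [enorm_eq_nnnorm]
      simp
    rw [e4]
    ring
  rw [← h2]
  refine nsq_per_le h.lf _ fun P => ?_
  refine (Set.ncard_le_ncard ?_ (mult_le P₀ n P).1).trans (mult_le P₀ n P).2
  intro g hg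
  exact h.supp _ hg

/-- Evaluation bound on L2. -/
theorem eval_bound {J : Type*} [Fintype J] {W : Submodule ℂ (L2 Γ (Bundle X Γ))}
    (f : J → L2 Γ (Bundle X Γ) →L[ℂ] L2 Γ (Bundle X Γ)) (hf : ∀ j, Stable W (f j)) (A : ℝ)
    (hlow : ∀ w ∈ W, A ^ 2 * ‖w‖ ^ 2 ≤ ∑ j, ‖f j w‖ ^ 2) (P : Bundle X Γ) (n : ℕ)
    (v : J → Bundle X Γ → ℂ) (hv : ∀ j, Pair P n (v j) (f j (delta Γ P))) (C : J → ℝ)
    (hC0 : ∀ j, 0 ≤ C j) (hC : ∀ j, ∑' Q, ‖v j Q‖ₑ ^ 2 ≤ ENNReal.ofReal (C j))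
    {w : L2 Γ (Bundle X Γ)} (hw : w ∈ W) :
    A ^ 2 * ‖w (cls Γ (Bundle X Γ) P)‖ ^ 2 ≤ autNum P (2 * n) * (∑ j, C j) * ‖w‖ ^ 2 := by
  set s := Nat.card (MulAction.stabilizer Γ P) with hs
  have hspos : 0 < s := Nat.card_pos
  have hs' : (0 : ℝ) < s := by exact_mod_cast hspos
  have h1 := hilb_eval f hf A hlow hw (delta Γ P)
  have h2 : ‖⟪w, delta Γ P⟫_ℂ‖ = ‖w (cls Γ (Bundle X Γ) P)‖ / s := by
    rw [← inner_conj_symm, inner_delta', RCLike.norm_conj, norm_mul]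
    have h3 := card_mass (G := Γ) P
    have h4 : (mass (cls Γ (Bundle X Γ) P) : ℂ) = 1 / s := by
      rw [eq_div_iff (by exact_mod_cast hspos.ne')]
      exact h3
    rw [h4, norm_div, norm_one, Complex.norm_natCast, div_mul_eq_mul_div, one_mul]
  have h3 : ∀ j, (s : ℝ) ^ 2 * ‖f j (delta Γ P)‖ ^ 2 ≤ autNum P (2 * n) * C j := by
    intro j
    have h4 := (hv j).norm_le
    rw [← norm_sq] at h4
    have h5 : (Nat.card (MulAction.stabilizer Γ P) : ℝ≥0∞) ^ 2 *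
        ENNReal.ofReal (‖f j (delta Γ P)‖ ^ 2) ≤
          autNum P (2 * n) * ENNReal.ofReal (C j) := h4.trans (by gcongr; exact hC j)
    have e1 : (Nat.card (MulAction.stabilizer Γ P) : ℝ≥0∞) ^ 2 = ENNReal.ofReal ((s : ℝ) ^ 2) := by
      rw [ENNReal.ofReal_pow hs'.le, ENNReal.ofReal_natCast]
    have e2 : (autNum P (2 * n) : ℝ≥0∞) = ENNReal.ofReal (autNum P (2 * n)) := by simp
    rw [e1, e2, ← ENNReal.ofReal_mul (by positivity), ← ENNReal.ofReal_mul (by positivity)] at h5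
    exact (ENNReal.ofReal_le_ofReal_iff (by
      have := hC0 j
      positivity)).1 h5
  rw [h2, div_pow] at h1
  have h4 : (s : ℝ) ^ 2 * ∑ j, ‖f j (delta Γ P)‖ ^ 2 ≤ autNum P (2 * n) * ∑ j, C j := by
    rw [Finset.mul_sum, Finset.mul_sum]
    exact Finset.sum_le_sum fun j _ => h3 j
  calc A ^ 2 * ‖w (cls Γ (Bundle X Γ) P)‖ ^ 2
      = (s : ℝ) ^ 2 * (A ^ 2 * (‖w (cls Γ (Bundle X Γ) P)‖ ^ 2 / (s : ℝ) ^ 2)) := by
        field_simp
    _ ≤ (s : ℝ) ^ 2 * ((∑ j, ‖f j (delta Γ P)‖ ^ 2) * ‖w‖ ^ 2) := by gcongr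
    _ = ((s : ℝ) ^ 2 * ∑ j, ‖f j (delta Γ P)‖ ^ 2) * ‖w‖ ^ 2 := by ring
    _ ≤ _ := by gcongr

end Pool.Agent.Helper80.AT
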