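import Pool.Agent.Helper80.AT.Ker

/-! Distances of bundles. -/

open scoped ENNReal NNReal
open MeasureTheory

namespace Pool.Agent.Helper80.AT

variable {F : Type} [Field F] (X : Places F) {N : ℕ} {Γ : Subgroup (GL (Fin N) F)}

lemma size_mul_K {v : X.V} (k g k' : Γ) (hk : k ∈ X.K Γ v) (hk' : k' ∈ X.K Γ v) :
    X.size v ((k * g * k' : Γ) : GL (Fin N) F) = X.size v (g : GL (Fin N) F) := by
  have hk1 := (X.mem_K Γ).1 hk
  have hk2 := (X.mem_K Γ).1 hk'
  have key : ∀ (a b c : GL (Fin N) F), X.size v a = 0 → X.size v c = 0 →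
      X.size v (a * b * c) ≤ X.size v b := by
    intro a b c ha hc
    refine (X.size_mul_le v _ _).trans ?_
    rw [hc, add_zero]
    refine (X.size_mul_le v _ _).trans ?_
    rw [ha, zero_add]
  apply le_antisymm
  · rw [Subgroup.coe_mul, Subgroup.coe_mul]
    exact key _ _ _ hk1 hk2
  · have h1 : (g : GL (Fin N) F) = ((k : GL (Fin N) F))⁻¹ * ((k * g * k' : Γ) : GL (Fin N) F) *
        ((k' : GL (Fin N) F))⁻¹ := by
      rw [Subgroup.coe_mul, Subgroup.coe_mul]
      group
    rw [h1]
    refine (key _ _ _ ?_ ?_).trans (le_of_eq ?_)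
    · rw [X.size_inv]; exact hk1
    · rw [X.size_inv]; exact hk2
    · rfl

lemma out_eq (v : X.V) (g : Γ) : ∃ k ∈ X.K Γ v, ((g : Γ ⧸ X.K Γ v)).out = g * k := by
  have := QuotientGroup.mk_out_eq_mul (X.K Γ v) g
  obtain ⟨k, hk⟩ := this
  exact ⟨k, k.2, hk⟩

lemma d_mk (v : X.V) (g h : Γ) :
    X.d v (g : Γ ⧸ X.K Γ v) (h : Γ ⧸ X.K Γ v) = X.size v ((g⁻¹ * h : Γ) : GL (Fin N) F) := by
  obtain ⟨k, hk, e1⟩ := out_eq X v g
  obtain ⟨k', hk', e2⟩ := out_eq X v h
  unfold Places.d
  rw [e1, e2, mul_inv_rev]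
  have : k⁻¹ * g⁻¹ * (h * k') = k⁻¹ * (g⁻¹ * h) * k' := by group
  rw [this]
  exact size_mul_K X _ _ _ (inv_mem hk) hk'

lemma d_smul (v : X.V) (γ : Γ) (a b : Γ ⧸ X.K Γ v) : X.d v (γ • a) (γ • b) = X.d v a b := by
  induction a using QuotientGroup.induction_on with
  | H g =>
    induction b using QuotientGroup.induction_on with
    | H h =>
      show X.d v ((γ * g : Γ) : Γ ⧸ X.K Γ v) ((γ * h : Γ) : Γ ⧸ X.K Γ v) = _
      rw [d_mk, d_mk]
      congr 2
      group

lemma d_comm (v : X.V) (a b : Γ ⧸ X.K Γ v) : X.d v a b = X.d v b a := by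
  unfold Places.d
  rw [← X.size_inv, ← InvMemClass.coe_inv, mul_inv_rev, inv_inv]

lemma d_self (v : X.V) (a : Γ ⧸ X.K Γ v) : X.d v a a = 0 := by
  unfold Places.d
  simp

lemma d_triangle (v : X.V) (a b c : Γ ⧸ X.K Γ v) : X.d v a c ≤ X.d v a b + X.d v b c := by
  unfold Places.d
  have : a.out⁻¹ * c.out = (a.out⁻¹ * b.out) * (b.out⁻¹ * c.out) := by group
  rw [this, Subgroup.coe_mul]
  exact X.size_mul_le v _ _

lemma d_eq_zero (v : X.V) (a b : Γ ⧸ X.K Γ v) (h : X.d v a b = 0) : a = b := by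
  have h1 : a.out⁻¹ * b.out ∈ X.K Γ v := h
  have h2 := QuotientGroup.eq.2 h1
  rwa [QuotientGroup.out_eq', QuotientGroup.out_eq'] at h2

/-- the finite set of places where two bundles differ -/
lemma supp_fin (P Q : Bundle X Γ) : {v | X.d v (P.c v) (Q.c v) ≠ 0}.Finite := by
  refine (P.fin.union Q.fin).subset ?_
  intro v hv
  by_contra h
  simp only [Set.mem_union, Set.mem_ofPred_eq, not_or, not_not] at h
  apply hv
  rw [h.1, h.2, d_self]

/-- the divisor of differences -/
noncomputable def ddiv (P Q : Bundle X Γ) : X.V →₀ ℕ :=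
  Finsupp.ofSupportFinite (fun v => X.d v (P.c v) (Q.c v)) (supp_fin X P Q)

/-- the degree of a divisor -/
noncomputable def ddeg (D : X.V →₀ ℕ) : ℕ := D.sum fun v m => X.deg v * m

lemma ddeg_add (D E : X.V →₀ ℕ) : ddeg X (D + E) = ddeg X D + ddeg X E := by
  classical
  unfold ddeg
  rw [Finsupp.sum_add_index']
  · intro v; simp
  · intro v a b; ring

lemma ddeg_mono {D E : X.V →₀ ℕ} (h : D ≤ E) : ddeg X D ≤ ddeg X E := by
  obtain ⟨E', rfl⟩ := exists_add_of_le h
  rw [ddeg_add]
  exact Nat.le_add_right _ _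

lemma dist_eq (P Q : Bundle X Γ) : X.dist P Q = ddeg X (ddiv X P Q) := by
  unfold Places.dist ddeg
  rw [finsum_eq_sum_of_support_subset (s := (ddiv X P Q).support)]
  · rfl
  · intro v hv
    simp only [Function.mem_support, ne_eq, mul_eq_zero, not_or] at hv
    simp only [Finset.mem_coe, Finsupp.mem_support_iff, ne_eq]
    exact hv.2

lemma dist_le_of (P Q : Bundle X Γ) (D : X.V →₀ ℕ) (h : ∀ v, X.d v (P.c v) (Q.c v) ≤ D v) :
    X.dist P Q ≤ ddeg X D := by
  rw [dist_eq]
  exact ddeg_mono X h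

lemma dist_comm (P Q : Bundle X Γ) : X.dist P Q = X.dist Q P := by
  unfold Places.dist
  refine finsum_congr fun v => ?_
  rw [d_comm]

lemma dist_smul (γ : Γ) (P Q : Bundle X Γ) : X.dist (γ • P) (γ • Q) = X.dist P Q := by
  unfold Places.dist
  refine finsum_congr fun v => ?_
  rw [smul_apply, smul_apply, d_smul]

lemma dist_triangle (P Q R : Bundle X Γ) : X.dist P R ≤ X.dist P Q + X.dist Q R := by
  rw [dist_eq X P Q, dist_eq X Q R, ← ddeg_add]
  apply dist_le_of
  intro v
  exact d_triangle X v _ _ _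

lemma dist_self (P : Bundle X Γ) : X.dist P P = 0 := by
  apply Nat.le_zero.1
  refine (dist_le_of X P P 0 ?_).trans (le_of_eq ?_)
  · intro v
    rw [d_self]
    exact Nat.zero_le _
  · simp [ddeg]

/-- Elements of Γ with bounded poles form a finite set. -/
lemma bounded_fin (D : X.V →₀ ℕ) :
    {g : Γ | ∀ v, X.size v (g : GL (Fin N) F) ≤ D v}.Finite := by
  let φ : Γ → (Fin N → Fin N → F) := fun g i j => ((g : GL (Fin N) F) : Matrix (Fin N) (Fin N) F) i j
  have hφ : Function.Injective φ := by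
    intro g h hgh
    apply Subtype.ext
    apply Units.ext
    funext i j
    exact congrFun (congrFun hgh i) j
  refine Set.Finite.of_finite_image (f := φ) ?_ hφ.injOn
  refine (Set.Finite.pi' (fun _ : Fin N => Set.Finite.pi' (fun _ : Fin N => X.sections_fin D))).subset ?_
  rintro _ ⟨g, hg, rfl⟩ i j v
  rw [← X.pole_le_iff]
  exact ((X.size_le_iff v _ _).1 (hg v)).1 i j

/-- The divisor bounding the poles of representatives. -/
noncomputable def rdiv (P : Bundle X Γ) : X.V →₀ ℕ :=
  Finsupp.ofSupportFinite (fun v => X.size v ((P.c v).out : GL (Fin N) F)) (by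
    refine P.fin.subset ?_
    intro v hv
    by_contra h
    simp only [Set.mem_ofPred_eq, not_not] at h
    apply hv
    obtain ⟨k, hk, e⟩ := out_eq X v (1 : Γ)
    show X.size v ((P.c v).out : GL (Fin N) F) = 0
    rw [h, e, one_mul]
    exact hk)

lemma size_le_of_dist (P : Bundle X Γ) (g : Γ) (v : X.V) :
    X.size v (g : GL (Fin N) F) ≤ X.d v ((g • P).c v) (P.c v) + 2 * rdiv X P v := by
  have h1 : X.d v ((g • P).c v) (P.c v) =
      X.size v (((g * (P.c v).out)⁻¹ * (P.c v).out : Γ) : GL (Fin N) F) := by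
    rw [← d_mk, smul_apply]
    congr 1
    · conv_lhs => rw [← QuotientGroup.out_eq' (P.c v)]
      rfl
    · exact (QuotientGroup.out_eq' (P.c v)).symm
  have h2 : X.size v (g : GL (Fin N) F) ≤ X.size v ((P.c v).out : GL (Fin N) F) +
      X.size v (((g * (P.c v).out)⁻¹ * (P.c v).out : Γ) : GL (Fin N) F) +
        X.size v ((P.c v).out : GL (Fin N) F) := by
    have e : (g : GL (Fin N) F) = (((P.c v).out : GL (Fin N) F) *
        (((g * (P.c v).out)⁻¹ * (P.c v).out : Γ) : GL (Fin N) F)⁻¹) *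
        ((P.c v).out : GL (Fin N) F)⁻¹ := by
      simp only [Subgroup.coe_mul, InvMemClass.coe_inv]
      group
    conv_lhs => rw [e]
    refine (X.size_mul_le v _ _).trans ?_
    rw [X.size_inv]
    refine Nat.add_le_add_right ?_ _
    refine (X.size_mul_le v _ _).trans ?_
    rw [X.size_inv]
  rw [h1]
  have h3 : rdiv X P v = X.size v ((P.c v).out : GL (Fin N) F) := rfl
  omega

/-- There are finitely many divisors of bounded degree. -/
lemma divisors_fin (n : ℕ) : {D : X.V →₀ ℕ | ddeg X D ≤ n}.Finite := by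
  classical
  set s := (X.deg_fin n).toFinset with hs
  let E : X.V →₀ ℕ := Finsupp.onFinset s (fun v => if v ∈ s then n else 0) (by
    intro v hv
    by_contra h
    simp [h] at hv)
  refine (Set.finite_Icc (0 : X.V →₀ ℕ) E).subset ?_
  intro D hD
  refine ⟨zero_le, ?_⟩
  intro v
  show D v ≤ if v ∈ s then n else 0
  by_cases hv0 : D v = 0
  · rw [hv0]; exact Nat.zero_le _
  have hvs : v ∈ D.support := by simpa using hv0
  have h1 : X.deg v * D v ≤ ddeg X D := by
    unfold ddeg Finsupp.sum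
    exact Finset.single_le_sum (f := fun v => X.deg v * D v) (fun _ _ => Nat.zero_le _) hvs
  have h2 : X.deg v * D v ≤ n := h1.trans hD
  have hdeg : X.deg v ≤ n := le_trans (Nat.le_mul_of_pos_right _ (Nat.pos_of_ne_zero hv0)) h2
  have hDn : D v ≤ n := le_trans (Nat.le_mul_of_pos_left _ (X.deg_pos v)) h2
  have : v ∈ s := by
    rw [hs, Set.Finite.mem_toFinset]
    exact hdeg
  rw [if_pos this]
  exact hDn

/-- Meromorphic automorphisms with poles of bounded degree form a finite set. -/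
lemma near_fin (P : Bundle X Γ) (n : ℕ) : {g : Γ | X.dist (g • P) P ≤ n}.Finite := by
  refine (Set.Finite.biUnion (divisors_fin X n) fun D _ =>
    bounded_fin X (Γ := Γ) (D + 2 • rdiv X P)).subset ?_
  intro g hg
  simp only [Set.mem_iUnion]
  refine ⟨ddiv X (g • P) P, ?_, ?_⟩
  · show ddeg X _ ≤ n
    rw [← dist_eq]
    exact hg
  · intro v
    refine (size_le_of_dist X P g v).trans (le_of_eq ?_)
    rw [Finsupp.add_apply, Finsupp.smul_apply, smul_eq_mul]
    rfl

instance stab_fin (P : Bundle X Γ) : Finite (MulAction.stabilizer Γ P) := by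
  refine ((near_fin X P 0).subset ?_).to_subtype
  intro g hg
  rw [Set.mem_ofPred_eq, MulAction.mem_stabilizer_iff.1 hg, dist_self]

/-- If all functions with at most n poles are constant then the meromorphic automorphisms of the
trivial bundle with at most n poles are automorphisms. -/
lemma gon {n : ℕ} (hn : ∀ f : F, X.poles f ≤ n → ∀ v, X.pole v f = 0) (g : Γ)
    (hg : X.dist (g • triv X Γ) (triv X Γ) ≤ n) : g • triv X Γ = triv X Γ := by
  have hd : ∀ v, X.d v ((g • triv X Γ).c v) ((triv X Γ).c v) = X.size v (g : GL (Fin N) F) := by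
    intro v
    show X.d v ((g * 1 : Γ) : Γ ⧸ X.K Γ v) ((1 : Γ) : Γ ⧸ X.K Γ v) = _
    rw [d_mk]
    simp only [mul_one]
    rw [InvMemClass.coe_inv, X.size_inv]
  have hpoles : ∀ f : F, (∀ v, X.pole v f ≤ X.size v (g : GL (Fin N) F)) → X.poles f ≤ n := by
    intro f hf
    refine le_trans ?_ hg
    rw [dist_eq]
    unfold Places.poles ddeg
    have hfs : (Function.support fun v => X.deg v * X.pole v f) ⊆
        (ddiv X (g • triv X Γ) (triv X Γ)).support := by
      intro v hv
      simp only [Function.mem_support, ne_eq, mul_eq_zero, not_or] at hv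
      simp only [Finset.mem_coe, Finsupp.mem_support_iff, ne_eq]
      show ¬ X.d v _ _ = 0
      rw [hd]
      have := hf v
      omega
    rw [finsum_eq_sum_of_support_subset _ hfs]
    unfold Finsupp.sum
    refine Finset.sum_le_sum fun v _ => ?_
    refine Nat.mul_le_mul_left _ ?_
    show _ ≤ X.d v _ _
    rw [hd]
    exact hf v
  have hz : ∀ v, X.size v (g : GL (Fin N) F) = 0 := by
    intro v
    apply Nat.le_zero.1
    rw [X.size_le_iff]
    constructor
    · intro i j
      refine (hn _ (hpoles _ fun w => ?_) v).le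
      exact ((X.size_le_iff w _ _).1 le_rfl).1 i j
    · intro i j
      refine (hn _ (hpoles _ fun w => ?_) v).le
      exact ((X.size_le_iff w _ _).1 le_rfl).2 i j
  apply Bundle.ext
  funext v
  apply d_eq_zero
  rw [hd, hz]

end Pool.Agent.Helper80.AT
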