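import Pool.Agent.Helper80.AT.Ker
import Pool.Agent.Helper80.AT.Hilb

/-! Periodisation and lifting. -/

open scoped ENNReal NNReal
open MeasureTheory

namespace Pool.Agent.Helper80.AT

variable {G Y : Type} [Group G] [MulAction G Y]

lemma LF.act {v : Y → ℂ} (hv : LF G v) (K : Ker G Y) : LF G (K.act v) := by
  intro P
  refine (Set.Finite.biUnion (K.finrow P) (fun Q _ => hv Q)).subset ?_
  intro g hg
  simp only [Set.mem_ofPred_eq] at hg
  unfold Ker.act at hg
  obtain ⟨Q, hQ⟩ : ∃ Q, K.k (g • P) Q * v Q ≠ 0 := by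
    by_contra h
    push Not at h
    exact hg (by simp [h])
  simp only [ne_eq, mul_eq_zero, not_or] at hQ
  simp only [Set.mem_iUnion, Set.mem_ofPred_eq, exists_prop]
  refine ⟨g⁻¹ • Q, ?_, ?_⟩
  · rw [← K.smul g, smul_inv_smul]
    exact hQ.1
  · rw [smul_inv_smul]
    exact hQ.2

lemma per_act {v : Y → ℂ} (hv : LF G v) (K : Ker G Y) : K.fn (per G v) = per G (K.act v) := by
  funext b
  rw [K.fn_eq]
  simp only [per_cls]
  show _ = ∑ᶠ g : G, K.act v (g • b.out)
  have h1 : ∀ g : G, K.act v (g • b.out) =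
      ∑ Q ∈ (K.finrow b.out).toFinset, K.k b.out Q * v (g • Q) := by
    intro g
    unfold Ker.act
    rw [← finsum_comp_equiv (MulAction.toPerm g)]
    simp only [MulAction.toPerm_apply, K.smul]
    apply finsum_eq_sum_of_support_subset
    intro Q hQ
    simp only [Function.mem_support, ne_eq, mul_eq_zero, not_or] at hQ
    simpa using hQ.1
  simp only [h1]
  rw [finsum_sum_comm]
  · refine Finset.sum_congr rfl fun Q _ => ?_
    exact mul_finsum (fun g : G => v (g • Q)) _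
  · intro Q _
    refine (hv Q).subset ?_
    intro g hg
    simp only [Function.mem_support, ne_eq, mul_eq_zero, not_or] at hg
    exact hg.2

variable [hfin : ∀ P : Y, Finite (MulAction.stabilizer G P)]

lemma nsq_per_le {v : Y → ℂ} (hv : LF G v) (M : ℕ) (hM : ∀ P, {g : G | v (g • P) ≠ 0}.ncard ≤ M) :
    nsq (per G v) ≤ M * ∑' Q, ‖v Q‖ₑ ^ 2 := by
  rw [unfolding (G := G)]
  unfold nsq
  rw [← ENNReal.tsum_mul_left]
  refine ENNReal.tsum_le_tsum fun b => ?_
  rw [mul_left_comm]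
  gcongr
  have h1 : per G v b = ∑ g ∈ (hv b.out).toFinset, 1 * v (g • b.out) := by
    simp only [one_mul]
    unfold per
    apply finsum_eq_sum_of_support_subset
    intro g hg
    simpa using hg
  rw [h1]
  refine (cs_enorm _ _ _).trans ?_
  simp only [enorm_one, one_mul, Finset.sum_const, nsmul_eq_mul, mul_one]
  gcongr
  · rw [← Set.ncard_eq_toFinset_card _ (hv _)]
    exact hM _
  · exact ENNReal.sum_le_tsum _

omit hfin in
variable (G) in
/-- The lift of a function on the set of orbits to a set. -/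
noncomputable def lift (B : Set Y) (u : Bun G Y → ℂ) : Y → ℂ := by
  classical
  exact fun Q => if Q ∈ B then u (cls G Y Q) / {g : G | g • Q ∈ B}.ncard else 0

omit hfin in
lemma ncard_smul (B : Set Y) (P : Y) (h : G) :
    {g : G | g • (h • P) ∈ B}.ncard = {g : G | g • P ∈ B}.ncard := by
  have : {g : G | g • (h • P) ∈ B} = (Equiv.mulRight h) ⁻¹' {g : G | g • P ∈ B} := by
    ext g
    simp [mul_smul]
  rw [this]
  exact Set.ncard_preimage_of_injective_subset_range (Equiv.mulRight h).injective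
    (fun x _ => (Equiv.mulRight h).surjective x)

omit hfin in
lemma lift_ne {B : Set Y} {u : Bun G Y → ℂ} {Q : Y} (h : lift G B u Q ≠ 0) : Q ∈ B := by
  unfold lift at h
  by_contra hQ
  simp [hQ] at h

omit hfin in
lemma per_lift {B : Set Y} (hB : ∀ P, {g : G | g • P ∈ B}.Finite) (u : Bun G Y → ℂ)
    (hu : ∀ b, u b ≠ 0 → ∃ Q ∈ B, cls G Y Q = b) : per G (lift G B u) = u := by
  classical
  funext b
  have h1 : per G (lift G B u) b = ∑ g ∈ (hB b.out).toFinset,
      u b / {g : G | g • b.out ∈ B}.ncard := by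
    unfold per
    rw [finsum_eq_sum_of_support_subset (s := (hB b.out).toFinset)]
    · refine Finset.sum_congr rfl fun g hg => ?_
      simp only [Set.Finite.mem_toFinset, Set.mem_ofPred_eq] at hg
      unfold lift
      rw [if_pos hg, ncard_smul, cls_smul, cls_out]
    · intro g hg
      have := lift_ne hg
      simpa using this
  rw [h1, Finset.sum_const, ← Set.ncard_eq_toFinset_card _ (hB b.out), nsmul_eq_mul]
  by_cases hb : u b = 0
  · simp [hb]
  obtain ⟨Q, hQ, hQb⟩ := hu b hb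
  obtain ⟨g, hg⟩ := exists_out (G := G) Q
  have hne : {g : G | g • b.out ∈ B}.ncard ≠ 0 := by
    refine ((Set.ncard_pos (hB _)).2 ?_).ne'
    refine ⟨g⁻¹, ?_⟩
    simp only [Set.mem_ofPred_eq]
    rw [← hQb, hg, inv_smul_smul]
    exact hQ
  have : ({g : G | g • b.out ∈ B}.ncard : ℂ) ≠ 0 := by exact_mod_cast hne
  field_simp

lemma lift_sq_le {B : Set Y} (hB : ∀ P, {g : G | g • P ∈ B}.Finite) (u : Bun G Y → ℂ) (s : ℕ)
    (hs : ∀ Q ∈ B, s ≤ {g : G | g • Q ∈ B}.ncard) :
    s * ∑' Q, ‖lift G B u Q‖ₑ ^ 2 ≤ nsq u := by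
  classical
  rw [unfolding (G := G)]
  unfold nsq
  rw [← ENNReal.tsum_mul_left]
  refine ENNReal.tsum_le_tsum fun b => ?_
  rw [mul_left_comm]
  gcongr
  set m := {g : G | g • b.out ∈ B}.ncard with hm
  have h1 : ∑' g : G, ‖lift G B u (g • b.out)‖ₑ ^ 2 =
      ∑ g ∈ (hB b.out).toFinset, ‖u b / m‖ₑ ^ 2 := by
    rw [tsum_eq_sum (s := (hB b.out).toFinset)]
    · refine Finset.sum_congr rfl fun g hg => ?_
      simp only [Set.Finite.mem_toFinset, Set.mem_ofPred_eq] at hg
      unfold lift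
      rw [if_pos hg, ncard_smul, cls_smul, cls_out]
    · intro g hg
      simp only [Set.Finite.mem_toFinset, Set.mem_ofPred_eq] at hg
      unfold lift
      rw [if_neg hg]
      simp
  rw [h1, Finset.sum_const, ← Set.ncard_eq_toFinset_card _ (hB b.out), nsmul_eq_mul, ← hm]
  by_cases h0 : m = 0
  · rw [h0]; simp
  have hsm : s ≤ m := by
    obtain ⟨g, hg⟩ := (Set.ncard_pos (hB _)).1 (Nat.pos_of_ne_zero h0)
    have := hs _ hg
    rwa [ncard_smul] at this
  have hm' : (m : ℂ) ≠ 0 := by exact_mod_cast h0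
  have h2 : (m : ℝ≥0∞) * ‖u b / m‖ₑ = ‖u b‖ₑ := by
    have : ‖(m : ℂ)‖ₑ = (m : ℝ≥0∞) := by
      rw [enorm_eq_nnnorm]
      simp
    rw [← this, ← enorm_mul]
    congr 1
    field_simp
  calc (s : ℝ≥0∞) * (m * ‖u b / m‖ₑ ^ 2) ≤ m * (m * ‖u b / m‖ₑ ^ 2) := by
        gcongr
    _ = (m * ‖u b / m‖ₑ) ^ 2 := by ring
    _ = ‖u b‖ₑ ^ 2 := by rw [h2]

/-! ### Chains of operators -/

/-- The norm of a kernel on l2(Y) is at most rho. -/
def Ker.NormLe (K : Ker G Y) (ρ : ℝ≥0) : Prop :=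
  ∀ v : Y → ℂ, ∑' P, ‖K.act v P‖ₑ ^ 2 ≤ (ρ : ℝ≥0∞) ^ 2 * ∑' P, ‖v P‖ₑ ^ 2

omit hfin in
/-- successive application on Y -/
noncomputable def actL (L : List (Ker G Y)) (v : Y → ℂ) : Y → ℂ :=
  L.foldr (fun K v => K.act v) v

/-- successive application on L2 -/
noncomputable def opL (L : List (Ker G Y)) (u : L2 G Y) : L2 G Y :=
  word (L.map Ker.op) u

lemma chain (L : List (Ker G Y)) (v : Y → ℂ) (hv : LF G v) (u : L2 G Y)
    (hu : (u : Bun G Y → ℂ) = per G v) :
    LF G (actL L v) ∧ (opL L u : Bun G Y → ℂ) = per G (actL L v) := by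
  induction L with
  | nil => exact ⟨hv, hu⟩
  | cons K L ih =>
    refine ⟨ih.1.act K, ?_⟩
    funext b
    show word (K.op :: L.map Ker.op) u b = per G (K.act (actL L v)) b
    rw [word_cons]
    show K.op (opL L u) b = _
    rw [K.op_apply, ih.2, per_act ih.1]

omit hfin in
lemma actL_sq (L : List (Ker G Y × ℝ≥0)) (hL : ∀ p ∈ L, p.1.NormLe p.2) (v : Y → ℂ) :
    ∑' P, ‖actL (L.map Prod.fst) v P‖ₑ ^ 2 ≤
      (((L.map Prod.snd).prod : ℝ≥0) : ℝ≥0∞) ^ 2 * ∑' P, ‖v P‖ₑ ^ 2 := by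
  induction L with
  | nil => simp [actL]
  | cons p L ih =>
    have h1 := hL p (by simp) (actL (L.map Prod.fst) v)
    refine h1.trans ?_
    rw [List.map_cons, List.prod_cons, ENNReal.coe_mul, mul_pow, mul_assoc]
    gcongr
    exact ih fun q hq => hL q (by simp [hq])

end Pool.Agent.Helper80.AT
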