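import Pool.Agent.Helper80.AT.Geo
import Pool.Agent.Helper80.AT.Per

/-! Hecke operators. -/

open scoped ENNReal NNReal
open MeasureTheory

namespace Pool.Agent.Helper80.AT

variable {F : Type} [Field F] {X : Places F} {N : ℕ} {Γ : Subgroup (GL (Fin N) F)} {x : X.V}

lemma h_mk (h : HeckeFn X Γ x) (g g' : Γ) :
    h.h (((g : Γ ⧸ X.K Γ x)).out⁻¹ * ((g' : Γ ⧸ X.K Γ x)).out) = h.h (g⁻¹ * g') := by
  obtain ⟨k, hk, e1⟩ := out_eq X x g
  obtain ⟨k', hk', e2⟩ := out_eq X x g'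
  rw [e1, e2, mul_inv_rev]
  have : k⁻¹ * g⁻¹ * (g' * k') = k⁻¹ * (g⁻¹ * g') * k' := by group
  rw [this]
  exact h.biinv _ (inv_mem hk) _ hk' _

lemma h_smul (h : HeckeFn X Γ x) (γ : Γ) (a b : Γ ⧸ X.K Γ x) :
    h.h ((γ • a).out⁻¹ * (γ • b).out) = h.h (a.out⁻¹ * b.out) := by
  induction a using QuotientGroup.induction_on with
  | H g =>
    induction b using QuotientGroup.induction_on with
    | H g' =>
      show h.h (((γ * g : Γ) : Γ ⧸ X.K Γ x).out⁻¹ * ((γ * g' : Γ) : Γ ⧸ X.K Γ x).out) = _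
      rw [h_mk, h_mk]
      congr 1
      group

lemma h_left (h : HeckeFn X Γ x) (g : Γ) (a : Γ ⧸ X.K Γ x) :
    h.h (g⁻¹ * (g • a).out) = h.h a.out := by
  induction a using QuotientGroup.induction_on with
  | H g' =>
    show h.h (g⁻¹ * ((g * g' : Γ) : Γ ⧸ X.K Γ x).out) = _
    obtain ⟨k, hk, e1⟩ := out_eq X x (g * g')
    obtain ⟨k', hk', e2⟩ := out_eq X x g'
    rw [e1, e2]
    have e3 : g⁻¹ * (g * g' * k) = 1 * (g' * k') * (k'⁻¹ * k) := by group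
    rw [e3]
    exact h.biinv _ (one_mem _) _ (mul_mem (inv_mem hk') hk) _

lemma h_right (h : HeckeFn X Γ x) (g : Γ) (a : Γ ⧸ X.K Γ x) :
    h.h ((g • a).out⁻¹ * g) = h.h a.out⁻¹ := by
  induction a using QuotientGroup.induction_on with
  | H g' =>
    show h.h (((g * g' : Γ) : Γ ⧸ X.K Γ x).out⁻¹ * g) = _
    obtain ⟨k, hk, e1⟩ := out_eq X x (g * g')
    obtain ⟨k', hk', e2⟩ := out_eq X x g'
    rw [e1, e2]
    have e3 : (g * g' * k)⁻¹ * g = (k⁻¹ * k') * (g' * k')⁻¹ * 1 := by group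
    rw [e3]
    exact h.biinv _ (mul_mem (inv_mem hk) hk') _ (one_mem _) _

open Classical in
/-- Replace the coset at x. -/
noncomputable def upd (P : Bundle X Γ) (b : Γ ⧸ X.K Γ x) : Bundle X Γ :=
  ⟨Function.update P.c x b, by
    refine (P.fin.union (Set.finite_singleton x)).subset ?_
    intro v hv
    by_cases h : v = x
    · right; exact h
    · left
      simpa [Function.update_of_ne h] using hv⟩

open Classical in
lemma upd_x (P : Bundle X Γ) (b : Γ ⧸ X.K Γ x) : (upd P b).c x = b := by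
  unfold upd
  exact Function.update_self x b P.c

open Classical in
lemma upd_ne (P : Bundle X Γ) (b : Γ ⧸ X.K Γ x) {v : X.V} (h : v ≠ x) : (upd P b).c v = P.c v := by
  unfold upd
  exact Function.update_of_ne h b P.c

lemma upd_eq {P Q : Bundle X Γ} (h : ∀ v, v ≠ x → P.c v = Q.c v) : upd P (Q.c x) = Q := by
  apply Bundle.ext
  funext v
  by_cases hv : v = x
  · subst hv; exact upd_x _ _
  · rw [upd_ne _ _ hv, h v hv]

lemma upd_inj (P : Bundle X Γ) : Function.Injective (upd P : Γ ⧸ X.K Γ x → Bundle X Γ) := by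
  intro a b hab
  rw [← upd_x P a, hab, upd_x]

lemma entry_upd (h : HeckeFn X Γ x) (P : Bundle X Γ) (b : Γ ⧸ X.K Γ x) :
    entry h P (upd P b) = h.h ((P.c x).out⁻¹ * b.out) := by
  unfold entry
  rw [if_pos (fun v hv => (upd_ne P b hv).symm), upd_x]

lemma entry_upd' (h : HeckeFn X Γ x) (Q : Bundle X Γ) (a : Γ ⧸ X.K Γ x) :
    entry h (upd Q a) Q = h.h (a.out⁻¹ * (Q.c x).out) := by
  unfold entry
  rw [if_pos (fun v hv => (upd_ne Q a hv)), upd_x]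

lemma entry_ne {h : HeckeFn X Γ x} {P Q : Bundle X Γ} (hPQ : entry h P Q ≠ 0) :
    (∀ v, v ≠ x → P.c v = Q.c v) ∧ h.h ((P.c x).out⁻¹ * (Q.c x).out) ≠ 0 := by
  unfold entry at hPQ
  by_cases h1 : ∀ v, v ≠ x → P.c v = Q.c v
  · rw [if_pos h1] at hPQ
    exact ⟨h1, hPQ⟩
  · rw [if_neg h1] at hPQ
    exact absurd rfl hPQ

lemma row_sum (h : HeckeFn X Γ x) (P : Bundle X Γ) :
    ∑' Q, ‖entry h P Q‖ₑ = ∑' a : Γ ⧸ X.K Γ x, ‖h.h a.out‖ₑ := by
  rw [← (upd_inj (x := x) P).tsum_eq (f := fun Q => ‖entry h P Q‖ₑ)]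
  · simp only [entry_upd]
    rw [← (MulAction.toPerm (P.c x).out).tsum_eq]
    refine tsum_congr fun a => ?_
    rw [MulAction.toPerm_apply, h_left]
  · intro Q hQ
    simp only [Function.mem_support, ne_eq, enorm_eq_zero] at hQ
    exact ⟨Q.c x, upd_eq (entry_ne hQ).1⟩

lemma col_sum (h : HeckeFn X Γ x) (Q : Bundle X Γ) :
    ∑' P, ‖entry h P Q‖ₑ = ∑' a : Γ ⧸ X.K Γ x, ‖h.h a.out⁻¹‖ₑ := by
  rw [← (upd_inj (x := x) Q).tsum_eq (f := fun P => ‖entry h P Q‖ₑ)]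
  · simp only [entry_upd']
    rw [← (MulAction.toPerm (Q.c x).out).tsum_eq]
    refine tsum_congr fun a => ?_
    rw [MulAction.toPerm_apply, h_right]
  · intro P hP
    simp only [Function.mem_support, ne_eq, enorm_eq_zero] at hP
    exact ⟨P.c x, upd_eq fun v hv => ((entry_ne hP).1 v hv).symm⟩

lemma sum_lt_top {ι : Type} (f : ι → ℂ) (hf : {i | f i ≠ 0}.Finite) : ∑' i, ‖f i‖ₑ ≠ ∞ := by
  rw [tsum_eq_sum (s := hf.toFinset)]
  · exact ENNReal.sum_ne_top.2 fun i _ => enorm_ne_top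
  · intro i hi
    simpa using hi

/-- The Hecke operator of h as a kernel. -/
noncomputable def heckeKer (h : HeckeFn X Γ x) : Ker Γ (Bundle X Γ) where
  k := entry h
  smul := by
    intro g P Q
    unfold entry
    have e : (∀ v, v ≠ x → (g • P).c v = (g • Q).c v) ↔ ∀ v, v ≠ x → P.c v = Q.c v := by
      simp only [smul_apply, smul_left_cancel_iff]
    by_cases h1 : ∀ v, v ≠ x → P.c v = Q.c v
    · rw [if_pos h1, if_pos (e.2 h1), smul_apply, smul_apply, h_smul]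
    · rw [if_neg h1, if_neg (fun h2 => h1 (e.1 h2))]
  finrow := by
    intro P
    refine ((h.finL).image (fun a => upd P ((P.c x).out • a))).subset ?_
    intro Q hQ
    obtain ⟨h1, h2⟩ := entry_ne hQ
    refine ⟨(P.c x).out⁻¹ • Q.c x, ?_, ?_⟩
    · rw [Set.mem_ofPred_eq, ← h_left h (P.c x).out, smul_inv_smul]
      exact h2
    · show upd P ((P.c x).out • (P.c x).out⁻¹ • Q.c x) = Q
      rw [smul_inv_smul]
      exact upd_eq h1
  fincol := by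
    intro Q
    refine ((h.finR).image (fun a => upd Q ((Q.c x).out • a))).subset ?_
    intro P hP
    obtain ⟨h1, h2⟩ := entry_ne hP
    refine ⟨(Q.c x).out⁻¹ • P.c x, ?_, ?_⟩
    · rw [Set.mem_ofPred_eq, ← h_right h (Q.c x).out, smul_inv_smul]
      exact h2
    · show upd Q ((Q.c x).out • (Q.c x).out⁻¹ • P.c x) = P
      rw [smul_inv_smul]
      exact upd_eq fun v hv => (h1 v hv).symm
  C := (∑' a : Γ ⧸ X.K Γ x, ‖h.h a.out‖ₑ + ∑' a : Γ ⧸ X.K Γ x, ‖h.h a.out⁻¹‖ₑ).toNNReal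
  row := by
    intro P
    rw [row_sum, ENNReal.coe_toNNReal (ENNReal.add_ne_top.2 ⟨sum_lt_top _ h.finL, sum_lt_top _ h.finR⟩)]
    exact le_self_add
  col := by
    intro Q
    rw [col_sum, ENNReal.coe_toNNReal (ENNReal.add_ne_top.2 ⟨sum_lt_top _ h.finL, sum_lt_top _ h.finR⟩)]
    exact le_add_self

/-- local bound for arbitrary functions -/
lemma local_bound {h : HeckeFn X Γ x} {ρ : ℝ≥0} (hρ : LocalNormLe h ρ)
    (f : Γ ⧸ X.K Γ x → ℂ) :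
    ∑' a : Γ ⧸ X.K Γ x, ‖∑ᶠ b, h.h (a.out⁻¹ * b.out) * f b‖ₑ ^ 2 ≤
      (ρ : ℝ≥0∞) ^ 2 * ∑' b, ‖f b‖ₑ ^ 2 := by
  classical
  refine ENNReal.summable.tsum_le_of_sum_le fun S => ?_
  have hrow : ∀ a : Γ ⧸ X.K Γ x, {b : Γ ⧸ X.K Γ x | h.h (a.out⁻¹ * b.out) ≠ 0}.Finite := by
    intro a
    refine ((h.finL).image (fun c => a.out • c)).subset ?_
    intro b hb
    refine ⟨a.out⁻¹ • b, ?_, smul_inv_smul _ _⟩
    rw [Set.mem_ofPred_eq, ← h_left h a.out, smul_inv_smul]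
    exact hb
  let T : Finset (Γ ⧸ X.K Γ x) := S.biUnion fun a => (hrow a).toFinset
  let f1 : (Γ ⧸ X.K Γ x) →₀ ℂ := Finsupp.onFinset T (fun b => if b ∈ T then f b else 0) (by
    intro b hb
    by_contra hc
    simp [hc] at hb)
  have hf1 : ∀ b ∈ T, f1 b = f b := fun b hb => by
    show (if b ∈ T then f b else 0) = f b
    rw [if_pos hb]
  have hsupp : ∀ b ∈ f1.support, b ∈ T := fun b hb => Finsupp.support_onFinset_subset hb
  have e1 : ∀ a ∈ S, ∑ᶠ b, h.h (a.out⁻¹ * b.out) * f b =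
      ∑ b ∈ f1.support, h.h (a.out⁻¹ * b.out) * f1 b := by
    intro a ha
    rw [finsum_eq_sum_of_support_subset (s := f1.support)]
    · refine Finset.sum_congr rfl fun b hb => ?_
      rw [hf1 b (hsupp b hb)]
    · intro b hb
      simp only [Function.mem_support, ne_eq, mul_eq_zero, not_or] at hb
      have hbT : b ∈ T := Finset.mem_biUnion.2 ⟨a, ha, by simpa using hb.1⟩
      simp only [Finset.mem_coe, Finsupp.mem_support_iff, ne_eq]
      rw [hf1 b hbT]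
      exact hb.2
  have h1 := hρ f1 S
  have h2 : ENNReal.ofReal (∑ a ∈ S, ‖∑ b ∈ f1.support, h.h (a.out⁻¹ * b.out) * f1 b‖ ^ 2) ≤
      ENNReal.ofReal ((ρ : ℝ) ^ 2 * ∑ b ∈ f1.support, ‖f1 b‖ ^ 2) := ENNReal.ofReal_le_ofReal h1
  rw [ENNReal.ofReal_sum_of_nonneg (fun _ _ => by positivity),
    ENNReal.ofReal_mul (by positivity),
    ENNReal.ofReal_sum_of_nonneg (fun _ _ => by positivity),
    ENNReal.ofReal_pow (by positivity)] at h2
  simp only [ENNReal.ofReal_pow (norm_nonneg _), ofReal_norm, ENNReal.ofReal_coe_nnreal] at h2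
  calc ∑ a ∈ S, ‖∑ᶠ b, h.h (a.out⁻¹ * b.out) * f b‖ₑ ^ 2
      = ∑ a ∈ S, ‖∑ b ∈ f1.support, h.h (a.out⁻¹ * b.out) * f1 b‖ₑ ^ 2 :=
        Finset.sum_congr rfl fun a ha => by rw [e1 a ha]
    _ ≤ (ρ : ℝ≥0∞) ^ 2 * ∑ b ∈ f1.support, ‖f1 b‖ₑ ^ 2 := h2
    _ = (ρ : ℝ≥0∞) ^ 2 * ∑ b ∈ f1.support, ‖f b‖ₑ ^ 2 := by
        congr 1
        exact Finset.sum_congr rfl fun b hb => by rw [hf1 b (hsupp b hb)]
    _ ≤ _ := by
        gcongr
        exact ENNReal.sum_le_tsum _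

lemma HeckeFn.rad_le (h : HeckeFn X Γ x) (g : Γ) (hg : h.h g ≠ 0) :
    X.size x (g : GL (Fin N) F) ≤ h.rad := by
  obtain ⟨k, hk, e⟩ := out_eq X x g
  have h1 : h.h ((g : Γ ⧸ X.K Γ x)).out = h.h g := by
    rw [e]
    have := h.biinv 1 (one_mem _) k hk g
    rwa [one_mul] at this
  have h2 : X.size x ((((g : Γ ⧸ X.K Γ x)).out : Γ) : GL (Fin N) F) =
      X.size x (g : GL (Fin N) F) := by
    rw [e]
    have := size_mul_K X 1 g k (one_mem _) hk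
    rwa [one_mul] at this
  rw [← h2]
  have h3 : (g : Γ ⧸ X.K Γ x) ∈ (h.finL).toFinset := by
    rw [Set.Finite.mem_toFinset]
    show h.h ((g : Γ ⧸ X.K Γ x)).out ≠ 0
    rw [h1]
    exact hg
  exact Finset.le_sup (f := fun a : Γ ⧸ X.K Γ x => X.size x ((a.out : Γ) : GL (Fin N) F)) h3

lemma exists_norm (h : HeckeFn X Γ x) : ∃ ρ : ℝ≥0, LocalNormLe h ρ := by
  classical
  set C := (heckeKer h).C with hC
  have hC' : (C : ℝ≥0∞) = ∑' a : Γ ⧸ X.K Γ x, ‖h.h a.out‖ₑ +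
      ∑' a : Γ ⧸ X.K Γ x, ‖h.h a.out⁻¹‖ₑ :=
    ENNReal.coe_toNNReal (ENNReal.add_ne_top.2 ⟨sum_lt_top _ h.finL, sum_lt_top _ h.finR⟩)
  refine ⟨C, ?_⟩
  intro f S
  have hr : ∀ a : Γ ⧸ X.K Γ x, ∑ b ∈ f.support, ‖h.h (a.out⁻¹ * b.out)‖ₑ ≤ C := by
    intro a
    refine (ENNReal.sum_le_tsum _).trans ?_
    rw [hC']
    refine le_trans (le_of_eq ?_) le_self_add
    rw [← (MulAction.toPerm a.out).tsum_eq]
    refine tsum_congr fun b => ?_
    rw [MulAction.toPerm_apply, h_left]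
  have hc : ∀ b : Γ ⧸ X.K Γ x, ∑ a ∈ S, ‖h.h (a.out⁻¹ * b.out)‖ₑ ≤ C := by
    intro b
    refine (ENNReal.sum_le_tsum _).trans ?_
    rw [hC']
    refine le_trans (le_of_eq ?_) le_add_self
    rw [← (MulAction.toPerm b.out).tsum_eq]
    refine tsum_congr fun a => ?_
    rw [MulAction.toPerm_apply, h_right]
  have h1 : ∑ a ∈ S, ‖∑ b ∈ f.support, h.h (a.out⁻¹ * b.out) * f b‖ₑ ^ 2 ≤
      (C : ℝ≥0∞) ^ 2 * ∑ b ∈ f.support, ‖f b‖ₑ ^ 2 := by
    calc ∑ a ∈ S, ‖∑ b ∈ f.support, h.h (a.out⁻¹ * b.out) * f b‖ₑ ^ 2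
        ≤ ∑ a ∈ S, C * ∑ b ∈ f.support, ‖h.h (a.out⁻¹ * b.out)‖ₑ * ‖f b‖ₑ ^ 2 := by
          refine Finset.sum_le_sum fun a _ => (cs_enorm _ _ _).trans ?_
          gcongr
          exact hr a
      _ = C * ∑ b ∈ f.support, (∑ a ∈ S, ‖h.h (a.out⁻¹ * b.out)‖ₑ) * ‖f b‖ₑ ^ 2 := by
          rw [← Finset.mul_sum, Finset.sum_comm]
          simp only [Finset.sum_mul]
      _ ≤ C * ∑ b ∈ f.support, C * ‖f b‖ₑ ^ 2 := by
          gcongr with b
          exact hc b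
      _ = _ := by
          rw [← Finset.mul_sum]
          ring
  have e1 : ENNReal.ofReal (∑ a ∈ S, ‖∑ b ∈ f.support, h.h (a.out⁻¹ * b.out) * f b‖ ^ 2) =
      ∑ a ∈ S, ‖∑ b ∈ f.support, h.h (a.out⁻¹ * b.out) * f b‖ₑ ^ 2 := by
    rw [ENNReal.ofReal_sum_of_nonneg (fun _ _ => by positivity)]
    simp only [ENNReal.ofReal_pow (norm_nonneg _), ofReal_norm]
  have e2 : ENNReal.ofReal ((C : ℝ) ^ 2 * ∑ b ∈ f.support, ‖f b‖ ^ 2) =
      (C : ℝ≥0∞) ^ 2 * ∑ b ∈ f.support, ‖f b‖ₑ ^ 2 := by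
    rw [ENNReal.ofReal_mul (by positivity), ENNReal.ofReal_pow (by positivity),
      ENNReal.ofReal_sum_of_nonneg (fun _ _ => by positivity)]
    simp only [ENNReal.ofReal_pow (norm_nonneg _), ofReal_norm, ENNReal.ofReal_coe_nnreal]
  rw [← e1, ← e2] at h1
  exact (ENNReal.ofReal_le_ofReal_iff (mul_nonneg (by positivity)
    (Finset.sum_nonneg fun _ _ => by positivity))).1 h1

lemma HeckeFn.norm_le (h : HeckeFn X Γ x) : LocalNormLe h h.norm := by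
  intro f S
  set a := ∑ a ∈ S, ‖∑ b ∈ f.support, h.h (a.out⁻¹ * b.out) * f b‖ ^ 2 with ha
  set s := ∑ b ∈ f.support, ‖f b‖ ^ 2 with hs
  have h1 : ∀ ε : ℝ, 0 < ε → a ≤ ((h.norm : ℝ) + ε) ^ 2 * s := by
    intro ε hε
    have hlt : h.norm < h.norm + ⟨ε, hε.le⟩ := lt_add_of_pos_right _ hε
    obtain ⟨ρ, hρ, hρ2⟩ := exists_lt_of_csInf_lt (exists_norm h) hlt
    have h2 : a ≤ (ρ : ℝ) ^ 2 * s := hρ f S
    have h3 : (ρ : ℝ) ≤ (h.norm : ℝ) + ε := by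
      have : (ρ : ℝ) < ((h.norm + ⟨ε, hε.le⟩ : ℝ≥0) : ℝ) := by exact_mod_cast hρ2
      exact this.le
    have hs0 : 0 ≤ s := Finset.sum_nonneg fun _ _ => by positivity
    refine h2.trans ?_
    gcongr
  have hcont : Filter.Tendsto (fun ε : ℝ => ((h.norm : ℝ) + ε) ^ 2 * s) (nhdsWithin 0 (Set.Ioi 0))
      (nhds (((h.norm : ℝ) + 0) ^ 2 * s)) := by
    apply Filter.Tendsto.mono_left _ nhdsWithin_le_nhds
    exact Continuous.tendsto (by fun_prop) 0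
  rw [add_zero] at hcont
  refine ge_of_tendsto hcont ?_
  filter_upwards [self_mem_nhdsWithin] with ε hε
  exact h1 ε hε

/-- bundles as pairs -/
noncomputable def splitEquiv (x : X.V) :
    Bundle X Γ ≃ (Σ _ : {P : Bundle X Γ // P.c x = ((1 : Γ) : Γ ⧸ X.K Γ x)}, Γ ⧸ X.K Γ x) where
  toFun P := ⟨⟨upd P ((1 : Γ) : Γ ⧸ X.K Γ x), upd_x _ _⟩, P.c x⟩
  invFun p := upd p.1.1 p.2
  left_inv P := by
    apply Bundle.ext
    funext v
    by_cases hv : v = x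
    · subst hv; simp only [upd_x]
    · rw [upd_ne _ _ hv, upd_ne _ _ hv]
  right_inv p := by
    obtain ⟨⟨P, hP⟩, b⟩ := p
    have e1 : upd (upd P b) ((1 : Γ) : Γ ⧸ X.K Γ x) = P := by
      apply Bundle.ext
      funext v
      by_cases hv : v = x
      · subst hv; rw [upd_x, hP]
      · rw [upd_ne _ _ hv, upd_ne _ _ hv]
    simp only [upd_x, e1]

lemma act_upd (h : HeckeFn X Γ x) (v : Bundle X Γ → ℂ) (P : Bundle X Γ) (a : Γ ⧸ X.K Γ x) :
    (heckeKer h).act v (upd P a) = ∑ᶠ b : Γ ⧸ X.K Γ x, h.h (a.out⁻¹ * b.out) * v (upd P b) := by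
  unfold Ker.act
  show ∑ᶠ Q, entry h (upd P a) Q * v Q = _
  have hinj := upd_inj (x := x) P
  have e1 : ∀ b : Γ ⧸ X.K Γ x,
      h.h (a.out⁻¹ * b.out) * v (upd P b) = entry h (upd P a) (upd P b) * v (upd P b) := by
    intro b
    have : upd P b = upd (upd P a) b := by
      apply Bundle.ext
      funext w
      by_cases hw : w = x
      · subst hw; rw [upd_x, upd_x]
      · rw [upd_ne _ _ hw, upd_ne _ _ hw, upd_ne _ _ hw]
    conv_rhs => rw [this, entry_upd, upd_x]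
    rw [← this]
  simp only [e1]
  rw [← finsum_mem_range (f := fun Q => entry h (upd P a) Q * v Q) hinj, finsum_mem_def]
  refine finsum_congr fun Q => ?_
  symm
  apply Set.indicator_eq_self.2 _ |> congrFun
  intro Q hQ
  simp only [Function.mem_support, ne_eq, mul_eq_zero, not_or] at hQ
  refine ⟨Q.c x, ?_⟩
  apply upd_eq
  intro w hw
  rw [← (entry_ne hQ.1).1 w hw, upd_ne _ _ hw]

lemma normLe {h : HeckeFn X Γ x} {ρ : ℝ≥0} (hρ : LocalNormLe h ρ) : (heckeKer h).NormLe ρ := by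
  intro v
  rw [← (splitEquiv x).symm.tsum_eq, ← (splitEquiv x).symm.tsum_eq (fun P => ‖v P‖ₑ ^ 2)]
  have e1 : ∑' c : (Σ _ : {P : Bundle X Γ // P.c x = ((1 : Γ) : Γ ⧸ X.K Γ x)}, Γ ⧸ X.K Γ x),
      ‖(heckeKer h).act v ((splitEquiv x).symm c)‖ₑ ^ 2 =
      ∑' P : {P : Bundle X Γ // P.c x = ((1 : Γ) : Γ ⧸ X.K Γ x)}, ∑' a : Γ ⧸ X.K Γ x,
        ‖(heckeKer h).act v (upd P.1 a)‖ₑ ^ 2 :=
    ENNReal.tsum_sigma (fun (P : {P : Bundle X Γ // P.c x = ((1 : Γ) : Γ ⧸ X.K Γ x)})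
      (a : Γ ⧸ X.K Γ x) => ‖(heckeKer h).act v (upd P.1 a)‖ₑ ^ 2)
  have e2 : ∑' c : (Σ _ : {P : Bundle X Γ // P.c x = ((1 : Γ) : Γ ⧸ X.K Γ x)}, Γ ⧸ X.K Γ x),
      ‖v ((splitEquiv x).symm c)‖ₑ ^ 2 =
      ∑' P : {P : Bundle X Γ // P.c x = ((1 : Γ) : Γ ⧸ X.K Γ x)}, ∑' a : Γ ⧸ X.K Γ x,
        ‖v (upd P.1 a)‖ₑ ^ 2 :=
    ENNReal.tsum_sigma (fun (P : {P : Bundle X Γ // P.c x = ((1 : Γ) : Γ ⧸ X.K Γ x)})
      (a : Γ ⧸ X.K Γ x) => ‖v (upd P.1 a)‖ₑ ^ 2)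
  rw [e1, e2, ← ENNReal.tsum_mul_left]
  refine ENNReal.tsum_le_tsum fun P => ?_
  simp only [act_upd]
  exact local_bound hρ fun b => v (upd P.1 b)

end Pool.Agent.Helper80.AT
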