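import Pool.Agent.Helper80.AT.Main

/-! The Hecke module generated by a bundle of large injectivity radius. -/

open scoped ENNReal NNReal
open MeasureTheory

namespace Pool.Agent.Helper80.AT

section Abstract

variable {G Y : Type} [Group G] [MulAction G Y]
variable [hfin : ∀ P : Y, Finite (MulAction.stabilizer G P)]

lemma nsq_per_eq {v : Y → ℂ} (S : Subgroup G) [Finite S] (hS : ∀ g ∈ S, ∀ Q, v (g • Q) = v Q)
    (hr : ∀ (g : G) (Q : Y), v Q ≠ 0 → v (g • Q) ≠ 0 → g ∈ S) :
    nsq (per G v) = Nat.card S * ∑' Q, ‖v Q‖ₑ ^ 2 := by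
  classical
  rw [unfolding (G := G)]
  unfold nsq
  rw [← ENNReal.tsum_mul_left]
  refine tsum_congr fun b => ?_
  rw [mul_left_comm]
  congr 1
  by_cases h : ∃ g : G, v (g • b.out) ≠ 0
  · obtain ⟨g₀, hg₀⟩ := h
    set Q := g₀ • b.out with hQ
    have hSf : ((S : Set G)).Finite := Set.toFinite _
    have hcard : hSf.toFinset.card = Nat.card S := by
      rw [← Set.ncard_eq_toFinset_card _ hSf]
      rfl
    have e1 : per G v b = Nat.card S * v Q := by
      have : b = cls G Y Q := by rw [hQ, cls_smul, cls_out]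
      rw [this, per_cls, finsum_eq_sum_of_support_subset (s := hSf.toFinset)]
      · rw [Finset.sum_congr rfl (g := fun _ => v Q)]
        · rw [Finset.sum_const, hcard, nsmul_eq_mul]
        · intro g hg
          exact hS g (by simpa using hg) Q
      · intro g hg
        have : g ∈ S := hr g Q hg₀ hg
        simpa using this
    have e2 : ∑' g : G, ‖v (g • b.out)‖ₑ ^ 2 = Nat.card S * ‖v Q‖ₑ ^ 2 := by
      rw [← (Equiv.mulRight g₀).tsum_eq]
      have e3 : ∀ g : G, v ((Equiv.mulRight g₀) g • b.out) = v (g • Q) := by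
        intro g
        rw [Equiv.coe_mulRight, mul_smul]
      simp only [e3]
      rw [tsum_eq_sum (s := hSf.toFinset)]
      · rw [Finset.sum_congr rfl (g := fun _ => ‖v Q‖ₑ ^ 2)]
        · rw [Finset.sum_const, hcard, nsmul_eq_mul]
        · intro g hg
          rw [hS g (by simpa using hg) Q]
      · intro g hg
        have : v (g • Q) = 0 := by
          by_contra hne
          have : g ∈ S := hr g Q hg₀ hne
          exact hg (by simpa using this)
        rw [this]
        simp
    rw [e1, e2, enorm_mul, mul_pow]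
    have e4 : ‖(Nat.card S : ℂ)‖ₑ = (Nat.card S : ℝ≥0∞) := by
      rw [enorm_eq_nnnorm]
      simp
    rw [e4]
    ring
  · push Not at h
    have e1 : per G v b = 0 := by
      unfold per
      simp [h]
    rw [e1]
    simp [h]

omit hfin in
lemma act_smul_inv (K : Ker G Y) (v : Y → ℂ) (g : G) (hv : ∀ Q, v (g • Q) = v Q) (P : Y) :
    K.act v (g • P) = K.act v P := by
  unfold Ker.act
  rw [← finsum_comp_equiv (MulAction.toPerm g)]
  refine finsum_congr fun Q => ?_
  rw [MulAction.toPerm_apply, K.smul, hv]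

/-- the indicator function of an orbit -/
noncomputable def deltaFn (P : Y) : Bun G Y → ℂ := by
  classical
  exact fun b => if b = cls G Y P then 1 else 0

omit hfin in
lemma deltaFn_memLp (P : Y) : MemLp (deltaFn P : Bun G Y → ℂ) 2 (bunMeasure G Y) := by
  classical
  rw [memLp_iff]
  unfold nsq
  rw [tsum_eq_single (cls G Y P)]
  · exact ENNReal.mul_ne_top ENNReal.ofReal_ne_top (ENNReal.pow_ne_top enorm_ne_top)
  · intro b hb
    unfold deltaFn
    rw [if_neg hb]
    simp

variable (G) in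
/-- The indicator function of the class of P in L2. -/
noncomputable def delta (P : Y) : L2 G Y := (deltaFn_memLp (G := G) P).toLp _

lemma delta_apply (P : Y) (b : Bun G Y) : delta G P b = deltaFn P b := coe_toLp _ _ _

omit hfin in
/-- the indicator function of a point -/
noncomputable def pt (P : Y) : Y → ℂ := by
  classical
  exact fun Q => if Q = P then 1 else 0

lemma per_pt (P : Y) (b : Bun G Y) :
    per G (pt P) b = Nat.card (MulAction.stabilizer G P) * deltaFn P b := by
  classical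
  by_cases hb : b = cls G Y P
  · subst hb
    rw [per_cls]
    unfold deltaFn
    rw [if_pos rfl, mul_one]
    have hSf : ((MulAction.stabilizer G P : Subgroup G) : Set G).Finite := Set.toFinite _
    rw [finsum_eq_sum_of_support_subset (s := hSf.toFinset)]
    · rw [Finset.sum_congr rfl (g := fun _ => (1 : ℂ))]
      · rw [Finset.sum_const, ← Set.ncard_eq_toFinset_card _ hSf, nsmul_eq_mul, mul_one]
        rfl
      · intro g hg
        have : g • P = P := by simpa using hg
        unfold pt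
        rw [if_pos this]
    · intro g hg
      unfold pt at hg
      simp only [Function.mem_support, ne_eq, ite_eq_right_iff, one_ne_zero, imp_false,
        not_not] at hg
      simpa using hg
  · unfold deltaFn
    rw [if_neg hb, mul_zero]
    unfold per
    have : ∀ g : G, pt P (g • b.out) = 0 := by
      intro g
      unfold pt
      rw [if_neg]
      intro h
      apply hb
      rw [← h, cls_smul, cls_out]
    simp [this]

end Abstract

variable {F : Type} [Field F] {X : Places F} {N : ℕ} {Γ : Subgroup (GL (Fin N) F)}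

/-- A pair of corresponding functions on Y and on the set of orbits. -/
structure Pair (P₀ : Bundle X Γ) (n : ℕ) (v : Bundle X Γ → ℂ) (u : L2 Γ (Bundle X Γ)) : Prop where
  supp : ∀ Q, v Q ≠ 0 → X.dist P₀ Q ≤ n
  inv : ∀ g ∈ MulAction.stabilizer Γ P₀, ∀ Q, v (g • Q) = v Q
  eq : ∀ b, (Nat.card (MulAction.stabilizer Γ P₀) : ℂ) * u b = per Γ v b

lemma Pair.lf {P₀ : Bundle X Γ} {n : ℕ} {v : Bundle X Γ → ℂ} {u : L2 Γ (Bundle X Γ)}
    (h : Pair P₀ n v u) : LF Γ v :=
  fun P => ((mult_le P₀ n P).1).subset fun g hg => h.supp _ hg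

lemma pair_delta (P₀ : Bundle X Γ) : Pair P₀ 0 (pt P₀) (delta Γ P₀) := by
  refine ⟨?_, ?_, ?_⟩
  · intro Q hQ
    have : Q = P₀ := by
      by_contra h
      apply hQ
      unfold pt
      rw [if_neg h]
    rw [this, dist_self]
  · intro g hg Q
    have hg' : g • P₀ = P₀ := hg
    unfold pt
    have : g • Q = P₀ ↔ Q = P₀ := by
      constructor
      · intro h
        rw [← hg'] at h
        exact smul_left_cancel g h
      · intro h
        rw [h, hg']
    by_cases hq : Q = P₀
    · rw [if_pos (this.2 hq), if_pos hq]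
    · rw [if_neg fun h1 => hq (this.1 h1), if_neg hq]
  · intro b
    rw [delta_apply, per_pt]

lemma Pair.op {P₀ : Bundle X Γ} {n : ℕ} {v : Bundle X Γ → ℂ} {u : L2 Γ (Bundle X Γ)}
    (h : Pair P₀ n v u) (T : Hecke X Γ) :
    Pair P₀ (X.deg T.x * T.rad + n) ((heckeKer T.fn).act v) (T.op u) := by
  refine ⟨fun Q hQ => act_supp T v P₀ n h.supp Q hQ,
    fun g hg Q => act_smul_inv _ v g (h.inv g hg) Q, ?_⟩
  intro b
  have e : per Γ v = fun b => (Nat.card (MulAction.stabilizer Γ P₀) : ℂ) * u b := by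
    funext b
    exact (h.eq b).symm
  rw [← per_act h.lf, e]
  show _ * (heckeKer T.fn).op u b = _
  rw [Ker.op_apply, Ker.fn_eq, Ker.fn_eq, Finset.mul_sum]
  refine Finset.sum_congr rfl fun Q _ => ?_
  ring

lemma Pair.mono {P₀ : Bundle X Γ} {n m : ℕ} {v : Bundle X Γ → ℂ} {u : L2 Γ (Bundle X Γ)}
    (h : Pair P₀ n v u) (hnm : n ≤ m) : Pair P₀ m v u :=
  ⟨fun Q hQ => (h.supp Q hQ).trans hnm, h.inv, h.eq⟩

lemma per_add {v v' : Bundle X Γ → ℂ} (hv : LF Γ v) (hv' : LF Γ v') (b : Bun Γ (Bundle X Γ)) :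
    per Γ (v + v') b = per Γ v b + per Γ v' b := by
  unfold per
  exact finsum_add_distrib (hv b.out) (hv' b.out)

lemma Pair.add {P₀ : Bundle X Γ} {n : ℕ} {v v' : Bundle X Γ → ℂ} {u u' : L2 Γ (Bundle X Γ)}
    (h : Pair P₀ n v u) (h' : Pair P₀ n v' u') : Pair P₀ n (v + v') (u + u') := by
  refine ⟨?_, ?_, ?_⟩
  · intro Q hQ
    by_cases h0 : v Q = 0
    · exact h'.supp Q (by
        intro h1
        apply hQ
        show v Q + v' Q = 0
        rw [h0, h1, add_zero])
    · exact h.supp Q h0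
  · intro g hg Q
    show v (g • Q) + v' (g • Q) = v Q + v' Q
    rw [h.inv g hg, h'.inv g hg]
  · intro b
    rw [per_add h.lf h'.lf, coe_add, mul_add, h.eq, h'.eq]

lemma Pair.smul {P₀ : Bundle X Γ} {n : ℕ} {v : Bundle X Γ → ℂ} {u : L2 Γ (Bundle X Γ)}
    (h : Pair P₀ n v u) (c : ℂ) : Pair P₀ n (c • v) (c • u) := by
  refine ⟨?_, ?_, ?_⟩
  · intro Q hQ
    refine h.supp Q fun h0 => hQ ?_
    show c * v Q = 0
    rw [h0, mul_zero]
  · intro g hg Q
    show c * v (g • Q) = c * v Q
    rw [h.inv g hg]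
  · intro b
    rw [coe_smul, mul_left_comm, h.eq]
    unfold per
    show c * _ = ∑ᶠ g : Γ, c * v (g • b.out)
    exact mul_finsum _ _

lemma pair_zero (P₀ : Bundle X Γ) (n : ℕ) : Pair P₀ n 0 0 := by
  have := ((pair_delta P₀).smul 0).mono (Nat.zero_le n)
  simpa using this

lemma Pair.sum {I : Type} (s : Finset I) {P₀ : Bundle X Γ} {n : ℕ} {v : I → Bundle X Γ → ℂ}
    {u : I → L2 Γ (Bundle X Γ)} (h : ∀ i ∈ s, Pair P₀ n (v i) (u i)) :
    Pair P₀ n (∑ i ∈ s, v i) (∑ i ∈ s, u i) := by
  classical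
  induction s using Finset.induction_on with
  | empty =>
    simpa using pair_zero P₀ n
  | insert i s hi ih =>
    rw [Finset.sum_insert hi, Finset.sum_insert hi]
    exact (h i (by simp)).add (ih fun j hj => h j (by simp [hj]))

lemma pair_word (P₀ : Bundle X Γ) (L : List (Hecke X Γ)) :
    Pair P₀ (wordSize L) (actL (L.map fun T => heckeKer T.fn) (pt P₀)) (wordOp L (delta Γ P₀)) := by
  induction L with
  | nil => exact pair_delta P₀
  | cons T L ih =>
    have h1 := ih.op T
    have e : wordSize (T :: L) = X.deg T.x * T.rad + wordSize L := by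
      unfold wordSize
      rw [List.map_cons, List.sum_cons]
    rw [e]
    have e2 : wordOp (T :: L) (delta Γ P₀) = T.op (wordOp L (delta Γ P₀)) := by
      unfold wordOp
      rw [List.map_cons, List.prod_cons]
      rfl
    rw [e2]
    exact h1

/-- the isometry -/
lemma Pair.norm {P₀ : Bundle X Γ} {n : ℕ} {v : Bundle X Γ → ℂ} {u : L2 Γ (Bundle X Γ)}
    (h : Pair P₀ n v u) (hinj : ∀ g : Γ, X.dist (g • P₀) P₀ ≤ 2 * n → g • P₀ = P₀) :
    HasSum (fun Q => ‖v Q‖ ^ 2) (Nat.card (MulAction.stabilizer Γ P₀) * ‖u‖ ^ 2) := by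
  set s := Nat.card (MulAction.stabilizer Γ P₀) with hs
  have hspos : 0 < s := Nat.card_pos
  have h1 : nsq (per Γ v) = s * ∑' Q, ‖v Q‖ₑ ^ 2 := by
    refine nsq_per_eq (MulAction.stabilizer Γ P₀) h.inv ?_
    intro g Q hQ hgQ
    apply hinj
    have e1 := h.supp Q hQ
    have e2 := h.supp _ hgQ
    have e3 := dist_triangle X (g • P₀) (g • Q) P₀
    rw [dist_smul, dist_comm X (g • Q)] at e3
    omega
  have h2 : nsq (per Γ v) = (s : ℝ≥0∞) ^ 2 * nsq (u : Bun Γ (Bundle X Γ) → ℂ) := by
    unfold nsq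
    rw [← ENNReal.tsum_mul_left]
    refine tsum_congr fun b => ?_
    rw [← h.eq b, enorm_mul, mul_pow]
    have e4 : ‖(s : ℂ)‖ₑ = (s : ℝ≥0∞) := by
      rw [enorm_eq_nnnorm]
      simp
    rw [e4]
    ring
  have hs0 : (s : ℝ≥0∞) ≠ 0 := by exact_mod_cast hspos.ne'
  have hst : (s : ℝ≥0∞) ≠ ∞ := ENNReal.natCast_ne_top s
  have h3 : ∑' Q, ‖v Q‖ₑ ^ 2 = s * nsq (u : Bun Γ (Bundle X Γ) → ℂ) := by
    rw [h1, pow_two, mul_assoc] at h2
    exact (ENNReal.mul_right_inj hs0 hst).1 h2
  rw [← norm_sq] at h3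
  have e1 : (s : ℝ≥0∞) = ENNReal.ofReal s := by simp
  rw [e1, ← ENNReal.ofReal_mul (by positivity)] at h3
  have e2 : ∀ Q, ‖v Q‖ₑ ^ 2 = ENNReal.ofReal (‖v Q‖ ^ 2) := by
    intro Q
    rw [ENNReal.ofReal_pow (norm_nonneg _), ofReal_norm]
  simp only [e2] at h3
  have hsum : Summable fun Q => ‖v Q‖ ^ 2 := by
    have : ∑' Q, ENNReal.ofReal (‖v Q‖ ^ 2) ≠ ∞ := by
      rw [h3]
      exact ENNReal.ofReal_ne_top
    exact ENNReal.summable_toReal this |>.congr fun Q => by
      rw [ENNReal.toReal_ofReal (by positivity)]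
  have h4 : ∑' Q, ‖v Q‖ ^ 2 = s * ‖u‖ ^ 2 := by
    rw [← ENNReal.ofReal_tsum_of_nonneg (fun _ => by positivity) hsum] at h3
    exact (ENNReal.ofReal_eq_ofReal_iff (tsum_nonneg fun _ => by positivity) (by positivity)).1 h3
  rw [← h4]
  exact hsum.hasSum

end Pool.Agent.Helper80.AT
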