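import Pool.Agent.Helper80.AT.Abs

/-! Operators on L2 of a groupoid quotient given by invariant kernels; periodisation. -/

open scoped ENNReal NNReal
open MeasureTheory

namespace Pool.Agent.Helper80.AT

/-- An invariant kernel on Y with finitely many nonzero entries in every row and in every column
and with bounded row and column sums. -/
structure Ker (G Y : Type) [Group G] [MulAction G Y] where
  /-- the entries -/
  k : Y → Y → ℂ
  smul : ∀ (g : G) (P Q : Y), k (g • P) (g • Q) = k P Q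
  finrow : ∀ P, {Q | k P Q ≠ 0}.Finite
  fincol : ∀ Q, {P | k P Q ≠ 0}.Finite
  /-- the bound -/
  C : ℝ≥0
  row : ∀ P, ∑' Q, ‖k P Q‖ₑ ≤ C
  col : ∀ Q, ∑' P, ‖k P Q‖ₑ ≤ C

variable {G Y : Type} [Group G] [MulAction G Y]

/-- The operator on functions on the set of orbits given by a kernel. -/
noncomputable def Ker.fn (K : Ker G Y) (f : Bun G Y → ℂ) : Bun G Y → ℂ :=
  fun b => ∑ᶠ Q : Y, K.k b.out Q * f (cls G Y Q)

/-- The operator on functions on Y given by a kernel. -/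
noncomputable def Ker.act (K : Ker G Y) (v : Y → ℂ) : Y → ℂ :=
  fun P => ∑ᶠ Q : Y, K.k P Q * v Q

lemma exists_out (P : Y) : ∃ g : G, (cls G Y P).out = g • P := by
  have h : (Quotient.mk'' (cls G Y P).out : Bun G Y) = Quotient.mk'' P := Quotient.out_eq' _
  rw [Quotient.eq''] at h
  obtain ⟨g, hg⟩ := (MulAction.orbitRel_apply.1 h)
  exact ⟨g, hg.symm⟩

lemma cls_smul (g : G) (P : Y) : cls G Y (g • P) = cls G Y P := by
  apply Quotient.sound'
  exact MulAction.orbitRel_apply.2 ⟨g, rfl⟩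

lemma cls_out (b : Bun G Y) : cls G Y b.out = b := Quotient.out_eq' b

lemma Ker.fn_eq (K : Ker G Y) (f : Bun G Y → ℂ) (b : Bun G Y) :
    K.fn f b = ∑ Q ∈ (K.finrow b.out).toFinset, K.k b.out Q * f (cls G Y Q) := by
  unfold Ker.fn
  apply finsum_eq_sum_of_support_subset
  intro Q hQ
  simp only [Function.mem_support, ne_eq, mul_eq_zero, not_or] at hQ
  simpa using hQ.1

lemma Ker.act_eq (K : Ker G Y) (v : Y → ℂ) (P : Y) :
    K.act v P = ∑ Q ∈ (K.finrow P).toFinset, K.k P Q * v Q := by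
  unfold Ker.act
  apply finsum_eq_sum_of_support_subset
  intro Q hQ
  simp only [Function.mem_support, ne_eq, mul_eq_zero, not_or] at hQ
  simpa using hQ.1

lemma Ker.fn_cls (K : Ker G Y) (f : Bun G Y → ℂ) (P : Y) :
    K.fn f (cls G Y P) = ∑ᶠ Q : Y, K.k P Q * f (cls G Y Q) := by
  obtain ⟨g, hg⟩ := exists_out (G := G) P
  unfold Ker.fn
  rw [hg, ← finsum_comp_equiv (MulAction.toPerm g)]
  refine finsum_congr fun Q => ?_
  rw [MulAction.toPerm_apply, K.smul, cls_smul]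

lemma cs_enorm {ι : Type} (s : Finset ι) (a b : ι → ℂ) :
    ‖∑ i ∈ s, a i * b i‖ₑ ^ 2 ≤ (∑ i ∈ s, ‖a i‖ₑ) * ∑ i ∈ s, ‖a i‖ₑ * ‖b i‖ₑ ^ 2 := by
  have h1 : ‖∑ i ∈ s, a i * b i‖₊ ≤ ∑ i ∈ s, ‖a i‖₊ * ‖b i‖₊ := by
    refine (nnnorm_sum_le _ _).trans (le_of_eq ?_)
    simp
  have h2 : (∑ i ∈ s, ‖a i‖₊ * ‖b i‖₊) ^ 2 ≤ (∑ i ∈ s, ‖a i‖₊) * ∑ i ∈ s, ‖a i‖₊ * ‖b i‖₊ ^ 2 := by
    apply Finset.sum_sq_le_sum_mul_sum_of_sq_le_mul
    · intro i _; exact zero_le
    · intro i _; exact zero_le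
    · intro i _; exact le_of_eq (by ring)
  have h3 : ‖∑ i ∈ s, a i * b i‖₊ ^ 2 ≤ (∑ i ∈ s, ‖a i‖₊) * ∑ i ∈ s, ‖a i‖₊ * ‖b i‖₊ ^ 2 :=
    (pow_le_pow_left' h1 2).trans h2
  simp only [enorm_eq_nnnorm]
  exact_mod_cast h3

variable [hfin : ∀ P : Y, Finite (MulAction.stabilizer G P)]

lemma Ker.nsq_le (K : Ker G Y) (f : Bun G Y → ℂ) : nsq (K.fn f) ≤ (K.C : ℝ≥0∞) ^ 2 * nsq f := by
  have h1 : ∀ b : Bun G Y, ‖K.fn f b‖ₑ ^ 2 ≤
      K.C * ∑' Q : Y, ‖K.k b.out Q‖ₑ * ‖f (cls G Y Q)‖ₑ ^ 2 := by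
    intro b
    rw [K.fn_eq]
    refine (cs_enorm _ _ _).trans ?_
    gcongr
    · exact (ENNReal.sum_le_tsum _).trans (K.row _)
    · exact ENNReal.sum_le_tsum _
  have h2 : ∀ b : Bun G Y, ∑' Q : Y, ‖K.k b.out Q‖ₑ * ‖f (cls G Y Q)‖ₑ ^ 2 =
      ∑' b' : Bun G Y, ENNReal.ofReal (mass b') * (‖f b'‖ₑ ^ 2 *
        ∑' g : G, ‖K.k (g • b.out) b'.out‖ₑ) := by
    intro b
    rw [unfolding (G := G)]
    refine tsum_congr fun b' => ?_
    congr 1
    rw [← ENNReal.tsum_mul_left, ← (Equiv.inv G).tsum_eq]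
    refine tsum_congr fun g => ?_
    rw [cls_smul, cls_out, mul_comm, Equiv.inv_apply]
    congr 2
    rw [← K.smul g, smul_inv_smul]
  unfold nsq
  calc ∑' b, ENNReal.ofReal (mass b) * ‖K.fn f b‖ₑ ^ 2
      ≤ ∑' b : Bun G Y, ENNReal.ofReal (mass b) * (K.C * ∑' b' : Bun G Y,
        ENNReal.ofReal (mass b') * (‖f b'‖ₑ ^ 2 * ∑' g : G, ‖K.k (g • b.out) b'.out‖ₑ)) := by
        refine ENNReal.tsum_le_tsum fun b => ?_
        rw [← h2]
        gcongr
        exact h1 b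
    _ = K.C * ∑' b' : Bun G Y, ENNReal.ofReal (mass b') * ‖f b'‖ₑ ^ 2 *
        ∑' b : Bun G Y, ENNReal.ofReal (mass b) * ∑' g : G, ‖K.k (g • b.out) b'.out‖ₑ := by
        simp only [← ENNReal.tsum_mul_left]
        rw [ENNReal.tsum_comm]
        refine tsum_congr fun b' => tsum_congr fun b => tsum_congr fun g => ?_
        ring
    _ = K.C * ∑' b' : Bun G Y, ENNReal.ofReal (mass b') * ‖f b'‖ₑ ^ 2 *
        ∑' P : Y, ‖K.k P b'.out‖ₑ := by
        congr 1
        refine tsum_congr fun b' => ?_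
        congr 1
        exact (unfolding (G := G) (fun P => ‖K.k P b'.out‖ₑ)).symm
    _ ≤ K.C * ∑' b' : Bun G Y, ENNReal.ofReal (mass b') * ‖f b'‖ₑ ^ 2 * K.C := by
        gcongr
        exact K.col _
    _ = (K.C : ℝ≥0∞) ^ 2 * ∑' b, ENNReal.ofReal (mass b) * ‖f b‖ₑ ^ 2 := by
        rw [ENNReal.tsum_mul_right]
        ring

lemma Ker.memLp (K : Ker G Y) (f : L2 G Y) : MemLp (K.fn f) 2 (bunMeasure G Y) := by
  rw [memLp_iff]
  refine ne_top_of_le_ne_top ?_ (K.nsq_le _)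
  exact ENNReal.mul_ne_top (by simp) (nsq_ne_top f)

omit hfin in
lemma coe_eq {f g : L2 G Y} (h : ∀ b, f b = g b) : f = g :=
  Lp.ext (Filter.Eventually.of_forall h)

lemma coe_toLp (f : Bun G Y → ℂ) (h : MemLp f 2 (bunMeasure G Y)) (b : Bun G Y) :
    (h.toLp f) b = f b :=
  (ae_all _).1 h.coeFn_toLp b

lemma coe_add (f g : L2 G Y) (b : Bun G Y) : (f + g : L2 G Y) b = f b + g b :=
  (ae_all _).1 (Lp.coeFn_add f g) b

lemma coe_sub (f g : L2 G Y) (b : Bun G Y) : (f - g : L2 G Y) b = f b - g b :=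
  (ae_all _).1 (Lp.coeFn_sub f g) b

lemma coe_smul (c : ℂ) (f : L2 G Y) (b : Bun G Y) : (c • f : L2 G Y) b = c * f b :=
  (ae_all _).1 (Lp.coeFn_smul c f) b

/-- The bounded operator on L2 of the set of orbits given by a kernel. -/
noncomputable def Ker.op (K : Ker G Y) : L2 G Y →L[ℂ] L2 G Y :=
  LinearMap.mkContinuous
    { toFun := fun f => (K.memLp f).toLp (K.fn f)
      map_add' := by
        intro f g
        apply coe_eq
        intro b
        rw [coe_add]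
        simp only [coe_toLp, K.fn_eq, ← Finset.sum_add_distrib]
        refine Finset.sum_congr rfl fun Q _ => ?_
        rw [coe_add]; ring
      map_smul' := by
        intro c f
        apply coe_eq
        intro b
        rw [RingHom.id_apply, coe_smul]
        simp only [coe_toLp, K.fn_eq, Finset.mul_sum]
        refine Finset.sum_congr rfl fun Q _ => ?_
        rw [coe_smul]; ring } K.C
    (by
      intro f
      have h1 : ENNReal.ofReal (‖(K.memLp f).toLp (K.fn f)‖ ^ 2) ≤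
          ENNReal.ofReal ((K.C * ‖f‖) ^ 2) := by
        rw [norm_sq, mul_pow, ENNReal.ofReal_mul (by positivity), norm_sq]
        have h2 : nsq (((K.memLp f).toLp (K.fn f) : L2 G Y) : Bun G Y → ℂ) = nsq (K.fn f) := by
          congr 1
          funext b
          exact coe_toLp _ _ _
        rw [h2]
        refine (K.nsq_le _).trans (le_of_eq ?_)
        congr 1
        rw [ENNReal.ofReal_pow (by positivity)]
        simp
      rw [ENNReal.ofReal_le_ofReal_iff (by positivity)] at h1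
      exact (pow_le_pow_iff_left₀ (norm_nonneg _) (by positivity) (by norm_num)).1 h1)

lemma Ker.op_apply (K : Ker G Y) (f : L2 G Y) (b : Bun G Y) : K.op f b = K.fn f b :=
  coe_toLp _ (K.memLp f) _

/-! ### Periodisation -/

omit hfin in
variable (G) in
/-- Only finitely many translates of every point lie in the support. -/
def LF (v : Y → ℂ) : Prop := ∀ P : Y, {g : G | v (g • P) ≠ 0}.Finite

omit hfin in
variable (G) in
/-- The periodisation. -/
noncomputable def per (v : Y → ℂ) : Bun G Y → ℂ := fun b => ∑ᶠ g : G, v (g • b.out)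

omit hfin in
lemma per_cls (v : Y → ℂ) (P : Y) : per G v (cls G Y P) = ∑ᶠ g : G, v (g • P) := by
  obtain ⟨g0, hg⟩ := exists_out (G := G) P
  unfold per
  rw [hg, ← finsum_comp_equiv (f := fun g : G => v (g • P)) (Equiv.mulRight g0)]
  refine finsum_congr fun g => ?_
  rw [Equiv.coe_mulRight, mul_smul]

end Pool.Agent.Helper80.AT
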