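import Pool.Agent.Helper80.AT.ManyFn

/-! Sums of Hecke operators at many places, on functions on the set of bundles. -/

open scoped ENNReal NNReal InnerProductSpace
open MeasureTheory

namespace Pool.Agent.Helper80.AT

lemma Ker.act_add {G Y : Type} [Group G] [MulAction G Y] (K : Ker G Y) (v w : Y → ℂ) :
    K.act (v + w) = K.act v + K.act w := by
  funext P
  rw [Pi.add_apply, K.act_eq, K.act_eq, K.act_eq, ← Finset.sum_add_distrib]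
  refine Finset.sum_congr rfl fun Q _ => ?_
  rw [Pi.add_apply, mul_add]

lemma sum_cs {ι : Type} (s : Finset ι) (b : ι → ℂ) :
    ‖∑ i ∈ s, b i‖ₑ ^ 2 ≤ s.card * ∑ i ∈ s, ‖b i‖ₑ ^ 2 := by
  have h := cs_enorm s (fun _ => 1) b
  simpa using h

lemma weight_cs {ι : Type} (s : Finset ι) (ρ : ι → ℝ≥0) (d : ι → ℂ)
    (hd : ∀ i ∈ s, ρ i = 0 → d i = 0) :
    ‖∑ i ∈ s, d i‖ₑ ^ 2 ≤ (∑ i ∈ s, (ρ i : ℝ≥0∞) ^ 2) *
      ∑ i ∈ s, ((ρ i : ℝ≥0∞) ^ 2)⁻¹ * ‖d i‖ₑ ^ 2 := by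
  have h := cs_enorm s (fun i => (((ρ i : ℝ) ^ 2 : ℝ) : ℂ))
    (fun i => d i / (((ρ i : ℝ) ^ 2 : ℝ) : ℂ))
  have e1 : ∑ i ∈ s, (((ρ i : ℝ) ^ 2 : ℝ) : ℂ) * (d i / (((ρ i : ℝ) ^ 2 : ℝ) : ℂ)) =
      ∑ i ∈ s, d i := by
    refine Finset.sum_congr rfl fun i hi => ?_
    by_cases h0 : ρ i = 0
    · rw [hd i hi h0, h0]
      simp
    · have : (((ρ i : ℝ) ^ 2 : ℝ) : ℂ) ≠ 0 := by
        have h1 : (ρ i : ℝ) ≠ 0 := by exact_mod_cast h0
        exact_mod_cast pow_ne_zero 2 h1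
      field_simp
  have e2 : ∀ i, ‖(((ρ i : ℝ) ^ 2 : ℝ) : ℂ)‖ₑ = (ρ i : ℝ≥0∞) ^ 2 := by
    intro i
    rw [← ofReal_norm, Complex.norm_real, Real.norm_of_nonneg (by positivity),
      ENNReal.ofReal_pow (by positivity)]
    simp
  rw [e1] at h
  simp only [e2] at h
  refine h.trans (mul_le_mul_right (Finset.sum_le_sum fun i hi => ?_) _)
  by_cases h0 : ρ i = 0
  · rw [h0]
    simp
  · have h1 : (ρ i : ℝ≥0∞) ≠ 0 := by exact_mod_cast h0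
    have h2 : (ρ i : ℝ≥0∞) ^ 2 ≠ 0 := pow_ne_zero 2 h1
    have h3 : (ρ i : ℝ≥0∞) ^ 2 ≠ ∞ := ENNReal.pow_ne_top ENNReal.coe_ne_top
    have h4 : ‖d i / (((ρ i : ℝ) ^ 2 : ℝ) : ℂ)‖ₑ = ‖d i‖ₑ * ((ρ i : ℝ≥0∞) ^ 2)⁻¹ := by
      rw [div_eq_mul_inv, enorm_mul, enorm_inv, e2]
      have h5 : (ρ i : ℝ) ≠ 0 := by exact_mod_cast h0
      exact_mod_cast pow_ne_zero 2 h5
    rw [h4, mul_pow]
    have h5 : (ρ i : ℝ≥0∞) ^ 2 * ((ρ i : ℝ≥0∞) ^ 2)⁻¹ = 1 := ENNReal.mul_inv_cancel h2 h3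
    calc (ρ i : ℝ≥0∞) ^ 2 * (‖d i‖ₑ ^ 2 * ((ρ i : ℝ≥0∞) ^ 2)⁻¹ ^ 2)
        = ((ρ i : ℝ≥0∞) ^ 2 * ((ρ i : ℝ≥0∞) ^ 2)⁻¹) * (((ρ i : ℝ≥0∞) ^ 2)⁻¹ * ‖d i‖ₑ ^ 2) := by
          ring
      _ = ((ρ i : ℝ≥0∞) ^ 2)⁻¹ * ‖d i‖ₑ ^ 2 := by rw [h5, one_mul]
      _ ≤ _ := le_refl _

lemma add_sq_enorm (a b : ℂ) : ‖a + b‖ₑ ^ 2 ≤ 2 * ‖a‖ₑ ^ 2 + 2 * ‖b‖ₑ ^ 2 := by
  have h := sum_cs (Finset.univ : Finset (Fin 2)) ![a, b]
  simp only [Fin.sum_univ_two, Matrix.cons_val_zero, Matrix.cons_val_one,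
    Finset.card_univ, Fintype.card_fin] at h
  refine h.trans (le_of_eq ?_)
  push_cast
  ring

variable {F : Type} [Field F] {X : Places F} {N : ℕ} {Γ : Subgroup (GL (Fin N) F)}

open Classical in
/-- The number of places in B at which Q differs from P. -/
noncomputable def moved (B : Finset X.V) (P Q : Bundle X Γ) : ℕ :=
  (B.filter fun x => Q.c x ≠ P.c x).card

open Classical in
/-- The part of v on the bundles that agree with P at x. -/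
noncomputable def atP (P : Bundle X Γ) (x : X.V) (v : Bundle X Γ → ℂ) : Bundle X Γ → ℂ :=
  fun Q => if Q.c x = P.c x then v Q else 0

open Classical in
/-- The part of v on the bundles that differ from P at x. -/
noncomputable def offP (P : Bundle X Γ) (x : X.V) (v : Bundle X Γ → ℂ) : Bundle X Γ → ℂ :=
  fun Q => if Q.c x = P.c x then 0 else v Q

lemma at_add_off (P : Bundle X Γ) (x : X.V) (v : Bundle X Γ → ℂ) :
    atP P x v + offP P x v = v := by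
  funext Q
  rw [Pi.add_apply]
  unfold atP offP
  by_cases h : Q.c x = P.c x
  · rw [if_pos h, if_pos h, add_zero]
  · rw [if_neg h, if_neg h, zero_add]

lemma moved_upd (B : Finset X.V) (P Q : Bundle X Γ) (x : X.V) :
    moved B P Q ≤ moved B P (upd Q (P.c x)) + 1 := by
  classical
  unfold moved
  have h : (B.filter fun y => Q.c y ≠ P.c y) ⊆
      insert x (B.filter fun y => (upd Q (P.c x)).c y ≠ P.c y) := by
    intro y hy
    rw [Finset.mem_filter] at hy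
    by_cases hyx : y = x
    · rw [hyx]
      exact Finset.mem_insert_self _ _
    · refine Finset.mem_insert_of_mem (Finset.mem_filter.2 ⟨hy.1, ?_⟩)
      rw [upd_ne _ _ hyx]
      exact hy.2
  exact (Finset.card_le_card h).trans (Finset.card_insert_le _ _)

variable {x : X.V}

lemma act_ne {h : HeckeFn X Γ x} {v : Bundle X Γ → ℂ} {Q : Bundle X Γ}
    (hQ : (heckeKer h).act v Q ≠ 0) : ∃ Q', entry h Q Q' ≠ 0 ∧ v Q' ≠ 0 := by
  by_contra hc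
  push Not at hc
  apply hQ
  show ∑ᶠ Q', entry h Q Q' * v Q' = 0
  refine (finsum_congr fun Q' => ?_).trans finsum_zero
  by_cases h0 : entry h Q Q' = 0
  · rw [h0, zero_mul]
  · rw [hc Q' h0, mul_zero]

lemma create_ne {h : HeckeFn X Γ x} (hK : ∀ g ∈ X.K Γ x, h.h g = 0) {P : Bundle X Γ}
    {v : Bundle X Γ → ℂ} {Q : Bundle X Γ} (hQ : (heckeKer h).act (atP P x v) Q ≠ 0) :
    Q.c x ≠ P.c x ∧ v (upd Q (P.c x)) ≠ 0 := by
  obtain ⟨Q', h1, h2⟩ := act_ne hQ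
  unfold atP at h2
  have h3 : Q'.c x = P.c x := by
    by_contra hc
    rw [if_neg hc] at h2
    exact h2 rfl
  rw [if_pos h3] at h2
  obtain ⟨h4, h5⟩ := entry_ne h1
  have h6 : upd Q (P.c x) = Q' := by
    rw [← h3]
    exact upd_eq h4
  rw [h6]
  refine ⟨?_, h2⟩
  intro h7
  apply h5
  rw [h3, h7]
  apply hK
  rw [inv_mul_cancel]
  exact one_mem _

lemma star_vol_ennreal (h : HeckeFn X Γ x) (c : Γ ⧸ X.K Γ x) :
    ∑' a : Γ ⧸ X.K Γ x, ‖h.h (a.out⁻¹ * c.out)‖ₑ ^ 2 = ENNReal.ofReal h.star.vol := by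
  rw [h.star.ofReal_vol, ← (MulAction.toPerm c.out).tsum_eq]
  refine tsum_congr fun a => ?_
  rw [MulAction.toPerm_apply, h_right]
  show _ = ‖starRingEnd ℂ (h.h (a.out)⁻¹)‖ₑ ^ 2
  rw [enorm_eq_nnnorm, enorm_eq_nnnorm, RCLike.nnnorm_conj]

lemma create_sq (h : HeckeFn X Γ x) (P : Bundle X Γ) (v : Bundle X Γ → ℂ) :
    ∑' Q, ‖(heckeKer h).act (atP P x v) Q‖ₑ ^ 2 ≤
      ENNReal.ofReal h.star.vol * ∑' Q, ‖atP P x v Q‖ₑ ^ 2 := by
  rw [← (splitEquiv x).symm.tsum_eq,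
    ← (splitEquiv x).symm.tsum_eq (fun Q => ‖atP P x v Q‖ₑ ^ 2)]
  have e1 : ∑' c : (Σ _ : {P : Bundle X Γ // P.c x = ((1 : Γ) : Γ ⧸ X.K Γ x)}, Γ ⧸ X.K Γ x),
      ‖(heckeKer h).act (atP P x v) ((splitEquiv x).symm c)‖ₑ ^ 2 =
      ∑' P' : {P : Bundle X Γ // P.c x = ((1 : Γ) : Γ ⧸ X.K Γ x)}, ∑' a : Γ ⧸ X.K Γ x,
        ‖(heckeKer h).act (atP P x v) (upd P'.1 a)‖ₑ ^ 2 :=
    ENNReal.tsum_sigma (fun (P' : {P : Bundle X Γ // P.c x = ((1 : Γ) : Γ ⧸ X.K Γ x)})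
      (a : Γ ⧸ X.K Γ x) => ‖(heckeKer h).act (atP P x v) (upd P'.1 a)‖ₑ ^ 2)
  have e2 : ∑' c : (Σ _ : {P : Bundle X Γ // P.c x = ((1 : Γ) : Γ ⧸ X.K Γ x)}, Γ ⧸ X.K Γ x),
      ‖atP P x v ((splitEquiv x).symm c)‖ₑ ^ 2 =
      ∑' P' : {P : Bundle X Γ // P.c x = ((1 : Γ) : Γ ⧸ X.K Γ x)}, ∑' a : Γ ⧸ X.K Γ x,
        ‖atP P x v (upd P'.1 a)‖ₑ ^ 2 :=
    ENNReal.tsum_sigma (fun (P' : {P : Bundle X Γ // P.c x = ((1 : Γ) : Γ ⧸ X.K Γ x)})
      (a : Γ ⧸ X.K Γ x) => ‖atP P x v (upd P'.1 a)‖ₑ ^ 2)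
  rw [e1, e2, ← ENNReal.tsum_mul_left]
  refine ENNReal.tsum_le_tsum fun P' => ?_
  have e3 : ∀ a : Γ ⧸ X.K Γ x, (heckeKer h).act (atP P x v) (upd P'.1 a) =
      h.h (a.out⁻¹ * (P.c x).out) * v (upd P'.1 (P.c x)) := by
    intro a
    rw [act_upd, finsum_eq_single _ (P.c x)]
    · unfold atP
      rw [if_pos (upd_x _ _)]
    · intro b hb
      unfold atP
      rw [upd_x, if_neg hb, mul_zero]
  have e4 : ∑' a : Γ ⧸ X.K Γ x, ‖(heckeKer h).act (atP P x v) (upd P'.1 a)‖ₑ ^ 2 =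
      ENNReal.ofReal h.star.vol * ‖v (upd P'.1 (P.c x))‖ₑ ^ 2 := by
    simp only [e3, enorm_mul, mul_pow]
    rw [ENNReal.tsum_mul_right, star_vol_ennreal]
  rw [e4]
  gcongr
  refine le_trans (le_of_eq ?_) (ENNReal.le_tsum (P.c x))
  unfold atP
  rw [if_pos (upd_x _ _)]

variable (B : Finset X.V) (h : (x : X.V) → HeckeFn X Γ x)

/-- The sum of the operators at the places in B. -/
noncomputable def sAct (v : Bundle X Γ → ℂ) : Bundle X Γ → ℂ :=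
  fun Q => ∑ x ∈ B, (heckeKer (h x)).act v Q

variable {B h} (hK : ∀ x ∈ B, ∀ g ∈ X.K Γ x, (h x).h g = 0)

include hK in
lemma create_sum (P : Bundle X Γ) (v : Bundle X Γ → ℂ) (n : ℕ)
    (hv : ∀ Q, v Q ≠ 0 → moved B P Q ≤ n) :
    ∑' Q, ‖∑ x ∈ B, (heckeKer (h x)).act (atP P x v) Q‖ₑ ^ 2 ≤
      (n + 1) * ENNReal.ofReal (vTot B h) * ∑' Q, ‖v Q‖ₑ ^ 2 := by
  classical
  have h1 : ∀ Q, ‖∑ x ∈ B, (heckeKer (h x)).act (atP P x v) Q‖ₑ ^ 2 ≤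
      (n + 1) * ∑ x ∈ B, ‖(heckeKer (h x)).act (atP P x v) Q‖ₑ ^ 2 := by
    intro Q
    by_cases hex : ∃ x ∈ B, (heckeKer (h x)).act (atP P x v) Q ≠ 0
    · obtain ⟨x, hx, hne⟩ := hex
      have h2 := create_ne (hK x hx) hne
      have h3 : moved B P Q ≤ n + 1 := (moved_upd B P Q x).trans (by
        have := hv _ h2.2
        omega)
      have h4 : ∑ x ∈ B, (heckeKer (h x)).act (atP P x v) Q =
          ∑ x ∈ B.filter (fun x => Q.c x ≠ P.c x), (heckeKer (h x)).act (atP P x v) Q := by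
        symm
        apply Finset.sum_filter_of_ne
        intro y hy hy'
        exact (create_ne (hK y hy) hy').1
      rw [h4]
      refine (sum_cs _ _).trans ?_
      gcongr
      · have h5 : ((B.filter fun x => Q.c x ≠ P.c x).card : ℝ≥0∞) ≤ ((n + 1 : ℕ) : ℝ≥0∞) := by
          exact_mod_cast h3
        refine h5.trans (le_of_eq ?_)
        push_cast
        rfl
      · exact Finset.filter_subset _ _
    · push Not at hex
      rw [Finset.sum_eq_zero hex]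
      simp
  have h2 : ∀ x ∈ B, ∑' Q, ‖(heckeKer (h x)).act (atP P x v) Q‖ₑ ^ 2 ≤
      ENNReal.ofReal (h x).star.vol * ∑' Q, ‖v Q‖ₑ ^ 2 := by
    intro x _
    refine (create_sq (h x) P v).trans ?_
    gcongr with Q
    unfold atP
    split_ifs <;> simp
  calc ∑' Q, ‖∑ x ∈ B, (heckeKer (h x)).act (atP P x v) Q‖ₑ ^ 2
      ≤ ∑' Q, (n + 1) * ∑ x ∈ B, ‖(heckeKer (h x)).act (atP P x v) Q‖ₑ ^ 2 :=
        ENNReal.tsum_le_tsum h1
    _ = (n + 1) * ∑ x ∈ B, ∑' Q, ‖(heckeKer (h x)).act (atP P x v) Q‖ₑ ^ 2 := by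
        rw [ENNReal.tsum_mul_left, Summable.tsum_finsetSum fun _ _ => ENNReal.summable]
    _ ≤ (n + 1) * ∑ x ∈ B, ENNReal.ofReal (h x).star.vol * ∑' Q, ‖v Q‖ₑ ^ 2 := by
        gcongr with x hx
        exact h2 x hx
    _ = _ := by
        rw [← Finset.sum_mul, vTot, ENNReal.ofReal_sum_of_nonneg
          (fun _ _ => HeckeFn.vol_nonneg _), mul_assoc]

lemma off_sum (P : Bundle X Γ) (v : Bundle X Γ → ℂ) (n : ℕ)
    (hv : ∀ Q, v Q ≠ 0 → moved B P Q ≤ n) :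
    ∑' Q, ‖∑ x ∈ B, (heckeKer (h x)).act (offP P x v) Q‖ₑ ^ 2 ≤
      n * ENNReal.ofReal (rTot B h) * ∑' Q, ‖v Q‖ₑ ^ 2 := by
  classical
  set ρ : X.V → ℝ≥0 := fun x => (h x).norm with hρ
  have hN : ∀ x, ∑' Q, ‖(heckeKer (h x)).act (offP P x v) Q‖ₑ ^ 2 ≤
      (ρ x : ℝ≥0∞) ^ 2 * ∑' Q, ‖offP P x v Q‖ₑ ^ 2 := fun x =>
    normLe (h x).norm_le (offP P x v)
  have hz : ∀ x, ρ x = 0 → ∀ Q, (heckeKer (h x)).act (offP P x v) Q = 0 := by
    intro x hx Q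
    have h1 := hN x
    rw [hx, ENNReal.coe_zero, zero_pow two_ne_zero, zero_mul] at h1
    have h2 := ENNReal.tsum_eq_zero.1 (le_antisymm h1 zero_le) Q
    simpa using h2
  have h1 : ∀ Q, ‖∑ x ∈ B, (heckeKer (h x)).act (offP P x v) Q‖ₑ ^ 2 ≤
      (∑ x ∈ B, (ρ x : ℝ≥0∞) ^ 2) *
        ∑ x ∈ B, ((ρ x : ℝ≥0∞) ^ 2)⁻¹ * ‖(heckeKer (h x)).act (offP P x v) Q‖ₑ ^ 2 := by
    intro Q
    exact weight_cs B ρ _ fun x _ hx => hz x hx Q
  have h2 : ∀ x, ((ρ x : ℝ≥0∞) ^ 2)⁻¹ * ∑' Q, ‖(heckeKer (h x)).act (offP P x v) Q‖ₑ ^ 2 ≤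
      ∑' Q, ‖offP P x v Q‖ₑ ^ 2 := by
    intro x
    by_cases h0 : ρ x = 0
    · have : ∑' Q, ‖(heckeKer (h x)).act (offP P x v) Q‖ₑ ^ 2 = 0 := by
        refine ENNReal.tsum_eq_zero.2 fun Q => ?_
        rw [hz x h0 Q]
        simp
      rw [this, mul_zero]
      exact zero_le
    · have h3 : (ρ x : ℝ≥0∞) ^ 2 ≠ 0 := pow_ne_zero 2 (by exact_mod_cast h0)
      have h4 : (ρ x : ℝ≥0∞) ^ 2 ≠ ∞ := ENNReal.pow_ne_top ENNReal.coe_ne_top
      calc ((ρ x : ℝ≥0∞) ^ 2)⁻¹ * ∑' Q, ‖(heckeKer (h x)).act (offP P x v) Q‖ₑ ^ 2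
          ≤ ((ρ x : ℝ≥0∞) ^ 2)⁻¹ * ((ρ x : ℝ≥0∞) ^ 2 * ∑' Q, ‖offP P x v Q‖ₑ ^ 2) := by
            gcongr
            exact hN x
        _ = _ := by rw [← mul_assoc, ENNReal.inv_mul_cancel h3 h4, one_mul]
  have h3 : ∀ Q, ∑ x ∈ B, ‖offP P x v Q‖ₑ ^ 2 ≤ n * ‖v Q‖ₑ ^ 2 := by
    intro Q
    by_cases h0 : v Q = 0
    · have : ∀ x ∈ B, ‖offP P x v Q‖ₑ ^ 2 = 0 := by
        intro x _
        unfold offP
        rw [h0]
        simp
      rw [Finset.sum_eq_zero this]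
      exact zero_le
    · have h4 : ∑ x ∈ B, ‖offP P x v Q‖ₑ ^ 2 =
          ∑ x ∈ B.filter (fun x => Q.c x ≠ P.c x), ‖v Q‖ₑ ^ 2 := by
        rw [Finset.sum_filter]
        refine Finset.sum_congr rfl fun x _ => ?_
        unfold offP
        by_cases hq : Q.c x = P.c x
        · rw [if_pos hq, if_neg (not_not.2 hq)]
          simp
        · rw [if_neg hq, if_pos hq]
      rw [h4, Finset.sum_const, nsmul_eq_mul]
      gcongr
      exact hv Q h0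
  have h4 : (∑ x ∈ B, (ρ x : ℝ≥0∞) ^ 2) = ENNReal.ofReal (rTot B h) := by
    unfold rTot
    rw [ENNReal.ofReal_sum_of_nonneg (fun _ _ => by positivity)]
    refine Finset.sum_congr rfl fun x _ => ?_
    rw [ENNReal.ofReal_pow (by positivity), ENNReal.ofReal_coe_nnreal]
  calc ∑' Q, ‖∑ x ∈ B, (heckeKer (h x)).act (offP P x v) Q‖ₑ ^ 2
      ≤ ∑' Q, (∑ x ∈ B, (ρ x : ℝ≥0∞) ^ 2) *
        ∑ x ∈ B, ((ρ x : ℝ≥0∞) ^ 2)⁻¹ * ‖(heckeKer (h x)).act (offP P x v) Q‖ₑ ^ 2 :=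
        ENNReal.tsum_le_tsum h1
    _ = (∑ x ∈ B, (ρ x : ℝ≥0∞) ^ 2) *
        ∑ x ∈ B, ((ρ x : ℝ≥0∞) ^ 2)⁻¹ * ∑' Q, ‖(heckeKer (h x)).act (offP P x v) Q‖ₑ ^ 2 := by
        rw [ENNReal.tsum_mul_left, Summable.tsum_finsetSum fun _ _ => ENNReal.summable]
        simp only [ENNReal.tsum_mul_left]
    _ ≤ (∑ x ∈ B, (ρ x : ℝ≥0∞) ^ 2) * ∑ x ∈ B, ∑' Q, ‖offP P x v Q‖ₑ ^ 2 := by
        gcongr with x _
        exact h2 x
    _ = (∑ x ∈ B, (ρ x : ℝ≥0∞) ^ 2) * ∑' Q, ∑ x ∈ B, ‖offP P x v Q‖ₑ ^ 2 := by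
        rw [Summable.tsum_finsetSum fun _ _ => ENNReal.summable]
    _ ≤ (∑ x ∈ B, (ρ x : ℝ≥0∞) ^ 2) * ∑' Q, n * ‖v Q‖ₑ ^ 2 := by
        gcongr with Q
        exact h3 Q
    _ = _ := by
        rw [ENNReal.tsum_mul_left, h4]
        ring

/-- the factor of one step -/
noncomputable def stepC (V R2 : ℝ) (n : ℕ) : ℝ :=
  if n = 0 then V else 2 * ((n + 1) * V + n * R2)

/-- the product of the factors -/
noncomputable def ldC (V R2 : ℝ) (r : ℕ) : ℝ := ∏ n ∈ Finset.range r, stepC V R2 n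

lemma vTot_nonneg : 0 ≤ vTot B h := Finset.sum_nonneg fun _ _ => HeckeFn.vol_nonneg _

lemma rTot_nonneg : 0 ≤ rTot B h := Finset.sum_nonneg fun _ _ => by positivity

lemma stepC_nonneg {V R2 : ℝ} (hV : 0 ≤ V) (hR : 0 ≤ R2) (n : ℕ) : 0 ≤ stepC V R2 n := by
  unfold stepC
  split_ifs
  · exact hV
  · positivity

lemma ldC_nonneg {V R2 : ℝ} (hV : 0 ≤ V) (hR : 0 ≤ R2) (r : ℕ) : 0 ≤ ldC V R2 r :=
  Finset.prod_nonneg fun _ _ => stepC_nonneg hV hR _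

include hK in
theorem step_sq (P : Bundle X Γ) (v : Bundle X Γ → ℂ) (n : ℕ)
    (hv : ∀ Q, v Q ≠ 0 → moved B P Q ≤ n) :
    ∑' Q, ‖sAct B h v Q‖ₑ ^ 2 ≤
      ENNReal.ofReal (stepC (vTot B h) (rTot B h) n) * ∑' Q, ‖v Q‖ₑ ^ 2 := by
  have hc := create_sum hK P v n hv
  have ho := off_sum (h := h) P v n hv
  have e1 : ∀ Q, sAct B h v Q = ∑ x ∈ B, (heckeKer (h x)).act (atP P x v) Q +
      ∑ x ∈ B, (heckeKer (h x)).act (offP P x v) Q := by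
    intro Q
    unfold sAct
    rw [← Finset.sum_add_distrib]
    refine Finset.sum_congr rfl fun x _ => ?_
    conv_lhs => rw [← at_add_off P x v, Ker.act_add]
    rfl
  unfold stepC
  split_ifs with hn
  · subst hn
    simp only [Nat.cast_zero, zero_mul, zero_add, one_mul] at hc ho
    have h0 := ENNReal.tsum_eq_zero.1 (le_antisymm ho zero_le)
    have e2 : ∀ Q, ‖sAct B h v Q‖ₑ ^ 2 =
        ‖∑ x ∈ B, (heckeKer (h x)).act (atP P x v) Q‖ₑ ^ 2 := by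
      intro Q
      have h1 : ∑ x ∈ B, (heckeKer (h x)).act (offP P x v) Q = 0 := by
        simpa using h0 Q
      rw [e1, h1, add_zero]
    simp only [e2]
    exact hc
  · calc ∑' Q, ‖sAct B h v Q‖ₑ ^ 2
        ≤ ∑' Q, (2 * ‖∑ x ∈ B, (heckeKer (h x)).act (atP P x v) Q‖ₑ ^ 2 +
          2 * ‖∑ x ∈ B, (heckeKer (h x)).act (offP P x v) Q‖ₑ ^ 2) := by
          refine ENNReal.tsum_le_tsum fun Q => ?_
          rw [e1]
          exact add_sq_enorm _ _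
      _ = 2 * ∑' Q, ‖∑ x ∈ B, (heckeKer (h x)).act (atP P x v) Q‖ₑ ^ 2 +
          2 * ∑' Q, ‖∑ x ∈ B, (heckeKer (h x)).act (offP P x v) Q‖ₑ ^ 2 := by
          rw [ENNReal.tsum_add, ENNReal.tsum_mul_left, ENNReal.tsum_mul_left]
      _ ≤ 2 * ((n + 1) * ENNReal.ofReal (vTot B h) * ∑' Q, ‖v Q‖ₑ ^ 2) +
          2 * (n * ENNReal.ofReal (rTot B h) * ∑' Q, ‖v Q‖ₑ ^ 2) := by gcongr
      _ = _ := by
          rw [ENNReal.ofReal_mul (by positivity), ENNReal.ofReal_add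
            (mul_nonneg (by positivity) vTot_nonneg) (mul_nonneg (by positivity) rTot_nonneg),
            ENNReal.ofReal_mul (by positivity), ENNReal.ofReal_mul (by positivity)]
          have e2 : ENNReal.ofReal (2 : ℝ) = 2 := by simp
          have e3 : ENNReal.ofReal ((n : ℝ) + 1) = n + 1 := by
            rw [ENNReal.ofReal_add (by positivity) (by positivity)]
            simp
          have e4 : ENNReal.ofReal (n : ℝ) = n := by simp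
          rw [e2, e3, e4]
          ring

lemma step_moved (P : Bundle X Γ) (v : Bundle X Γ → ℂ) (n : ℕ)
    (hv : ∀ Q, v Q ≠ 0 → moved B P Q ≤ n) (Q : Bundle X Γ) (hQ : sAct B h v Q ≠ 0) :
    moved B P Q ≤ n + 1 := by
  classical
  obtain ⟨x, hx, hne⟩ : ∃ x ∈ B, (heckeKer (h x)).act v Q ≠ 0 := by
    by_contra hc
    push Not at hc
    exact hQ (Finset.sum_eq_zero hc)
  obtain ⟨Q', h1, h2⟩ := act_ne hne
  have h3 := hv Q' h2
  have h4 : moved B P Q ≤ moved B P Q' + 1 := by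
    unfold moved
    have h : (B.filter fun y => Q.c y ≠ P.c y) ⊆
        insert x (B.filter fun y => Q'.c y ≠ P.c y) := by
      intro y hy
      rw [Finset.mem_filter] at hy
      by_cases hyx : y = x
      · rw [hyx]
        exact Finset.mem_insert_self _ _
      · refine Finset.mem_insert_of_mem (Finset.mem_filter.2 ⟨hy.1, ?_⟩)
        rw [← (entry_ne h1).1 y hyx]
        exact hy.2
    exact (Finset.card_le_card h).trans (Finset.card_insert_le _ _)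
  omega

/-- the iterates -/
noncomputable def sIter (B : Finset X.V) (h : (x : X.V) → HeckeFn X Γ x) (P : Bundle X Γ) :
    ℕ → Bundle X Γ → ℂ
  | 0 => pt P
  | r + 1 => sAct B h (sIter B h P r)

lemma sIter_moved (P : Bundle X Γ) (r : ℕ) (Q : Bundle X Γ) (hQ : sIter B h P r Q ≠ 0) :
    moved B P Q ≤ r := by
  induction r generalizing Q with
  | zero =>
    have : Q = P := by
      by_contra hne
      apply hQ
      show pt P Q = 0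
      unfold pt
      rw [if_neg hne]
    rw [this]
    unfold moved
    simp
  | succ r ih => exact step_moved P _ r ih Q hQ

lemma pt_sq (P : Bundle X Γ) : ∑' Q, ‖pt P Q‖ₑ ^ 2 = 1 := by
  rw [tsum_eq_single P]
  · unfold pt
    rw [if_pos rfl]
    simp
  · intro Q hQ
    unfold pt
    rw [if_neg hQ]
    simp

include hK in
theorem sIter_sq (P : Bundle X Γ) (r : ℕ) :
    ∑' Q, ‖sIter B h P r Q‖ₑ ^ 2 ≤ ENNReal.ofReal (ldC (vTot B h) (rTot B h) r) := by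
  induction r with
  | zero =>
    show ∑' Q, ‖pt P Q‖ₑ ^ 2 ≤ _
    rw [pt_sq]
    unfold ldC
    simp
  | succ r ih =>
    refine (step_sq hK P _ r (sIter_moved P r)).trans ?_
    have e : ldC (vTot B h) (rTot B h) (r + 1) =
        stepC (vTot B h) (rTot B h) r * ldC (vTot B h) (rTot B h) r := by
      unfold ldC
      rw [Finset.prod_range_succ, mul_comm]
    rw [e, ENNReal.ofReal_mul (stepC_nonneg vTot_nonneg rTot_nonneg r)]
    gcongr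

end Pool.Agent.Helper80.AT
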