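import Pool.Agent.Helper80.AT.LD

/-! Large deviations of sums of Hecke operators at many places. -/

open scoped ENNReal NNReal InnerProductSpace
open MeasureTheory

namespace Pool.Agent.Helper80.AT

variable {F : Type} [Field F] {X : Places F} {N : ℕ} {Γ : Subgroup (GL (Fin N) F)}

section

variable (B : Finset X.V) (h : (x : X.V) → HeckeFn X Γ x)

/-- The sum of the operators on L2. -/
noncomputable def sOp : L2 Γ (Bundle X Γ) →L[ℂ] L2 Γ (Bundle X Γ) := ∑ x ∈ B, (at' h x).op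

lemma coe_sOp (u : L2 Γ (Bundle X Γ)) :
    (sOp B h u : Bun Γ (Bundle X Γ) → ℂ) = sumFn B h u := by
  classical
  unfold sOp sumFn
  rw [sum_apply]
  induction B using Finset.induction_on with
  | empty =>
    simp only [Finset.sum_empty]
    exact (coeLin (G := Γ) (Y := Bundle X Γ)).map_zero
  | insert x s hx ih =>
    rw [Finset.sum_insert hx, Finset.sum_insert hx, ← ih]
    funext b
    rw [coe_add, coe_op]
    rfl

lemma adj_sOp (u : L2 Γ (Bundle X Γ)) :
    (ContinuousLinearMap.adjoint (sOp B h) u : Bun Γ (Bundle X Γ) → ℂ) = sumStar B h u := by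
  classical
  unfold sOp sumStar
  rw [map_sum, sum_apply]
  induction B using Finset.induction_on with
  | empty =>
    simp only [Finset.sum_empty]
    exact (coeLin (G := Γ) (Y := Bundle X Γ)).map_zero
  | insert x s hx ih =>
    rw [Finset.sum_insert hx, Finset.sum_insert hx, ← ih]
    funext b
    rw [coe_add, coe_adjoint]
    rfl

end

variable {B : Finset X.V} {h : (x : X.V) → HeckeFn X Γ x} {D : ℕ}
    (hK : ∀ x ∈ B, ∀ g ∈ X.K Γ x, (h x).h g = 0) (hD : ∀ x ∈ B, X.deg x * (h x).rad ≤ D)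

include hD in
lemma sIter_pair (P : Bundle X Γ) (r : ℕ) :
    Pair P (r * D) (sIter B h P r) ((sOp B h ^ r) (delta Γ P)) := by
  induction r with
  | zero =>
    rw [Nat.zero_mul, pow_zero]
    exact pair_delta P
  | succ r ih =>
    rw [pow_succ']
    show Pair P _ (sAct B h (sIter B h P r)) (sOp B h ((sOp B h ^ r) (delta Γ P)))
    have e1 : sAct B h (sIter B h P r) = ∑ x ∈ B, (heckeKer (h x)).act (sIter B h P r) := by
      funext Q
      rw [Finset.sum_apply]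
      rfl
    unfold sOp at ih ⊢
    rw [e1, sum_apply]
    refine Pair.sum B fun x hx => ?_
    refine (ih.op (at' h x)).mono ?_
    have h1 := hD x hx
    show X.deg x * (h x).rad + r * D ≤ (r + 1) * D
    rw [Nat.add_mul, Nat.one_mul]
    omega

lemma Stable.pow {W : Submodule ℂ (L2 Γ (Bundle X Γ))}
    {T : L2 Γ (Bundle X Γ) →L[ℂ] L2 Γ (Bundle X Γ)} (hT : Stable W T) (r : ℕ) :
    Stable W (T ^ r) := by
  induction r with
  | zero =>
    rw [pow_zero]
    exact Stable.one W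
  | succ r ih =>
    rw [pow_succ']
    exact hT.mul ih

include hK hD in
theorem ld_eval {W : Submodule ℂ (L2 Γ (Bundle X Γ))} (hS : Stable W (sOp B h)) (A : ℝ)
    (hA : 0 ≤ A) (hlow : ∀ w ∈ W, A * ‖w‖ ≤ ‖sOp B h w‖) (P : Bundle X Γ) (r : ℕ)
    {w : L2 Γ (Bundle X Γ)} (hw : w ∈ W) :
    A ^ (2 * r) * ‖w (cls Γ (Bundle X Γ) P)‖ ^ 2 ≤
      autNum P (2 * (r * D)) * ldC (vTot B h) (rTot B h) r * ‖w‖ ^ 2 := by
  have hpow : ∀ r : ℕ, ∀ w ∈ W, A ^ r * ‖w‖ ≤ ‖(sOp B h ^ r) w‖ := by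
    intro r
    induction r with
    | zero =>
      intro w _
      rw [pow_zero, pow_zero, one_mul]
      exact le_refl _
    | succ r ih =>
      intro w hw
      rw [pow_succ' (sOp B h)]
      show _ ≤ ‖sOp B h ((sOp B h ^ r) w)‖
      have h1 := hlow _ ((hS.pow r).stable w hw)
      have h2 := ih w hw
      calc A ^ (r + 1) * ‖w‖ = A * (A ^ r * ‖w‖) := by ring
        _ ≤ A * ‖(sOp B h ^ r) w‖ := by gcongr
        _ ≤ _ := h1
  have hlow' : ∀ w ∈ W, (A ^ r) ^ 2 * ‖w‖ ^ 2 ≤ ∑ _j : Unit, ‖(sOp B h ^ r) w‖ ^ 2 := by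
    intro w hw
    rw [Fintype.sum_unique, ← mul_pow]
    exact pow_le_pow_left₀ (by positivity) (hpow r w hw) 2
  have h5 := eval_bound (fun _ : Unit => sOp B h ^ r) (fun _ => hS.pow r) (A ^ r) hlow' P (r * D)
    (fun _ => sIter B h P r) (fun _ => sIter_pair hD P r)
    (fun _ => ldC (vTot B h) (rTot B h) r) (fun _ => ldC_nonneg vTot_nonneg rTot_nonneg r)
    (fun _ => sIter_sq hK P r) hw
  rw [Fintype.sum_unique, ← pow_mul, mul_comm r 2] at h5
  exact h5

lemma star_vol_le (x : X.V) (h : HeckeFn X Γ x) : h.star.vol ≤ (h.norm : ℝ) ^ 2 := by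
  classical
  have h1 := local_bound h.norm_le
    (fun b => if b = ((1 : Γ) : Γ ⧸ X.K Γ x) then 1 else 0)
  have e1 : ∀ a : Γ ⧸ X.K Γ x, ∑ᶠ b : Γ ⧸ X.K Γ x, h.h (a.out⁻¹ * b.out) *
      (if b = ((1 : Γ) : Γ ⧸ X.K Γ x) then 1 else 0) =
      h.h (a.out⁻¹ * ((1 : Γ) : Γ ⧸ X.K Γ x).out) := by
    intro a
    rw [finsum_eq_single _ ((1 : Γ) : Γ ⧸ X.K Γ x)]
    · rw [if_pos rfl, mul_one]
    · intro b hb
      rw [if_neg hb, mul_zero]
  simp only [e1] at h1
  rw [star_vol_ennreal] at h1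
  have e2 : ∑' b : Γ ⧸ X.K Γ x, ‖(if b = ((1 : Γ) : Γ ⧸ X.K Γ x) then (1 : ℂ) else 0)‖ₑ ^ 2 =
      1 := by
    rw [tsum_eq_single ((1 : Γ) : Γ ⧸ X.K Γ x)]
    · rw [if_pos rfl]
      simp
    · intro b hb
      rw [if_neg hb]
      simp
  rw [e2, mul_one] at h1
  have e3 : (h.norm : ℝ≥0∞) ^ 2 = ENNReal.ofReal ((h.norm : ℝ) ^ 2) := by
    rw [ENNReal.ofReal_pow (by positivity), ENNReal.ofReal_coe_nnreal]
  rw [e3] at h1
  exact (ENNReal.ofReal_le_ofReal_iff (by positivity)).1 h1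

lemma vTot_le_rTot : vTot B h ≤ rTot B h :=
  Finset.sum_le_sum fun x _ => star_vol_le x (h x)

lemma ldC_le {V R2 V' R' : ℝ} (hV : 0 ≤ V) (hVV : V ≤ V') (hR : 0 ≤ R2) (hRR : R2 ≤ R')
    (hVR : V' ≤ R') (r : ℕ) : ldC V R2 (r + 1) ≤ (r + 1).factorial * V' * (4 * R') ^ r := by
  have hV' : 0 ≤ V' := hV.trans hVV
  have hR' : 0 ≤ R' := hR.trans hRR
  induction r with
  | zero =>
    unfold ldC stepC
    simp
    exact hVV
  | succ r ih =>
    have e : ldC V R2 (r + 1 + 1) = ldC V R2 (r + 1) * stepC V R2 (r + 1) := by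
      unfold ldC
      rw [Finset.prod_range_succ]
    have h1 : stepC V R2 (r + 1) ≤ (r + 2) * (4 * R') := by
      unfold stepC
      rw [if_neg (by omega)]
      push_cast
      nlinarith
    rw [e]
    calc ldC V R2 (r + 1) * stepC V R2 (r + 1)
        ≤ ((r + 1).factorial * V' * (4 * R') ^ r) * ((r + 2) * (4 * R')) := by
          gcongr
          exact stepC_nonneg hV hR _
      _ = _ := by
          rw [Nat.factorial_succ (r + 1)]
          push_cast
          ring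

include hK hD in
theorem ld_main {W : Submodule ℂ (Classes X Γ → ℂ)} {A : ℝ} (hW : Large W B h A) {V R : ℝ}
    (hV : vTot B h ≤ V) (hR : rTot B h ≤ R) (hVR : V ≤ R) (r : ℕ) (S : Finset (Classes X Γ)) :
    TraceLe W S ((r + 1).factorial * V * (4 * R) ^ r / A ^ (2 * (r + 1)) *
      autOn S (2 * ((r + 1) * D))) := by
  have hV0 : 0 ≤ V := vTot_nonneg.trans hV
  have hR0 : 0 ≤ R := rTot_nonneg.trans hR
  have hA := hW.pos
  refine traceLe_of_point hW.l2 _ (by positivity) (2 * ((r + 1) * D)) ?_ S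
  intro b w hw
  have hwl := hW.l2 w hw
  set u : L2 Γ (Bundle X Γ) := hwl.memLp.toLp w with hu
  have hcoe : (u : Bun Γ (Bundle X Γ) → ℂ) = w := coe_toLp' hwl
  have huW : u ∈ up W := by rw [mem_up, hcoe]; exact hw
  have hst : Stable (up W) (sOp B h) := by
    refine ⟨fun u hu => ?_, fun u hu => ?_⟩
    · rw [mem_up, coe_sOp]
      exact (hW.stable _ hu).1
    · rw [mem_up, adj_sOp]
      exact (hW.stable _ hu).2
  have hlow : ∀ u ∈ up W, A * ‖u‖ ≤ ‖sOp B h u‖ := by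
    intro u hu
    have h1 : A ^ 2 * nrm (u : Bun Γ (Bundle X Γ) → ℂ) ≤
        nrm (sumFn B h (u : Bun Γ (Bundle X Γ) → ℂ)) := hW.lower _ hu
    rw [← coe_sOp, nrm_coe, nrm_coe, ← mul_pow] at h1
    exact (pow_le_pow_iff_left₀ (by positivity) (norm_nonneg _) two_ne_zero).1 h1
  have h1 := ld_eval hK hD hst A hA.le hlow b.out (r + 1) huW
  rw [cls_out, hcoe, ← nrm_coe, hcoe] at h1
  show ‖w b‖ ^ 2 ≤ _ * nrm w
  have h2 : ldC (vTot B h) (rTot B h) (r + 1) ≤ (r + 1).factorial * V * (4 * R) ^ r :=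
    ldC_le vTot_nonneg hV rTot_nonneg hR hVR r
  have hn : 0 ≤ nrm w := tsum_nonneg fun b => nonneg_term _ b
  have h3 : A ^ (2 * (r + 1)) * ‖w b‖ ^ 2 ≤ autNum b.out (2 * ((r + 1) * D)) *
      ((r + 1).factorial * V * (4 * R) ^ r) * nrm w := by
    refine h1.trans ?_
    gcongr
  rw [div_mul_eq_mul_div, div_mul_eq_mul_div, le_div_iff₀ (by positivity)]
  calc ‖w b‖ ^ 2 * A ^ (2 * (r + 1)) = A ^ (2 * (r + 1)) * ‖w b‖ ^ 2 := by ring
    _ ≤ _ := h3
    _ = _ := by ring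

end Pool.Agent.Helper80.AT
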