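import Pool.Agent.Helper80.AT.Iso

/-! Hecke operators near a bundle of large injectivity radius act as on l2(Y). -/

open scoped ENNReal NNReal InnerProductSpace
open MeasureTheory

namespace Pool.Agent.Helper80.AT

variable {F : Type} [Field F] {X : Places F} {N : ℕ} {Γ : Subgroup (GL (Fin N) F)}

/-- The successive action of the Hecke operators in a list on the functions on the set of bundles
with a rational trivialisation:
(T f)(P) = sum over Q of h(g⁻¹g') f(Q), Q = P outside x, cosets gK_x, g'K_x at x. -/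
noncomputable def wordAct (L : List (Hecke X Γ)) (f : Bundle X Γ → ℂ) : Bundle X Γ → ℂ :=
  L.foldr (fun T f P => ∑ᶠ Q, entry T.fn P Q * f Q) f

lemma wordAct_eq (L : List (Hecke X Γ)) (f : Bundle X Γ → ℂ) :
    wordAct L f = actL (L.map fun T => heckeKer T.fn) f := by
  induction L with
  | nil => rfl
  | cons T L ih =>
    show (fun P => ∑ᶠ Q, entry T.fn P Q * wordAct L f Q) =
      (heckeKer T.fn).act (actL (L.map fun T => heckeKer T.fn) f)
    rw [ih]
    rfl

open Classical in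
/-- The lift of a function on the set of classes to the ball of radius R about P₀. -/
noncomputable def ballLift (P₀ : Bundle X Γ) (R : ℕ) (u : Bun Γ (Bundle X Γ) → ℂ) :
    Bundle X Γ → ℂ :=
  fun Q => if X.dist P₀ Q ≤ R then u (cls Γ (Bundle X Γ) Q) else 0

lemma stab_of_ball {P₀ : Bundle X Γ} {m : ℕ}
    (hinj : ∀ g : Γ, X.dist (g • P₀) P₀ ≤ m → g • P₀ = P₀) {R R' : ℕ} (hR : R + R' ≤ m)
    {Q : Bundle X Γ} {g : Γ} (h1 : X.dist P₀ Q ≤ R) (h2 : X.dist P₀ (g • Q) ≤ R') :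
    g ∈ MulAction.stabilizer Γ P₀ := by
  apply hinj
  have e3 := dist_triangle X (g • P₀) (g • Q) P₀
  rw [dist_smul, dist_comm X (g • Q)] at e3
  omega

lemma dist_stab {P₀ Q : Bundle X Γ} {g : Γ} (hg : g ∈ MulAction.stabilizer Γ P₀) :
    X.dist P₀ (g • Q) = X.dist P₀ Q := by
  have hg' : g • P₀ = P₀ := hg
  conv_lhs => rw [← hg']
  rw [dist_smul]

lemma pair_ball {P₀ : Bundle X Γ} {m : ℕ}
    (hinj : ∀ g : Γ, X.dist (g • P₀) P₀ ≤ m → g • P₀ = P₀) {R : ℕ} (hR : 2 * R ≤ m)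
    (u : L2 Γ (Bundle X Γ))
    (hu : ∀ b, u b ≠ 0 → ∃ Q, X.dist P₀ Q ≤ R ∧ cls Γ (Bundle X Γ) Q = b) :
    Pair P₀ R (ballLift P₀ R u) u := by
  classical
  refine ⟨?_, ?_, ?_⟩
  · intro Q hQ
    by_contra h
    apply hQ
    unfold ballLift
    rw [if_neg h]
  · intro g hg Q
    unfold ballLift
    simp only [dist_stab hg, cls_smul]
  · intro b
    by_cases hb : ∃ Q, X.dist P₀ Q ≤ R ∧ cls Γ (Bundle X Γ) Q = b
    · obtain ⟨Q, hQ, rfl⟩ := hb
      rw [per_cls]
      have hSf : ((MulAction.stabilizer Γ P₀ : Subgroup Γ) : Set Γ).Finite :=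
        Set.finite_coe_iff.1 (inferInstanceAs (Finite (MulAction.stabilizer Γ P₀)))
      rw [finsum_eq_sum_of_support_subset (s := hSf.toFinset)]
      · rw [Finset.sum_congr rfl (g := fun _ => u (cls Γ (Bundle X Γ) Q))]
        · rw [Finset.sum_const, ← Set.ncard_eq_toFinset_card _ hSf, nsmul_eq_mul]
          rfl
        · intro g hg
          have hg' : g ∈ MulAction.stabilizer Γ P₀ := by simpa using hg
          unfold ballLift
          rw [dist_stab hg', if_pos hQ, cls_smul]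
      · intro g hg
        have h2 : X.dist P₀ (g • Q) ≤ R := by
          by_contra h
          apply hg
          show ballLift P₀ R u (g • Q) = 0
          unfold ballLift
          rw [if_neg h]
        have := stab_of_ball hinj (by omega : R + R ≤ m) hQ h2
        simpa using this
    · have h0 : u b = 0 := by
        by_contra h
        exact hb (hu b h)
      rw [h0, mul_zero]
      unfold per
      have : ∀ g : Γ, ballLift P₀ R u (g • b.out) = 0 := by
        intro g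
        unfold ballLift
        rw [if_neg]
        intro h
        exact hb ⟨g • b.out, h, by rw [cls_smul, cls_out]⟩
      simp [this]

lemma Pair.word {P₀ : Bundle X Γ} {n : ℕ} {v : Bundle X Γ → ℂ} {u : L2 Γ (Bundle X Γ)}
    (h : Pair P₀ n v u) (L : List (Hecke X Γ)) :
    Pair P₀ (wordSize L + n) (wordAct L v) (wordOp L u) := by
  induction L with
  | nil =>
    have e : wordSize ([] : List (Hecke X Γ)) + n = n := by simp [wordSize]
    rw [e]
    exact h
  | cons T L ih =>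
    have h1 := ih.op T
    have e : wordSize (T :: L) + n = X.deg T.x * T.rad + (wordSize L + n) := by
      unfold wordSize
      rw [List.map_cons, List.sum_cons, add_assoc]
    rw [e]
    have e2 : wordOp (T :: L) u = T.op (wordOp L u) := by
      unfold wordOp
      rw [List.map_cons, List.prod_cons]
      rfl
    rw [e2]
    exact h1

/-- values of a pair -/
lemma Pair.value {P₀ : Bundle X Γ} {m n R : ℕ} {v : Bundle X Γ → ℂ} {u : L2 Γ (Bundle X Γ)}
    (h : Pair P₀ n v u) (hinj : ∀ g : Γ, X.dist (g • P₀) P₀ ≤ m → g • P₀ = P₀)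
    (hm : R + n ≤ m) (Q : Bundle X Γ) (hQ : X.dist P₀ Q ≤ R) :
    u (cls Γ (Bundle X Γ) Q) = v Q := by
  have hs : (Nat.card (MulAction.stabilizer Γ P₀) : ℂ) ≠ 0 := by
    have : 0 < Nat.card (MulAction.stabilizer Γ P₀) := Nat.card_pos
    exact_mod_cast this.ne'
  apply mul_left_cancel₀ hs
  rw [h.eq, per_cls]
  have hSf : ((MulAction.stabilizer Γ P₀ : Subgroup Γ) : Set Γ).Finite :=
        Set.finite_coe_iff.1 (inferInstanceAs (Finite (MulAction.stabilizer Γ P₀)))
  rw [finsum_eq_sum_of_support_subset (s := hSf.toFinset)]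
  · rw [Finset.sum_congr rfl (g := fun _ => v Q)]
    · rw [Finset.sum_const, ← Set.ncard_eq_toFinset_card _ hSf, nsmul_eq_mul]
      rfl
    · intro g hg
      exact h.inv g (by simpa using hg) Q
  · intro g hg
    have := stab_of_ball hinj hm hQ (h.supp _ hg)
    simpa using this

theorem local_action {P₀ : Bundle X Γ} {m : ℕ}
    (hinj : ∀ g : Γ, X.dist (g • P₀) P₀ ≤ m → g • P₀ = P₀) {R : ℕ}
    (u : L2 Γ (Bundle X Γ))
    (hu : ∀ b, u b ≠ 0 → ∃ Q, X.dist P₀ Q ≤ R ∧ cls Γ (Bundle X Γ) Q = b)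
    (L : List (Hecke X Γ)) (hL : 2 * R + wordSize L ≤ m) (Q : Bundle X Γ)
    (hQ : X.dist P₀ Q ≤ R) :
    wordOp L u (cls Γ (Bundle X Γ) Q) = wordAct L (ballLift P₀ R u) Q :=
  ((pair_ball hinj (by omega) u hu).word L).value hinj (by omega) Q hQ

/-! ### One place -/

variable {x : X.V}

/-- Convolution on Γ/K_x. -/
noncomputable def conv (h : HeckeFn X Γ x) (f : Γ ⧸ X.K Γ x → ℂ) : Γ ⧸ X.K Γ x → ℂ :=
  fun a => ∑ᶠ b : Γ ⧸ X.K Γ x, h.h (a.out⁻¹ * b.out) * f b

open Classical in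
/-- The convolution product of the functions in a list, as a function on Γ/K_x. -/
noncomputable def convWord (hs : List (HeckeFn X Γ x)) : Γ ⧸ X.K Γ x → ℂ :=
  hs.foldr conv (fun a => if a = ((1 : Γ) : Γ ⧸ X.K Γ x) then 1 else 0)

lemma wordAct_local (P₀ : Bundle X Γ) (hs : List (HeckeFn X Γ x)) (a : Γ ⧸ X.K Γ x) :
    wordAct (hs.map fun h => (⟨x, h⟩ : Hecke X Γ)) (pt P₀) (upd P₀ ((P₀.c x).out • a)) =
      convWord hs a := by
  classical
  induction hs generalizing a with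
  | nil =>
    show pt P₀ (upd P₀ ((P₀.c x).out • a)) = if a = ((1 : Γ) : Γ ⧸ X.K Γ x) then 1 else 0
    unfold pt
    have e : upd P₀ ((P₀.c x).out • a) = P₀ ↔ a = ((1 : Γ) : Γ ⧸ X.K Γ x) := by
      have e1 : (P₀.c x).out • (((1 : Γ) : Γ ⧸ X.K Γ x)) = P₀.c x := by
        show (((P₀.c x).out * 1 : Γ) : Γ ⧸ X.K Γ x) = P₀.c x
        rw [mul_one, QuotientGroup.out_eq']
      constructor
      · intro h
        have h1 : (upd P₀ ((P₀.c x).out • a)).c x = P₀.c x := by rw [h]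
        rw [upd_x] at h1
        conv_rhs at h1 => rw [← e1]
        exact smul_left_cancel _ h1
      · intro h
        rw [h, e1]
        exact upd_eq fun _ _ => rfl
    by_cases ha : a = ((1 : Γ) : Γ ⧸ X.K Γ x)
    · rw [if_pos (e.2 ha), if_pos ha]
    · rw [if_neg fun h => ha (e.1 h), if_neg ha]
  | cons h hs ih =>
    show (heckeKer h).act (wordAct (hs.map fun h => (⟨x, h⟩ : Hecke X Γ)) (pt P₀))
      (upd P₀ ((P₀.c x).out • a)) = conv h (convWord hs) a
    rw [act_upd]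
    unfold conv
    rw [← finsum_comp_equiv (MulAction.toPerm (P₀.c x).out)]
    refine finsum_congr fun b => ?_
    rw [MulAction.toPerm_apply, h_smul, ih b]

lemma delta_norm_sq (P₀ : Bundle X Γ) :
    ‖delta Γ P₀‖ ^ 2 = mass (cls Γ (Bundle X Γ) P₀) := by
  classical
  have h : cut {cls Γ (Bundle X Γ) P₀} (delta Γ P₀) = delta Γ P₀ := by
    apply coe_eq
    intro b
    rw [cut_apply]
    split_ifs with hb
    · rfl
    · rw [delta_apply]
      unfold deltaFn
      rw [if_neg (by simpa using hb)]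
  rw [← h, cut_norm_sq, Finset.sum_singleton, delta_apply]
  unfold deltaFn
  rw [if_pos rfl]
  simp

lemma inner_delta (P₀ : Bundle X Γ) (u : L2 Γ (Bundle X Γ)) :
    ⟪delta Γ P₀, u⟫_ℂ = mass (cls Γ (Bundle X Γ) P₀) * u (cls Γ (Bundle X Γ) P₀) := by
  classical
  set b₀ := cls Γ (Bundle X Γ) P₀ with hb₀
  have h1 : ⟪delta Γ P₀, u⟫_ℂ = ⟪delta Γ P₀, u b₀ • delta Γ P₀⟫_ℂ := by
    rw [L2.inner_def, L2.inner_def]
    congr 1
    funext b
    rw [coe_smul, delta_apply]
    unfold deltaFn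
    by_cases hb : b = cls Γ (Bundle X Γ) P₀
    · rw [if_pos hb, hb, mul_one]
    · rw [if_neg hb]
      simp
  rw [h1, inner_smul_right, inner_self_eq_norm_sq_to_K]
  have h2 := delta_norm_sq P₀
  have h3 : ((‖delta Γ P₀‖ : ℝ) : ℂ) ^ 2 = ((mass b₀ : ℝ) : ℂ) := by
    rw [hb₀, ← h2]
    push_cast
    rfl
  show u b₀ * ((‖delta Γ P₀‖ : ℝ) : ℂ) ^ 2 = _
  rw [h3, mul_comm]

theorem local_moment {P₀ : Bundle X Γ} {m : ℕ}
    (hinj : ∀ g : Γ, X.dist (g • P₀) P₀ ≤ m → g • P₀ = P₀) (hs : List (HeckeFn X Γ x))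
    (hL : wordSize (hs.map fun h => (⟨x, h⟩ : Hecke X Γ)) ≤ m) :
    ⟪delta Γ P₀, wordOp (hs.map fun h => (⟨x, h⟩ : Hecke X Γ)) (delta Γ P₀)⟫_ℂ =
      (‖delta Γ P₀‖ : ℂ) ^ 2 * convWord hs ((1 : Γ) : Γ ⧸ X.K Γ x) := by
  classical
  rw [inner_delta]
  have h1 := (pair_word P₀ (hs.map fun h => (⟨x, h⟩ : Hecke X Γ))).value hinj
    (R := 0) (by omega) P₀ (by rw [dist_self])
  rw [h1, ← wordAct_eq]
  have e : upd P₀ ((P₀.c x).out • (((1 : Γ) : Γ ⧸ X.K Γ x))) = P₀ := by
    have e1 : (P₀.c x).out • (((1 : Γ) : Γ ⧸ X.K Γ x)) = P₀.c x := by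
      show (((P₀.c x).out * 1 : Γ) : Γ ⧸ X.K Γ x) = P₀.c x
      rw [mul_one, QuotientGroup.out_eq']
    rw [e1]
    exact upd_eq fun _ _ => rfl
  have h2 := wordAct_local P₀ hs ((1 : Γ) : Γ ⧸ X.K Γ x)
  rw [e] at h2
  rw [h2]
  have h3 := delta_norm_sq P₀
  have h4 : ((‖delta Γ P₀‖ : ℝ) : ℂ) ^ 2 = ((mass (cls Γ (Bundle X Γ) P₀) : ℝ) : ℂ) := by
    rw [← h3]
    push_cast
    rfl
  rw [← h4]

end Pool.Agent.Helper80.AT
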