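import Pool.Agent.Helper80.AT.HeckeOp
import Pool.Agent.Helper80.AT.Dim

/-! The density theorem. -/

open scoped ENNReal NNReal
open MeasureTheory

namespace Pool.Agent.Helper80.AT

variable {F : Type} [Field F] (X : Places F) {N : ℕ} (Γ : Subgroup (GL (Fin N) F))

variable {Γ} {X}

lemma Hecke.norm_le (T : Hecke X Γ) : LocalNormLe T.fn T.norm := T.fn.norm_le

lemma Hecke.rad_le (T : Hecke X Γ) (g : Γ) (hg : T.fn.h g ≠ 0) :
    X.size T.x (g : GL (Fin N) F) ≤ T.rad := T.fn.rad_le g hg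

/-- The operator on L2(Bun). -/
noncomputable def Hecke.op (T : Hecke X Γ) : L2 Γ (Bundle X Γ) →L[ℂ] L2 Γ (Bundle X Γ) :=
  (heckeKer T.fn).op

/-- The product of the operators in a list. -/
noncomputable def wordOp (L : List (Hecke X Γ)) : L2 Γ (Bundle X Γ) →L[ℂ] L2 Γ (Bundle X Γ) :=
  (L.map Hecke.op).prod

lemma act_supp (T : Hecke X Γ) (v : Bundle X Γ → ℂ) (P₀ : Bundle X Γ) (R : ℕ)
    (hv : ∀ Q, v Q ≠ 0 → X.dist P₀ Q ≤ R) (P : Bundle X Γ) (hP : (heckeKer T.fn).act v P ≠ 0) :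
    X.dist P₀ P ≤ X.deg T.x * T.rad + R := by
  classical
  obtain ⟨Q, hQ⟩ : ∃ Q, entry T.fn P Q * v Q ≠ 0 := by
    by_contra h
    push Not at h
    apply hP
    unfold Ker.act
    show ∑ᶠ Q, entry T.fn P Q * v Q = 0
    simp [h]
  simp only [ne_eq, mul_eq_zero, not_or] at hQ
  obtain ⟨h1, h2⟩ := entry_ne hQ.1
  have h3 : X.dist Q P ≤ X.deg T.x * T.rad := by
    rw [dist_comm]
    refine (dist_le_of X P Q (Finsupp.single T.x T.rad) ?_).trans (le_of_eq ?_)
    · intro v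
      by_cases hv : v = T.x
      · subst hv
        rw [Finsupp.single_eq_same]
        exact T.rad_le _ h2
      · rw [h1 v hv, d_self]
        exact Nat.zero_le _
    · unfold ddeg
      rw [Finsupp.sum_single_index]
      simp
  have h4 := dist_triangle X P₀ Q P
  have h5 := hv Q hQ.2
  omega

lemma actL_supp (L : List (Hecke X Γ)) (v : Bundle X Γ → ℂ) (P₀ : Bundle X Γ) (R : ℕ)
    (hv : ∀ Q, v Q ≠ 0 → X.dist P₀ Q ≤ R) (P : Bundle X Γ)
    (hP : actL (L.map fun T => heckeKer T.fn) v P ≠ 0) : X.dist P₀ P ≤ wordSize L + R := by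
  induction L generalizing P with
  | nil =>
    have := hv P hP
    simpa [wordSize] using this
  | cons T L ih =>
    have h1 := act_supp T (actL (L.map fun T => heckeKer T.fn) v) P₀ (wordSize L + R) ih P hP
    unfold wordSize at h1 ⊢
    rw [List.map_cons, List.sum_cons]
    omega

lemma mult_le (P₀ : Bundle X Γ) (n : ℕ) (P : Bundle X Γ) :
    {g : Γ | g • P ∈ {Q : Bundle X Γ | X.dist P₀ Q ≤ n}}.Finite ∧
      {g : Γ | g • P ∈ {Q : Bundle X Γ | X.dist P₀ Q ≤ n}}.ncard ≤ autNum P₀ (2 * n) := by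
  rcases Set.eq_empty_or_nonempty {g : Γ | g • P ∈ {Q : Bundle X Γ | X.dist P₀ Q ≤ n}} with h | h
  · rw [h]
    simp
  obtain ⟨g₀, hg₀⟩ := h
  have hmaps : Set.MapsTo (fun g : Γ => g * g₀⁻¹)
      {g : Γ | g • P ∈ {Q : Bundle X Γ | X.dist P₀ Q ≤ n}}
      {g : Γ | X.dist (g • P₀) P₀ ≤ 2 * n} := by
    intro g hg
    have hg1 : X.dist P₀ (g • P) ≤ n := hg
    have hg2 : X.dist P₀ (g₀ • P) ≤ n := hg₀
    show X.dist ((g * g₀⁻¹) • P₀) P₀ ≤ 2 * n
    have h1 := dist_triangle X ((g * g₀⁻¹) • P₀) (g • P) P₀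
    have h2 : X.dist ((g * g₀⁻¹) • P₀) (g • P) = X.dist P₀ (g₀ • P) := by
      have : g • P = (g * g₀⁻¹) • (g₀ • P) := by rw [smul_smul]; congr 1; group
      rw [this, dist_smul]
    rw [h2, dist_comm X (g • P)] at h1
    omega
  have hinj : Set.InjOn (fun g : Γ => g * g₀⁻¹)
      {g : Γ | g • P ∈ {Q : Bundle X Γ | X.dist P₀ Q ≤ n}} := (mul_left_injective _).injOn
  refine ⟨Set.Finite.of_injOn hmaps hinj (near_fin X P₀ _), ?_⟩
  exact Set.ncard_le_ncard_of_injOn _ hmaps hinj (near_fin X P₀ _)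

lemma stab_le (P₀ : Bundle X Γ) (n : ℕ) (Q : Bundle X Γ) (hQ : X.dist P₀ Q ≤ n) :
    Nat.card (MulAction.stabilizer Γ P₀) ≤
      {g : Γ | g • Q ∈ {Q : Bundle X Γ | X.dist P₀ Q ≤ n}}.ncard := by
  rw [show Nat.card (MulAction.stabilizer Γ P₀) =
    ((MulAction.stabilizer Γ P₀ : Subgroup Γ) : Set Γ).ncard from rfl]
  refine Set.ncard_le_ncard ?_ (mult_le P₀ n Q).1
  intro g hg
  show X.dist P₀ (g • Q) ≤ n
  have hg1 : g • P₀ = P₀ := hg
  rw [← dist_smul X g] at hQ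
  rwa [hg1] at hQ

section

variable {J : Type} [Fintype J] (L : J → List (Hecke X Γ)) (D : ℕ) (hD : ∀ j, wordSize (L j) ≤ D)
    (W : Submodule ℂ (L2 Γ (Bundle X Γ))) (hW : ∀ j, ∀ T ∈ L j, Stable W T.op) (A : ℝ)
    (hA : 0 ≤ A) (hlow : ∀ w ∈ W, A ^ 2 * ‖w‖ ^ 2 ≤ ∑ j, ‖wordOp (L j) w‖ ^ 2)

include hD hW hA hlow in
theorem main_one (P₀ : Bundle X Γ) (R : ℕ) (S : Finset (Bun Γ (Bundle X Γ)))
    (hS : ∀ b ∈ S, ∃ Q, X.dist P₀ Q ≤ R ∧ cls Γ (Bundle X Γ) Q = b)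
    (w : L2 Γ (Bundle X Γ)) (hw : w ∈ W) :
    Nat.card (MulAction.stabilizer Γ P₀) * A ^ 2 * ∑ b ∈ S, mass b * ‖w b‖ ^ 2 ≤
      autNum P₀ (2 * (R + D)) * (∑ j, wordNorm (L j) ^ 2) * ‖w‖ ^ 2 := by
  have h := abs_main (fun T : Hecke X Γ => heckeKer T.fn) (fun T => T.norm) L
    (fun j T _ => normLe T.norm_le) W hW A hA hlow
    {Q : Bundle X Γ | X.dist P₀ Q ≤ R} {Q : Bundle X Γ | X.dist P₀ Q ≤ R + D}
    (fun P => (mult_le P₀ R P).1) (fun P => (mult_le P₀ (R + D) P).1)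
    (autNum P₀ (2 * (R + D))) (fun P => (mult_le P₀ (R + D) P).2)
    (fun j v hv P hP => by
      have h1 := actL_supp (L j) v P₀ R hv P hP
      have h2 := hD j
      show X.dist P₀ P ≤ R + D
      omega)
    (Nat.card (MulAction.stabilizer Γ P₀)) (fun Q hQ => stab_le P₀ R Q hQ) S hS w hw
  have e : ∀ j, ((((L j).map fun T => T.norm).prod : ℝ≥0) : ℝ) = wordNorm (L j) := by
    intro j
    unfold wordNorm
    rw [NNReal.coe_list_prod, List.map_map]
    rfl
  simpa only [e] using h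

include hD hW hA hlow in
theorem main_two (R : ℕ) (hgon : ∀ f : F, X.poles f ≤ 2 * (R + D) → ∀ v, X.pole v f = 0)
    (S : Finset (Bun Γ (Bundle X Γ)))
    (hS : ∀ b ∈ S, ∃ Q, X.dist (triv X Γ) Q ≤ R ∧ cls Γ (Bundle X Γ) Q = b)
    (w : L2 Γ (Bundle X Γ)) (hw : w ∈ W) :
    A ^ 2 * ∑ b ∈ S, mass b * ‖w b‖ ^ 2 ≤ (∑ j, wordNorm (L j) ^ 2) * ‖w‖ ^ 2 := by
  have h := main_one L D hD W hW A hA hlow (triv X Γ) R S hS w hw
  have h1 : autNum (triv X Γ) (2 * (R + D)) = Nat.card (MulAction.stabilizer Γ (triv X Γ)) := by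
    unfold autNum
    rw [show Nat.card (MulAction.stabilizer Γ (triv X Γ)) =
      ((MulAction.stabilizer Γ (triv X Γ) : Subgroup Γ) : Set Γ).ncard from rfl]
    congr 1
    ext g
    constructor
    · intro hg
      exact gon X hgon g hg
    · intro hg
      have hg1 : g • triv X Γ = triv X Γ := hg
      show X.dist (g • triv X Γ) (triv X Γ) ≤ _
      rw [hg1, dist_self]
      exact Nat.zero_le _
  rw [h1] at h
  have hpos : (0 : ℝ) < Nat.card (MulAction.stabilizer Γ (triv X Γ)) := by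
    exact_mod_cast Nat.card_pos
  rw [mul_assoc, mul_assoc] at h
  have h2 := le_of_mul_le_mul_left h hpos
  exact h2

include hD hW hA hlow in
theorem main_three (S : Finset (Bun Γ (Bundle X Γ)))
    (hS : ∀ w ∈ W, ∀ b, b ∉ S → (w : Bun Γ (Bundle X Γ) → ℂ) b = 0) (hApos : 0 < A) :
    FiniteDimensional ℂ W ∧ A ^ 2 * (Module.finrank ℂ W : ℝ) ≤
      (∑ j, wordNorm (L j) ^ 2) * ∑ b ∈ S, autNum b.out (2 * D) * mass b := by
  set C : ℝ := ∑ j, wordNorm (L j) ^ 2 with hC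
  have hC0 : 0 ≤ C := Finset.sum_nonneg fun j _ => by positivity
  have h := dim_bound W S hS (fun b => C / A ^ 2 * (autNum b.out (2 * D) * mass b))
    (fun b _ => by
      have := (mass_pos b).le
      positivity)
    (fun b hb w hw => by
      have h1 := main_one L D hD W hW A hA hlow b.out 0 {b} (by
        intro b' hb'
        rw [Finset.mem_singleton] at hb'
        subst hb'
        exact ⟨b'.out, by rw [dist_self], cls_out b'⟩) w hw
      rw [Finset.sum_singleton, zero_add] at h1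
      have hs : (0 : ℝ) < Nat.card (MulAction.stabilizer Γ b.out) := by
        exact_mod_cast Nat.card_pos
      have hm : mass b = 1 / (Nat.card (MulAction.stabilizer Γ b.out) : ℝ) := rfl
      have h2 : mass b * ‖(w : Bun Γ (Bundle X Γ) → ℂ) b‖ ^ 2 * (Nat.card (MulAction.stabilizer Γ b.out) * A ^ 2) ≤
          autNum b.out (2 * D) * C * ‖w‖ ^ 2 := by
        rw [mul_comm]
        exact h1
      have h3 := (le_div_iff₀ (by positivity)).2 h2
      refine h3.trans (le_of_eq ?_)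
      rw [hm]
      field_simp)
  refine ⟨h.1, ?_⟩
  have h4 := mul_le_mul_of_nonneg_left h.2 (sq_nonneg A)
  refine h4.trans (le_of_eq ?_)
  rw [Finset.mul_sum, Finset.mul_sum]
  refine Finset.sum_congr rfl fun b _ => ?_
  field_simp

end

end Pool.Agent.Helper80.AT
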