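import Pool.Agent.Helper80.AT.Eval

/-! Hecke operators at many places. -/

open scoped ENNReal NNReal InnerProductSpace
open MeasureTheory

namespace Pool.Agent.Helper80.AT

variable {F : Type} [Field F] {X : Places F} {N : ℕ} {Γ : Subgroup (GL (Fin N) F)} {x : X.V}

lemma HeckeFn.vol_eq (h : HeckeFn X Γ x) : h.vol = ∑ a ∈ (h.finL).toFinset, ‖h.h a.out‖ ^ 2 := by
  unfold HeckeFn.vol
  apply finsum_eq_sum_of_support_subset
  intro a ha
  simp only [Function.mem_support, ne_eq, pow_eq_zero_iff, OfNat.ofNat_ne_zero,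
    not_false_eq_true, norm_eq_zero] at ha
  simpa using ha

lemma HeckeFn.vol_nonneg (h : HeckeFn X Γ x) : 0 ≤ h.vol := by
  rw [h.vol_eq]
  exact Finset.sum_nonneg fun _ _ => by positivity

lemma HeckeFn.ofReal_vol (h : HeckeFn X Γ x) :
    ENNReal.ofReal h.vol = ∑' a : Γ ⧸ X.K Γ x, ‖h.h a.out‖ₑ ^ 2 := by
  rw [h.vol_eq, ENNReal.ofReal_sum_of_nonneg (fun _ _ => by positivity),
    tsum_eq_sum (s := (h.finL).toFinset)]
  · refine Finset.sum_congr rfl fun a _ => ?_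
    rw [ENNReal.ofReal_pow (norm_nonneg _), ofReal_norm]
  · intro a ha
    have : h.h a.out = 0 := by
      by_contra hne
      exact ha (by simpa using hne)
    rw [this]
    simp

lemma Hecke.star_rad (T : Hecke X Γ) : T.star.rad ≤ T.rad := by
  show (T.fn.star).rad ≤ T.rad
  unfold HeckeFn.rad
  refine Finset.sup_le fun a ha => ?_
  rw [Set.Finite.mem_toFinset] at ha
  have h1 : T.fn.h (a.out)⁻¹ ≠ 0 := by
    intro h0
    apply ha
    show starRingEnd ℂ (T.fn.h (a.out)⁻¹) = 0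
    rw [h0, map_zero]
  have h2 := T.rad_le _ h1
  rwa [InvMemClass.coe_inv, X.size_inv] at h2

/-- The function T* 1_P. -/
noncomputable def sPt (T : Hecke X Γ) (P : Bundle X Γ) : Bundle X Γ → ℂ :=
  (heckeKer T.star.fn).act (pt P)

lemma sPt_apply (T : Hecke X Γ) (P Q : Bundle X Γ) :
    sPt T P Q = starRingEnd ℂ (entry T.fn P Q) := by
  have h1 : sPt T P Q = entry T.star.fn Q P := by
    show ∑ᶠ Q', entry T.star.fn Q Q' * pt P Q' = _
    rw [finsum_eq_single _ P]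
    · unfold pt
      rw [if_pos rfl, mul_one]
    · intro Q' hQ'
      unfold pt
      rw [if_neg hQ', mul_zero]
  rw [h1]
  unfold entry
  by_cases h : ∀ v, v ≠ T.x → P.c v = Q.c v
  · rw [if_pos h, if_pos (show ∀ v, v ≠ T.star.x → Q.c v = P.c v from fun v hv => (h v hv).symm)]
    show starRingEnd ℂ (T.fn.h (((Q.c T.x).out)⁻¹ * (P.c T.x).out)⁻¹) = _
    rw [mul_inv_rev, inv_inv]
  · rw [if_neg h, if_neg (show ¬ ∀ v, v ≠ T.star.x → Q.c v = P.c v from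
      fun h' => h fun v hv => (h' v hv).symm), map_zero]

lemma sPt_sq (T : Hecke X Γ) (P : Bundle X Γ) :
    ∑' Q, ‖sPt T P Q‖ₑ ^ 2 = ENNReal.ofReal T.fn.vol := by
  rw [T.fn.ofReal_vol, ← (upd_inj (x := T.x) P).tsum_eq (f := fun Q => ‖sPt T P Q‖ₑ ^ 2)]
  · rw [← (MulAction.toPerm (P.c T.x).out).tsum_eq]
    refine tsum_congr fun a => ?_
    rw [sPt_apply, MulAction.toPerm_apply, entry_upd, h_left, enorm_eq_nnnorm,
      enorm_eq_nnnorm, RCLike.nnnorm_conj]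
  · intro Q hQ
    rw [Function.mem_support, sPt_apply] at hQ
    have hQ' : entry T.fn P Q ≠ 0 := by
      intro h0
      apply hQ
      rw [h0]
      simp
    exact ⟨Q.c T.x, upd_eq (entry_ne hQ').1⟩

lemma sPt_pair (T : Hecke X Γ) (P : Bundle X Γ) :
    Pair P (X.deg T.x * T.rad) (sPt T P) (T.star.op (delta Γ P)) := by
  have h := (pair_delta P).op T.star
  refine h.mono ?_
  rw [add_zero]
  exact Nat.mul_le_mul_left _ T.star_rad

/-- The function T T* 1_P. -/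
noncomputable def tsPt (T : Hecke X Γ) (P : Bundle X Γ) : Bundle X Γ → ℂ :=
  (heckeKer T.fn).act (sPt T P)

lemma tsPt_self (T : Hecke X Γ) (P : Bundle X Γ) : tsPt T P P = T.fn.vol := by
  show ∑ᶠ Q, entry T.fn P Q * sPt T P Q = _
  have e1 : ∀ Q, entry T.fn P Q * sPt T P Q = ((‖entry T.fn P Q‖ ^ 2 : ℝ) : ℂ) := by
    intro Q
    rw [sPt_apply, Complex.mul_conj, Complex.normSq_eq_norm_sq]
  simp only [e1]
  have e2 : ∑ᶠ Q, ((‖entry T.fn P Q‖ ^ 2 : ℝ) : ℂ) =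
      ∑ᶠ a : Γ ⧸ X.K Γ T.x, ((‖entry T.fn P (upd P a)‖ ^ 2 : ℝ) : ℂ) := by
    rw [← finsum_mem_range (f := fun Q => ((‖entry T.fn P Q‖ ^ 2 : ℝ) : ℂ)) (upd_inj (x := T.x) P),
      finsum_mem_def]
    refine finsum_congr fun Q => ?_
    symm
    apply Set.indicator_eq_self.2 _ |> congrFun
    intro Q hQ
    have hQ' : entry T.fn P Q ≠ 0 := by
      intro h0
      apply hQ
      show ((‖entry T.fn P Q‖ ^ 2 : ℝ) : ℂ) = 0
      rw [h0]
      simp
    exact ⟨Q.c T.x, upd_eq (entry_ne hQ').1⟩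
  rw [e2]
  have e3 : ∀ a : Γ ⧸ X.K Γ T.x, ((‖entry T.fn P (upd P a)‖ ^ 2 : ℝ) : ℂ) =
      ((‖T.fn.h ((P.c T.x).out⁻¹ * a.out)‖ ^ 2 : ℝ) : ℂ) := by
    intro a
    rw [entry_upd]
  simp only [e3]
  rw [← finsum_comp_equiv (MulAction.toPerm (P.c T.x).out)]
  simp only [MulAction.toPerm_apply, h_left]
  have hfin : (Function.support fun a : Γ ⧸ X.K Γ T.x => ‖T.fn.h a.out‖ ^ 2).Finite := by
    refine (T.fn.finL).subset ?_
    intro a ha
    simp only [Function.mem_support, ne_eq, pow_eq_zero_iff, OfNat.ofNat_ne_zero,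
      not_false_eq_true, norm_eq_zero] at ha
    exact ha
  unfold HeckeFn.vol
  exact (Complex.ofRealHom.toAddMonoidHom.map_finsum hfin).symm

lemma tsPt_supp (T : Hecke X Γ) (P Q : Bundle X Γ) (hQ : tsPt T P Q ≠ 0) :
    ∀ v, v ≠ T.x → P.c v = Q.c v := by
  obtain ⟨Q', hQ'⟩ : ∃ Q', entry T.fn Q Q' * sPt T P Q' ≠ 0 := by
    by_contra h
    push Not at h
    apply hQ
    show ∑ᶠ Q', entry T.fn Q Q' * sPt T P Q' = 0
    simp [h]
  rw [sPt_apply] at hQ'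
  have h1 : entry T.fn Q Q' ≠ 0 := left_ne_zero_of_mul hQ'
  have h2 : entry T.fn P Q' ≠ 0 := by
    intro h0
    apply hQ'
    rw [h0, map_zero, mul_zero]
  intro v hv
  rw [(entry_ne h2).1 v hv, (entry_ne h1).1 v hv]

lemma tsPt_sq (T : Hecke X Γ) (P : Bundle X Γ) :
    ∑' Q, ‖tsPt T P Q‖ₑ ^ 2 ≤ ENNReal.ofReal ((T.norm : ℝ) ^ 2 * T.fn.vol) := by
  have h := normLe T.norm_le (sPt T P)
  rw [sPt_sq] at h
  refine h.trans (le_of_eq ?_)
  rw [ENNReal.ofReal_mul (by positivity), ENNReal.ofReal_pow (by positivity)]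
  simp

lemma vol_le_norm (T : Hecke X Γ) (P : Bundle X Γ) (hpos : 0 < T.fn.vol) :
    T.fn.vol ≤ (T.norm : ℝ) ^ 2 := by
  have h1 : ‖tsPt T P P‖ₑ ^ 2 ≤ ∑' Q, ‖tsPt T P Q‖ₑ ^ 2 := ENNReal.le_tsum P
  have h2 := h1.trans (tsPt_sq T P)
  rw [tsPt_self, ← ofReal_norm, ← ENNReal.ofReal_pow (norm_nonneg _), Complex.norm_real,
    Real.norm_of_nonneg hpos.le] at h2
  have h3 := (ENNReal.ofReal_le_ofReal_iff (by positivity)).1 h2
  rw [pow_two] at h3
  exact le_of_mul_le_mul_right h3 hpos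

/-- The function (T T* - vol) 1_P. -/
noncomputable def uPt (T : Hecke X Γ) (P : Bundle X Γ) : Bundle X Γ → ℂ :=
  tsPt T P + (-(T.fn.vol : ℂ)) • pt P

lemma uPt_self (T : Hecke X Γ) (P : Bundle X Γ) : uPt T P P = 0 := by
  unfold uPt
  rw [Pi.add_apply, Pi.smul_apply, tsPt_self, smul_eq_mul]
  unfold pt
  rw [if_pos rfl]
  ring

lemma uPt_ne (T : Hecke X Γ) {P Q : Bundle X Γ} (h : Q ≠ P) : uPt T P Q = tsPt T P Q := by
  unfold uPt
  rw [Pi.add_apply, Pi.smul_apply, smul_eq_mul]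
  unfold pt
  rw [if_neg h, mul_zero, add_zero]

lemma uPt_sq (T : Hecke X Γ) (P : Bundle X Γ) :
    ∑' Q, ‖uPt T P Q‖ₑ ^ 2 ≤ ENNReal.ofReal ((T.norm : ℝ) ^ 2 * T.fn.vol) := by
  refine le_trans (ENNReal.tsum_le_tsum fun Q => ?_) (tsPt_sq T P)
  by_cases h : Q = P
  · rw [h, uPt_self]
    simp
  · rw [uPt_ne T h]

/-- The operator T T* - vol. -/
noncomputable def uOp (T : Hecke X Γ) : L2 Γ (Bundle X Γ) →L[ℂ] L2 Γ (Bundle X Γ) :=
  T.op * T.star.op + (-(T.fn.vol : ℂ)) • 1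

lemma uPt_pair (T : Hecke X Γ) (P : Bundle X Γ) :
    Pair P (2 * (X.deg T.x * T.rad)) (uPt T P) (uOp T (delta Γ P)) := by
  have h1 := (sPt_pair T P).op T
  have h2 : Pair P (2 * (X.deg T.x * T.rad)) (tsPt T P) (T.op (T.star.op (delta Γ P))) :=
    h1.mono (by omega)
  have h3 : Pair P (2 * (X.deg T.x * T.rad)) ((-(T.fn.vol : ℂ)) • pt P)
      ((-(T.fn.vol : ℂ)) • delta Γ P) := ((pair_delta P).mono (Nat.zero_le _)).smul _
  exact h2.add h3

/-- The support condition. -/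
def OnlyAt (P : Bundle X Γ) (x : X.V) (v : Bundle X Γ → ℂ) : Prop :=
  ∀ Q, v Q ≠ 0 → Q ≠ P ∧ ∀ y, y ≠ x → P.c y = Q.c y

lemma uPt_only (T : Hecke X Γ) (P : Bundle X Γ) : OnlyAt P T.x (uPt T P) := by
  intro Q hQ
  have h1 : Q ≠ P := by
    intro h
    rw [h, uPt_self] at hQ
    exact hQ rfl
  rw [uPt_ne T h1] at hQ
  exact ⟨h1, tsPt_supp T P Q hQ⟩

lemma sPt_only (T : Hecke X Γ) (P : Bundle X Γ) (hK : ∀ g ∈ X.K Γ T.x, T.fn.h g = 0) :
    OnlyAt P T.x (sPt T P) := by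
  intro Q hQ
  rw [sPt_apply] at hQ
  have h2 : entry T.fn P Q ≠ 0 := by
    intro h0
    apply hQ
    rw [h0, map_zero]
  obtain ⟨h3, h4⟩ := entry_ne h2
  refine ⟨?_, h3⟩
  intro h
  apply h4
  rw [h]
  apply hK
  rw [inv_mul_cancel]
  exact one_mem _

lemma OnlyAt.smul {P : Bundle X Γ} {x : X.V} {v : Bundle X Γ → ℂ} (h : OnlyAt P x v) (c : ℂ) :
    OnlyAt P x (c • v) := by
  intro Q hQ
  refine h Q fun h0 => hQ ?_
  rw [Pi.smul_apply, h0, smul_zero]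

lemma only_sum {P : Bundle X Γ} (B : Finset X.V) (v : X.V → Bundle X Γ → ℂ)
    (h : ∀ x ∈ B, OnlyAt P x (v x)) :
    ∑' Q, ‖(∑ x ∈ B, v x) Q‖ₑ ^ 2 = ∑ x ∈ B, ∑' Q, ‖v x Q‖ₑ ^ 2 := by
  classical
  have h1 : ∀ Q, ‖(∑ x ∈ B, v x) Q‖ₑ ^ 2 = ∑ x ∈ B, ‖v x Q‖ₑ ^ 2 := by
    intro Q
    rw [Finset.sum_apply]
    by_cases hex : ∃ x ∈ B, v x Q ≠ 0
    · obtain ⟨x, hx, hne⟩ := hex
      obtain ⟨hQ, hoff⟩ := h x hx Q hne
      have hz : ∀ y ∈ B, y ≠ x → v y Q = 0 := by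
        intro y hy hyx
        by_contra hy0
        obtain ⟨_, hoff'⟩ := h y hy Q hy0
        apply hQ
        apply Bundle.ext
        funext z
        by_cases hz : z = x
        · rw [hz]
          exact (hoff' x hyx.symm).symm
        · exact (hoff z hz).symm
      rw [Finset.sum_eq_single x hz (fun h => absurd hx h),
        Finset.sum_eq_single x (fun y hy hyx => by rw [hz y hy hyx]; simp)
          (fun h => absurd hx h)]
    · push Not at hex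
      rw [Finset.sum_eq_zero hex, Finset.sum_eq_zero fun x hx => by rw [hex x hx]; simp]
      simp
  simp only [h1]
  exact Summable.tsum_finsetSum fun _ _ => ENNReal.summable

end Pool.Agent.Helper80.AT
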