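import Pool.Agent.Helper80.AT.UFn

/-! Many places, high powers: bounds on L2. -/

open scoped ENNReal NNReal InnerProductSpace
open MeasureTheory

namespace Pool.Agent.Helper80.AT

open Pool.Agent.Helper99.SCH

variable {F : Type} [Field F] {X : Places F} {N : ℕ} {Γ : Subgroup (GL (Fin N) F)}

lemma op_uFn {x : X.V} (c : ℂ) (h : HeckeFn X Γ x) :
    (⟨x, uFn c h⟩ : Hecke X Γ).op = c • uOp (⟨x, h⟩ : Hecke X Γ) := by
  ext1 u
  apply coe_eq
  intro b
  rw [coe_op, uFn_fnOp, _root_.smul_apply, coe_smul]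
  show c * ((⟨x, h⟩ : Hecke X Γ).fnOp ((⟨x, h⟩ : Hecke X Γ).star.fnOp u) b +
    -(h.vol : ℂ) * u b) = c * ((⟨x, h⟩ : Hecke X Γ).op ((⟨x, h⟩ : Hecke X Γ).star.op u) +
      (-(h.vol : ℂ)) • u : L2 Γ (Bundle X Γ)) b
  rw [coe_add, coe_smul, coe_op, coe_op]

lemma op_smulFn {x : X.V} (c : ℂ) (h : HeckeFn X Γ x) :
    (⟨x, smulFn c h⟩ : Hecke X Γ).op = c • (⟨x, h⟩ : Hecke X Γ).op := by
  ext1 u
  apply coe_eq
  intro b
  rw [coe_op, smulFn_fnOp, _root_.smul_apply, coe_smul, coe_op]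
  rfl

lemma rad_le_of {x : X.V} {h : HeckeFn X Γ x} {n : ℕ}
    (H : ∀ g : Γ, h.h g ≠ 0 → X.size x (g : GL (Fin N) F) ≤ n) : h.rad ≤ n := by
  unfold HeckeFn.rad
  refine Finset.sup_le fun a ha => ?_
  rw [Set.Finite.mem_toFinset] at ha
  exact H a.out ha

lemma uFn_rad {x : X.V} (c : ℂ) (h : HeckeFn X Γ x) : (uFn c h).rad ≤ 2 * h.rad := by
  classical
  refine rad_le_of fun g hg => ?_
  have h1 : (hconv h h.star).h g ≠ 0 := by
    intro h0
    apply hg
    show (if g ∈ X.K Γ x then 0 else c * (hconv h h.star).h g) = 0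
    rw [h0, mul_zero, ite_self]
  obtain ⟨a, ha⟩ : ∃ a : Γ ⧸ X.K Γ x, h.h a.out * h.star.h (a.out⁻¹ * g) ≠ 0 := by
    by_contra hc
    push Not at hc
    apply h1
    show ∑ᶠ a : Γ ⧸ X.K Γ x, h.h a.out * h.star.h (a.out⁻¹ * g) = 0
    exact (finsum_congr hc).trans finsum_zero
  have h2 : h.h a.out ≠ 0 := left_ne_zero_of_mul ha
  have h3 : h.h (a.out⁻¹ * g)⁻¹ ≠ 0 := by
    intro h0
    apply right_ne_zero_of_mul ha
    show starRingEnd ℂ (h.h (a.out⁻¹ * g)⁻¹) = 0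
    rw [h0, map_zero]
  have h4 := h.rad_le _ h2
  have h5 := h.rad_le _ h3
  rw [InvMemClass.coe_inv, X.size_inv] at h5
  have h6 : (g : GL (Fin N) F) = (a.out : Γ) * ((a.out⁻¹ * g : Γ) : GL (Fin N) F) := by
    rw [← Subgroup.coe_mul, mul_inv_cancel_left]
  rw [h6]
  refine (X.size_mul_le x _ _).trans ?_
  omega

lemma smul_star_rad {x : X.V} (c : ℂ) (h : HeckeFn X Γ x) : (smulFn c h.star).rad ≤ h.rad := by
  refine rad_le_of fun g hg => ?_
  have h1 : h.h g⁻¹ ≠ 0 := by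
    intro h0
    apply hg
    show c * starRingEnd ℂ (h.h g⁻¹) = 0
    rw [h0, map_zero, mul_zero]
  have h2 := h.rad_le _ h1
  rwa [InvMemClass.coe_inv, X.size_inv] at h2

lemma smul_star_vol {x : X.V} (c : ℂ) (h : HeckeFn X Γ x) :
    (smulFn c h.star).star.vol = ‖c‖ ^ 2 * h.vol := by
  unfold HeckeFn.vol
  rw [← smul_eq_mul, smul_finsum']
  · refine finsum_congr fun a => ?_
    show ‖starRingEnd ℂ (c * starRingEnd ℂ (h.h (a.out⁻¹)⁻¹))‖ ^ 2 = _
    rw [RCLike.norm_conj, norm_mul, RCLike.norm_conj, inv_inv, mul_pow, smul_eq_mul]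
  · refine (h.finL).subset ?_
    intro a ha
    simp only [Function.mem_support, ne_eq, pow_eq_zero_iff, OfNat.ofNat_ne_zero,
      not_false_eq_true, norm_eq_zero] at ha
    exact ha

/-- the family of the functions ε_x (h_x * h_x^* - vol) / vol -/
noncomputable def uFam (h : (x : X.V) → HeckeFn X Γ x) (ε : X.V → ℝ) (x : X.V) :
    HeckeFn X Γ x := uFn ((ε x / (h x).vol : ℝ) : ℂ) (h x)

variable {B : Finset X.V} {h : (x : X.V) → HeckeFn X Γ x} {κ : ℝ} {D : ℕ}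
    (hvol : ∀ x ∈ B, 0 < (h x).vol)
    (hκ : ∀ x ∈ B, ((h x).norm : ℝ) ^ 2 ≤ κ * (h x).vol)
    (hD : ∀ x ∈ B, X.deg x * (h x).rad ≤ D)

lemma vol_le_sq {x : X.V} (P : Bundle X Γ) (hp : 0 < (h x).vol) :
    (h x).vol ≤ ((h x).norm : ℝ) ^ 2 := vol_le_norm (at' h x) P hp

include hvol hκ in
lemma kappa_ge (hB : B.Nonempty) (P : Bundle X Γ) : 1 ≤ κ := by
  obtain ⟨x, hx⟩ := hB
  have h1 := vol_le_sq P (hvol x hx)
  have h2 := h1.trans (hκ x hx)
  have hp := hvol x hx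
  have h3 : 1 * (h x).vol ≤ κ * (h x).vol := by rw [one_mul]; exact h2
  exact le_of_mul_le_mul_right h3 hp

include hvol hκ hD in
theorem ld_a {W : Submodule ℂ (L2 Γ (Bundle X Γ))} (hB : B.Nonempty) (α : ℝ) (hα : 0 ≤ α)
    (ε : X.V → ℝ) (hε : ∀ x ∈ B, |ε x| ≤ 1) (hst : ∀ x ∈ B, Stable W (at' h x).op)
    (hb : ∀ w ∈ W, α * B.card * ‖w‖ ^ 2 ≤
      ∑ x ∈ B, ε x * (‖(at' h x).star.op w‖ ^ 2 / (h x).vol - ‖w‖ ^ 2))
    (P : Bundle X Γ) (r : ℕ) {w : L2 Γ (Bundle X Γ)} (hw : w ∈ W) :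
    (α * B.card) ^ (2 * (r + 1)) * ‖w (cls Γ (Bundle X Γ) P)‖ ^ 2 ≤
      autNum P (4 * ((r + 1) * D)) *
        ((r + 1).factorial * (κ * B.card) * (4 * (4 * κ ^ 2 * B.card)) ^ r) * ‖w‖ ^ 2 := by
  have hκ1 := kappa_ge hvol hκ hB P
  have hcard : (1 : ℝ) ≤ B.card := by exact_mod_cast hB.card_pos
  have eop : ∀ x, (at' (uFam h ε) x).op = ((ε x / (h x).vol : ℝ) : ℂ) • uOp (at' h x) :=
    fun x => op_uFn _ _
  have hS : Stable W (sOp B (uFam h ε)) := by
    unfold sOp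
    refine Stable.sum B fun x hx => ?_
    rw [eop]
    exact ((hst x hx).uOp).smul _
  have hlow : ∀ w ∈ W, (α * B.card) * ‖w‖ ≤ ‖sOp B (uFam h ε) w‖ := by
    intro w hw
    rcases eq_or_ne w 0 with h0 | h0
    · rw [h0]
      simp
    have hpos : 0 < ‖w‖ := norm_pos_iff.2 h0
    have h1 : RCLike.re ⟪w, sOp B (uFam h ε) w⟫_ℂ =
        ∑ x ∈ B, ε x * (‖(at' h x).star.op w‖ ^ 2 / (h x).vol - ‖w‖ ^ 2) := by
      unfold sOp
      rw [sum_apply, inner_sum, map_sum]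
      refine Finset.sum_congr rfl fun x hx => ?_
      rw [eop, _root_.smul_apply, inner_smul_right, uOp_inner, ← Complex.ofReal_mul]
      have hp := (hvol x hx).ne'
      have e1 : ε x / (h x).vol * (‖(at' h x).star.op w‖ ^ 2 - (at' h x).fn.vol * ‖w‖ ^ 2) =
          ε x * (‖(at' h x).star.op w‖ ^ 2 / (h x).vol - ‖w‖ ^ 2) := by
        show ε x / (h x).vol * (‖(at' h x).star.op w‖ ^ 2 - (h x).vol * ‖w‖ ^ 2) = _
        field_simp
      rw [e1]
      exact Complex.ofReal_re _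
    have h2 := hb w hw
    rw [← h1] at h2
    have h3 : RCLike.re ⟪w, sOp B (uFam h ε) w⟫_ℂ ≤ ‖w‖ * ‖sOp B (uFam h ε) w‖ :=
      (RCLike.re_le_norm _).trans (norm_inner_le_norm _ _)
    have h4 : (α * B.card * ‖w‖) * ‖w‖ ≤ ‖sOp B (uFam h ε) w‖ * ‖w‖ := by
      calc (α * B.card * ‖w‖) * ‖w‖ = α * B.card * ‖w‖ ^ 2 := by ring
        _ ≤ ‖w‖ * ‖sOp B (uFam h ε) w‖ := h2.trans h3
        _ = _ := by ring
    exact le_of_mul_le_mul_right h4 hpos
  have hD' : ∀ x ∈ B, X.deg x * (uFam h ε x).rad ≤ 2 * D := by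
    intro x hx
    calc X.deg x * (uFam h ε x).rad ≤ X.deg x * (2 * (h x).rad) :=
          Nat.mul_le_mul_left _ (uFn_rad _ _)
      _ = 2 * (X.deg x * (h x).rad) := by ring
      _ ≤ 2 * D := Nat.mul_le_mul_left 2 (hD x hx)
  have hc : ∀ x ∈ B, ‖((ε x / (h x).vol : ℝ) : ℂ)‖ ≤ 1 / (h x).vol := by
    intro x hx
    rw [Complex.norm_real, Real.norm_eq_abs, abs_div, abs_of_pos (hvol x hx)]
    exact div_le_div_of_nonneg_right (hε x hx) (hvol x hx).le
  have hV : vTot B (uFam h ε) ≤ κ * B.card := by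
    unfold vTot
    calc ∑ x ∈ B, (uFam h ε x).star.vol ≤ ∑ x ∈ B, κ := by
          refine Finset.sum_le_sum fun x hx => ?_
          refine (uFn_star_vol _ _ P).trans ?_
          have hp := hvol x hx
          have h1 := hc x hx
          have h2 := hκ x hx
          calc ‖((ε x / (h x).vol : ℝ) : ℂ)‖ ^ 2 * (((h x).norm : ℝ) ^ 2 * (h x).vol)
              ≤ (1 / (h x).vol) ^ 2 * ((κ * (h x).vol) * (h x).vol) := by gcongr
            _ = κ := by field_simp
      _ = κ * B.card := by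
          rw [Finset.sum_const, nsmul_eq_mul]
          ring
  have hR : rTot B (uFam h ε) ≤ 4 * κ ^ 2 * B.card := by
    unfold rTot
    calc ∑ x ∈ B, ((uFam h ε x).norm : ℝ) ^ 2 ≤ ∑ x ∈ B, 4 * κ ^ 2 := by
          refine Finset.sum_le_sum fun x hx => ?_
          have hp := hvol x hx
          have h1 := hc x hx
          have h2 := hκ x hx
          have h3 : (uFam h ε x).norm ≤ 2 * ‖((ε x / (h x).vol : ℝ) : ℂ)‖₊ * (h x).norm ^ 2 :=
            norm_le_of (uFn_local _ _ (vol_le_sq P hp))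
          have h4 : ((uFam h ε x).norm : ℝ) ≤
              2 * ‖((ε x / (h x).vol : ℝ) : ℂ)‖ * ((h x).norm : ℝ) ^ 2 := by
            exact_mod_cast h3
          have h5 : ((uFam h ε x).norm : ℝ) ≤ 2 * κ := by
            calc ((uFam h ε x).norm : ℝ)
                ≤ 2 * ‖((ε x / (h x).vol : ℝ) : ℂ)‖ * ((h x).norm : ℝ) ^ 2 := h4
              _ ≤ 2 * (1 / (h x).vol) * (κ * (h x).vol) := by gcongr
              _ = 2 * κ := by field_simp
          calc ((uFam h ε x).norm : ℝ) ^ 2 ≤ (2 * κ) ^ 2 := by gcongr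
            _ = 4 * κ ^ 2 := by ring
      _ = 4 * κ ^ 2 * B.card := by
          rw [Finset.sum_const, nsmul_eq_mul]
          ring
  have hK' : ∀ x ∈ B, ∀ g ∈ X.K Γ x, (uFam h ε x).h g = 0 := fun x _ g hg => uFn_K _ _ hg
  have h1 := ld_eval hK' hD' hS (α * B.card) (by positivity) hlow P (r + 1) hw
  have h2 : ldC (vTot B (uFam h ε)) (rTot B (uFam h ε)) (r + 1) ≤
      (r + 1).factorial * (κ * B.card) * (4 * (4 * κ ^ 2 * B.card)) ^ r := by
    refine ldC_le vTot_nonneg hV rTot_nonneg hR ?_ r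
    have h3 : κ ≤ 4 * κ ^ 2 := by nlinarith
    exact mul_le_mul_of_nonneg_right h3 (by linarith)
  have e1 : 2 * ((r + 1) * (2 * D)) = 4 * ((r + 1) * D) := by ring
  rw [e1] at h1
  refine h1.trans ?_
  gcongr

open Classical in
/-- the amplifying Hecke function -/
noncomputable def ampFn (h : (x : X.V) → HeckeFn X Γ x) (κ : ℝ) (lam : X.V → ℂ) (x : X.V) :
    HeckeFn X Γ x :=
  if (h x).vol ≤ 2 * ‖lam x‖ ^ 2 then smulFn (lam x / (h x).vol) (h x).star
  else uFn (((‖lam x‖ ^ 2 - (h x).vol) / (κ * (h x).vol ^ 2) : ℝ) : ℂ) (h x)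

lemma op_ampFn (h : (x : X.V) → HeckeFn X Γ x) (κ : ℝ) (lam : X.V → ℂ) (x : X.V) :
    (at' (ampFn h κ lam) x).op = amp h κ lam x := by
  unfold at' ampFn amp
  split_ifs with hc
  · exact op_smulFn _ _
  · exact op_uFn _ _

include hvol hκ hD in
theorem ld_b {W : Submodule ℂ (L2 Γ (Bundle X Γ))} (hB : B.Nonempty) (lam : X.V → ℂ)
    (hK : ∀ x ∈ B, ∀ g ∈ X.K Γ x, (h x).h g = 0)
    (he : ∀ x ∈ B, ∀ w ∈ W, (at' h x).op w = lam x • w)
    (he' : ∀ x ∈ B, ∀ w ∈ W, (at' h x).star.op w = starRingEnd ℂ (lam x) • w)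
    (P : Bundle X Γ) (r : ℕ) {w : L2 Γ (Bundle X Γ)} (hw : w ∈ W) :
    (B.card : ℝ) ^ (r + 1) * ‖w (cls Γ (Bundle X Γ) P)‖ ^ 2 ≤
      autNum P (4 * ((r + 1) * D)) *
        ((r + 1).factorial * (4 * κ) * (64 * κ ^ 2) ^ r) * ‖w‖ ^ 2 := by
  have hκ1 := kappa_ge hvol hκ hB P
  have hcard : (0 : ℝ) < B.card := by exact_mod_cast hB.card_pos
  have hst : ∀ x ∈ B, Stable W (at' h x).op := by
    intro x hx
    refine ⟨fun w hw => ?_, fun w hw => ?_⟩
    · rw [he x hx w hw]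
      exact W.smul_mem _ hw
    · rw [adjoint_eq, he' x hx w hw]
      exact W.smul_mem _ hw
  set E : ℝ := ∑ x ∈ B, ampVal h κ lam x with hE
  have hval : ∀ x ∈ B, 1 / (4 * κ) ≤ ampVal h κ lam x := by
    intro x hx
    have hp := hvol x hx
    unfold ampVal
    split_ifs with hc
    · rw [div_le_div_iff₀ (by positivity) hp]
      nlinarith
    · push Not at hc
      have h1 : (h x).vol ^ 2 ≤ 4 * (‖lam x‖ ^ 2 - (h x).vol) ^ 2 := by
        nlinarith
      rw [div_le_div_iff₀ (by positivity) (by positivity)]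
      nlinarith
  have hElow : B.card * (1 / (4 * κ)) ≤ E := by
    rw [hE, ← nsmul_eq_mul, ← Finset.sum_const]
    exact Finset.sum_le_sum hval
  have hEpos : 0 < E := lt_of_lt_of_le (by positivity) hElow
  have hfw : ∀ x ∈ B, ∀ w ∈ W, amp h κ lam x w = (ampVal h κ lam x : ℂ) • w := by
    intro x hx w hw
    have hp := hvol x hx
    have hp' : ((h x).vol : ℂ) ≠ 0 := by exact_mod_cast hp.ne'
    unfold amp ampVal
    split_ifs with hc
    · rw [_root_.smul_apply, he' x hx w hw, smul_smul]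
      congr 1
      rw [div_mul_eq_mul_div, Complex.mul_conj, Complex.normSq_eq_norm_sq]
      push_cast
      rfl
    · rw [_root_.smul_apply]
      show _ • ((at' h x).op ((at' h x).star.op w) + (-((h x).vol : ℂ)) • w) = _
      rw [he' x hx w hw, map_smul, he x hx w hw, smul_smul, ← add_smul, smul_smul]
      congr 1
      rw [mul_comm (starRingEnd ℂ (lam x)), Complex.mul_conj, Complex.normSq_eq_norm_sq]
      push_cast
      ring
  have hS : Stable W (sOp B (ampFn h κ lam)) := by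
    unfold sOp
    refine Stable.sum B fun x hx => ?_
    rw [op_ampFn]
    unfold amp
    split_ifs with hc
    · exact ((hst x hx).star).smul _
    · exact ((hst x hx).uOp).smul _
  have hlow : ∀ w ∈ W, E * ‖w‖ ≤ ‖sOp B (ampFn h κ lam) w‖ := by
    intro w hw
    have h1 : sOp B (ampFn h κ lam) w = (E : ℂ) • w := by
      unfold sOp
      rw [sum_apply, Finset.sum_congr rfl fun x hx => by rw [op_ampFn, hfw x hx w hw],
        ← Finset.sum_smul, hE]
      push_cast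
      rfl
    rw [h1, norm_smul, Complex.norm_real, Real.norm_of_nonneg hEpos.le]
  have hD' : ∀ x ∈ B, X.deg x * (ampFn h κ lam x).rad ≤ 2 * D := by
    intro x hx
    have h1 := hD x hx
    have h2 : (ampFn h κ lam x).rad ≤ 2 * (h x).rad := by
      unfold ampFn
      split_ifs
      · have := smul_star_rad (lam x / (h x).vol) (h x)
        omega
      · exact uFn_rad _ _
    calc X.deg x * (ampFn h κ lam x).rad ≤ X.deg x * (2 * (h x).rad) :=
          Nat.mul_le_mul_left _ h2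
      _ = 2 * (X.deg x * (h x).rad) := by ring
      _ ≤ 2 * D := Nat.mul_le_mul_left 2 h1
  have hK' : ∀ x ∈ B, ∀ g ∈ X.K Γ x, (ampFn h κ lam x).h g = 0 := by
    intro x hx g hg
    unfold ampFn
    split_ifs
    · show lam x / (h x).vol * starRingEnd ℂ ((h x).h g⁻¹) = 0
      rw [hK x hx _ (inv_mem hg), map_zero, mul_zero]
    · exact uFn_K _ _ hg
  have hV : vTot B (ampFn h κ lam) ≤ E := by
    unfold vTot
    refine Finset.sum_le_sum fun x hx => ?_
    have hp := hvol x hx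
    have h2 := hκ x hx
    unfold ampFn ampVal
    split_ifs with hc
    · rw [smul_star_vol, norm_div, Complex.norm_real, Real.norm_of_nonneg hp.le]
      refine le_of_eq ?_
      field_simp
    · refine (uFn_star_vol _ _ P).trans ?_
      rw [Complex.norm_real, Real.norm_eq_abs, sq_abs]
      calc ((‖lam x‖ ^ 2 - (h x).vol) / (κ * (h x).vol ^ 2)) ^ 2 *
            (((h x).norm : ℝ) ^ 2 * (h x).vol)
          ≤ ((‖lam x‖ ^ 2 - (h x).vol) / (κ * (h x).vol ^ 2)) ^ 2 *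
            ((κ * (h x).vol) * (h x).vol) := by gcongr
        _ = _ := by field_simp
  have hR : rTot B (ampFn h κ lam) ≤ 4 * κ * E := by
    unfold rTot
    rw [hE, Finset.mul_sum]
    refine Finset.sum_le_sum fun x hx => ?_
    have hp := hvol x hx
    have h2 := hκ x hx
    unfold ampFn ampVal
    split_ifs with hc
    · have h3 : (smulFn (lam x / (h x).vol) (h x).star).norm ≤
          ‖(lam x / (h x).vol : ℂ)‖₊ * (h x).norm :=
        norm_le_of (smulFn_local _ (star_local (h x).norm_le))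
      have h4 : ((smulFn (lam x / (h x).vol) (h x).star).norm : ℝ) ≤
          ‖(lam x / (h x).vol : ℂ)‖ * (h x).norm := by exact_mod_cast h3
      rw [norm_div, Complex.norm_real, Real.norm_of_nonneg hp.le] at h4
      calc ((smulFn (lam x / (h x).vol) (h x).star).norm : ℝ) ^ 2
          ≤ (‖lam x‖ / (h x).vol * (h x).norm) ^ 2 := by gcongr
        _ = (‖lam x‖ / (h x).vol) ^ 2 * ((h x).norm : ℝ) ^ 2 := by ring
        _ ≤ (‖lam x‖ / (h x).vol) ^ 2 * (κ * (h x).vol) := by gcongr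
        _ = κ * (‖lam x‖ ^ 2 / (h x).vol) := by field_simp
        _ ≤ 4 * κ * (‖lam x‖ ^ 2 / (h x).vol) := by
          have : 0 ≤ κ * (‖lam x‖ ^ 2 / (h x).vol) := by positivity
          linarith
    · set c : ℝ := (‖lam x‖ ^ 2 - (h x).vol) / (κ * (h x).vol ^ 2) with hcdef
      have h3 : (uFn (c : ℂ) (h x)).norm ≤ 2 * ‖(c : ℂ)‖₊ * (h x).norm ^ 2 :=
        norm_le_of (uFn_local _ _ (vol_le_sq P hp))
      have h4 : ((uFn (c : ℂ) (h x)).norm : ℝ) ≤ 2 * ‖(c : ℂ)‖ * ((h x).norm : ℝ) ^ 2 := by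
        exact_mod_cast h3
      rw [Complex.norm_real, Real.norm_eq_abs] at h4
      calc ((uFn (c : ℂ) (h x)).norm : ℝ) ^ 2 ≤ (2 * |c| * ((h x).norm : ℝ) ^ 2) ^ 2 := by
            gcongr
        _ ≤ (2 * |c| * (κ * (h x).vol)) ^ 2 := by gcongr
        _ = 4 * c ^ 2 * (κ * (h x).vol) ^ 2 := by
            rw [mul_pow, mul_pow, sq_abs]
            ring
        _ = _ := by
            rw [hcdef]
            field_simp
  have h1 := ld_eval hK' hD' hS E hEpos.le hlow P (r + 1) hw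
  have h2 : ldC (vTot B (ampFn h κ lam)) (rTot B (ampFn h κ lam)) (r + 1) ≤
      (r + 1).factorial * E * (4 * (4 * κ * E)) ^ r := by
    refine ldC_le vTot_nonneg hV rTot_nonneg hR ?_ r
    nlinarith
  have e1 : 2 * ((r + 1) * (2 * D)) = 4 * ((r + 1) * D) := by ring
  rw [e1] at h1
  set a := ‖w (cls Γ (Bundle X Γ) P)‖ ^ 2 with ha
  have ha0 : 0 ≤ a := by positivity
  have h3 : E ^ (r + 1) * (E ^ (r + 1) * a) ≤ E ^ (r + 1) *
      (autNum P (4 * ((r + 1) * D)) * ((r + 1).factorial * (16 * κ) ^ r) * ‖w‖ ^ 2) := by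
    calc E ^ (r + 1) * (E ^ (r + 1) * a) = E ^ (2 * (r + 1)) * a := by ring
      _ ≤ autNum P (4 * ((r + 1) * D)) *
          ((r + 1).factorial * E * (4 * (4 * κ * E)) ^ r) * ‖w‖ ^ 2 := by
          refine h1.trans ?_
          gcongr
      _ = _ := by
          rw [pow_succ, show 4 * (4 * κ * E) = (16 * κ) * E by ring, mul_pow]
          ring
  have h4 := le_of_mul_le_mul_left h3 (by positivity)
  have h5 : (B.card * (1 / (4 * κ))) ^ (r + 1) * a ≤
      autNum P (4 * ((r + 1) * D)) * ((r + 1).factorial * (16 * κ) ^ r) * ‖w‖ ^ 2 := by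
    refine le_trans ?_ h4
    gcongr
  have h6 := mul_le_mul_of_nonneg_left h5 (by positivity : 0 ≤ (4 * κ) ^ (r + 1))
  have e2 : (4 * κ) ^ (r + 1) * (B.card * (1 / (4 * κ))) ^ (r + 1) = (B.card : ℝ) ^ (r + 1) := by
    rw [← mul_pow]
    congr 1
    field_simp
  calc (B.card : ℝ) ^ (r + 1) * a = (4 * κ) ^ (r + 1) * ((B.card * (1 / (4 * κ))) ^ (r + 1) * a) := by
        rw [← mul_assoc, e2]
    _ ≤ _ := h6
    _ = _ := by
        rw [show (64 * κ ^ 2) = (4 * κ) * (16 * κ) by ring, mul_pow (4 * κ) (16 * κ), pow_succ]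
        ring

end Pool.Agent.Helper80.AT
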