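import Pool.Agent.Helper80.AT.Many

/-! The two bounds from many places. -/

open scoped ENNReal NNReal InnerProductSpace
open MeasureTheory

namespace Pool.Agent.Helper80.AT

variable {F : Type} [Field F] {X : Places F} {N : ℕ} {Γ : Subgroup (GL (Fin N) F)}

lemma adjoint_eq (T : Hecke X Γ) : ContinuousLinearMap.adjoint T.op = T.star.op := by
  ext1 u
  apply coe_eq
  intro b
  rw [coe_adjoint, coe_op]

lemma star_adjoint_eq (T : Hecke X Γ) : ContinuousLinearMap.adjoint T.star.op = T.op := by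
  rw [← adjoint_eq, ContinuousLinearMap.adjoint_adjoint]

lemma Stable.star {W : Submodule ℂ (L2 Γ (Bundle X Γ))} {T : Hecke X Γ} (h : Stable W T.op) :
    Stable W T.star.op := by
  refine ⟨fun w hw => ?_, fun w hw => ?_⟩
  · rw [← adjoint_eq]
    exact h.adj w hw
  · rw [star_adjoint_eq]
    exact h.stable w hw

lemma Stable.uOp {W : Submodule ℂ (L2 Γ (Bundle X Γ))} {T : Hecke X Γ} (h : Stable W T.op) :
    Stable W (uOp T) := (h.mul h.star).add ((Stable.one W).smul _)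

lemma uOp_inner (T : Hecke X Γ) (w : L2 Γ (Bundle X Γ)) :
    ⟪w, uOp T w⟫_ℂ = ((‖T.star.op w‖ ^ 2 - T.fn.vol * ‖w‖ ^ 2 : ℝ) : ℂ) := by
  show ⟪w, T.op (T.star.op w) + (-(T.fn.vol : ℂ)) • w⟫_ℂ = _
  rw [inner_add_right, inner_smul_right, ← ContinuousLinearMap.adjoint_inner_left, adjoint_eq,
    inner_self_eq_norm_sq_to_K, inner_self_eq_norm_sq_to_K]
  push_cast
  show ((‖T.star.op w‖ : ℝ) : ℂ) ^ 2 + -(T.fn.vol : ℂ) * ((‖w‖ : ℝ) : ℂ) ^ 2 = _
  ring

variable (B : Finset X.V) (h : (x : X.V) → HeckeFn X Γ x)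

lemma pair_sum {P : Bundle X Γ} {n : ℕ} (v : X.V → Bundle X Γ → ℂ)
    (f : X.V → L2 Γ (Bundle X Γ) →L[ℂ] L2 Γ (Bundle X Γ))
    (hp : ∀ x ∈ B, Pair P n (v x) (f x (delta Γ P))) :
    Pair P n (∑ x ∈ B, v x) ((∑ x ∈ B, f x) (delta Γ P)) := by
  rw [sum_apply]
  exact Pair.sum B hp

lemma smul_sq (c : ℂ) (v : Bundle X Γ → ℂ) (C : ℝ)
    (hv : ∑' Q, ‖v Q‖ₑ ^ 2 ≤ ENNReal.ofReal C) :
    ∑' Q, ‖(c • v) Q‖ₑ ^ 2 ≤ ENNReal.ofReal (‖c‖ ^ 2 * C) := by
  have e : ∀ Q, ‖(c • v) Q‖ₑ ^ 2 = ‖c‖ₑ ^ 2 * ‖v Q‖ₑ ^ 2 := by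
    intro Q
    rw [Pi.smul_apply, smul_eq_mul, enorm_mul, mul_pow]
  simp only [e]
  rw [ENNReal.tsum_mul_left, ENNReal.ofReal_mul (by positivity),
    ENNReal.ofReal_pow (norm_nonneg _), ofReal_norm]
  gcongr

variable {B h} {κ : ℝ} {D : ℕ} (hκ0 : 0 ≤ κ) (hvol : ∀ x ∈ B, 0 < (h x).vol)
    (hκ : ∀ x ∈ B, ((h x).norm : ℝ) ^ 2 ≤ κ * (h x).vol)
    (hD : ∀ x ∈ B, X.deg x * (h x).rad ≤ D)

include hκ0 hvol hκ hD in
theorem many_a {W : Submodule ℂ (L2 Γ (Bundle X Γ))} (α : ℝ) (hα : 0 ≤ α) (ε : X.V → ℝ)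
    (hε : ∀ x ∈ B, |ε x| = 1) (hst : ∀ x ∈ B, Stable W (at' h x).op)
    (hb : ∀ x ∈ B, ∀ w ∈ W, α * (h x).vol * ‖w‖ ^ 2 ≤
      ε x * (‖(at' h x).star.op w‖ ^ 2 - (h x).vol * ‖w‖ ^ 2))
    (P : Bundle X Γ) {w : L2 Γ (Bundle X Γ)} (hw : w ∈ W) :
    B.card * α ^ 2 * ‖w (cls Γ (Bundle X Γ) P)‖ ^ 2 ≤ κ * autNum P (4 * D) * ‖w‖ ^ 2 := by
  rcases B.eq_empty_or_nonempty with hB | hB
  · subst hB
    simp only [Finset.card_empty, Nat.cast_zero, zero_mul]
    positivity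
  set f : L2 Γ (Bundle X Γ) →L[ℂ] L2 Γ (Bundle X Γ) :=
    ∑ x ∈ B, ((ε x / (h x).vol : ℝ) : ℂ) • uOp (at' h x) with hf
  set v : Bundle X Γ → ℂ := ∑ x ∈ B, ((ε x / (h x).vol : ℝ) : ℂ) • uPt (at' h x) P with hv
  have hpair : Pair P (2 * D) v (f (delta Γ P)) := by
    refine pair_sum B _ _ fun x hx => ?_
    refine ((uPt_pair (at' h x) P).mono ?_).smul _
    exact Nat.mul_le_mul_left 2 (hD x hx)
  have hC : ∑' Q, ‖v Q‖ₑ ^ 2 ≤ ENNReal.ofReal (B.card * κ) := by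
    rw [hv, only_sum B (fun x => ((ε x / (h x).vol : ℝ) : ℂ) • uPt (at' h x) P)
      (fun x _ => (uPt_only (at' h x) P).smul _)]
    have h1 : ∀ x ∈ B, ∑' Q, ‖(((ε x / (h x).vol : ℝ) : ℂ) • uPt (at' h x) P) Q‖ₑ ^ 2 ≤
        ENNReal.ofReal κ := by
      intro x hx
      refine (smul_sq _ _ _ (uPt_sq (at' h x) P)).trans (ENNReal.ofReal_le_ofReal ?_)
      rw [Complex.norm_real, Real.norm_eq_abs, abs_div, hε x hx, abs_of_pos (hvol x hx)]
      show (1 / (h x).vol) ^ 2 * (((h x).norm : ℝ) ^ 2 * (h x).vol) ≤ κ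
      have hp := hvol x hx
      have h2 := hκ x hx
      have h3 : (1 / (h x).vol) ^ 2 * (((h x).norm : ℝ) ^ 2 * (h x).vol) =
          ((h x).norm : ℝ) ^ 2 / (h x).vol := by
        field_simp
      rw [h3, div_le_iff₀ hp]
      exact h2
    refine (Finset.sum_le_sum h1).trans (le_of_eq ?_)
    rw [Finset.sum_const, nsmul_eq_mul, ENNReal.ofReal_mul (by positivity)]
    simp
  have hcard : (0 : ℝ) < B.card := by exact_mod_cast hB.card_pos
  have hlow : ∀ w ∈ W, (B.card * α) ^ 2 * ‖w‖ ^ 2 ≤ ∑ _j : Unit, ‖f w‖ ^ 2 := by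
    intro w hw
    rw [Fintype.sum_unique, ← mul_pow]
    refine pow_le_pow_left₀ (by positivity) ?_ 2
    rcases eq_or_ne w 0 with h0 | h0
    · rw [h0]
      simp
    have hpos : 0 < ‖w‖ := norm_pos_iff.2 h0
    have h1 : RCLike.re ⟪w, f w⟫_ℂ =
        ∑ x ∈ B, ε x / (h x).vol * (‖(at' h x).star.op w‖ ^ 2 - (h x).vol * ‖w‖ ^ 2) := by
      rw [hf, sum_apply, inner_sum, map_sum]
      refine Finset.sum_congr rfl fun x _ => ?_
      rw [_root_.smul_apply, inner_smul_right, uOp_inner, ← Complex.ofReal_mul]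
      exact Complex.ofReal_re _
    have h2 : B.card * α * ‖w‖ ^ 2 ≤ RCLike.re ⟪w, f w⟫_ℂ := by
      rw [h1]
      have h3 : ∀ x ∈ B, α * ‖w‖ ^ 2 ≤
          ε x / (h x).vol * (‖(at' h x).star.op w‖ ^ 2 - (h x).vol * ‖w‖ ^ 2) := by
        intro x hx
        have hp := hvol x hx
        have h4 := hb x hx w hw
        rw [div_mul_eq_mul_div, le_div_iff₀ hp]
        refine le_trans (le_of_eq ?_) h4
        ring
      refine le_trans (le_of_eq ?_) (Finset.sum_le_sum h3)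
      rw [Finset.sum_const, nsmul_eq_mul]
      ring
    have h3 : RCLike.re ⟪w, f w⟫_ℂ ≤ ‖w‖ * ‖f w‖ :=
      (RCLike.re_le_norm _).trans (norm_inner_le_norm _ _)
    have h4 : (B.card * α * ‖w‖) * ‖w‖ ≤ ‖f w‖ * ‖w‖ := by
      calc (B.card * α * ‖w‖) * ‖w‖ = B.card * α * ‖w‖ ^ 2 := by ring
        _ ≤ ‖w‖ * ‖f w‖ := h2.trans h3
        _ = _ := by ring
    exact le_of_mul_le_mul_right h4 hpos
  have hS : Stable W f := by
    rw [hf]
    exact Stable.sum B fun x hx => ((hst x hx).uOp).smul _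
  have h5 := eval_bound (fun _ : Unit => f) (fun _ => hS) (B.card * α) hlow P (2 * D)
    (fun _ => v) (fun _ => hpair) (fun _ => B.card * κ) (fun _ => by positivity) (fun _ => hC) hw
  rw [Fintype.sum_unique] at h5
  have e1 : 2 * (2 * D) = 4 * D := by ring
  rw [e1] at h5
  have h6 : (B.card : ℝ) * (B.card * α ^ 2 * ‖w (cls Γ (Bundle X Γ) P)‖ ^ 2) ≤
      B.card * (κ * autNum P (4 * D) * ‖w‖ ^ 2) := by
    calc (B.card : ℝ) * (B.card * α ^ 2 * ‖w (cls Γ (Bundle X Γ) P)‖ ^ 2)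
        = (B.card * α) ^ 2 * ‖w (cls Γ (Bundle X Γ) P)‖ ^ 2 := by ring
      _ ≤ _ := h5
      _ = _ := by ring
  exact le_of_mul_le_mul_left h6 hcard

open Classical in
/-- the amplifier at x -/
noncomputable def amp (h : (x : X.V) → HeckeFn X Γ x) (κ : ℝ) (lam : X.V → ℂ) (x : X.V) :
    L2 Γ (Bundle X Γ) →L[ℂ] L2 Γ (Bundle X Γ) :=
  if (h x).vol ≤ 2 * ‖lam x‖ ^ 2 then (lam x / (h x).vol) • (at' h x).star.op
  else (((‖lam x‖ ^ 2 - (h x).vol) / (κ * (h x).vol ^ 2) : ℝ) : ℂ) • uOp (at' h x)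

open Classical in
/-- its function -/
noncomputable def ampPt (h : (x : X.V) → HeckeFn X Γ x) (κ : ℝ) (lam : X.V → ℂ)
    (P : Bundle X Γ) (x : X.V) : Bundle X Γ → ℂ :=
  if (h x).vol ≤ 2 * ‖lam x‖ ^ 2 then (lam x / (h x).vol) • sPt (at' h x) P
  else (((‖lam x‖ ^ 2 - (h x).vol) / (κ * (h x).vol ^ 2) : ℝ) : ℂ) • uPt (at' h x) P

open Classical in
/-- its value -/
noncomputable def ampVal (h : (x : X.V) → HeckeFn X Γ x) (κ : ℝ) (lam : X.V → ℂ) (x : X.V) : ℝ :=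
  if (h x).vol ≤ 2 * ‖lam x‖ ^ 2 then ‖lam x‖ ^ 2 / (h x).vol
  else (‖lam x‖ ^ 2 - (h x).vol) ^ 2 / (κ * (h x).vol ^ 2)

include hκ0 hvol hκ hD in
theorem many_b {W : Submodule ℂ (L2 Γ (Bundle X Γ))} (lam : X.V → ℂ)
    (hK : ∀ x ∈ B, ∀ g ∈ X.K Γ x, (h x).h g = 0)
    (he : ∀ x ∈ B, ∀ w ∈ W, (at' h x).op w = lam x • w)
    (he' : ∀ x ∈ B, ∀ w ∈ W, (at' h x).star.op w = starRingEnd ℂ (lam x) • w)
    (P : Bundle X Γ) {w : L2 Γ (Bundle X Γ)} (hw : w ∈ W) :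
    B.card * ‖w (cls Γ (Bundle X Γ) P)‖ ^ 2 ≤ 4 * κ * autNum P (4 * D) * ‖w‖ ^ 2 := by
  rcases B.eq_empty_or_nonempty with hB | hB
  · subst hB
    simp only [Finset.card_empty, Nat.cast_zero, zero_mul]
    positivity
  have hcard : (0 : ℝ) < B.card := by exact_mod_cast hB.card_pos
  have hκ1 : 1 ≤ κ := by
    obtain ⟨x, hx⟩ := hB
    have h1 := vol_le_norm (at' h x) P (hvol x hx)
    have h2 := h1.trans (hκ x hx)
    have hp := hvol x hx
    have h3 : 1 * (h x).vol ≤ κ * (h x).vol := by rw [one_mul]; exact h2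
    exact le_of_mul_le_mul_right h3 hp
  have hst : ∀ x ∈ B, Stable W (at' h x).op := by
    intro x hx
    refine ⟨fun w hw => ?_, fun w hw => ?_⟩
    · rw [he x hx w hw]
      exact W.smul_mem _ hw
    · rw [adjoint_eq, he' x hx w hw]
      exact W.smul_mem _ hw
  set E : ℝ := ∑ x ∈ B, ampVal h κ lam x with hE
  have hval : ∀ x ∈ B, 1 / (4 * κ) ≤ ampVal h κ lam x := by
    intro x hx
    have hp := hvol x hx
    unfold ampVal
    split_ifs with hc
    · rw [div_le_div_iff₀ (by positivity) hp]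
      nlinarith
    · push Not at hc
      have h1 : (h x).vol ^ 2 ≤ 4 * (‖lam x‖ ^ 2 - (h x).vol) ^ 2 := by
        nlinarith
      rw [div_le_div_iff₀ (by positivity) (by positivity)]
      nlinarith
  have hval0 : ∀ x ∈ B, 0 ≤ ampVal h κ lam x := fun x hx =>
    le_trans (by positivity) (hval x hx)
  have hElow : B.card * (1 / (4 * κ)) ≤ E := by
    rw [hE, ← nsmul_eq_mul, ← Finset.sum_const]
    exact Finset.sum_le_sum hval
  have hEpos : 0 < E := lt_of_lt_of_le (by positivity) hElow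
  have hfw : ∀ x ∈ B, ∀ w ∈ W, amp h κ lam x w = (ampVal h κ lam x : ℂ) • w := by
    intro x hx w hw
    have hp := hvol x hx
    have hp' : ((h x).vol : ℂ) ≠ 0 := by exact_mod_cast hp.ne'
    unfold amp ampVal
    split_ifs with hc
    · rw [_root_.smul_apply, he' x hx w hw, smul_smul]
      congr 1
      rw [div_mul_eq_mul_div, Complex.mul_conj, Complex.normSq_eq_norm_sq]
      push_cast
      rfl
    · rw [_root_.smul_apply]
      show _ • ((at' h x).op ((at' h x).star.op w) + (-((h x).vol : ℂ)) • w) = _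
      rw [he' x hx w hw, map_smul, he x hx w hw, smul_smul, ← add_smul, smul_smul]
      congr 1
      rw [mul_comm (starRingEnd ℂ (lam x)), Complex.mul_conj, Complex.normSq_eq_norm_sq]
      push_cast
      ring
  set f : L2 Γ (Bundle X Γ) →L[ℂ] L2 Γ (Bundle X Γ) := ∑ x ∈ B, amp h κ lam x with hf
  set v : Bundle X Γ → ℂ := ∑ x ∈ B, ampPt h κ lam P x with hv
  have hpair : Pair P (2 * D) v (f (delta Γ P)) := by
    refine pair_sum B _ _ fun x hx => ?_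
    have hDx := hD x hx
    unfold ampPt amp
    split_ifs with hc
    · refine ((sPt_pair (at' h x) P).mono ?_).smul _
      show X.deg x * (h x).rad ≤ 2 * D
      omega
    · refine ((uPt_pair (at' h x) P).mono ?_).smul _
      exact Nat.mul_le_mul_left 2 hDx
  have honly : ∀ x ∈ B, OnlyAt P x (ampPt h κ lam P x) := by
    intro x hx
    unfold ampPt
    split_ifs with hc
    · exact (sPt_only (at' h x) P (hK x hx)).smul _
    · exact (uPt_only (at' h x) P).smul _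
  have hC : ∑' Q, ‖v Q‖ₑ ^ 2 ≤ ENNReal.ofReal E := by
    rw [hv, only_sum B _ honly, hE, ENNReal.ofReal_sum_of_nonneg hval0]
    refine Finset.sum_le_sum fun x hx => ?_
    have hp := hvol x hx
    unfold ampPt ampVal
    split_ifs with hc
    · refine (smul_sq _ _ _ (sPt_sq (at' h x) P).le).trans (ENNReal.ofReal_le_ofReal ?_)
      rw [norm_div, Complex.norm_real, Real.norm_of_nonneg hp.le]
      show (‖lam x‖ / (h x).vol) ^ 2 * (h x).vol ≤ _
      refine le_of_eq ?_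
      field_simp
    · refine (smul_sq _ _ _ (uPt_sq (at' h x) P)).trans (ENNReal.ofReal_le_ofReal ?_)
      rw [Complex.norm_real, Real.norm_eq_abs, sq_abs]
      show ((‖lam x‖ ^ 2 - (h x).vol) / (κ * (h x).vol ^ 2)) ^ 2 *
        (((h x).norm : ℝ) ^ 2 * (h x).vol) ≤ _
      have h1 := hκ x hx
      calc ((‖lam x‖ ^ 2 - (h x).vol) / (κ * (h x).vol ^ 2)) ^ 2 *
            (((h x).norm : ℝ) ^ 2 * (h x).vol)
          ≤ ((‖lam x‖ ^ 2 - (h x).vol) / (κ * (h x).vol ^ 2)) ^ 2 *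
            ((κ * (h x).vol) * (h x).vol) := by gcongr
        _ = _ := by field_simp
  have hlow : ∀ w ∈ W, E ^ 2 * ‖w‖ ^ 2 ≤ ∑ _j : Unit, ‖f w‖ ^ 2 := by
    intro w hw
    rw [Fintype.sum_unique]
    have h1 : f w = (E : ℂ) • w := by
      rw [hf, sum_apply, Finset.sum_congr rfl fun x hx => hfw x hx w hw, ← Finset.sum_smul, hE]
      push_cast
      rfl
    rw [h1, norm_smul, Complex.norm_real, Real.norm_of_nonneg hEpos.le, mul_pow]
  have hS : Stable W f := by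
    rw [hf]
    refine Stable.sum B fun x hx => ?_
    unfold amp
    split_ifs with hc
    · exact ((hst x hx).star).smul _
    · exact ((hst x hx).uOp).smul _
  have h5 := eval_bound (fun _ : Unit => f) (fun _ => hS) E hlow P (2 * D)
    (fun _ => v) (fun _ => hpair) (fun _ => E) (fun _ => hEpos.le) (fun _ => hC) hw
  rw [Fintype.sum_unique] at h5
  have e1 : 2 * (2 * D) = 4 * D := by ring
  rw [e1] at h5
  have h6 : E * (E * ‖w (cls Γ (Bundle X Γ) P)‖ ^ 2) ≤ E * (autNum P (4 * D) * ‖w‖ ^ 2) := by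
    calc E * (E * ‖w (cls Γ (Bundle X Γ) P)‖ ^ 2)
        = E ^ 2 * ‖w (cls Γ (Bundle X Γ) P)‖ ^ 2 := by ring
      _ ≤ _ := h5
      _ = _ := by ring
  have h7 := le_of_mul_le_mul_left h6 hEpos
  have h8 : B.card * (1 / (4 * κ)) * ‖w (cls Γ (Bundle X Γ) P)‖ ^ 2 ≤
      autNum P (4 * D) * ‖w‖ ^ 2 := by
    refine le_trans ?_ h7
    gcongr
  have h9 := mul_le_mul_of_nonneg_left h8 (by positivity : 0 ≤ 4 * κ)
  calc B.card * ‖w (cls Γ (Bundle X Γ) P)‖ ^ 2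
      = 4 * κ * (B.card * (1 / (4 * κ)) * ‖w (cls Γ (Bundle X Γ) P)‖ ^ 2) := by
        field_simp
    _ ≤ _ := h9
    _ = _ := by ring

end Pool.Agent.Helper80.AT
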