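import Pool.Agent.Helper80.AT.ManyLD

/-! Many places, high powers: bounds for spaces of functions. -/

open scoped ENNReal NNReal InnerProductSpace
open MeasureTheory

namespace Pool.Agent.Helper80.AT

variable {F : Type} [Field F] {X : Places F} {N : ℕ} {Γ : Subgroup (GL (Fin N) F)}

section

variable {B : Finset X.V} {h : (x : X.V) → HeckeFn X Γ x} {κ : ℝ} {D : ℕ}
  {W : Submodule ℂ (Classes X Γ → ℂ)}

lemma sq_star (x : X.V) (u : L2 Γ (Bundle X Γ)) :
    sqNorm ((at' h x).star.fnOp (u : Bun Γ (Bundle X Γ) → ℂ)) = ‖(at' h x).star.op u‖ ^ 2 := by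
  rw [← nrm_coe, coe_op]
  rfl

theorem top_a (hB : B.Nonempty) (hT : TestFamily B h κ D) {α : ℝ} {ε : X.V → ℝ}
    (hW : MeanBiased W B h α ε) (r : ℕ) (S : Finset (Classes X Γ)) :
    TraceLe W S ((r + 1).factorial * κ * (16 * κ ^ 2) ^ r / (α ^ 2 * B.card) ^ (r + 1) *
      autOn S (4 * ((r + 1) * D))) := by
  have hcard : (0 : ℝ) < B.card := by exact_mod_cast hB.card_pos
  have hα := hW.pos
  have hκ0 : 0 ≤ κ := by
    obtain ⟨x, hx⟩ := hB
    have h1 := hT.norm_le x hx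
    have h2 := hT.vol_pos x hx
    by_contra hneg
    push Not at hneg
    have h3 : κ * (h x).vol < 0 := mul_neg_of_neg_of_pos hneg h2
    have h4 : 0 ≤ ((h x).norm : ℝ) ^ 2 := by positivity
    linarith
  refine traceLe_of_point hW.l2 _ (by positivity) (4 * ((r + 1) * D)) ?_ S
  intro b w hw
  have hwl := hW.l2 w hw
  set u : L2 Γ (Bundle X Γ) := hwl.memLp.toLp w with hu
  have hcoe : (u : Bun Γ (Bundle X Γ) → ℂ) = w := coe_toLp' hwl
  have huW : u ∈ up W := by rw [mem_up, hcoe]; exact hw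
  have h1 := ld_a hT.vol_pos hT.norm_le hT.size_le (W := up W) hB α hα.le ε hW.size
    (fun x hx => by
      refine ⟨fun u hu => ?_, fun u hu => ?_⟩
      · rw [mem_up, coe_op]
        exact (hW.stable x hx _ hu).1
      · rw [mem_up, coe_adjoint]
        exact (hW.stable x hx _ hu).2)
    (fun u hu => by
      have h2 := hW.bias _ hu
      rw [show sqNorm (coeLin u : Classes X Γ → ℂ) = ‖u‖ ^ 2 from nrm_coe u] at h2
      refine h2.trans (le_of_eq ?_)
      refine Finset.sum_congr rfl fun x _ => ?_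
      rw [show sqNorm ((at' h x).star.fnOp (coeLin u)) = ‖(at' h x).star.op u‖ ^ 2 from
        sq_star x u])
    b.out r huW
  rw [cls_out, hcoe, ← nrm_coe, hcoe] at h1
  show ‖w b‖ ^ 2 ≤ (r + 1).factorial * κ * (16 * κ ^ 2) ^ r / (α ^ 2 * B.card) ^ (r + 1) *
    autNum b.out (4 * ((r + 1) * D)) * nrm w
  rw [div_mul_eq_mul_div, div_mul_eq_mul_div, le_div_iff₀ (by positivity)]
  have h3 : (B.card : ℝ) ^ (r + 1) * (‖w b‖ ^ 2 * (α ^ 2 * B.card) ^ (r + 1)) ≤
      (B.card : ℝ) ^ (r + 1) * ((r + 1).factorial * κ * (16 * κ ^ 2) ^ r *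
        autNum b.out (4 * ((r + 1) * D)) * nrm w) := by
    calc (B.card : ℝ) ^ (r + 1) * (‖w b‖ ^ 2 * (α ^ 2 * B.card) ^ (r + 1))
        = (α * B.card) ^ (2 * (r + 1)) * ‖w b‖ ^ 2 := by
          rw [mul_pow, mul_pow, pow_mul α, pow_mul (B.card : ℝ), ← pow_mul (B.card : ℝ) 2,
            mul_comm 2 (r + 1), pow_mul (B.card : ℝ) (r + 1) 2]
          ring
      _ ≤ _ := h1
      _ = _ := by
          rw [show 4 * (4 * κ ^ 2 * (B.card : ℝ)) = (16 * κ ^ 2) * B.card by ring, mul_pow,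
            pow_succ (B.card : ℝ) r]
          ring
  exact le_of_mul_le_mul_left h3 (by positivity)

theorem top_b (hB : B.Nonempty) (hT : TestFamily B h κ D) {lam : X.V → ℂ}
    (hK : ∀ x ∈ B, ∀ g ∈ X.K Γ x, (h x).h g = 0) (hW : JointEigen W B h lam) (r : ℕ)
    (S : Finset (Classes X Γ)) :
    TraceLe W S ((r + 1).factorial * (4 * κ) * (64 * κ ^ 2) ^ r / B.card ^ (r + 1) *
      autOn S (4 * ((r + 1) * D))) := by
  have hcard : (0 : ℝ) < B.card := by exact_mod_cast hB.card_pos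
  have hκ0 : 0 ≤ κ := by
    obtain ⟨x, hx⟩ := hB
    have h1 := hT.norm_le x hx
    have h2 := hT.vol_pos x hx
    by_contra hneg
    push Not at hneg
    have h3 : κ * (h x).vol < 0 := mul_neg_of_neg_of_pos hneg h2
    have h4 : 0 ≤ ((h x).norm : ℝ) ^ 2 := by positivity
    linarith
  refine traceLe_of_point hW.l2 _ (by positivity) (4 * ((r + 1) * D)) ?_ S
  intro b w hw
  have hwl := hW.l2 w hw
  set u : L2 Γ (Bundle X Γ) := hwl.memLp.toLp w with hu
  have hcoe : (u : Bun Γ (Bundle X Γ) → ℂ) = w := coe_toLp' hwl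
  have huW : u ∈ up W := by rw [mem_up, hcoe]; exact hw
  have h1 := ld_b hT.vol_pos hT.norm_le hT.size_le (W := up W) hB lam hK
    (fun x hx u hu => by
      apply coe_eq
      intro b
      rw [coe_op, coe_smul]
      exact congrFun (hW.eigen x hx _ hu) b)
    (fun x hx u hu => by
      apply coe_eq
      intro b
      rw [coe_op, coe_smul]
      exact congrFun (hW.eigen_star x hx _ hu) b)
    b.out r huW
  rw [cls_out, hcoe, ← nrm_coe, hcoe] at h1
  show ‖w b‖ ^ 2 ≤ (r + 1).factorial * (4 * κ) * (64 * κ ^ 2) ^ r / (B.card : ℝ) ^ (r + 1) *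
    autNum b.out (4 * ((r + 1) * D)) * nrm w
  rw [div_mul_eq_mul_div, div_mul_eq_mul_div, le_div_iff₀ (by positivity)]
  calc ‖w b‖ ^ 2 * (B.card : ℝ) ^ (r + 1) = (B.card : ℝ) ^ (r + 1) * ‖w b‖ ^ 2 := by ring
    _ ≤ _ := h1
    _ = _ := by ring

end

lemma autNum_triv {n : ℕ} (hn : X.Gon n) :
    autNum (triv X Γ) n = autNum (triv X Γ) 0 := by
  unfold autNum
  congr 1
  ext g
  constructor
  · intro hg
    have hg1 : g • triv X Γ = triv X Γ := gon X hn g hg
    show X.dist (g • triv X Γ) (triv X Γ) ≤ 0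
    rw [hg1, dist_self]
  · intro hg
    exact le_trans hg (Nat.zero_le n)

/-- The classes near the trivial bundle. -/
theorem autOn_near {n R : ℕ} (hn : X.Gon (n + 2 * R)) (S : Finset (Classes X Γ))
    (hS : Near (triv X Γ) R S) :
    autOn S n ≤ autNum (triv X Γ) 0 * ∑ b ∈ S, mass b := by
  unfold autOn
  rw [Finset.mul_sum]
  refine Finset.sum_le_sum fun b hb => mul_le_mul_of_nonneg_right ?_ (mass_pos b).le
  obtain ⟨Q, hQ, hQb⟩ := hS b hb
  obtain ⟨g, hg⟩ := exists_out (G := Γ) Q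
  have h1 : autNum b.out n = autNum Q n := by
    rw [← hQb, hg, autNum_smul]
  rw [h1, ← autNum_triv hn]
  have h2 : {k : Γ | X.dist (k • Q) Q ≤ n} ⊆
      {k : Γ | X.dist (k • triv X Γ) (triv X Γ) ≤ n + 2 * R} := by
    intro k hk
    have hk' : X.dist (k • Q) Q ≤ n := hk
    show X.dist (k • triv X Γ) (triv X Γ) ≤ n + 2 * R
    have h3 := dist_triangle X (k • triv X Γ) (k • Q) (triv X Γ)
    have h4 := dist_triangle X (k • Q) Q (triv X Γ)
    rw [dist_smul] at h3
    rw [dist_comm X Q] at h4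
    omega
  have h3 : autNum Q n ≤ autNum (triv X Γ) (n + 2 * R) := by
    unfold autNum
    exact Set.ncard_le_ncard h2 (near_fin X (triv X Γ) _)
  exact_mod_cast h3

end Pool.Agent.Helper80.AT
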