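import Pool.Agent.Helper80.AT.Fn

/-! The density theorem, with named hypotheses. -/

namespace Pool.Agent.Helper80.AT

variable {F : Type} [Field F] {X : Places F} {N : ℕ} {Γ : Subgroup (GL (Fin N) F)}

theorem density_main {J : Type} [Fintype J] (W : Submodule ℂ (Classes X Γ → ℂ))
    (L : J → List (Hecke X Γ)) (D : ℕ) (hD : ∀ j, wordSize (L j) ≤ D) (A : ℝ)
    (hW : Bounded W L A) (n : ℕ) :
    (∀ (P₀ : Bundle X Γ) (R : ℕ) (S : Finset (Classes X Γ)), Near P₀ R S → ∀ w ∈ W,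
        massOn S w ≤ autNum P₀ (2 * (R + n * D)) / autNum P₀ 0 * theta L A ^ n * sqNorm w) ∧
    (∀ R : ℕ, X.Gon (2 * (R + n * D)) → ∀ S : Finset (Classes X Γ), Near (triv X Γ) R S →
      ∀ w ∈ W, massOn S w ≤ theta L A ^ n * sqNorm w) :=
  ⟨(fn_main W hW.l2 L D hD hW.stable A hW.pos hW.lower n).1,
    (fn_main W hW.l2 L D hD hW.stable A hW.pos hW.lower n).2.1⟩

lemma point_bound {J : Type} [Fintype J] {W : Submodule ℂ (Classes X Γ → ℂ)}
    {L : J → List (Hecke X Γ)} {D : ℕ} (hD : ∀ j, wordSize (L j) ≤ D) {A : ℝ}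
    (hW : Bounded W L A) (n : ℕ) {w : Classes X Γ → ℂ} (hw : w ∈ W) (b : Classes X Γ) :
    ‖w b‖ ^ 2 ≤ theta L A ^ n * autNum b.out (2 * (n * D)) * sqNorm w := by
  have h := (density_main W L D hD A hW n).1 b.out 0 {b} (by
    intro b' hb'
    rw [Finset.mem_singleton] at hb'
    subst hb'
    exact ⟨b'.out, by rw [dist_self], cls_out b'⟩) w hw
  unfold massOn at h
  rw [Finset.sum_singleton, autNum_zero, zero_add] at h
  have hs : (0 : ℝ) < Nat.card (MulAction.stabilizer Γ b.out) := by exact_mod_cast Nat.card_pos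
  have e : mass b = 1 / Nat.card (MulAction.stabilizer Γ b.out) := rfl
  rw [e, div_mul_eq_mul_div, one_mul, div_mul_eq_mul_div, div_mul_eq_mul_div,
    div_le_div_iff_of_pos_right hs] at h
  refine h.trans (le_of_eq ?_)
  ring

theorem mult_main {J : Type} [Fintype J] (W : Submodule ℂ (Classes X Γ → ℂ))
    (L : J → List (Hecke X Γ)) (D : ℕ) (hD : ∀ j, wordSize (L j) ≤ D) (A : ℝ)
    (hW : Bounded W L A) (n : ℕ) (S : Finset (Classes X Γ)) :
    (∀ {I : Type} [Fintype I] (w : I → Classes X Γ → ℂ), (∀ i, w i ∈ W) → OrthoFam w →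
      ∑ i, massOn S (w i) ≤ theta L A ^ n * autOn S (2 * (n * D))) ∧
    ((∀ w ∈ W, SuppIn S w) →
      FiniteDimensional ℂ W ∧ (Module.finrank ℂ W : ℝ) ≤ theta L A ^ n * autOn S (2 * (n * D))) := by
  refine ⟨?_, (fn_main W hW.l2 L D hD hW.stable A hW.pos hW.lower n).2.2 S⟩
  intro I _ w hwW hw
  unfold massOn autOn
  rw [Finset.sum_comm, Finset.mul_sum]
  refine Finset.sum_le_sum fun b _ => ?_
  rw [← Finset.mul_sum, mul_comm (mass b), ← mul_assoc]
  refine mul_le_mul_of_nonneg_right ?_ (mass_pos b).le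
  set s := ∑ i, ‖w i b‖ ^ 2 with hs
  have h1 : sqNorm (∑ i, (starRingEnd ℂ (w i b)) • w i) = s := by
    rw [hw]
    refine Finset.sum_congr rfl fun i _ => ?_
    rw [RCLike.norm_conj]
  have h2 : (∑ i, (starRingEnd ℂ (w i b)) • w i) b = (s : ℂ) := by
    rw [Finset.sum_apply, hs, Complex.ofReal_sum]
    refine Finset.sum_congr rfl fun i _ => ?_
    rw [Pi.smul_apply, smul_eq_mul, Complex.conj_mul']
    push_cast
    rfl
  have h3 := point_bound hD hW n (w := ∑ i, (starRingEnd ℂ (w i b)) • w i)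
    (W.sum_mem fun i _ => W.smul_mem (starRingEnd ℂ (w i b)) (hwW i)) b
  rw [h1, h2] at h3
  have hs0 : 0 ≤ s := Finset.sum_nonneg fun _ _ => by positivity
  have h4 : ‖(s : ℂ)‖ = s := by rw [Complex.norm_real, Real.norm_of_nonneg hs0]
  rw [h4] at h3
  rcases hs0.eq_or_lt with h0 | h0
  · rw [← h0]
    have h5 : 0 ≤ theta L A := by
      unfold theta
      positivity
    positivity
  · have h6 : s * s ≤ theta L A ^ n * autNum b.out (2 * (n * D)) * s := by rw [← pow_two]; exact h3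
    exact le_of_mul_le_mul_right h6 h0

end Pool.Agent.Helper80.AT
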