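import Pool.Agent.Helper80.AT.Loc
import Pool.Agent.Helper80.AT.Stmt

/-! The spectral measure of a bundle of large injectivity radius. -/

open scoped ENNReal NNReal InnerProductSpace
open MeasureTheory

namespace Pool.Agent.Helper80.AT

variable {F : Type} [Field F] {X : Places F} {N : ℕ} {Γ : Subgroup (GL (Fin N) F)}

/-- The g in Γ with dist(gP₀, P₀) ≤ m are automorphisms of P₀. -/
def Rigid (P₀ : Bundle X Γ) (m : ℕ) : Prop := ∀ g : Γ, X.dist (g • P₀) P₀ ≤ m → g • P₀ = P₀

/-- The indicator function of the class of P₀. -/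
noncomputable def ind (P₀ : Bundle X Γ) : Classes X Γ → ℂ := deltaFn P₀

/-- The function u vanishes on the classes without a point at distance at most R from P₀. -/
def SuppNear (P₀ : Bundle X Γ) (R : ℕ) (u : Classes X Γ → ℂ) : Prop :=
  ∀ b, u b ≠ 0 → ∃ Q, X.dist P₀ Q ≤ R ∧ cls Γ (Bundle X Γ) Q = b

/-- The Hecke operators at x given by the functions in the list. -/
def atPlace {x : X.V} (hs : List (HeckeFn X Γ x)) : List (Hecke X Γ) := hs.map fun h => ⟨x, h⟩

/-- The linear combination of the operators T_(L_i) with coefficients c_i, on functions on the set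
of classes. -/
noncomputable def combFn {I : Type} [Fintype I] (c : I → ℂ) (L : I → List (Hecke X Γ))
    (u : Classes X Γ → ℂ) : Classes X Γ → ℂ := ∑ i, c i • wordFn (L i) u

/-- The linear combination of the operators T_(L_i) with coefficients c_i, on functions on the set
of bundles with a rational trivialisation. -/
noncomputable def combAct {I : Type} [Fintype I] (c : I → ℂ) (L : I → List (Hecke X Γ))
    (v : Bundle X Γ → ℂ) : Bundle X Γ → ℂ := fun Q => ∑ i, c i * wordAct (L i) v Q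

lemma coe_comb {I : Type} [Fintype I] (c : I → ℂ) (L : I → List (Hecke X Γ))
    (u : L2 Γ (Bundle X Γ)) :
    ((∑ i, c i • wordOp (L i) u : L2 Γ (Bundle X Γ)) : Bun Γ (Bundle X Γ) → ℂ) = combFn c L u := by
  have h : ∀ v : L2 Γ (Bundle X Γ), coeLin v = (v : Bun Γ (Bundle X Γ) → ℂ) := fun _ => rfl
  rw [← h, map_sum]
  unfold combFn
  refine Finset.sum_congr rfl fun i _ => ?_
  rw [map_smul, h, coe_word]

lemma coe_delta (P₀ : Bundle X Γ) : (delta Γ P₀ : Bun Γ (Bundle X Γ) → ℂ) = ind P₀ :=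
  funext fun b => delta_apply P₀ b

lemma wordAct_append (L L' : List (Hecke X Γ)) (f : Bundle X Γ → ℂ) :
    wordAct (L ++ L') f = wordAct L (wordAct L' f) := List.foldr_append

lemma wordAct_tensor (P₀ : Bundle X Γ) {x : X.V} (hs : List (HeckeFn X Γ x))
    (f : Bundle X Γ → ℂ) (hf : ∀ Q, Q.c x ≠ P₀.c x → f Q = 0) (Q : Bundle X Γ)
    (a : Γ ⧸ X.K Γ x) :
    wordAct (atPlace hs) f (upd Q ((P₀.c x).out • a)) = convWord hs a * f (upd Q (P₀.c x)) := by
  classical
  have e1 : (P₀.c x).out • (((1 : Γ) : Γ ⧸ X.K Γ x)) = P₀.c x := by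
    show (((P₀.c x).out * 1 : Γ) : Γ ⧸ X.K Γ x) = P₀.c x
    rw [mul_one, QuotientGroup.out_eq']
  induction hs generalizing a with
  | nil =>
    show f (upd Q ((P₀.c x).out • a)) = (if a = ((1 : Γ) : Γ ⧸ X.K Γ x) then 1 else 0) * _
    by_cases ha : a = ((1 : Γ) : Γ ⧸ X.K Γ x)
    · rw [if_pos ha, ha, e1, one_mul]
    · rw [if_neg ha, zero_mul]
      apply hf
      rw [upd_x]
      intro h
      apply ha
      conv_rhs at h => rw [← e1]
      exact smul_left_cancel _ h
  | cons h hs ih =>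
    show (heckeKer h).act (wordAct (atPlace hs) f) (upd Q ((P₀.c x).out • a)) =
      conv h (convWord hs) a * _
    rw [act_upd]
    unfold conv
    rw [← finsum_comp_equiv (MulAction.toPerm (P₀.c x).out), finsum_mul]
    refine finsum_congr fun b => ?_
    rw [MulAction.toPerm_apply, h_smul, ih b, mul_assoc]

lemma wordAct_away (P₀ : Bundle X Γ) {x : X.V} (L : List (Hecke X Γ)) (hL : ∀ T ∈ L, T.x ≠ x)
    (f : Bundle X Γ → ℂ) (hf : ∀ Q, Q.c x ≠ P₀.c x → f Q = 0) (Q : Bundle X Γ)
    (hQ : Q.c x ≠ P₀.c x) : wordAct L f Q = 0 := by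
  induction L generalizing Q with
  | nil => exact hf Q hQ
  | cons T L ih =>
    show ∑ᶠ Q', entry T.fn Q Q' * wordAct L f Q' = 0
    refine (finsum_congr fun Q' => ?_).trans finsum_zero
    by_cases h0 : entry T.fn Q Q' = 0
    · rw [h0, zero_mul]
    · rw [ih (fun T' hT' => hL T' (by simp [hT'])) Q' (by
        rw [← (entry_ne h0).1 x (hL T (by simp)).symm]
        exact hQ), mul_zero]

/-- The Hecke operators given by lists of functions at several places. -/
def atPlaces (s : List (Σ x : X.V, List (HeckeFn X Γ x))) : List (Hecke X Γ) :=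
  s.flatMap fun p => atPlace p.2

lemma tensor (P₀ : Bundle X Γ) (s : List (Σ x : X.V, List (HeckeFn X Γ x)))
    (hs : (s.map Sigma.fst).Nodup) :
    wordAct (atPlaces s) (pt P₀) P₀ =
      (s.map fun p => convWord p.2 ((1 : Γ) : Γ ⧸ X.K Γ p.1)).prod := by
  induction s with
  | nil =>
    show pt P₀ P₀ = 1
    unfold pt
    rw [if_pos rfl]
  | cons p s ih =>
    obtain ⟨x, hx⟩ := p
    rw [List.map_cons, List.nodup_cons] at hs
    have e : atPlaces (⟨x, hx⟩ :: s) = atPlace hx ++ atPlaces s := rfl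
    rw [e, wordAct_append, List.map_cons, List.prod_cons, ← ih hs.2]
    have hz : ∀ Q : Bundle X Γ, Q.c x ≠ P₀.c x → wordAct (atPlaces s) (pt P₀) Q = 0 := by
      intro Q hQ
      refine wordAct_away P₀ (atPlaces s) ?_ (pt P₀) ?_ Q hQ
      · intro T hT
        unfold atPlaces atPlace at hT
        simp only [List.mem_flatMap, List.mem_map] at hT
        obtain ⟨p, hp, h, _, rfl⟩ := hT
        intro hpx
        exact hs.1 (List.mem_map.2 ⟨p, hp, hpx⟩)
      · intro Q hQ
        unfold pt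
        rw [if_neg]
        intro h
        exact hQ (by rw [h])
    have h := wordAct_tensor P₀ hx (wordAct (atPlaces s) (pt P₀)) hz P₀ ((1 : Γ) : Γ ⧸ X.K Γ x)
    have e1 : (P₀.c x).out • (((1 : Γ) : Γ ⧸ X.K Γ x)) = P₀.c x := by
      show (((P₀.c x).out * 1 : Γ) : Γ ⧸ X.K Γ x) = P₀.c x
      rw [mul_one, QuotientGroup.out_eq']
    have e2 : upd P₀ (P₀.c x) = P₀ := upd_eq fun _ _ => rfl
    rw [e1, e2] at h
    exact h

theorem moment {P₀ : Bundle X Γ} {m : ℕ} (hP : Rigid P₀ m)
    (s : List (Σ x : X.V, List (HeckeFn X Γ x))) (hs : (s.map Sigma.fst).Nodup)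
    (hL : wordSize (atPlaces s) ≤ m) :
    wordFn (atPlaces s) (ind P₀) (cls Γ (Bundle X Γ) P₀) =
      (s.map fun p => convWord p.2 ((1 : Γ) : Γ ⧸ X.K Γ p.1)).prod := by
  have h1 := (pair_word P₀ (atPlaces s)).value hP (R := 0) (by omega) P₀ (by rw [dist_self])
  rw [coe_word, coe_delta] at h1
  rw [h1, ← wordAct_eq]
  exact tensor P₀ s hs

theorem isometry {P₀ : Bundle X Γ} {m : ℕ} (hP : Rigid P₀ m) {R : ℕ} {u : Classes X Γ → ℂ}
    (hu : IsL2 u) (hs : SuppNear P₀ R u) {I : Type} [Fintype I] (c : I → ℂ)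
    (L : I → List (Hecke X Γ)) (hL : ∀ i, 2 * (R + wordSize (L i)) ≤ m) (hR : 2 * R ≤ m) :
    HasSum (fun Q => ‖combAct c L (ballLift P₀ R u) Q‖ ^ 2)
      (autNum P₀ 0 * sqNorm (combFn c L u)) := by
  set U : L2 Γ (Bundle X Γ) := hu.memLp.toLp u with hU
  have hcoe : (U : Bun Γ (Bundle X Γ) → ℂ) = u := coe_toLp' hu
  have hpb : Pair P₀ R (ballLift P₀ R u) U := by
    have := pair_ball hP hR U (by rw [hcoe]; exact hs)
    rwa [hcoe] at this
  have h1 : Pair P₀ (m / 2) (∑ i, c i • wordAct (L i) (ballLift P₀ R u))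
      (∑ i, c i • wordOp (L i) U) := by
    refine Pair.sum _ fun i _ => ?_
    exact ((hpb.word (L i)).mono (by have := hL i; omega)).smul (c i)
  have h2 := h1.norm fun g hg => hP g (hg.trans (Nat.mul_div_le m 2))
  have e : ∀ Q, (∑ i, c i • wordAct (L i) (ballLift P₀ R u)) Q =
      combAct c L (ballLift P₀ R u) Q := by
    intro Q
    rw [Finset.sum_apply]
    rfl
  simp only [e] at h2
  rw [← nrm_coe, coe_comb, hcoe, ← autNum_zero] at h2
  exact h2

theorem spec_main (X : Places F) (Γ : Subgroup (GL (Fin N) F)) (m : ℕ) :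
    (X.Gon m → Rigid (triv X Γ) m) ∧
    ∀ P₀ : Bundle X Γ, Rigid P₀ m →
      (∀ s : List (Σ x : X.V, List (HeckeFn X Γ x)), (s.map Sigma.fst).Nodup →
        wordSize (atPlaces s) ≤ m →
        wordFn (atPlaces s) (ind P₀) (cls Γ (Bundle X Γ) P₀) =
          (s.map fun p => convWord p.2 ((1 : Γ) : Γ ⧸ X.K Γ p.1)).prod) ∧
      (∀ (R : ℕ) (u : Classes X Γ → ℂ), IsL2 u → SuppNear P₀ R u →
        ∀ {I : Type} [Fintype I] (c : I → ℂ) (L : I → List (Hecke X Γ)),
          (∀ i, 2 * (R + wordSize (L i)) ≤ m) →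
          HasSum (fun Q => ‖combAct c L (ballLift P₀ R u) Q‖ ^ 2)
            (autNum P₀ 0 * sqNorm (combFn c L u))) := by
  refine ⟨fun hgon g hg => gon X hgon g hg, fun P₀ hP => ⟨fun s hs hL => moment hP s hs hL, ?_⟩⟩
  intro R u hu hs I _ c L hL
  rcases isEmpty_or_nonempty I with hI | hI
  · have e1 : (fun Q => ‖combAct c L (ballLift P₀ R u) Q‖ ^ 2) = fun _ => 0 := by
      funext Q
      unfold combAct
      simp
    have e2 : sqNorm (combFn c L u) = 0 := by
      unfold sqNorm combFn nrm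
      simp
    rw [e1, e2, mul_zero]
    exact hasSum_zero
  · refine isometry hP hu hs c L hL ?_
    have := hL (Classical.arbitrary I)
    omega

end Pool.Agent.Helper80.AT
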