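import Pool.Agent.Helper80.AT.LDMain
import Pool.Agent.Helper99.SCH.Alg

/-! The Hecke functions c (h * h^* - vol) and c h. -/

open scoped ENNReal NNReal InnerProductSpace
open MeasureTheory

namespace Pool.Agent.Helper80.AT

open Pool.Agent.Helper99.SCH

lemma act_act {G Y : Type} [Group G] [MulAction G Y] (K₁ K₂ K₃ : Ker G Y)
    (hk : ∀ P R, K₃.k P R = ∑ᶠ Q, K₁.k P Q * K₂.k Q R) (v : Y → ℂ) :
    K₁.act (K₂.act v) = K₃.act v := by
  classical
  funext P
  set U : Finset Y := (K₁.finrow P).toFinset.biUnion fun Q => (K₂.finrow Q).toFinset with hU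
  have h2 : ∀ Q ∈ (K₁.finrow P).toFinset, K₂.act v Q = ∑ R ∈ U, K₂.k Q R * v R := by
    intro Q hQ
    unfold Ker.act
    apply finsum_eq_sum_of_support_subset
    intro R hR
    rw [Finset.mem_coe, hU, Finset.mem_biUnion]
    refine ⟨Q, hQ, ?_⟩
    rw [Set.Finite.mem_toFinset]
    exact left_ne_zero_of_mul hR
  have h3 : ∀ R, K₃.k P R = ∑ Q ∈ (K₁.finrow P).toFinset, K₁.k P Q * K₂.k Q R := by
    intro R
    rw [hk]
    apply finsum_eq_sum_of_support_subset
    intro Q hQ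
    rw [Finset.mem_coe, Set.Finite.mem_toFinset]
    exact left_ne_zero_of_mul hQ
  have h4 : K₃.act v P = ∑ R ∈ U, K₃.k P R * v R := by
    unfold Ker.act
    apply finsum_eq_sum_of_support_subset
    intro R hR
    have h5 : K₃.k P R ≠ 0 := left_ne_zero_of_mul hR
    rw [h3] at h5
    obtain ⟨Q, hQ, hne⟩ := Finset.exists_ne_zero_of_sum_ne_zero h5
    rw [Finset.mem_coe, hU, Finset.mem_biUnion]
    refine ⟨Q, hQ, ?_⟩
    rw [Set.Finite.mem_toFinset]
    exact right_ne_zero_of_mul hne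
  rw [K₁.act_eq, h4]
  rw [Finset.sum_congr rfl fun Q hQ => by rw [h2 Q hQ, Finset.mul_sum]]
  rw [Finset.sum_comm]
  refine Finset.sum_congr rfl fun R _ => ?_
  rw [h3, Finset.sum_mul]
  refine Finset.sum_congr rfl fun Q _ => ?_
  ring

variable {F : Type} [Field F] {X : Places F} {N : ℕ} {Γ : Subgroup (GL (Fin N) F)} {x : X.V}

lemma entry_hconv (h₁ h₂ : HeckeFn X Γ x) (P R : Bundle X Γ) :
    entry (hconv h₁ h₂) P R = ∑ᶠ Q, entry h₁ P Q * entry h₂ Q R := by
  by_cases hPR : ∀ v, v ≠ x → P.c v = R.c v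
  · have hinj := upd_inj (x := x) P
    have e1 : ∀ b : Γ ⧸ X.K Γ x, entry h₁ P (upd P b) * entry h₂ (upd P b) R =
        h₁.h ((P.c x).out⁻¹ * b.out) * h₂.h (b.out⁻¹ * (R.c x).out) := by
      intro b
      rw [entry_upd]
      congr 1
      have e2 : upd P b = upd R b := by
        apply Bundle.ext
        funext w
        by_cases hw : w = x
        · subst hw; rw [upd_x, upd_x]
        · rw [upd_ne _ _ hw, upd_ne _ _ hw, hPR w hw]
      rw [e2, entry_upd']
    have e3 : ∑ᶠ Q, entry h₁ P Q * entry h₂ Q R =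
        ∑ᶠ b : Γ ⧸ X.K Γ x, entry h₁ P (upd P b) * entry h₂ (upd P b) R := by
      rw [← finsum_mem_range (f := fun Q => entry h₁ P Q * entry h₂ Q R) hinj, finsum_mem_def]
      refine finsum_congr fun Q => ?_
      symm
      apply Set.indicator_eq_self.2 _ |> congrFun
      intro Q hQ
      exact ⟨Q.c x, upd_eq (entry_ne (left_ne_zero_of_mul hQ)).1⟩
    rw [e3]
    simp only [e1]
    unfold entry
    rw [if_pos hPR, hconv_apply]
  · have h1 : entry (hconv h₁ h₂) P R = 0 := by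
      unfold entry
      rw [if_neg hPR]
    rw [h1]
    symm
    refine (finsum_congr fun Q => ?_).trans finsum_zero
    by_contra hne
    apply hPR
    intro v hv
    rw [(entry_ne (left_ne_zero_of_mul hne)).1 v hv, (entry_ne (right_ne_zero_of_mul hne)).1 v hv]

lemma act_hconv (h₁ h₂ : HeckeFn X Γ x) (v : Bundle X Γ → ℂ) :
    (heckeKer h₁).act ((heckeKer h₂).act v) = (heckeKer (hconv h₁ h₂)).act v :=
  act_act _ _ _ (fun P R => entry_hconv h₁ h₂ P R) v

lemma hconv_one (h : HeckeFn X Γ x) : (hconv h h.star).h 1 = h.vol := by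
  show ∑ᶠ a : Γ ⧸ X.K Γ x, h.h a.out * starRingEnd ℂ (h.h (a.out⁻¹ * 1)⁻¹) = _
  have e1 : ∀ a : Γ ⧸ X.K Γ x, h.h a.out * starRingEnd ℂ (h.h (a.out⁻¹ * 1)⁻¹) =
      Complex.ofRealHom (‖h.h a.out‖ ^ 2) := by
    intro a
    rw [mul_one, inv_inv, Complex.mul_conj, Complex.normSq_eq_norm_sq]
    rfl
  simp only [e1]
  have hfin : (Function.support fun a : Γ ⧸ X.K Γ x => ‖h.h a.out‖ ^ 2).Finite := by
    refine (h.finL).subset ?_
    intro a ha
    simp only [Function.mem_support, ne_eq, pow_eq_zero_iff, OfNat.ofNat_ne_zero,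
      not_false_eq_true, norm_eq_zero] at ha
    exact ha
  unfold HeckeFn.vol
  exact (Complex.ofRealHom.toAddMonoidHom.map_finsum hfin).symm

lemma hconv_K (h : HeckeFn X Γ x) {k : Γ} (hk : k ∈ X.K Γ x) :
    (hconv h h.star).h k = h.vol := by
  rw [← hconv_one]
  have := (hconv h h.star).biinv k hk 1 (one_mem _) 1
  rw [mul_one, mul_one] at this
  exact this

open Classical in
/-- The Hecke function c (h * h^* - vol h). -/
noncomputable def uFn (c : ℂ) (h : HeckeFn X Γ x) : HeckeFn X Γ x where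
  h g := if g ∈ X.K Γ x then 0 else c * (hconv h h.star).h g
  biinv k hk k' hk' g := by
    have e : k * g * k' ∈ X.K Γ x ↔ g ∈ X.K Γ x := by
      constructor
      · intro h1
        have h2 := mul_mem (mul_mem (inv_mem hk) h1) (inv_mem hk')
        have e2 : k⁻¹ * (k * g * k') * k'⁻¹ = g := by group
        rwa [e2] at h2
      · intro h1
        exact mul_mem (mul_mem hk h1) hk'
    by_cases hg : g ∈ X.K Γ x
    · rw [if_pos hg, if_pos (e.2 hg)]
    · rw [if_neg hg, if_neg fun h1 => hg (e.1 h1), (hconv h h.star).biinv k hk k' hk' g]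
  finL := by
    refine ((hconv h h.star).finL).subset ?_
    intro a ha h0
    apply ha
    rw [h0, mul_zero, ite_self]
  finR := by
    refine ((hconv h h.star).finR).subset ?_
    intro a ha h0
    apply ha
    rw [h0, mul_zero, ite_self]

lemma uFn_K (c : ℂ) (h : HeckeFn X Γ x) {k : Γ} (hk : k ∈ X.K Γ x) : (uFn c h).h k = 0 :=
  if_pos hk

open Classical in
lemma uFn_cos (c : ℂ) (h : HeckeFn X Γ x) (a b : Γ ⧸ X.K Γ x) :
    (uFn c h).h (a.out⁻¹ * b.out) =
      c * ((hconv h h.star).h (a.out⁻¹ * b.out) - if a = b then (h.vol : ℂ) else 0) := by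
  by_cases hab : a = b
  · subst hab
    have h1 : a.out⁻¹ * a.out ∈ X.K Γ x := by
      rw [inv_mul_cancel]
      exact one_mem _
    rw [if_pos rfl, uFn_K c h h1, hconv_K h h1, sub_self, mul_zero]
  · have h1 : ¬ a.out⁻¹ * b.out ∈ X.K Γ x := by
      intro h2
      apply hab
      rw [← QuotientGroup.out_eq' a, ← QuotientGroup.out_eq' b]
      exact QuotientGroup.eq.2 h2
    rw [if_neg hab, sub_zero]
    exact if_neg h1

open Classical in
lemma entry_uFn (c : ℂ) (h : HeckeFn X Γ x) (P Q : Bundle X Γ) :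
    entry (uFn c h) P Q =
      c * (entry (hconv h h.star) P Q - if Q = P then (h.vol : ℂ) else 0) := by
  unfold entry
  by_cases hPQ : ∀ v, v ≠ x → P.c v = Q.c v
  · rw [if_pos hPQ, if_pos hPQ, uFn_cos]
    congr 2
    by_cases h1 : P.c x = Q.c x
    · have h2 : Q = P := by
        apply Bundle.ext
        funext w
        by_cases hw : w = x
        · subst hw; exact h1.symm
        · exact (hPQ w hw).symm
      rw [if_pos h1, if_pos h2]
    · rw [if_neg h1, if_neg]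
      intro h2
      exact h1 (by rw [h2])
  · have h1 : ¬ Q = P := by
      intro h2
      apply hPQ
      intro v _
      rw [h2]
    rw [if_neg hPQ, if_neg hPQ, if_neg h1, sub_zero, mul_zero]

lemma act_uFn (c : ℂ) (h : HeckeFn X Γ x) (v : Bundle X Γ → ℂ) :
    (heckeKer (uFn c h)).act v =
      c • ((heckeKer h).act ((heckeKer h.star).act v) + (-(h.vol : ℂ)) • v) := by
  classical
  funext P
  rw [act_hconv, Pi.smul_apply, Pi.add_apply, Pi.smul_apply, smul_eq_mul, smul_eq_mul]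
  set U : Finset (Bundle X Γ) := insert P ((heckeKer (hconv h h.star)).finrow P).toFinset with hU
  have e1 : (heckeKer (hconv h h.star)).act v P =
      ∑ Q ∈ U, entry (hconv h h.star) P Q * v Q := by
    show ∑ᶠ Q, entry (hconv h h.star) P Q * v Q = _
    apply finsum_eq_sum_of_support_subset
    intro Q hQ
    rw [Finset.mem_coe, hU, Finset.mem_insert, Set.Finite.mem_toFinset]
    right
    exact left_ne_zero_of_mul hQ
  have e2 : (heckeKer (uFn c h)).act v P = ∑ Q ∈ U, entry (uFn c h) P Q * v Q := by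
    show ∑ᶠ Q, entry (uFn c h) P Q * v Q = _
    apply finsum_eq_sum_of_support_subset
    intro Q hQ
    rw [Finset.mem_coe, hU, Finset.mem_insert, Set.Finite.mem_toFinset]
    by_cases hq : Q = P
    · left; exact hq
    · right
      have h1 : entry (uFn c h) P Q ≠ 0 := left_ne_zero_of_mul hQ
      rw [entry_uFn, if_neg hq, sub_zero] at h1
      exact right_ne_zero_of_mul h1
  have e3 : ∑ Q ∈ U, (if Q = P then (h.vol : ℂ) else 0) * v Q = h.vol * v P := by
    rw [Finset.sum_eq_single P]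
    · rw [if_pos rfl]
    · intro Q _ hQ
      rw [if_neg hQ, zero_mul]
    · intro hP
      exact absurd (Finset.mem_insert_self _ _) hP
  rw [e1, e2, mul_add, neg_mul, ← e3, Finset.mul_sum, mul_neg, Finset.mul_sum, ← sub_eq_add_neg,
    ← Finset.sum_sub_distrib]
  refine Finset.sum_congr rfl fun Q _ => ?_
  rw [entry_uFn]
  ring

lemma uFn_star_vol (c : ℂ) (h : HeckeFn X Γ x) (P : Bundle X Γ) :
    (uFn c h).star.vol ≤ ‖c‖ ^ 2 * ((h.norm : ℝ) ^ 2 * h.vol) := by
  have h1 : ∑' Q, ‖(heckeKer (uFn c h)).act (pt P) Q‖ₑ ^ 2 =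
      ENNReal.ofReal (uFn c h).star.vol := by
    rw [← (upd_inj (x := x) P).tsum_eq (f := fun Q => ‖(heckeKer (uFn c h)).act (pt P) Q‖ₑ ^ 2)]
    · rw [← star_vol_ennreal (uFn c h) (P.c x)]
      refine tsum_congr fun a => ?_
      rw [act_upd, finsum_eq_single _ (P.c x)]
      · have e : upd P (P.c x) = P := upd_eq fun v _ => rfl
        rw [e]
        unfold pt
        rw [if_pos rfl, mul_one]
      · intro b hb
        have : upd P b ≠ P := by
          intro hP
          apply hb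
          have := upd_x P b
          rw [hP] at this
          exact this.symm
        unfold pt
        rw [if_neg this, mul_zero]
    · intro Q hQ
      have h2 : (heckeKer (uFn c h)).act (pt P) Q ≠ 0 := by
        intro h0
        apply hQ
        show ‖(heckeKer (uFn c h)).act (pt P) Q‖ₑ ^ 2 = 0
        rw [h0]
        simp
      obtain ⟨Q', h3, h4⟩ := act_ne h2
      have h5 : Q' = P := by
        by_contra hne
        apply h4
        unfold pt
        rw [if_neg hne]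
      rw [h5] at h3
      exact ⟨Q.c x, upd_eq fun v hv => ((entry_ne h3).1 v hv).symm⟩
  have h2 : (heckeKer (uFn c h)).act (pt P) = c • uPt (⟨x, h⟩ : Hecke X Γ) P := act_uFn c h (pt P)
  rw [h2] at h1
  have h3 := smul_sq c _ _ (uPt_sq (⟨x, h⟩ : Hecke X Γ) P)
  rw [h1] at h3
  have h4 := HeckeFn.vol_nonneg h
  exact (ENNReal.ofReal_le_ofReal_iff (by positivity)).1 h3

lemma uFn_local (c : ℂ) (h : HeckeFn X Γ x) (hv : h.vol ≤ (h.norm : ℝ) ^ 2) :
    LocalNormLe (uFn c h) (2 * ‖c‖₊ * h.norm ^ 2) := by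
  classical
  intro f S
  have h1 := hconv_local h.norm_le (star_local h.norm_le) f S
  set a := fun a : Γ ⧸ X.K Γ x =>
    ∑ b ∈ f.support, (hconv h h.star).h (a.out⁻¹ * b.out) * f b with ha
  have e1 : ∀ a' : Γ ⧸ X.K Γ x, ∑ b ∈ f.support, (uFn c h).h (a'.out⁻¹ * b.out) * f b =
      c * (a a' - h.vol * f a') := by
    intro a'
    rw [ha, mul_sub, Finset.mul_sum]
    have e2 : (h.vol : ℂ) * f a' = ∑ b ∈ f.support, (if a' = b then (h.vol : ℂ) else 0) * f b := by
      by_cases h0 : a' ∈ f.support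
      · rw [Finset.sum_eq_single a']
        · rw [if_pos rfl]
        · intro b _ hb
          rw [if_neg (Ne.symm hb), zero_mul]
        · intro hn
          exact absurd h0 hn
      · rw [Finsupp.notMem_support_iff.1 h0, mul_zero]
        symm
        refine Finset.sum_eq_zero fun b hb => ?_
        rw [if_neg, zero_mul]
        intro hab
        exact h0 (hab ▸ hb)
    rw [e2, Finset.mul_sum, ← Finset.sum_sub_distrib]
    refine Finset.sum_congr rfl fun b _ => ?_
    rw [uFn_cos]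
    ring
  simp only [e1]
  set s := ∑ b ∈ f.support, ‖f b‖ ^ 2 with hs
  have hs0 : 0 ≤ s := Finset.sum_nonneg fun _ _ => by positivity
  have hvn := HeckeFn.vol_nonneg h
  have h2 : ∑ a' ∈ S, ‖f a'‖ ^ 2 ≤ s := by
    calc ∑ a' ∈ S, ‖f a'‖ ^ 2 = ∑ a' ∈ S ∩ f.support, ‖f a'‖ ^ 2 := by
          symm
          apply Finset.sum_subset Finset.inter_subset_left
          intro a' ha' hn
          have : f a' = 0 := by
            by_contra h0
            exact hn (Finset.mem_inter.2 ⟨ha', Finsupp.mem_support_iff.2 h0⟩)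
          rw [this, norm_zero, zero_pow two_ne_zero]
      _ ≤ s := Finset.sum_le_sum_of_subset_of_nonneg Finset.inter_subset_right
          fun _ _ _ => by positivity
  have h3 : ∀ a' : Γ ⧸ X.K Γ x, ‖c * (a a' - h.vol * f a')‖ ^ 2 ≤
      ‖c‖ ^ 2 * (2 * ‖a a'‖ ^ 2 + 2 * (h.vol ^ 2 * ‖f a'‖ ^ 2)) := by
    intro a'
    rw [norm_mul, mul_pow]
    gcongr
    have h4 : ‖a a' - h.vol * f a'‖ ≤ ‖a a'‖ + h.vol * ‖f a'‖ := by
      refine (norm_sub_le _ _).trans (le_of_eq ?_)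
      rw [norm_mul, Complex.norm_real, Real.norm_of_nonneg hvn]
    calc ‖a a' - h.vol * f a'‖ ^ 2 ≤ (‖a a'‖ + h.vol * ‖f a'‖) ^ 2 := by gcongr
      _ ≤ 2 * ‖a a'‖ ^ 2 + 2 * (h.vol ^ 2 * ‖f a'‖ ^ 2) := by
        nlinarith [sq_nonneg (‖a a'‖ - h.vol * ‖f a'‖)]
  have hn0 : (0 : ℝ) ≤ h.norm := h.norm.2
  have h5 : h.vol ^ 2 ≤ ((h.norm : ℝ) ^ 2) ^ 2 := by gcongr
  have h1' : ∑ a' ∈ S, ‖a a'‖ ^ 2 ≤ ((h.norm : ℝ) ^ 2) ^ 2 * s := by
    refine h1.trans (le_of_eq ?_)
    rw [NNReal.coe_mul]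
    ring
  calc ∑ a' ∈ S, ‖c * (a a' - h.vol * f a')‖ ^ 2
      ≤ ∑ a' ∈ S, ‖c‖ ^ 2 * (2 * ‖a a'‖ ^ 2 + 2 * (h.vol ^ 2 * ‖f a'‖ ^ 2)) :=
        Finset.sum_le_sum fun a' _ => h3 a'
    _ = ‖c‖ ^ 2 * (2 * ∑ a' ∈ S, ‖a a'‖ ^ 2 + 2 * (h.vol ^ 2 * ∑ a' ∈ S, ‖f a'‖ ^ 2)) := by
        rw [← Finset.mul_sum, Finset.sum_add_distrib, ← Finset.mul_sum, ← Finset.mul_sum,
          ← Finset.mul_sum]
    _ ≤ ‖c‖ ^ 2 * (2 * (((h.norm : ℝ) ^ 2) ^ 2 * s) +
          2 * (((h.norm : ℝ) ^ 2) ^ 2 * s)) := by gcongr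
    _ = _ := by
        push_cast
        ring

/-- The Hecke function c h. -/
noncomputable def smulFn (c : ℂ) (h : HeckeFn X Γ x) : HeckeFn X Γ x where
  h g := c * h.h g
  biinv k hk k' hk' g := by rw [h.biinv k hk k' hk' g]
  finL := by
    refine (h.finL).subset ?_
    intro a ha h0
    apply ha
    rw [h0, mul_zero]
  finR := by
    refine (h.finR).subset ?_
    intro a ha h0
    apply ha
    rw [h0, mul_zero]

lemma act_smulFn (c : ℂ) (h : HeckeFn X Γ x) (v : Bundle X Γ → ℂ) :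
    (heckeKer (smulFn c h)).act v = c • (heckeKer h).act v := by
  funext P
  rw [Pi.smul_apply, smul_eq_mul]
  show ∑ᶠ Q, entry (smulFn c h) P Q * v Q = c * ∑ᶠ Q, entry h P Q * v Q
  have e : ∀ Q, entry (smulFn c h) P Q * v Q = c * (entry h P Q * v Q) := by
    intro Q
    unfold entry
    split_ifs
    · show c * h.h _ * v Q = _
      ring
    · rw [zero_mul, mul_zero]
  simp only [e]
  exact (mul_finsum _ _).symm

lemma smulFn_local (c : ℂ) {h : HeckeFn X Γ x} {ρ : ℝ≥0} (H : LocalNormLe h ρ) :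
    LocalNormLe (smulFn c h) (‖c‖₊ * ρ) := by
  intro f S
  have e : ∀ a : Γ ⧸ X.K Γ x, ∑ b ∈ f.support, (smulFn c h).h (a.out⁻¹ * b.out) * f b =
      c * ∑ b ∈ f.support, h.h (a.out⁻¹ * b.out) * f b := by
    intro a
    rw [Finset.mul_sum]
    refine Finset.sum_congr rfl fun b _ => ?_
    show c * h.h _ * f b = _
    ring
  simp only [e, norm_mul, mul_pow]
  rw [← Finset.mul_sum, NNReal.coe_mul, coe_nnnorm, mul_pow, mul_assoc]
  exact mul_le_mul_of_nonneg_left (H f S) (by positivity)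

lemma norm_le_of {h : HeckeFn X Γ x} {ρ : ℝ≥0} (H : LocalNormLe h ρ) : h.norm ≤ ρ :=
  csInf_le (OrderBot.bddBelow _) H

lemma fn_act (K : Ker Γ (Bundle X Γ)) (f : Bun Γ (Bundle X Γ) → ℂ) (P : Bundle X Γ) :
    K.fn f (cls Γ (Bundle X Γ) P) = K.act (fun Q => f (cls Γ (Bundle X Γ) Q)) P :=
  K.fn_cls f P

lemma uFn_fnOp (c : ℂ) (h : HeckeFn X Γ x) (w : Bun Γ (Bundle X Γ) → ℂ) :
    (⟨x, uFn c h⟩ : Hecke X Γ).fnOp w = c • ((⟨x, h⟩ : Hecke X Γ).fnOp
      ((⟨x, h⟩ : Hecke X Γ).star.fnOp w) + (-(h.vol : ℂ)) • w) := by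
  funext b
  rw [← cls_out b]
  show (heckeKer (uFn c h)).fn w (cls Γ (Bundle X Γ) b.out) = _
  rw [fn_act, act_uFn]
  show c * ((heckeKer h).act ((heckeKer h.star).act fun Q => w (cls Γ (Bundle X Γ) Q)) b.out +
    -(h.vol : ℂ) * w (cls Γ (Bundle X Γ) b.out)) =
    c * ((heckeKer h).fn ((heckeKer h.star).fn w) (cls Γ (Bundle X Γ) b.out) +
      -(h.vol : ℂ) * w (cls Γ (Bundle X Γ) b.out))
  rw [fn_act]
  congr 3
  funext Q
  rw [fn_act]

lemma smulFn_fnOp (c : ℂ) (h : HeckeFn X Γ x) (w : Bun Γ (Bundle X Γ) → ℂ) :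
    (⟨x, smulFn c h⟩ : Hecke X Γ).fnOp w = c • (⟨x, h⟩ : Hecke X Γ).fnOp w := by
  funext b
  rw [← cls_out b]
  show (heckeKer (smulFn c h)).fn w (cls Γ (Bundle X Γ) b.out) =
    c * (heckeKer h).fn w (cls Γ (Bundle X Γ) b.out)
  rw [fn_act, act_smulFn, fn_act]
  rfl

end Pool.Agent.Helper80.AT
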